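import Pool.Agent.Work.MP_71a505_fin.Z1F0
import Pool.Agent.Work.MP_71a505_fin.Z1F1
import Pool.Agent.Work.MP_71a505_fin.Z1F2
import Pool.Agent.Work.MP_71a505_fin.Z1F3
import Pool.Agent.Work.MP_71a505_fin.Z1F4
import Pool.Agent.Work.MP_71a505_fin.Z1F5
import Pool.Agent.Work.MP_71a505_fin.Z1F6
import Pool.Agent.Work.MP_71a505_fin.Z1F7
import Pool.Agent.Work.MP_71a505_fin.Z1F8
import Pool.Agent.Work.MP_71a505_fin.Z1F9
import Pool.Agent.Work.MP_71a505_fin.Z1F10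
import Pool.Agent.Work.MP_71a505_fin.Z1F11
import Pool.Agent.Work.MP_71a505_fin.Z1F12
import Pool.Agent.Work.MP_71a505_fin.Z1F13
import Pool.Agent.Work.MP_71a505_fin.Z1F14
import Pool.Agent.Work.MP_71a505_fin.Z1H
import Pool.Agent.Work.MP_71a505_fin.Z1T

open Pool.Agent.Work.MP_71a505_core Pool.Agent.Work.MP_71a505_up
set_option maxRecDepth 100000
set_option linter.all false

namespace Pool.Agent.Work.MP_71a505_fin.Z1

theorem gok_all {v χ ψ ξ η ζ : ℝ} (hv : 0 < v) (hχ : 0 < χ) (hψ : 0 < ψ) {E : Env}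
    (ha : E.a = mon v χ ψ 1 1 (-3)) (hd : E.d = mon v χ ψ 1 (-1) 3) (hg : E.g = mon v χ ψ (-1) 1 3)
    (hξ : ξ = 24 * Real.logb 2 χ⁻¹) (hη : η = 24 * Real.logb 2 ψ⁻¹) (hζ : ζ = 24 * Real.logb 2 v⁻¹)
    (hb : InBox bx (v ^ 2 / 24) (χ ^ 2 / 1296) (ψ ^ 2 / 144))
    (hV : List.Forall₂ (ClOK TT (v ^ 2) (χ ^ 2) (ψ ^ 2) v χ ψ) (cis.map E.cv) cls) (hE : EI E) :
    ∀ g ∈ gs, GOK g ξ η ζ := by
  intro g hgm
  simp only [gs, List.mem_append] at hgm
  rcases hgm with h | h | h | h | h | h | h | h | h | h | h | h | h | h | h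
  · exact gok0 hv hχ hψ ha hd hg hξ hη hζ hb hV hE g h
  · exact gok1 hv hχ hψ ha hd hg hξ hη hζ hb hV hE g h
  · exact gok2 hv hχ hψ ha hd hg hξ hη hζ hb hV hE g h
  · exact gok3 hv hχ hψ ha hd hg hξ hη hζ hb hV hE g h
  · exact gok4 hv hχ hψ ha hd hg hξ hη hζ hb hV hE g h
  · exact gok5 hv hχ hψ ha hd hg hξ hη hζ hb hV hE g h
  · exact gok6 hv hχ hψ ha hd hg hξ hη hζ hb hV hE g h
  · exact gok7 hv hχ hψ ha hd hg hξ hη hζ hb hV hE g h
  · exact gok8 hv hχ hψ ha hd hg hξ hη hζ hb hV hE g h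
  · exact gok9 hv hχ hψ ha hd hg hξ hη hζ hb hV hE g h
  · exact gok10 hv hχ hψ ha hd hg hξ hη hζ hb hV hE g h
  · exact gok11 hv hχ hψ ha hd hg hξ hη hζ hb hV hE g h
  · exact gok12 hv hχ hψ ha hd hg hξ hη hζ hb hV hE g h
  · exact gok13 hv hχ hψ ha hd hg hξ hη hζ hb hV hE g h
  · exact gok14 hv hχ hψ ha hd hg hξ hη hζ hb hV hE g h

theorem no_full {a b c r s t : ℤ} {W e h α β γ δ d g x y z xb yb xc : ℝ}
    (F : Full a b c r s t W e h α β γ δ d g x y z xb yb xc) : False := by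
  obtain ⟨u, X, Y, v, χ, ψ, ω, sX, sY, sZ, B, C, E, wh, H, al, be, ga, de, Kh, hc, V, hX, hY, hu,
    u0, X0, Y0⟩ := chart F.R F.Q
  obtain ⟨had, hag, hdg, -, -, -⟩ := F.prods
  set P : Pt := ⟨u, X, Y, v, χ, ψ, ω, sX, sY, sZ, B, C, E, wh, H, al, be, ga, de, Kh, hc⟩ with hP
  set En : Env := ⟨a, d, g, x, y, z, W, e, α, β, γ, δ⟩ with hEn
  have hEI : EI En := ⟨F.I.ia, F.X.id', F.Q.ig, F.X.ix, F.Q.iy, F.Q.iz, dv_of F.g1 F.g2 F.g3 F.R F.I⟩
  have ha0 : (0 : ℝ) < a := by have := F.Q.a1; linarith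
  have hd0 : 0 < d := by have := F.Q.d1; linarith
  have hg0 : 0 < g := by have := F.Q.g1; linarith
  have hadp : 0 < a * d := by positivity
  have hagp : 0 < a * g := by positivity
  have hdgp : 0 < d * g := by positivity
  have hXe : X = 1 / (a * d) := by rw [eq_div_iff hadp.ne']; exact hX
  have hYe : Y = 1 / (a * g) := by rw [eq_div_iff hagp.ne']; exact hY
  have hX1 : X ≤ 1 / 10 ^ 6 := by rw [hXe]; exact one_div_le_one_div_of_le (by norm_num) had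
  have hY1 : Y ≤ 1 / 10 ^ 6 := by rw [hYe]; exact one_div_le_one_div_of_le (by norm_num) hag
  have hu3 : u ^ 3 = 1 / (d * g) := by rw [eq_div_iff hdgp.ne']; exact hu
  have hu1 : u ≤ 1 / 100 := by
    have h1 : u ^ 3 ≤ (1 / 100) ^ 3 := by
      rw [hu3]
      refine (one_div_le_one_div_of_le (by norm_num) hdg).trans ?_
      norm_num
    exact le_of_pow_le_pow_left₀ (by norm_num) (by norm_num) h1
  have hIn : InBox bx (P.u / 24) (P.X / 1296) (P.Y / 144) := by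
    refine ⟨by norm_num [bx], by norm_num [bx], by norm_num [bx], ?_, ?_, ?_, ?_, ?_, ?_⟩
    · show 0 ≤ u / 24; positivity
    · show 0 ≤ X / 1296; positivity
    · show 0 ≤ Y / 144; positivity
    · show u / 24 ≤ 1 / ((2400 : ℕ) : ℝ); push_cast; linarith
    · show X / 1296 ≤ 1 / ((1296000000 : ℕ) : ℝ); push_cast; linarith
    · show Y / 144 ≤ 1 / ((144000000 : ℕ) : ℝ); push_cast; linarith
  have hb : InBox bx (v ^ 2 / 24) (χ ^ 2 / 1296) (ψ ^ 2 / 144) := by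
    have e1 : v ^ 2 = P.u := hc.uv
    have e2 : χ ^ 2 = P.X := hc.Xχ
    have e3 : ψ ^ 2 = P.Y := hc.Yψ
    rw [e1, e2, e3]; exact hIn
  have hv := hc.v0
  have hχ := hc.χ0
  have hψ := hc.ψ0
  have hω := hc.ω0
  set ξ := 24 * Real.logb 2 χ⁻¹ with hξ
  set η := 24 * Real.logb 2 ψ⁻¹ with hη
  set ζ := 24 * Real.logb 2 v⁻¹ with hζ
  have eξ : ξ = 12 * Real.logb 2 (a * d) := by
    have h1 : (a * d : ℝ) = (χ⁻¹) ^ 2 := by
      rw [inv_pow, hc.Xχ, hXe, one_div, inv_inv]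
    rw [hξ, h1, Real.logb_pow]; push_cast; ring
  have eη : η = 12 * Real.logb 2 (a * g) := by
    have h1 : (a * g : ℝ) = (ψ⁻¹) ^ 2 := by
      rw [inv_pow, hc.Yψ, hYe, one_div, inv_inv]
    rw [hη, h1, Real.logb_pow]; push_cast; ring
  have eζ : ζ = 4 * Real.logb 2 (d * g) := by
    have h1 : (d * g : ℝ) = (v⁻¹) ^ 6 := by
      have h2 : v ^ 6 = u ^ 3 := by rw [← hc.uv]; ring
      rw [inv_pow, h2, hu3, one_div, inv_inv]
    rw [hζ, h1, Real.logb_pow]; push_cast; ring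
  have p1 : 0 ≤ ξ := by
    rw [eξ]; exact mul_nonneg (by norm_num) (Real.logb_nonneg (by norm_num) (by linarith))
  have p2 : 0 ≤ η := by
    rw [eη]; exact mul_nonneg (by norm_num) (Real.logb_nonneg (by norm_num) (by linarith))
  have p3 : 0 ≤ ζ := by
    rw [eζ]; exact mul_nonneg (by norm_num) (Real.logb_nonneg (by norm_num) (by linarith))
  exact chkPT_spec
    (gok_all hv hχ hψ (E := En) V.va V.vd V.vg hξ hη hζ hb (cls_ok P V hIn) hEI)
    (gokH hv hχ hψ hω hc.ωω (E := En) V.va V.vd V.vg hξ hη hζ hb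
      (hcls_ok P V F.R.hα F.R.hβ F.R.hγ F.R.hδ hIn) hEI)
    (dok_all F eξ eη eζ) tree root4 tree_ok (root_kn p1 p2 p3)

end Pool.Agent.Work.MP_71a505_fin.Z1
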