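import Mathlib
import Pool.Agent.Work.MP_71a505_up.Defs

namespace Pool.Agent.Work.MP_71a505_fin

open Pool.Agent.Work.MP_71a505_up

theorem odd_sq8 {r : ℤ} (h : ¬ (2 : ℤ) ∣ r) : (8 : ℤ) ∣ r ^ 2 - 1 := by
  have : Odd r := by
    rw [← Int.not_even_iff_odd, even_iff_two_dvd]; exact h
  exact Int.eight_dvd_sq_sub_one_of_odd this

theorem even_of_sq_sub {M U : ℤ} (h : (2 : ℤ) ∣ M * (M + 2 * U)) : (2 : ℤ) ∣ M := by
  rcases Int.prime_two.dvd_or_dvd h with h1 | h1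
  · exact h1
  · exact (dvd_add_left (Dvd.intro _ rfl)).1 h1

/-- divisibility of `U`, `M`, `W` by 4 -/
theorem div_four {U M W r s t : ℤ} (hr : ¬ (2 : ℤ) ∣ r) (hs : ¬ (2 : ℤ) ∣ s) (ht : ¬ (2 : ℤ) ∣ t)
    (hMW : M * W = U ^ 2) (h1 : s ^ 2 - r ^ 2 = M * (M + 2 * U))
    (h2 : t ^ 2 - r ^ 2 = W * (W + 2 * U)) :
    (4 : ℤ) ∣ U ∧ (4 : ℤ) ∣ M ∧ (4 : ℤ) ∣ W := by
  have a1 : (8 : ℤ) ∣ M * (M + 2 * U) := by
    rw [← h1]
    have := dvd_sub (odd_sq8 hs) (odd_sq8 hr)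
    have e : s ^ 2 - 1 - (r ^ 2 - 1) = s ^ 2 - r ^ 2 := by ring
    rwa [e] at this
  have a2 : (8 : ℤ) ∣ W * (W + 2 * U) := by
    rw [← h2]
    have := dvd_sub (odd_sq8 ht) (odd_sq8 hr)
    have e : t ^ 2 - 1 - (r ^ 2 - 1) = t ^ 2 - r ^ 2 := by ring
    rwa [e] at this
  have d2 : (2 : ℤ) ∣ 8 := by norm_num
  obtain ⟨M1, rfl⟩ := even_of_sq_sub (d2.trans a1)
  obtain ⟨W1, rfl⟩ := even_of_sq_sub (d2.trans a2)
  have hU : (2 : ℤ) ∣ U := by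
    apply Int.prime_two.dvd_of_dvd_pow (n := 2)
    rw [← hMW]
    exact ⟨M1 * (2 * W1), by ring⟩
  obtain ⟨U1, rfl⟩ := hU
  have a3 : (2 : ℤ) ∣ M1 * (M1 + 2 * U1) := by
    obtain ⟨k, hk⟩ := a1
    exact ⟨k, by linarith [show 2 * M1 * (2 * M1 + 2 * (2 * U1)) = 4 * (M1 * (M1 + 2 * U1)) by ring]⟩
  have a4 : (2 : ℤ) ∣ W1 * (W1 + 2 * U1) := by
    obtain ⟨k, hk⟩ := a2
    exact ⟨k, by linarith [show 2 * W1 * (2 * W1 + 2 * (2 * U1)) = 4 * (W1 * (W1 + 2 * U1)) by ring]⟩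
  obtain ⟨M2, rfl⟩ := even_of_sq_sub a3
  obtain ⟨W2, rfl⟩ := even_of_sq_sub a4
  have hU1 : (2 : ℤ) ∣ U1 := by
    apply Int.prime_two.dvd_of_dvd_pow (n := 2)
    refine ⟨2 * (M2 * W2), ?_⟩
    have : 4 * (U1 ^ 2) = 4 * (2 * (2 * (M2 * W2))) := by linarith [hMW, show 2 * (2 * M2) * (2 * (2 * W2)) = 16 * (M2 * W2) by ring, show (2 * U1) ^ 2 = 4 * U1 ^ 2 by ring]
    exact mul_left_cancel₀ (by norm_num) this
  obtain ⟨U2, rfl⟩ := hU1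
  exact ⟨⟨U2, by ring⟩, ⟨M2, by ring⟩, ⟨W2, by ring⟩⟩

theorem z8 : ∀ A : ZMod 8, A * (A ^ 2 + 3) = 0 → A = 0 := by decide

/-- `8 ∣ A` -/
theorem eight_A {U M W A r : ℤ} (hr : ¬ (2 : ℤ) ∣ r) (hU : (4 : ℤ) ∣ U) (hM : (4 : ℤ) ∣ M)
    (hW : (4 : ℤ) ∣ W)
    (hD : r ^ 2 * (2 * W + 2 * M - 4 * U - 3 * A) = A * (A + 3 * U) ^ 2) : (8 : ℤ) ∣ A := by
  obtain ⟨U1, rfl⟩ := hU
  obtain ⟨M1, rfl⟩ := hM
  obtain ⟨W1, rfl⟩ := hW
  obtain ⟨k, hk⟩ := odd_sq8 hr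
  have hk' : r ^ 2 = 8 * k + 1 := by linarith
  have h8 : (8 : ℤ) ∣ A * (A ^ 2 + 3) := by
    refine ⟨(8 * k + 1) * (W1 + M1 - 2 * U1) - 3 * k * A - 3 * A ^ 2 * U1 - 18 * A * U1 ^ 2, ?_⟩
    rw [hk'] at hD
    linear_combination (-1 : ℤ) * hD
  apply (ZMod.intCast_zmod_eq_zero_iff_dvd A 8).1
  apply z8
  have := (ZMod.intCast_zmod_eq_zero_iff_dvd _ 8).2 h8
  push_cast at this
  exact this

theorem not_two_sq {r : ℤ} (hr : ¬ (2 : ℤ) ∣ r) : IsCoprime ((2 : ℤ) ^ 9) (r ^ 2) := by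
  have : IsCoprime (2 : ℤ) r := by
    rw [Int.prime_two.coprime_iff_not_dvd]; exact hr
  exact this.pow

/-- `512 ∣ D` -/
theorem five_twelve {U M W A r s D : ℤ} (hr : ¬ (2 : ℤ) ∣ r) (hs : ¬ (2 : ℤ) ∣ s)
    (hU : (4 : ℤ) ∣ U) (hM : (4 : ℤ) ∣ M) (hW : (4 : ℤ) ∣ W) (hA : (8 : ℤ) ∣ A)
    (hMW : M * W = U ^ 2)
    (hD : r ^ 2 * D = A * (A + 3 * U) ^ 2)
    (hD2 : s ^ 2 * D = (A + 2 * M + 4 * U) * (A + U - M) ^ 2) : (512 : ℤ) ∣ D := by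
  obtain ⟨U1, rfl⟩ := hU
  obtain ⟨M1, rfl⟩ := hM
  obtain ⟨W1, rfl⟩ := hW
  obtain ⟨A1, rfl⟩ := hA
  have hMW1 : M1 * W1 = U1 ^ 2 := by linarith [show 4 * M1 * (4 * W1) = 16 * (M1 * W1) by ring, show (4 * U1) ^ 2 = 16 * U1 ^ 2 by ring]
  have e512 : (512 : ℤ) = 2 ^ 9 := by norm_num
  rcases Int.even_or_odd U1 with ⟨k, hk⟩ | ⟨k, hk⟩
  · have h1 : (512 : ℤ) ∣ r ^ 2 * D := by
      rw [hD]
      exact ⟨A1 * (A1 + 3 * k) ^ 2, by rw [hk]; ring⟩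
    rw [e512] at h1 ⊢
    exact (not_two_sq hr).dvd_of_dvd_mul_left h1
  · have hM1 : Odd M1 := by
      have : Odd (M1 * W1) := by rw [hMW1]; exact (show Odd U1 from ⟨k, hk⟩).pow
      exact (Int.odd_mul.1 this).1
    obtain ⟨j, hj⟩ := hM1
    have h1 : (512 : ℤ) ∣ s ^ 2 * D := by
      rw [hD2]
      exact ⟨(A1 + M1 + 2 * U1) * (A1 + k - j) ^ 2, by rw [hk, hj]; ring⟩
    rw [e512] at h1 ⊢
    exact (not_two_sq hs).dvd_of_dvd_mul_left h1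

theorem z3a : ∀ r : ZMod 3, r ≠ 0 → r ^ 2 = 1 := by decide

theorem z3 : ∀ U M W A : ZMod 3, M * W = U ^ 2 → 0 = M * (M + 2 * U) → 0 = W * (W + 2 * U) →
    2 * W + 2 * M - 4 * U - 3 * A = A * (A + 3 * U) ^ 2 → A = 0 ∧ M = U ∧ W = U := by
  decide

theorem three_all {U M W A r s t : ℤ} (hr : ¬ (3 : ℤ) ∣ r) (hs : ¬ (3 : ℤ) ∣ s)
    (ht : ¬ (3 : ℤ) ∣ t)
    (hMW : M * W = U ^ 2) (h1 : s ^ 2 - r ^ 2 = M * (M + 2 * U))
    (h2 : t ^ 2 - r ^ 2 = W * (W + 2 * U))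
    (hD : r ^ 2 * (2 * W + 2 * M - 4 * U - 3 * A) = A * (A + 3 * U) ^ 2) :
    (3 : ℤ) ∣ A ∧ (3 : ℤ) ∣ M - U ∧ (3 : ℤ) ∣ W - U := by
  have nz : ∀ {y : ℤ}, ¬ (3 : ℤ) ∣ y → (y : ZMod 3) ≠ 0 := fun hy h =>
    hy ((ZMod.intCast_zmod_eq_zero_iff_dvd _ 3).1 h)
  have c1 := congrArg (Int.cast : ℤ → ZMod 3) hMW
  have c2 := congrArg (Int.cast : ℤ → ZMod 3) h1
  have c3 := congrArg (Int.cast : ℤ → ZMod 3) h2
  have c4 := congrArg (Int.cast : ℤ → ZMod 3) hD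
  push_cast at c1 c2 c3 c4
  rw [z3a _ (nz hr), z3a _ (nz hs), sub_self] at c2
  rw [z3a _ (nz hr), z3a _ (nz ht), sub_self] at c3
  rw [z3a _ (nz hr), one_mul] at c4
  obtain ⟨e1, e2, e3⟩ := z3 U M W A c1 c2 c3 c4
  refine ⟨(ZMod.intCast_zmod_eq_zero_iff_dvd _ 3).1 e1, ?_, ?_⟩
  · apply (ZMod.intCast_zmod_eq_zero_iff_dvd _ 3).1
    push_cast; rw [e2, sub_self]
  · apply (ZMod.intCast_zmod_eq_zero_iff_dvd _ 3).1
    push_cast; rw [e3, sub_self]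

/-- The integral divisibilities. -/
theorem div_int {U M W A B C D r s t : ℤ} (r2 : ¬ (2 : ℤ) ∣ r) (s2 : ¬ (2 : ℤ) ∣ s)
    (t2 : ¬ (2 : ℤ) ∣ t) (r3 : ¬ (3 : ℤ) ∣ r) (s3 : ¬ (3 : ℤ) ∣ s) (t3 : ¬ (3 : ℤ) ∣ t)
    (hMW : M * W = U ^ 2) (h1 : s ^ 2 - r ^ 2 = M * (M + 2 * U))
    (h2 : t ^ 2 - r ^ 2 = W * (W + 2 * U))
    (hB : B = A + 2 * M + 4 * U) (hC : C = A + 2 * W + 4 * U)
    (hD : D = 2 * W + 2 * M - 4 * U - 3 * A)
    (hrD : r ^ 2 * D = A * (A + 3 * U) ^ 2) (hsD : s ^ 2 * D = B * (A + U - M) ^ 2) :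
    (4 : ℤ) ∣ U ∧ (4 : ℤ) ∣ M ∧ (4 : ℤ) ∣ W ∧ (24 : ℤ) ∣ A ∧ (24 : ℤ) ∣ B ∧ (24 : ℤ) ∣ C ∧
      (13824 : ℤ) ∣ D ∧ (3 : ℤ) ∣ M - U ∧ (3 : ℤ) ∣ W - U := by
  obtain ⟨hU4, hM4, hW4⟩ := div_four r2 s2 t2 hMW h1 h2
  rw [hD] at hrD
  have hA8 := eight_A r2 hU4 hM4 hW4 hrD
  obtain ⟨hA3, hM3, hW3⟩ := three_all r3 s3 t3 hMW h1 h2 hrD
  rw [← hD] at hrD
  rw [hB] at hsD
  have h512 := five_twelve r2 s2 hU4 hM4 hW4 hA8 hMW hrD hsD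
  have h27 : (27 : ℤ) ∣ D := by
    obtain ⟨k, hk⟩ := hA3
    have h5 : (27 : ℤ) ∣ r ^ 2 * D := by
      rw [hrD, hk]
      exact ⟨k * (k + U) ^ 2, by ring⟩
    have h6 : IsCoprime (27 : ℤ) (r ^ 2) := by
      have : IsCoprime (3 : ℤ) r := by
        rw [Int.prime_three.coprime_iff_not_dvd]; exact r3
      have := this.pow (m := 3) (n := 2)
      norm_num at this
      exact this
    exact h6.dvd_of_dvd_mul_left h5
  have c38 : IsCoprime (3 : ℤ) 8 := ⟨3, -1, by norm_num⟩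
  have g24 : ∀ {y : ℤ}, (3 : ℤ) ∣ y → (8 : ℤ) ∣ y → (24 : ℤ) ∣ y := fun h3 h8 => by
    have := c38.mul_dvd h3 h8
    norm_num at this
    exact this
  refine ⟨hU4, hM4, hW4, g24 hA3 hA8, ?_, ?_, ?_, hM3, hW3⟩
  · apply g24
    · rw [hB]
      have e : A + 2 * M + 4 * U = A + 2 * (M - U) + 3 * (2 * U) := by ring
      rw [e]
      exact dvd_add (dvd_add hA3 (Dvd.dvd.mul_left hM3 _)) (Dvd.intro _ rfl)
    · rw [hB]
      obtain ⟨u, rfl⟩ := hU4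
      obtain ⟨m, rfl⟩ := hM4
      obtain ⟨k, rfl⟩ := hA8
      exact ⟨k + m + 2 * u, by ring⟩
  · apply g24
    · rw [hC]
      have e : A + 2 * W + 4 * U = A + 2 * (W - U) + 3 * (2 * U) := by ring
      rw [e]
      exact dvd_add (dvd_add hA3 (Dvd.dvd.mul_left hW3 _)) (Dvd.intro _ rfl)
    · rw [hC]
      obtain ⟨u, rfl⟩ := hU4
      obtain ⟨m, rfl⟩ := hW4
      obtain ⟨k, rfl⟩ := hA8
      exact ⟨k + m + 2 * u, by ring⟩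
  · have c : IsCoprime (512 : ℤ) 27 := by norm_num
    have := c.mul_dvd h512 h27
    norm_num at this
    exact this

/-- The strengthened integrality statements. -/
structure DV (W e α β γ δ : ℝ) : Prop where
  iU : IsI (e * W / 4)
  iM : IsI (e ^ 2 * W / 4)
  iW : IsI (W / 4)
  iMU : IsI ((e ^ 2 * W - e * W) / 12)
  iWU : IsI ((W - e * W) / 12)
  iA : IsI (α ^ 2 / 24)
  iB : IsI (β ^ 2 / 24)
  iC : IsI (γ ^ 2 / 24)
  iD : IsI (δ ^ 2 / 13824)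
  iAB : IsI (α * β / 24)
  iAC : IsI (α * γ / 24)
  iBC : IsI (β * γ / 24)
  iAD : IsI (α * δ / 576)
  iBD : IsI (β * δ / 576)
  iCD : IsI (γ * δ / 576)
  iK : IsI (α * β * γ / δ / 2)

theorem isI_div {x : ℝ} {n k : ℤ} (hx : (n : ℝ) = x) (hk : k ≠ 0) (h : k ∣ n) : IsI (x / k) := by
  obtain ⟨m, hm⟩ := h
  refine ⟨m, ?_⟩
  have hk' : (k : ℝ) ≠ 0 := by exact_mod_cast hk
  rw [eq_div_iff hk', ← hx, hm]
  push_cast; ring

theorem dvd_of_sq {k n A B u v : ℤ} (hn : n ^ 2 = A * B) (hA : u ∣ A) (hB : v ∣ B)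
    (hk : u * v = k ^ 2) : k ∣ n := by
  have h : k ^ 2 ∣ n ^ 2 := by rw [hn, ← hk]; exact mul_dvd_mul hA hB
  exact (Int.pow_dvd_pow_iff two_ne_zero).1 h

theorem not_dvd_of_dvd {p y z : ℤ} (hp : Prime p) (hy : p ∣ y) (hz : y + 1 = z ^ 2) : ¬ p ∣ z := by
  intro h
  have h1 : p ∣ z ^ 2 := dvd_pow h two_ne_zero
  rw [← hz] at h1
  have h2 := (dvd_add_right hy).1 h1
  exact hp.not_isUnit (isUnit_of_dvd_one h2)

theorem dv_of {a b c r s t : ℤ} {W e h α β γ δ : ℝ} (g1 : (24 : ℤ) ∣ a * b)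
    (g2 : (24 : ℤ) ∣ a * c) (g3 : (24 : ℤ) ∣ b * c) (R : RD a b c r s t W e h α β γ δ)
    (I : II a b c r s t W e α β γ δ) : DV W e α β γ δ := by
  obtain ⟨nW, hW⟩ := I.iW
  obtain ⟨nU, hU⟩ := I.iU
  obtain ⟨nM, hM⟩ := I.iM
  obtain ⟨nA, hA⟩ := I.iA
  obtain ⟨nB, hB⟩ := I.iB
  obtain ⟨nC, hC⟩ := I.iC
  obtain ⟨nD, hD⟩ := I.iD
  obtain ⟨nAB, hAB⟩ := I.iAB
  obtain ⟨nAC, hAC⟩ := I.iAC
  obtain ⟨nBC, hBC⟩ := I.iBC
  obtain ⟨nAD, hAD⟩ := I.iAD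
  obtain ⟨nBD, hBD⟩ := I.iBD
  obtain ⟨nCD, hCD⟩ := I.iCD
  obtain ⟨nK, hK⟩ := I.iK
  have e1 : a * b + 1 = r ^ 2 := by exact_mod_cast R.r2
  have e2 : a * c + 1 = s ^ 2 := by exact_mod_cast R.s2
  have e3 : b * c + 1 = t ^ 2 := by exact_mod_cast R.t2
  have d2 : (2 : ℤ) ∣ 24 := by norm_num
  have d3 : (3 : ℤ) ∣ 24 := by norm_num
  have r2 := not_dvd_of_dvd Int.prime_two (d2.trans g1) e1
  have s2 := not_dvd_of_dvd Int.prime_two (d2.trans g2) e2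
  have t2 := not_dvd_of_dvd Int.prime_two (d2.trans g3) e3
  have r3 := not_dvd_of_dvd Int.prime_three (d3.trans g1) e1
  have s3 := not_dvd_of_dvd Int.prime_three (d3.trans g2) e2
  have t3 := not_dvd_of_dvd Int.prime_three (d3.trans g3) e3
  have hδ : δ ≠ 0 := R.hδ.ne'
  -- integer relations
  have q1 : nM * nW = nU ^ 2 := by
    have : (nM : ℝ) * nW = (nU : ℝ) ^ 2 := by rw [hM, hW, hU]; ring
    exact_mod_cast this
  have q2 : s ^ 2 - r ^ 2 = nM * (nM + 2 * nU) := by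
    have : (s : ℝ) ^ 2 - (r : ℝ) ^ 2 = nM * (nM + 2 * nU) := by
      rw [hM, hU, ← R.r2, ← R.s2]; linear_combination R.acb
    exact_mod_cast this
  have q3 : t ^ 2 - r ^ 2 = nW * (nW + 2 * nU) := by
    have : (t : ℝ) ^ 2 - (r : ℝ) ^ 2 = nW * (nW + 2 * nU) := by
      rw [hW, hU, ← R.r2, ← R.t2]; linear_combination R.bca
    exact_mod_cast this
  have q4 : nB = nA + 2 * nM + 4 * nU := by
    have : (nB : ℝ) = nA + 2 * nM + 4 * nU := by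
      rw [hB, hA, hM, hU, R.B2, R.A2]; ring
    exact_mod_cast this
  have q5 : nC = nA + 2 * nW + 4 * nU := by
    have : (nC : ℝ) = nA + 2 * nW + 4 * nU := by
      rw [hC, hA, hW, hU, R.C2, R.A2]; ring
    exact_mod_cast this
  have q6 : nD = 2 * nW + 2 * nM - 4 * nU - 3 * nA := by
    have : (nD : ℝ) = 2 * nW + 2 * nM - 4 * nU - 3 * nA := by
      rw [hD, hA, hW, hM, hU, R.D2, R.A2]; ring
    exact_mod_cast this
  have q7 : r ^ 2 * nD = nA * (nA + 3 * nU) ^ 2 := by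
    have : (r : ℝ) ^ 2 * nD = nA * (nA + 3 * nU) ^ 2 := by
      have e : (nA : ℝ) + 3 * nU = (h + 3) * e * W := by rw [hA, hU, R.A2]; ring
      rw [e, hD, hA, ← mul_pow, R.rα, mul_pow]
    exact_mod_cast this
  have q8 : s ^ 2 * nD = nB * (nA + nU - nM) ^ 2 := by
    have : (s : ℝ) ^ 2 * nD = nB * (nA + nU - nM) ^ 2 := by
      have e : (nA : ℝ) + nU - nM = (h + 1 - e) * e * W := by rw [hA, hU, hM, R.A2]; ring
      rw [e, hD, hB, ← mul_pow, R.sβ, mul_pow]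
    exact_mod_cast this
  obtain ⟨f1, f2, f3, f4, f5, f6, f7, f8, f9⟩ :=
    div_int r2 s2 t2 r3 s3 t3 q1 q2 q3 q4 q5 q6 q7 q8
  have p1 : nAB ^ 2 = nA * nB := by
    have : (nAB : ℝ) ^ 2 = nA * nB := by rw [hAB, hA, hB]; ring
    exact_mod_cast this
  have p2 : nAC ^ 2 = nA * nC := by
    have : (nAC : ℝ) ^ 2 = nA * nC := by rw [hAC, hA, hC]; ring
    exact_mod_cast this
  have p3 : nBC ^ 2 = nB * nC := by
    have : (nBC : ℝ) ^ 2 = nB * nC := by rw [hBC, hB, hC]; ring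
    exact_mod_cast this
  have p4 : nAD ^ 2 = nA * nD := by
    have : (nAD : ℝ) ^ 2 = nA * nD := by rw [hAD, hA, hD]; ring
    exact_mod_cast this
  have p5 : nBD ^ 2 = nB * nD := by
    have : (nBD : ℝ) ^ 2 = nB * nD := by rw [hBD, hB, hD]; ring
    exact_mod_cast this
  have p6 : nCD ^ 2 = nC * nD := by
    have : (nCD : ℝ) ^ 2 = nC * nD := by rw [hCD, hC, hD]; ring
    exact_mod_cast this
  have p7 : nK ^ 2 = 4 * r ^ 2 + nA * (nA + 4 * nU) := by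
    have h1 : nK ^ 2 * nD = nA * nB * nC := by
      have : (nK : ℝ) ^ 2 * nD = nA * nB * nC := by
        rw [hK, hA, hB, hC, hD]; field_simp
      exact_mod_cast this
    have h2 : (nK ^ 2 - (4 * r ^ 2 + nA * (nA + 4 * nU))) * nD = 0 := by
      have : (nK ^ 2 - (4 * r ^ 2 + nA * (nA + 4 * nU))) * nD
          = nK ^ 2 * nD - 4 * (r ^ 2 * nD) - nA * (nA + 4 * nU) * nD := by ring
      rw [this, h1, q7, q6, q5, q4]
      linear_combination (4 * nA) * q1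
    have h3 : nD ≠ 0 := by
      intro h0
      apply hδ
      have : δ ^ 2 = 0 := by rw [← hD, h0]; norm_num
      exact pow_eq_zero_iff two_ne_zero |>.1 this
    have h4 := (mul_eq_zero.1 h2).resolve_right h3
    linarith
  have p8 : (2 : ℤ) ∣ nK := by
    apply Int.prime_two.dvd_of_dvd_pow (n := 2)
    obtain ⟨k, hk⟩ := f4
    rw [p7, hk]
    exact ⟨2 * r ^ 2 + 12 * k * (24 * k + 4 * nU), by ring⟩
  have c43 : ∀ {y : ℤ}, (4 : ℤ) ∣ y → (3 : ℤ) ∣ y → (12 : ℤ) ∣ y := fun h4 h3 => by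
    have c : IsCoprime (4 : ℤ) 3 := by norm_num
    have := c.mul_dvd h4 h3
    norm_num at this
    exact this
  refine ⟨?_, ?_, ?_, ?_, ?_, ?_, ?_, ?_, ?_, ?_, ?_, ?_, ?_, ?_, ?_, ?_⟩
  · exact_mod_cast isI_div hU (k := 4) (by norm_num) f1
  · exact_mod_cast isI_div hM (k := 4) (by norm_num) f2
  · exact_mod_cast isI_div hW (k := 4) (by norm_num) f3
  · have e : ((nM - nU : ℤ) : ℝ) = e ^ 2 * W - e * W := by push_cast; rw [hM, hU]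
    exact_mod_cast isI_div e (k := 12) (by norm_num) (c43 (dvd_sub f2 f1) f8)
  · have e : ((nW - nU : ℤ) : ℝ) = W - e * W := by push_cast; rw [hW, hU]
    exact_mod_cast isI_div e (k := 12) (by norm_num) (c43 (dvd_sub f3 f1) f9)
  · exact_mod_cast isI_div hA (k := 24) (by norm_num) f4
  · exact_mod_cast isI_div hB (k := 24) (by norm_num) f5
  · exact_mod_cast isI_div hC (k := 24) (by norm_num) f6
  · exact_mod_cast isI_div hD (k := 13824) (by norm_num) f7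
  · exact_mod_cast isI_div hAB (k := 24) (by norm_num) (dvd_of_sq p1 f4 f5 (by norm_num))
  · exact_mod_cast isI_div hAC (k := 24) (by norm_num) (dvd_of_sq p2 f4 f6 (by norm_num))
  · exact_mod_cast isI_div hBC (k := 24) (by norm_num) (dvd_of_sq p3 f5 f6 (by norm_num))
  · exact_mod_cast isI_div hAD (k := 576) (by norm_num) (dvd_of_sq p4 f4 f7 (by norm_num))
  · exact_mod_cast isI_div hBD (k := 576) (by norm_num) (dvd_of_sq p5 f5 f7 (by norm_num))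
  · exact_mod_cast isI_div hCD (k := 576) (by norm_num) (dvd_of_sq p6 f6 f7 (by norm_num))
  · exact_mod_cast isI_div hK (k := 2) (by norm_num) p8

end Pool.Agent.Work.MP_71a505_fin
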