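import Mathlib

/-!
2-adic and 3-adic facts about the integers `a, d, g, x, y, z` of a doubly irregular triple
(`b` the larger regular extension of `{a, d, g}`, `c` the larger regular extension of
`{a, b, d}`), from the divisibility of `ab`, `ac`, `bc` alone.
-/

namespace Pool.Agent.Work.MP_71a505_fin

/-- The integral relations. -/
structure PQ (a b c d g r x y z xb : ℤ) : Prop where
  x2 : a * d + 1 = x ^ 2
  y2 : a * g + 1 = y ^ 2
  z2 : d * g + 1 = z ^ 2
  r2 : a * b + 1 = r ^ 2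
  xb2 : b * d + 1 = xb ^ 2
  eb : b = a + d + g + 2 * a * d * g + 2 * x * y * z
  er : r = a * z + x * y
  exb : xb = d * y + x * z
  ec : c = a + b + d + 2 * a * b * d + 2 * r * x * xb

/-- the other root -/
theorem PQ.eg {a b c d g r x y z xb : ℤ} (h : PQ a b c d g r x y z xb) :
    c = g + 4 * (r * x * xb) := by
  obtain ⟨x2, y2, z2, -, -, eb, er, exb, ec⟩ := h
  rw [ec, er, exb, eb]
  linear_combination (2 * x * y * z + 2 * a * (d * g + 1) + 2 * d * (a * g + 1)) * x2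
    + 2 * a * x ^ 2 * z2 + 2 * d * x ^ 2 * y2

/-- the parity check -/
def chk2 (a d g x y z : ZMod 2) : Bool :=
  !(a * d + 1 == x ^ 2 && a * g + 1 == y ^ 2 && d * g + 1 == z ^ 2 && a * (a + d + g) == 0 &&
    a * g == 0 && (a + d + g) * g == 0) ||
  (y == 1 && x == a + 1 && z == g + 1 && a * d == a && g * d == g && a * x == 0)

theorem chk2_all : ∀ a d g x y z : ZMod 2, chk2 a d g x y z = true := by decide

structure Par (a d g x y z : ZMod 2) : Prop where
  y1 : y = 1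
  xa : x = a + 1
  zg : z = g + 1
  ad : a * d = a
  gd : g * d = g
  ag : a * g = 0

theorem par_of {a b c d g r x y z xb : ℤ} (h : PQ a b c d g r x y z xb) (h1 : (2 : ℤ) ∣ a * b)
    (h2 : (2 : ℤ) ∣ a * c) (h3 : (2 : ℤ) ∣ b * c) : Par (a : ZMod 2) d g x y z := by
  have two : (2 : ZMod 2) = 0 := by decide
  have four : (4 : ZMod 2) = 0 := by decide
  have c1 := congrArg (Int.cast : ℤ → ZMod 2) h.x2
  have c2 := congrArg (Int.cast : ℤ → ZMod 2) h.y2
  have c3 := congrArg (Int.cast : ℤ → ZMod 2) h.z2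
  have c4 := congrArg (Int.cast : ℤ → ZMod 2) h.eb
  have c5 := congrArg (Int.cast : ℤ → ZMod 2) h.eg
  have e1 := (ZMod.intCast_zmod_eq_zero_iff_dvd _ 2).2 h1
  have e2 := (ZMod.intCast_zmod_eq_zero_iff_dvd _ 2).2 h2
  have e3 := (ZMod.intCast_zmod_eq_zero_iff_dvd _ 2).2 h3
  push_cast at c1 c2 c3 c4 c5 e1 e2 e3
  simp only [two, four, zero_mul, add_zero] at c4 c5
  rw [c4] at e1 e3
  rw [c5] at e2 e3
  have := chk2_all a d g x y z
  simp only [chk2, Bool.or_eq_true, Bool.not_eq_true', Bool.and_eq_true, beq_iff_eq,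
    Bool.and_eq_false_imp] at this
  rcases this with h6 | h6
  · have h7 := h6 ⟨⟨⟨⟨c1, c2⟩, c3⟩, e1⟩, e2⟩
    rw [e3] at h7
    simp at h7
  · obtain ⟨⟨⟨⟨⟨f1, f2⟩, f3⟩, f4⟩, f5⟩, f6⟩ := h6
    exact ⟨f1, f2, f3, f4, f5, e2⟩

theorem dvd2 {n : ℤ} (h : (n : ZMod 2) = 0) : (2 : ℤ) ∣ n :=
  (ZMod.intCast_zmod_eq_zero_iff_dvd _ 2).1 h

theorem cast2 {n : ℤ} (h : (2 : ℤ) ∣ n) : (n : ZMod 2) = 0 :=
  (ZMod.intCast_zmod_eq_zero_iff_dvd _ 2).2 h

theorem z2facts : ∀ a d g : ZMod 2, a * d = a → g * d = g → a * g = 0 →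
    a * (a + 1) = 0 ∧ a * (g + 1 - 1) = 0 ∧ 1 * (g + 1) - 1 - g * (a + 1) = 0 ∧
    g * 1 - (a + 1) * 1 - (a + 1) * (g + 1) = 0 ∧ d ^ 2 - a ^ 2 - d * (a + 1) = 0 ∧
    d * (g + 1) - (a + 1) * 1 - d * 1 - (a + 1) * (g + 1) = 0 ∧ g * (d - (a + 1)) = 0 ∧
    g * (g + 1) = 0 := by decide

theorem zero_or_one : ∀ a : ZMod 2, a = 0 ∨ a = 1 := by decide

/-- the facts modulo 2 -/
theorem gens_two {a d g x y z : ℤ} (h : Par (a : ZMod 2) d g x y z) :
    (2 : ℤ) ∣ a * x ∧ (2 : ℤ) ∣ a * (z - y) ∧ (2 : ℤ) ∣ y * z - 1 - g * x ∧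
    (2 : ℤ) ∣ g * y - x * y - x * z ∧ (2 : ℤ) ∣ d ^ 2 - a ^ 2 - d * x ∧
    (2 : ℤ) ∣ d * z - x * y - d * y - x * z ∧ (2 : ℤ) ∣ g * (d - x) ∧ (2 : ℤ) ∣ g * z := by
  obtain ⟨hy, hx, hz, ad, gd, ag⟩ := h
  obtain ⟨f1, f2, f3, f4, f5, f6, f7, f8⟩ := z2facts a d g ad gd ag
  refine ⟨dvd2 ?_, dvd2 ?_, dvd2 ?_, dvd2 ?_, dvd2 ?_, dvd2 ?_, dvd2 ?_, dvd2 ?_⟩ <;>
    push_cast
  · rw [hx]; exact f1
  · rw [hy, hz]; exact f2
  · rw [hy, hz, hx]; exact f3
  · rw [hy, hz, hx]; exact f4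
  · rw [hx]; exact f5
  · rw [hx, hy, hz]; exact f6
  · rw [hx]; exact f7
  · rw [hz]; exact f8

theorem odd_of_cast {n : ℤ} (h : (n : ZMod 2) = 1) : ¬ (2 : ℤ) ∣ n := by
  intro h2
  rw [cast2 h2] at h
  exact absurd h (by decide)

theorem even_add_one {n : ℤ} (h : ¬ (2 : ℤ) ∣ n) : (2 : ℤ) ∣ n + 1 := by omega

/-- `8 ∣ a (a + d - 2 x)` -/
theorem gen_eight {a d x : ℤ} (x2 : a * d + 1 = x ^ 2) (hx : (x : ZMod 2) = a + 1) :
    (8 : ℤ) ∣ a * (a + d - 2 * x) := by
  have h1 : ¬ (2 : ℤ) ∣ x - a := by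
    apply odd_of_cast
    push_cast
    rw [hx]; ring
  have h2 : Odd (x - a) := by
    rw [← Int.not_even_iff_odd, even_iff_two_dvd]; exact h1
  have h3 := Int.eight_dvd_sq_sub_one_of_odd h2
  have e : a * (a + d - 2 * x) = (x - a) ^ 2 - 1 := by linear_combination x2
  rw [e]; exact h3

/-- `16 ∣ a (g - 4 x)` -/
theorem gen_sixteen {a b c d g r x y z xb : ℤ} (h : PQ a b c d g r x y z xb)
    (P : Par (a : ZMod 2) d g x y z) (h1 : (16 : ℤ) ∣ a * b) (h2 : (16 : ℤ) ∣ a * c) :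
    (16 : ℤ) ∣ a * (g - 4 * x) := by
  have hr : (r : ZMod 2) = 1 := by
    have e := congrArg (Int.cast : ℤ → ZMod 2) h.r2
    have e1 := cast2 ((by norm_num : (2 : ℤ) ∣ 16).trans h1)
    push_cast at e e1
    rw [e1, zero_add] at e
    rcases zero_or_one r with h0 | h0
    · rw [h0] at e; exact absurd e (by decide)
    · exact h0
  have two : (2 : ZMod 2) = 0 := by decide
  have hb : (b : ZMod 2) = a + d + g := by
    have e := congrArg (Int.cast : ℤ → ZMod 2) h.eb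
    push_cast at e
    simp only [two, zero_mul, add_zero] at e
    exact e
  have hxb : (xb : ZMod 2) = d + a + g + 1 := by
    have e := congrArg (Int.cast : ℤ → ZMod 2) h.exb
    push_cast at e
    rw [P.y1, P.xa, P.zg] at e
    rw [e]
    have : ((a : ZMod 2) + 1) * (g + 1) = a * g + a + g + 1 := by ring
    rw [this, P.ag]; ring
  have key : (4 : ℤ) ∣ a * (x * (r * xb + 1)) := by
    rcases zero_or_one (a : ZMod 2) with ha | ha
    · have a2 : (2 : ℤ) ∣ a := dvd2 ha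
      rcases zero_or_one (xb : ZMod 2) with h0 | h0
      · -- b odd
        have hb1 : (b : ZMod 2) = 1 := by
          rw [hxb, ha] at h0
          rw [hb, ha]
          have e : (d : ZMod 2) + 0 + g + 1 = 0 := h0
          have e2 : ((0 : ZMod 2) + d + g) = (d + 0 + g + 1) - 1 := by ring
          rw [e2, e]; decide
        have b1 := odd_of_cast hb1
        have c16 : IsCoprime ((2 : ℤ) ^ 4) b := by
          have : IsCoprime (2 : ℤ) b := by
            rw [Int.prime_two.coprime_iff_not_dvd]; exact b1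
          exact this.pow_left
        have : (2 : ℤ) ^ 4 ∣ a := by
          apply c16.dvd_of_dvd_mul_right
          exact (by norm_num : (16 : ℤ) = 2 ^ 4) ▸ h1
        obtain ⟨k, hk⟩ := this
        exact ⟨4 * k * (x * (r * xb + 1)), by rw [hk]; ring⟩
      · have e1 : (2 : ℤ) ∣ r * xb + 1 := by
          apply dvd2
          push_cast
          rw [hr, h0]; decide
        obtain ⟨k, hk⟩ := a2
        obtain ⟨l, hl⟩ := e1
        exact ⟨k * x * l, by rw [hl, hk]; ring⟩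
    · have hx0 : (2 : ℤ) ∣ x := by
        apply dvd2
        rw [P.xa, ha]; decide
      have hd : (d : ZMod 2) = 1 := by
        have := P.ad
        rw [ha, one_mul] at this
        exact this
      have hg : (g : ZMod 2) = 0 := by
        have := P.ag
        rw [ha, one_mul] at this
        exact this
      have e1 : (2 : ℤ) ∣ r * xb + 1 := by
        apply dvd2
        push_cast
        rw [hr, hxb, hd, ha, hg]; decide
      obtain ⟨k, hk⟩ := hx0
      obtain ⟨l, hl⟩ := e1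
      exact ⟨a * k * l, by rw [hl, hk]; ring⟩
  obtain ⟨k, hk⟩ := key
  have e : a * (g - 4 * x) = a * c - 16 * k := by
    rw [h.eg]
    linear_combination (-4 : ℤ) * hk
  rw [e]
  exact dvd_sub h2 (Dvd.intro _ rfl)

/-- `4 ∣ g (g + 2 x - d)` -/
theorem gen_four {a d g x y z : ℤ} (z2 : d * g + 1 = z ^ 2) (P : Par (a : ZMod 2) d g x y z) :
    (4 : ℤ) ∣ g * (g + 2 * x - d) := by
  rcases zero_or_one (g : ZMod 2) with hg | hg
  · have g2 : (2 : ℤ) ∣ g := dvd2 hg
    rcases zero_or_one (d : ZMod 2) with hd | hd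
    · obtain ⟨k, hk⟩ := g2
      obtain ⟨l, hl⟩ := dvd2 hd
      exact ⟨k * (k + x - l), by rw [hk, hl]; ring⟩
    · have d1 := odd_of_cast hd
      have z1 : Odd z := by
        rw [← Int.not_even_iff_odd, even_iff_two_dvd]
        apply odd_of_cast
        rw [P.zg, hg]; decide
      have h8 := Int.eight_dvd_sq_sub_one_of_odd z1
      have e : d * g = z ^ 2 - 1 := by linarith
      have c8 : IsCoprime ((2 : ℤ) ^ 3) d := by
        have : IsCoprime (2 : ℤ) d := by
          rw [Int.prime_two.coprime_iff_not_dvd]; exact d1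
        exact this.pow_left
      have h9 : (2 : ℤ) ^ 3 ∣ d * g := by
        rw [e]; exact (by norm_num : (8 : ℤ) = 2 ^ 3) ▸ h8
      obtain ⟨k, hk⟩ := c8.dvd_of_dvd_mul_left h9
      exact ⟨2 * k * (g + 2 * x - d), by rw [hk]; ring⟩
  · have hd : (d : ZMod 2) = 1 := by
      have := P.gd
      rw [hg, one_mul] at this
      exact this
    have ha : (a : ZMod 2) = 0 := by
      have := P.ag
      rw [hg, mul_one] at this
      exact this
    have zz : (2 : ℤ) ∣ z := by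
      apply dvd2
      rw [P.zg, hg]; decide
    obtain ⟨k, hk⟩ := zz
    have g1 : Odd g := by
      rw [← Int.not_even_iff_odd, even_iff_two_dvd]; exact odd_of_cast hg
    obtain ⟨m, hm⟩ := Int.eight_dvd_sq_sub_one_of_odd g1
    have xd : (2 : ℤ) ∣ x - d := by
      apply dvd2
      push_cast
      rw [P.xa, ha, hd]; decide
    obtain ⟨l, hl⟩ := xd
    have e2 : d + g = 4 * (g * k ^ 2 - 2 * m * d) := by
      rw [hk] at z2
      linear_combination g * z2 - d * hm
    have e : g + 2 * x - d = 4 * (g * k ^ 2 - 2 * m * d + l) := by linarith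
    rw [e]
    exact ⟨g * (g * k ^ 2 - 2 * m * d + l), by ring⟩

end Pool.Agent.Work.MP_71a505_fin
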