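import Mathlib
import Pool.Agent.Work.MP_71a505_fin.Pure

namespace Pool.Agent.Work.MP_71a505_fin

def bb3 (a d g x y z : ZMod 3) : ZMod 3 := a + d + g + 2 * a * d * g + 2 * x * y * z
def rr3 (a x y z : ZMod 3) : ZMod 3 := a * z + x * y
def xb3 (d x y z : ZMod 3) : ZMod 3 := d * y + x * z
def cc3 (a d b r x xb : ZMod 3) : ZMod 3 := a + b + d + 2 * a * b * d + 2 * r * x * xb

def chk3 (a d g x y z : ZMod 3) : Bool :=
  !(a * d + 1 == x ^ 2 && a * g + 1 == y ^ 2 && d * g + 1 == z ^ 2 &&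
    a * (bb3 a d g x y z) == 0 &&
    a * (cc3 a d (bb3 a d g x y z) (rr3 a x y z) x (xb3 d x y z)) == 0 &&
    (bb3 a d g x y z) * (cc3 a d (bb3 a d g x y z) (rr3 a x y z) x (xb3 d x y z)) == 0) ||
  (a * (a + d + g) == 0 && g ^ 2 + d ^ 2 + d * g - 1 == 0 && a * x * y == 0 &&
    a * d * x == 0 && a * y * (a + d) == 0 && a * d * (a + d) == 0 && d * g * z == 0 &&
    (rr3 a x y z) * ((rr3 a x y z) * x + a * (xb3 d x y z)) *
      ((rr3 a x y z) * (xb3 d x y z) + (bb3 a d g x y z) * x) == g - d &&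
    a * g * y == 0 && a * x * (a + g) == 0 && a * g * (a + g) == 0 &&
    d * g * (d + g) == 0)

theorem chk3_all : ∀ a d g x y z : ZMod 3, chk3 a d g x y z = true := by decide +kernel

structure Mod3 (a d g x y z r s t : ZMod 3) : Prop where
  f1 : a * (a + d + g) = 0
  f2 : g ^ 2 + d ^ 2 + d * g - 1 = 0
  f3 : a * x * y = 0
  f4 : a * d * x = 0
  f5 : a * y * (a + d) = 0
  f6 : a * d * (a + d) = 0
  f7 : d * g * z = 0
  f8 : r * s * t = g - d
  f9 : a * g * y = 0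
  f10 : a * x * (a + g) = 0
  f11 : a * g * (a + g) = 0
  f12 : d * g * (d + g) = 0

theorem mod3_of {a b c d g r x y z xb s t : ℤ} (h : PQ a b c d g r x y z xb)
    (es : s = r * x + a * xb) (et : t = r * xb + b * x) (h1 : (3 : ℤ) ∣ a * b)
    (h2 : (3 : ℤ) ∣ a * c) (h3 : (3 : ℤ) ∣ b * c) :
    Mod3 (a : ZMod 3) d g x y z r s t := by
  have c1 := congrArg (Int.cast : ℤ → ZMod 3) h.x2
  have c2 := congrArg (Int.cast : ℤ → ZMod 3) h.y2
  have c3 := congrArg (Int.cast : ℤ → ZMod 3) h.z2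
  have c4 := congrArg (Int.cast : ℤ → ZMod 3) h.eb
  have c5 := congrArg (Int.cast : ℤ → ZMod 3) h.ec
  have c6 := congrArg (Int.cast : ℤ → ZMod 3) h.er
  have c7 := congrArg (Int.cast : ℤ → ZMod 3) h.exb
  have c8 := congrArg (Int.cast : ℤ → ZMod 3) es
  have c9 := congrArg (Int.cast : ℤ → ZMod 3) et
  have e1 := (ZMod.intCast_zmod_eq_zero_iff_dvd _ 3).2 h1
  have e2 := (ZMod.intCast_zmod_eq_zero_iff_dvd _ 3).2 h2
  have e3 := (ZMod.intCast_zmod_eq_zero_iff_dvd _ 3).2 h3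
  push_cast at c1 c2 c3 c4 c5 c6 c7 c8 c9 e1 e2 e3
  have b' : (b : ZMod 3) = bb3 a d g x y z := c4
  have r' : (r : ZMod 3) = rr3 a x y z := c6
  have x' : (xb : ZMod 3) = xb3 d x y z := c7
  have c' : (c : ZMod 3) = cc3 a d b r x xb := c5
  rw [b', r', x'] at c'
  rw [c'] at e2 e3
  rw [b'] at e1 e3
  have := chk3_all a d g x y z
  simp only [chk3, Bool.or_eq_true, Bool.not_eq_true', Bool.and_eq_true, beq_iff_eq,
    Bool.and_eq_false_imp] at this
  rcases this with h6 | h6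
  · have h7 := h6 ⟨⟨⟨⟨c1, c2⟩, c3⟩, e1⟩, e2⟩
    rw [e3] at h7
    simp at h7
  · obtain ⟨⟨⟨⟨⟨⟨⟨⟨⟨⟨⟨f1, f2⟩, f3⟩, f4⟩, f5⟩, f6⟩, f7⟩, f8⟩, f9⟩, f10⟩, f11⟩, f12⟩ := h6
    refine ⟨f1, f2, f3, f4, f5, f6, f7, ?_, f9, f10, f11, f12⟩
    rw [c8, c9, r', x', b']
    exact f8

theorem dvd3 {n : ℤ} (h : (n : ZMod 3) = 0) : (3 : ℤ) ∣ n :=
  (ZMod.intCast_zmod_eq_zero_iff_dvd _ 3).1 h

theorem cast3 {n : ℤ} (h : (3 : ℤ) ∣ n) : (n : ZMod 3) = 0 :=
  (ZMod.intCast_zmod_eq_zero_iff_dvd _ 3).2 h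

theorem z3K : ∀ K Z : ZMod 3, 8 * Z = K * (K ^ 2 + 3 * 0) → K = - Z := by decide

/-- `3 ∣ K - d + g` -/
theorem gen_K3 {a d g x y z r s t K A U : ℤ} (h : Mod3 (a : ZMod 3) d g x y z r s t)
    (k2 : 8 * (r * s * t) = K * (K ^ 2 + 3 * (A + 2 * U) ^ 2)) : (3 : ℤ) ∣ K - d + g := by
  apply dvd3
  have e := congrArg (Int.cast : ℤ → ZMod 3) k2
  push_cast at e
  have three : (3 : ZMod 3) = 0 := by decide
  have e1 : (K : ZMod 3) = - ((r : ZMod 3) * s * t) := by
    apply z3K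
    rw [e, three]; ring
  push_cast
  rw [e1, h.f8]; ring

theorem nz3 : ∀ a x y : ZMod 3, a ≠ 0 → a * x * y = 0 → x = 0 ∨ y = 0 := by decide

/-- `9 ∣ a (a² + d² + g² + ad + ag + dg - 1)` -/
theorem gen_nine {a d g x y z r s t : ℤ} (h : Mod3 (a : ZMod 3) d g x y z r s t)
    (x2 : a * d + 1 = x ^ 2) (y2 : a * g + 1 = y ^ 2) :
    (9 : ℤ) ∣ a * (a ^ 2 + d ^ 2 + g ^ 2 + a * d + a * g + d * g - 1) := by
  by_cases ha : (a : ZMod 3) = 0
  · obtain ⟨k, hk⟩ := dvd3 ha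
    have h2 : (3 : ℤ) ∣ a ^ 2 + d ^ 2 + g ^ 2 + a * d + a * g + d * g - 1 := by
      apply dvd3
      push_cast
      have := h.f2
      rw [ha]
      linear_combination this
    obtain ⟨l, hl⟩ := h2
    exact ⟨k * l, by rw [hl, hk]; ring⟩
  · rcases nz3 _ _ _ ha h.f3 with h0 | h0
    · -- x = 0
      obtain ⟨k, hk⟩ := dvd3 h0
      have had : (3 : ℤ) ∣ a + d := by
        have h5 := h.f6
        have e := congrArg (Int.cast : ℤ → ZMod 3) x2
        push_cast at e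
        rw [h0] at e
        have : ∀ a d : ZMod 3, a * d + 1 = 0 ^ 2 → a + d = 0 := by decide
        apply dvd3
        push_cast
        exact this _ _ e
      have hg : (3 : ℤ) ∣ g := by
        have h5 := h.f1
        have : ∀ a d g : ZMod 3, a ≠ 0 → a * (a + d + g) = 0 → a + d = 0 → g = 0 := by decide
        apply dvd3
        refine this _ _ _ ha h5 ?_
        have := cast3 had
        push_cast at this
        exact this
      obtain ⟨l, hl⟩ := had
      obtain ⟨m, hm⟩ := hg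
      refine ⟨a * (l ^ 2 - k ^ 2 + m * l + m ^ 2), ?_⟩
      have hd : d = 3 * l - a := by linarith
      rw [hk] at x2
      rw [hm]
      rw [hd] at x2 ⊢
      linear_combination (-a) * x2
    · obtain ⟨k, hk⟩ := dvd3 h0
      have had : (3 : ℤ) ∣ a + g := by
        have e := congrArg (Int.cast : ℤ → ZMod 3) y2
        push_cast at e
        rw [h0] at e
        have : ∀ a d : ZMod 3, a * d + 1 = 0 ^ 2 → a + d = 0 := by decide
        apply dvd3
        push_cast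
        exact this _ _ e
      have hg : (3 : ℤ) ∣ d := by
        have h5 := h.f1
        have : ∀ a d g : ZMod 3, a ≠ 0 → a * (a + d + g) = 0 → a + g = 0 → d = 0 := by decide
        apply dvd3
        refine this _ _ _ ha h5 ?_
        have := cast3 had
        push_cast at this
        exact this
      obtain ⟨l, hl⟩ := had
      obtain ⟨m, hm⟩ := hg
      refine ⟨a * (l ^ 2 - k ^ 2 + m * l + m ^ 2), ?_⟩
      have hd : g = 3 * l - a := by linarith
      rw [hk] at y2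
      rw [hm]
      rw [hd] at y2 ⊢
      linear_combination (-a) * y2

end Pool.Agent.Work.MP_71a505_fin
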