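import Mathlib
import Pool.Agent.Work.MP_71a505_fin.Pure

namespace Pool.Agent.Work.MP_71a505_fin

/-- `16 ∣ ab, ac, bc`. -/
theorem sixteen_all {a b c r s t M W U : ℤ} (r2 : a * b + 1 = r ^ 2) (s2 : a * c + 1 = s ^ 2)
    (t2 : b * c + 1 = t ^ 2) (hr : ¬ (2 : ℤ) ∣ r) (hs : ¬ (2 : ℤ) ∣ s) (ht : ¬ (2 : ℤ) ∣ t)
    (hM : (4 : ℤ) ∣ M) (hW : (4 : ℤ) ∣ W) (hU : (4 : ℤ) ∣ U)
    (h1 : a * (c - b) = M * (M + 2 * U)) (h2 : b * (c - a) = W * (W + 2 * U)) :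
    (16 : ℤ) ∣ a * b ∧ (16 : ℤ) ∣ a * c ∧ (16 : ℤ) ∣ b * c := by
  obtain ⟨M1, rfl⟩ := hM
  obtain ⟨W1, rfl⟩ := hW
  obtain ⟨U1, rfl⟩ := hU
  have e8 : ∀ {y z : ℤ}, ¬ (2 : ℤ) ∣ z → y + 1 = z ^ 2 → (8 : ℤ) ∣ y := by
    intro y z hz he
    have h3 : Odd z := by
      rw [← Int.not_even_iff_odd, even_iff_two_dvd]; exact hz
    have := Int.eight_dvd_sq_sub_one_of_odd h3
    have e : z ^ 2 - 1 = y := by linarith
    rwa [e] at this
  have a1 := e8 hr r2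
  have a2 := e8 hs s2
  have a3 := e8 ht t2
  have d1 : (16 : ℤ) ∣ a * c - a * b := ⟨M1 * (M1 + 2 * U1), by linear_combination h1⟩
  have d2 : (16 : ℤ) ∣ b * c - a * b := ⟨W1 * (W1 + 2 * U1), by linear_combination h2⟩
  -- it suffices to treat `ab`
  have key : (16 : ℤ) ∣ a * b := by
    obtain ⟨k, hk⟩ := a1
    rcases Int.even_or_odd k with ⟨j, hj⟩ | ⟨j, hj⟩
    · exact ⟨j, by rw [hk, hj]; ring⟩
    · exfalso
      obtain ⟨p1, hp1⟩ := d1
      obtain ⟨p2, hp2⟩ := d2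
      -- ab = 8 (2j+1), ac = 8 (2j + 1 + 2 p1), bc = 8 (2 j + 1 + 2 p2)
      have q1 : a * b = 8 * (2 * j + 1) := by rw [hk, hj]
      have q2 : a * c = 8 * (2 * (j + p1) + 1) := by linarith
      have q3 : b * c = 8 * (2 * (j + p2) + 1) := by linarith
      have q : (a * b * c) ^ 2
          = 512 * ((2 * j + 1) * (2 * (j + p1) + 1) * (2 * (j + p2) + 1)) := by
        calc (a * b * c) ^ 2 = (a * b) * (a * c) * (b * c) := by ring
          _ = 512 * ((2 * j + 1) * (2 * (j + p1) + 1) * (2 * (j + p2) + 1)) := by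
            rw [q1, q2, q3]; ring
      have h16 : (16 : ℤ) ∣ a * b * c := by
        have : (16 : ℤ) ^ 2 ∣ (a * b * c) ^ 2 := by
          rw [q]
          exact ⟨2 * ((2 * j + 1) * (2 * (j + p1) + 1) * (2 * (j + p2) + 1)), by ring⟩
        exact (Int.pow_dvd_pow_iff two_ne_zero).1 this
      obtain ⟨m, hm⟩ := h16
      rw [hm] at q
      have q' : m ^ 2 = 2 * ((2 * j + 1) * (2 * (j + p1) + 1) * (2 * (j + p2) + 1)) := by
        have : 256 * (m ^ 2) = 256 * (2 * ((2 * j + 1) * (2 * (j + p1) + 1)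
            * (2 * (j + p2) + 1))) := by linarith [show (16 * m) ^ 2 = 256 * m ^ 2 by ring]
        exact mul_left_cancel₀ (by norm_num) this
      have m2 : (2 : ℤ) ∣ m := by
        apply Int.prime_two.dvd_of_dvd_pow (n := 2)
        rw [q']; exact Dvd.intro _ rfl
      obtain ⟨n, rfl⟩ := m2
      have q'' : (2 * j + 1) * (2 * (j + p1) + 1) * (2 * (j + p2) + 1) = 2 * n ^ 2 := by
        have : 2 * ((2 * j + 1) * (2 * (j + p1) + 1) * (2 * (j + p2) + 1)) = 2 * (2 * n ^ 2) := by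
          rw [← q']; ring
        exact mul_left_cancel₀ (by norm_num) this
      have o : Odd ((2 * j + 1) * (2 * (j + p1) + 1) * (2 * (j + p2) + 1)) :=
        ((odd_two_mul_add_one j).mul (odd_two_mul_add_one _)).mul (odd_two_mul_add_one _)
      rw [q''] at o
      exact (Int.not_odd_iff_even.2 (even_two_mul _)) o
  refine ⟨key, ?_, ?_⟩
  · have e : a * c = (a * c - a * b) + a * b := by ring
    rw [e]; exact dvd_add d1 key
  · have e : b * c = (b * c - a * b) + a * b := by ring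
    rw [e]; exact dvd_add d2 key

/-- `32 ∣ K - 3a - 3b - d + g` -/
theorem gen_K {a b c d g r x y z xb s t K A U : ℤ} (h : PQ a b c d g r x y z xb)
    (es : s = r * x + a * xb) (et : t = r * xb + b * x)
    (h1 : (16 : ℤ) ∣ a * b) (hr : ¬ (2 : ℤ) ∣ r) (hA : (8 : ℤ) ∣ A) (hU : (4 : ℤ) ∣ U)
    (hK : (2 : ℤ) ∣ K)
    (k1 : K ^ 2 = 4 * r ^ 2 + A * (A + 4 * U))
    (k2 : 8 * (r * s * t) = K * (K ^ 2 + 3 * (A + 2 * U) ^ 2)) :
    (32 : ℤ) ∣ K - 3 * a - 3 * b - d + g := by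
  obtain ⟨A1, rfl⟩ := hA
  obtain ⟨U1, rfl⟩ := hU
  obtain ⟨K1, rfl⟩ := hK
  have k1' : K1 ^ 2 = r ^ 2 + 16 * (A1 * (A1 + 2 * U1)) := by
    have : 4 * K1 ^ 2 = 4 * (r ^ 2 + 16 * (A1 * (A1 + 2 * U1))) := by linarith [k1, show (2 * K1) ^ 2 = 4 * K1 ^ 2 by ring, show 8 * A1 * (8 * A1 + 4 * (4 * U1)) = 64 * (A1 * (A1 + 2 * U1)) by ring]
    exact mul_left_cancel₀ (by norm_num) this
  have k2' : r * s * t = K1 * (K1 ^ 2 + 48 * (A1 + U1) ^ 2) := by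
    have : 8 * (r * s * t) = 8 * (K1 * (K1 ^ 2 + 48 * (A1 + U1) ^ 2)) := by
      rw [k2]; ring
    exact mul_left_cancel₀ (by norm_num) this
  have c16 : IsCoprime ((16 : ℤ)) r := by
    have : IsCoprime (2 : ℤ) r := by
      rw [Int.prime_two.coprime_iff_not_dvd]; exact hr
    have := this.pow_left (m := 4)
    norm_num at this
    exact this
  have s1 : (16 : ℤ) ∣ r * (K1 * r - s * t) := by
    refine ⟨-(K1 * (A1 * (A1 + 2 * U1) + 3 * (A1 + U1) ^ 2)), ?_⟩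
    linear_combination (-1 : ℤ) * k2' + (-K1) * k1'
  have s2 := c16.dvd_of_dvd_mul_left s1
  obtain ⟨p, hp⟩ := h1
  have s3 : (16 : ℤ) ∣ r * (K1 - r * x * xb - b * x ^ 2 - a * xb ^ 2) := by
    have e : r * (K1 - r * x * xb - b * x ^ 2 - a * xb ^ 2)
        = (K1 * r - s * t) + 16 * (p * x * xb) := by
      rw [es, et]; linear_combination (x * xb) * hp
    rw [e]; exact dvd_add s2 (Dvd.intro _ rfl)
  obtain ⟨q, hq⟩ := c16.dvd_of_dvd_mul_left s3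
  have hg := h.eg
  have ec := h.ec
  refine ⟨q + p * d * 3, ?_⟩
  -- K = 2 K1
  have e2 : 2 * (r * x * xb) = a + b + d + 2 * a * b * d - g := by linarith
  linear_combination (2 : ℤ) * hq + e2 - 2 * b * h.x2 - 2 * a * h.xb2 + (6 * d) * hp

/-- `32 ∣ a (K + d - a) - 4 M` -/
theorem gen_M {a b c d g r x y z xb K M U : ℤ} (h : PQ a b c d g r x y z xb)
    (h1 : (16 : ℤ) ∣ a * b) (hM : (4 : ℤ) ∣ M) (hU : (4 : ℤ) ∣ U)
    (k : (32 : ℤ) ∣ K - 3 * a - 3 * b - d + g)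
    (hac : a * (c - b) = M * (M + 2 * U)) :
    (32 : ℤ) ∣ a * (K + d - a) - 4 * M := by
  obtain ⟨M1, rfl⟩ := hM
  obtain ⟨U1, rfl⟩ := hU
  obtain ⟨p, hp⟩ := h1
  obtain ⟨q, hq⟩ := k
  obtain ⟨w, hw⟩ : (2 : ℤ) ∣ M1 * (M1 - 1) := by
    rcases Int.even_or_odd M1 with ⟨j, hj⟩ | ⟨j, hj⟩
    · exact ⟨j * (M1 - 1), by rw [hj]; ring⟩
    · exact ⟨M1 * j, by rw [hj]; ring⟩
  have hg := h.eg
  have ec := h.ec
  refine ⟨a * q + w + M1 * U1 + p * (1 - 2 * a * d), ?_⟩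
  have e2 : g + c = 2 * (a + b + d + 2 * a * b * d) := by linarith
  linear_combination a * hq + 16 * hw + hac - a * e2 + (2 - 4 * a * d) * hp

end Pool.Agent.Work.MP_71a505_fin
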