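import Mathlib
import Pool.Agent.Work.MP_71a505_fin.Div
import Pool.Agent.Work.MP_71a505_fin.PureK
import Pool.Agent.Work.MP_71a505_fin.Pure3

namespace Pool.Agent.Work.MP_71a505_fin

open Pool.Agent.Work.MP_71a505_up

/-- `q (q - 1) / 2` is an integer -/
theorem isI_choose {q : ℝ} (h : IsI q) : IsI (q * (q - 1) / 2) := by
  obtain ⟨n, rfl⟩ := h
  obtain ⟨w, hw⟩ : (2 : ℤ) ∣ n * (n - 1) := by
    rcases Int.even_or_odd n with ⟨j, hj⟩ | ⟨j, hj⟩
    · exact ⟨j * (n - 1), by rw [hj]; ring⟩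
    · exact ⟨n * j, by rw [hj]; ring⟩
  refine ⟨w, ?_⟩
  have : (n : ℝ) * (n - 1) = 2 * w := by exact_mod_cast hw
  rw [this]; ring

/-- `(q³ - q) / 6` is an integer -/
theorem isI_cube {q : ℝ} (h : IsI q) : IsI ((q ^ 3 - q) / 6) := by
  obtain ⟨n, rfl⟩ := h
  have h2 : (2 : ℤ) ∣ n ^ 3 - n := by
    rcases Int.even_or_odd n with ⟨j, hj⟩ | ⟨j, hj⟩
    · exact ⟨j * (n ^ 2 - 1), by
        have e : n ^ 3 - n = n * (n ^ 2 - 1) := by ring
        rw [e]; nth_rewrite 1 [hj]; ring⟩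
    · exact ⟨n * (j * (n + 1)), by
        have e : n ^ 3 - n = n * (n - 1) * (n + 1) := by ring
        have e2 : n - 1 = 2 * j := by linarith
        rw [e, e2]; ring⟩
  have h3 : (3 : ℤ) ∣ n ^ 3 - n := by
    apply (ZMod.intCast_zmod_eq_zero_iff_dvd _ 3).1
    push_cast
    have : ∀ q : ZMod 3, q ^ 3 - q = 0 := by decide
    exact this _
  have c : IsCoprime (2 : ℤ) 3 := by norm_num
  obtain ⟨w, hw⟩ := c.mul_dvd h2 h3
  refine ⟨w, ?_⟩
  have : (n : ℝ) ^ 3 - n = 2 * 3 * w := by exact_mod_cast hw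
  rw [this]; ring

/-- a number that becomes integral after multiplication by a power of 2 and by a power of 3 -/
theorem isI_two_three {F : ℝ} (k l : ℕ) (h2 : IsI (2 ^ k * F)) (h3 : IsI (3 ^ l * F)) : IsI F := by
  obtain ⟨n, hn⟩ := h2
  obtain ⟨m, hm⟩ := h3
  have c : IsCoprime ((2 : ℤ) ^ k) ((3 : ℤ) ^ l) := by
    have : IsCoprime (2 : ℤ) 3 := by norm_num
    exact this.pow
  obtain ⟨u, v, huv⟩ := c
  refine ⟨u * n + v * m, ?_⟩
  have e : (u : ℝ) * 2 ^ k + v * 3 ^ l = 1 := by exact_mod_cast huv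
  push_cast
  rw [hn, hm]
  linear_combination F * e

/-- integral generators of the ring of integer valued functions -/
structure GV (a d g x y z K M : ℝ) : Prop where
  n1 : IsI (a * x / 2)
  n2 : IsI (a * (a + d - 2 * x) / 8)
  n3 : IsI (a * (z - y) / 2)
  n4 : IsI (a * (g - 4 * x) / 16)
  n6 : IsI ((y * z - 1 - g * x) / 2)
  n7 : IsI ((g * y - x * y - x * z) / 2)
  n8 : IsI ((K - 2 * a - 2 * x) / 4)
  n9 : IsI ((d ^ 2 - a ^ 2 - d * x) / 2)
  n10 : IsI ((d * z - x * y - d * y - x * z) / 2)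
  n11 : IsI (g * (d - x) / 2)
  n12 : IsI (g * z / 2)
  n13 : IsI (g * (g + 2 * x - d) / 4)
  k2 : IsI ((K - 6 * x * y * z - 6 * a * d * g - 6 * a - 4 * d - 2 * g) / 32)
  n18 : IsI ((a * (K + d - a) - 4 * M) / 32)
  m1 : IsI (a * (a + d + g) / 3)
  m2 : IsI ((g ^ 2 + d ^ 2 + d * g - 1) / 3)
  m3 : IsI (a * x * y / 3)
  m4 : IsI (a * d * x / 3)
  m5 : IsI (a * y * (a + d) / 3)
  m6 : IsI (a * d * (a + d) / 3)
  m7 : IsI (d * g * z / 3)
  m8 : IsI (a * g * y / 3)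
  m9 : IsI (a * x * (a + g) / 3)
  m10 : IsI (a * g * (a + g) / 3)
  m11 : IsI (d * g * (d + g) / 3)
  m12 : IsI ((K - d + g) / 3)
  m13 : IsI (a * (a ^ 2 + d ^ 2 + g ^ 2 + a * d + a * g + d * g - 1) / 9)

theorem K_cube {a b c r s t W e h α β γ δ : ℝ} (R : RD a b c r s t W e h α β γ δ) :
    8 * (r * s * t) = (α * β * γ / δ) *
      ((α * β * γ / δ) ^ 2 + 3 * (α ^ 2 + 2 * (e * W)) ^ 2) := by
  have hδ := R.hδ.ne'
  obtain ⟨K, hK⟩ : ∃ K, K = α * β * γ / δ := ⟨_, rfl⟩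
  rw [← hK]
  have hKδ : K * δ = α * β * γ := by rw [hK]; field_simp
  have e1 : (r * s * t) * δ ^ 3 = α * β * γ * (((h + 3) * e * W) * ((h + 1 - e) * e * W)
      * ((1 - e - h * e) * W)) := by
    have : (r * s * t) * δ ^ 3 = (r * δ) * (s * δ) * (t * δ) := by ring
    rw [this, R.rα, R.sβ, R.tγ]; ring
  have e2 : K ^ 2 * δ ^ 2 = (h * e * W) * ((h * e + 2 * e ^ 2 + 4 * e) * W)
      * ((h * e + 2 + 4 * e) * W) := by
    rw [← R.A2, ← R.B2, ← R.C2, ← mul_pow, hKδ]; ring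
  have h3 : (8 * (r * s * t) - K * (K ^ 2 + 3 * (α ^ 2 + 2 * (e * W)) ^ 2)) * δ ^ 3 = 0 := by
    have e3 : (8 * (r * s * t) - K * (K ^ 2 + 3 * (α ^ 2 + 2 * (e * W)) ^ 2)) * δ ^ 3
        = 8 * ((r * s * t) * δ ^ 3) - (K * δ) * (K ^ 2 * δ ^ 2
          + 3 * (α ^ 2 + 2 * (e * W)) ^ 2 * δ ^ 2) := by ring
    rw [e3, e1, e2, hKδ, R.A2, R.D2]; ring
  have h4 := (mul_eq_zero.1 h3).resolve_right (pow_ne_zero _ hδ)
  linarith

theorem K_sq {a b c r s t W e h α β γ δ : ℝ} (R : RD a b c r s t W e h α β γ δ) :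
    (α * β * γ / δ) ^ 2 = 4 * r ^ 2 + α ^ 2 * (α ^ 2 + 4 * (e * W)) := by
  have hδ := R.hδ.ne'
  obtain ⟨K, hK⟩ : ∃ K, K = α * β * γ / δ := ⟨_, rfl⟩
  rw [← hK]
  have hKδ : K * δ = α * β * γ := by rw [hK]; field_simp
  have e1 : r ^ 2 * δ ^ 2 = (h * e * W) * ((h + 3) * e * W) ^ 2 := by
    rw [← R.A2, ← mul_pow, R.rα, mul_pow]
  have e2 : K ^ 2 * δ ^ 2 = (h * e * W) * ((h * e + 2 * e ^ 2 + 4 * e) * W)
      * ((h * e + 2 + 4 * e) * W) := by
    rw [← R.A2, ← R.B2, ← R.C2, ← mul_pow, hKδ]; ring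
  have h3 : (K ^ 2 - (4 * r ^ 2 + α ^ 2 * (α ^ 2 + 4 * (e * W)))) * δ ^ 2 = 0 := by
    have e3 : (K ^ 2 - (4 * r ^ 2 + α ^ 2 * (α ^ 2 + 4 * (e * W)))) * δ ^ 2
        = K ^ 2 * δ ^ 2 - 4 * (r ^ 2 * δ ^ 2) - α ^ 2 * (α ^ 2 + 4 * (e * W)) * δ ^ 2 := by ring
    rw [e3, e1, e2, R.A2, R.D2]; ring
  have h4 := (mul_eq_zero.1 h3).resolve_right (pow_ne_zero _ hδ)
  linarith

theorem gens_of {a b c r s t : ℤ} {W e h α β γ δ d g x y z xb yb xc : ℝ}
    (g1 : (24 : ℤ) ∣ a * b) (g2 : (24 : ℤ) ∣ a * c) (g3 : (24 : ℤ) ∣ b * c)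
    (R : RD a b c r s t W e h α β γ δ) (I : II a b c r s t W e α β γ δ)
    (X : RX a b c r s t x d) (Q : RQ a b c d g r s t x y z xb yb xc) :
    GV a d g x y z (α * β * γ / δ) (e ^ 2 * W) := by
  have V := dv_of g1 g2 g3 R I
  obtain ⟨nx, hx⟩ := X.ix
  obtain ⟨nd, hd⟩ := X.id'
  obtain ⟨ng, hg⟩ := Q.ig
  obtain ⟨ny, hy⟩ := Q.iy
  obtain ⟨nz, hz⟩ := Q.iz
  obtain ⟨nb, hb⟩ := Q.ixb
  subst hx hd hg hy hz hb
  -- integral relations
  have P : PQ a b c nd ng r nx ny nz nb :=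
    ⟨by exact_mod_cast Q.x2, by exact_mod_cast Q.y2, by exact_mod_cast Q.z2,
      by exact_mod_cast R.r2, by exact_mod_cast Q.xb2, by exact_mod_cast Q.eb,
      by exact_mod_cast Q.er, by exact_mod_cast Q.exb, by exact_mod_cast Q.ec⟩
  have es : s = r * nx + a * nb := by exact_mod_cast Q.es
  have et : t = r * nb + b * nx := by exact_mod_cast Q.et
  have s2 : a * c + 1 = s ^ 2 := by exact_mod_cast R.s2
  have t2 : b * c + 1 = t ^ 2 := by exact_mod_cast R.t2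
  have d2 : (2 : ℤ) ∣ 24 := by norm_num
  have d3 : (3 : ℤ) ∣ 24 := by norm_num
  have r2 := not_dvd_of_dvd Int.prime_two (d2.trans g1) P.r2
  have s2' := not_dvd_of_dvd Int.prime_two (d2.trans g2) s2
  have t2' := not_dvd_of_dvd Int.prime_two (d2.trans g3) t2
  obtain ⟨uU, hU⟩ := V.iU
  obtain ⟨uM, hM⟩ := V.iM
  obtain ⟨uW, hW⟩ := V.iW
  obtain ⟨uA, hA⟩ := V.iA
  obtain ⟨uK, hK⟩ := V.iK
  have hac : a * (c - b) = (4 * uM) * (4 * uM + 2 * (4 * uU)) := by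
    have : (a : ℝ) * (c - b) = (4 * uM) * (4 * uM + 2 * (4 * uU)) := by
      rw [hM, hU]; linear_combination R.acb
    exact_mod_cast this
  have hbc : b * (c - a) = (4 * uW) * (4 * uW + 2 * (4 * uU)) := by
    have : (b : ℝ) * (c - a) = (4 * uW) * (4 * uW + 2 * (4 * uU)) := by
      rw [hW, hU]; linear_combination R.bca
    exact_mod_cast this
  obtain ⟨h16, h16', h16''⟩ := sixteen_all P.r2 s2 t2 r2 s2' t2' (Dvd.intro _ rfl)
    (Dvd.intro _ rfl) (Dvd.intro _ rfl) hac hbc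
  have e216 : (2 : ℤ) ∣ 16 := by norm_num
  have PA := par_of P (e216.trans h16) (e216.trans h16') (e216.trans h16'')
  have k1 : (2 * uK) ^ 2 = 4 * r ^ 2 + (24 * uA) * ((24 * uA) + 4 * (4 * uU)) := by
    have : (2 * (uK : ℝ)) ^ 2 = 4 * r ^ 2 + (24 * uA) * ((24 * uA) + 4 * (4 * uU)) := by
      rw [hK, hA, hU]; linear_combination K_sq R
    exact_mod_cast this
  have k2 : 8 * (r * s * t) = (2 * uK) * ((2 * uK) ^ 2 + 3 * (24 * uA + 2 * (4 * uU)) ^ 2) := by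
    have : 8 * ((r : ℝ) * s * t) = (2 * uK) * ((2 * uK) ^ 2
        + 3 * (24 * uA + 2 * (4 * uU)) ^ 2) := by
      have e1 : 2 * (uK : ℝ) = α * β * γ / δ := by rw [hK]; ring
      have e2 : 24 * (uA : ℝ) = α ^ 2 := by rw [hA]; ring
      have e3 : 4 * (uU : ℝ) = e * W := by rw [hU]; ring
      rw [e1, e2, e3]; exact K_cube R
    exact_mod_cast this
  have gK := gen_K P es et h16 r2 (show (8 : ℤ) ∣ 24 * uA from ⟨3 * uA, by ring⟩)
    (Dvd.intro uU rfl) (Dvd.intro uK rfl) k1 k2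
  have gM := gen_M P h16 (Dvd.intro uM rfl) (Dvd.intro uU rfl) gK hac
  obtain ⟨f1, f2, f3, f4, f5, f6, f7, f8⟩ := gens_two PA
  have f9 := gen_eight P.x2 PA.xa
  have f10 := gen_sixteen P PA h16 h16'
  have f11 := gen_four P.z2 PA
  -- modulo 3
  have M3 := mod3_of P es et (d3.trans g1) (d3.trans g2) (d3.trans g3)
  have f12 := gen_K3 M3 k2
  have f13 := gen_nine M3 P.x2 P.y2
  -- `K / 2` is odd
  have kodd : (uK : ZMod 2) = 1 := by
    have e1 := congrArg (Int.cast : ℤ → ZMod 2)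
      (show uK ^ 2 = r ^ 2 + 2 * (72 * uA ^ 2 + 48 * (uA * uU)) by linarith [k1])
    push_cast at e1
    have two : (2 : ZMod 2) = 0 := by decide
    have hr : (r : ZMod 2) = 1 := by
      rcases zero_or_one (r : ZMod 2) with h0 | h0
      · exact absurd (dvd2 h0) r2
      · exact h0
    rw [two, zero_mul, add_zero, hr] at e1
    rcases zero_or_one (uK : ZMod 2) with h0 | h0
    · rw [h0] at e1; exact absurd e1 (by decide)
    · exact h0
  have f14 : (2 : ℤ) ∣ uK - a - nx := by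
    apply dvd2
    push_cast
    rw [kodd, PA.xa]
    have : ∀ a : ZMod 2, 1 - a - (a + 1) = 0 := by decide
    exact this _
  have eK : α * β * γ / δ = 2 * (uK : ℝ) := by rw [hK]; ring
  have eM : e ^ 2 * W = 4 * (uM : ℝ) := by rw [hM]; ring
  rw [eK, eM]
  have D3 : ∀ {n : ℤ} {F : ℝ}, (3 : ℤ) ∣ n → (n : ℝ) = F → IsI (F / 3) := fun h1 h2 => by
    exact_mod_cast isI_div h2 (k := 3) (by norm_num) h1
  have D2 : ∀ {n : ℤ} {F : ℝ}, (2 : ℤ) ∣ n → (n : ℝ) = F → IsI (F / 2) := fun h1 h2 => by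
    exact_mod_cast isI_div h2 (k := 2) (by norm_num) h1
  refine ⟨D2 f1 (by push_cast; ring), ?_, D2 f2 (by push_cast; ring), ?_, D2 f3 (by push_cast; ring),
    D2 f4 (by push_cast; ring), ?_, D2 f5 (by push_cast; ring), D2 f6 (by push_cast; ring),
    D2 f7 (by push_cast; ring), D2 f8 (by push_cast; ring), ?_, ?_, ?_,
    D3 (dvd3 (n := a * (a + nd + ng)) (by push_cast; exact M3.f1)) (by push_cast; ring),
    D3 (dvd3 (n := ng ^ 2 + nd ^ 2 + nd * ng - 1) (by push_cast; exact M3.f2)) (by push_cast; ring),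
    D3 (dvd3 (n := a * nx * ny) (by push_cast; exact M3.f3)) (by push_cast; ring),
    D3 (dvd3 (n := a * nd * nx) (by push_cast; exact M3.f4)) (by push_cast; ring),
    D3 (dvd3 (n := a * ny * (a + nd)) (by push_cast; exact M3.f5)) (by push_cast; ring),
    D3 (dvd3 (n := a * nd * (a + nd)) (by push_cast; exact M3.f6)) (by push_cast; ring),
    D3 (dvd3 (n := nd * ng * nz) (by push_cast; exact M3.f7)) (by push_cast; ring),
    D3 (dvd3 (n := a * ng * ny) (by push_cast; exact M3.f9)) (by push_cast; ring),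
    D3 (dvd3 (n := a * nx * (a + ng)) (by push_cast; exact M3.f10)) (by push_cast; ring),
    D3 (dvd3 (n := a * ng * (a + ng)) (by push_cast; exact M3.f11)) (by push_cast; ring),
    D3 (dvd3 (n := nd * ng * (nd + ng)) (by push_cast; exact M3.f12)) (by push_cast; ring),
    D3 f12 (by push_cast; ring), ?_⟩
  · exact_mod_cast isI_div (n := a * (a + nd - 2 * nx)) (x := (a : ℝ) * (a + nd - 2 * nx))
      (by push_cast; ring) (k := 8) (by norm_num) f9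
  · exact_mod_cast isI_div (n := a * (ng - 4 * nx)) (x := (a : ℝ) * (ng - 4 * nx))
      (by push_cast; ring) (k := 16) (by norm_num) f10
  · obtain ⟨k, hk⟩ := f14
    refine ⟨k, ?_⟩
    have : (uK : ℝ) - a - nx = 2 * k := by exact_mod_cast hk
    linear_combination (-(1 : ℝ) / 2) * this
  · exact_mod_cast isI_div (n := ng * (ng + 2 * nx - nd)) (x := (ng : ℝ) * (ng + 2 * nx - nd))
      (by push_cast; ring) (k := 4) (by norm_num) f11
  · obtain ⟨k, hk⟩ := gK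
    refine ⟨k, ?_⟩
    have e1 : 2 * (uK : ℝ) - 3 * a - 3 * b - nd + ng = 32 * k := by exact_mod_cast hk
    have e2 := Q.eb
    linear_combination (-(1 : ℝ) / 32) * e1 + (-(3 : ℝ) / 32) * e2
  · obtain ⟨k, hk⟩ := gM
    refine ⟨k, ?_⟩
    have e1 : (a : ℝ) * (2 * uK + nd - a) - 4 * (4 * uM) = 32 * k := by exact_mod_cast hk
    linear_combination (-(1 : ℝ) / 32) * e1
  · obtain ⟨k, hk⟩ := f13
    refine ⟨k, ?_⟩
    have e1 : (a : ℝ) * ((a : ℝ) ^ 2 + (nd : ℝ) ^ 2 + (ng : ℝ) ^ 2 + a * nd + a * ng + nd * ng - 1)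
        = 9 * k := by exact_mod_cast hk
    linear_combination (-(1 : ℝ) / 9) * e1

end Pool.Agent.Work.MP_71a505_fin
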