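import Mathlib

/-!
Covering a polyhedral region by simplices; sums of powers of two of affine forms.
Coordinates `(w, x, y, z)`; the point is `(1, ξ, η, ζ)`.
-/

namespace Pool.Agent.Work.MP_71a505_fin

/-- a vertex (`w = 0`: a ray) -/
structure V4 where
  w : ℕ
  x : ℕ
  y : ℕ
  z : ℕ

/-- a corner: the term
`2 ^ ((12 (l - OFF) + (P - 4 j) ξ + (Q - 4 k) η + (R - 4 i) ζ) / 48)` -/
structure Cn where
  l : ℕ
  i : ℕ
  j : ℕ
  k : ℕ

/-- data of a bounded function -/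
structure GD where
  P : ℕ
  Q : ℕ
  R : ℕ
  q : ℕ
  cs : List Cn

def OFF : ℕ := 400

noncomputable def posF (g : GD) (c : Cn) (w ξ η ζ : ℝ) : ℝ := 12 * c.l * w + (g.P * ξ + g.Q * η + g.R * ζ)
noncomputable def negF (c : Cn) (w ξ η ζ : ℝ) : ℝ := 12 * OFF * w + 4 * (c.j * ξ + c.k * η + c.i * ζ)

/-- the exponent of a corner -/
noncomputable def expF (g : GD) (c : Cn) (w ξ η ζ : ℝ) : ℝ := (posF g c w ξ η ζ - negF c w ξ η ζ) / 48

noncomputable def sumG (g : GD) (ξ η ζ : ℝ) : List Cn → ℝ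
  | [] => 0
  | c :: cs => (2 : ℝ) ^ (expF g c 1 ξ η ζ) + sumG g ξ η ζ cs

/-- what a function tells us about the point -/
def GOK (g : GD) (ξ η ζ : ℝ) : Prop := 1 ≤ g.q * sumG g ξ η ζ g.cs

/-! ### the check at a vertex -/

def c8 : ℕ → ℕ
  | 0 => 16777216
  | 1 => 15384775
  | 2 => 14107901
  | 3 => 12937003
  | 4 => 11863284
  | 5 => 10878679
  | 6 => 9975793
  | _ => 9147842

/-- upper bound of `2 ^ 24 * 2 ^ (-m/8)` -/
def r8 (m : ℕ) : ℕ := Nat.add (Nat.div (c8 (Nat.mod m 8)) (Nat.pow 2 (Nat.div m 8))) 1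

/-- sum of the bounds at a finite vertex; `none` if a term exceeds 1 -/
def vsum (g : GD) (w pg x y z : ℕ) : List Cn → ℕ → Bool
  | [], acc => Nat.blt (Nat.mul acc g.q) 16777216
  | c :: cs, acc =>
    let pos := Nat.add (Nat.mul (Nat.mul 12 c.l) w) pg
    let neg := Nat.add (Nat.mul (Nat.mul 12 OFF) w)
      (Nat.mul 4 (Nat.add (Nat.add (Nat.mul c.j x) (Nat.mul c.k y)) (Nat.mul c.i z)))
    Nat.ble pos neg && vsum g w pg x y z cs (Nat.add acc (r8 (Nat.div (Nat.sub neg pos) (Nat.mul 6 w))))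

def vray (g : GD) (pg x y z : ℕ) : List Cn → Bool
  | [] => true
  | c :: cs =>
    Nat.ble pg (Nat.mul 4 (Nat.add (Nat.add (Nat.mul c.j x) (Nat.mul c.k y)) (Nat.mul c.i z))) &&
      vray g pg x y z cs

def okV (g : GD) (v : V4) : Bool :=
  match v.w with
  | 0 => vray g (Nat.add (Nat.add (Nat.mul g.P v.x) (Nat.mul g.Q v.y)) (Nat.mul g.R v.z)) v.x v.y v.z g.cs
  | w + 1 => vsum g (w + 1) (Nat.add (Nat.add (Nat.mul g.P v.x) (Nat.mul g.Q v.y)) (Nat.mul g.R v.z))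
      v.x v.y v.z g.cs 0

theorem c8_le (i : ℕ) (hi : i < 8) : (2 : ℝ) ^ (-(i : ℝ) / 8) ≤ c8 i / 2 ^ 24 := by
  have key : ∀ (n c : ℕ), (2 : ℝ) ^ (24 * 8) ≤ (c : ℝ) ^ 8 * 2 ^ n →
      (2 : ℝ) ^ (-(n : ℝ) / 8) ≤ c / 2 ^ 24 := by
    intro n c h
    have h1 : ((2 : ℝ) ^ (-(n : ℝ) / 8)) ^ (8 : ℕ) ≤ ((c : ℝ) / 2 ^ 24) ^ (8 : ℕ) := by
      rw [← Real.rpow_natCast, ← Real.rpow_mul (by norm_num)]
      have e1 : -(n : ℝ) / 8 * ((8 : ℕ) : ℝ) = -(n : ℝ) := by push_cast; ring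
      rw [e1, Real.rpow_neg (by norm_num), Real.rpow_natCast, div_pow, ← pow_mul, le_div_iff₀ (by positivity)]
      rw [inv_mul_le_iff₀ (by positivity)]
      linarith
    exact le_of_pow_le_pow_left₀ (by norm_num) (by positivity) h1
  apply key
  interval_cases i <;> norm_num [c8]

theorem r8_le (m : ℕ) : (2 : ℝ) ^ (-(m : ℝ) / 8) ≤ r8 m / 2 ^ 24 := by
  have h1 := c8_le (m % 8) (Nat.mod_lt _ (by norm_num))
  have e1 : -(m : ℝ) / 8 = -((m % 8 : ℕ) : ℝ) / 8 + (-((m / 8 : ℕ) : ℝ)) := by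
    have := Nat.mod_add_div m 8
    have h2 : (m : ℝ) = ((m % 8 : ℕ) : ℝ) + 8 * ((m / 8 : ℕ) : ℝ) := by exact_mod_cast this.symm
    rw [h2]; ring
  rw [e1, Real.rpow_add (by norm_num), Real.rpow_neg (x := 2) (by norm_num) ((m / 8 : ℕ) : ℝ),
    Real.rpow_natCast]
  have h3 : (c8 (m % 8) : ℝ) / 2 ^ (m / 8) ≤ r8 m := by
    unfold r8
    have e2 : ((Nat.add (Nat.div (c8 (Nat.mod m 8)) (Nat.pow 2 (Nat.div m 8))) 1 : ℕ) : ℝ)
        = ((c8 (m % 8) / 2 ^ (m / 8) : ℕ) : ℝ) + 1 := by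
      show ((c8 (m % 8) / 2 ^ (m / 8) + 1 : ℕ) : ℝ) = _
      push_cast; rfl
    rw [e2]
    have h4 := Nat.lt_floor_add_one ((c8 (m % 8) : ℝ) / 2 ^ (m / 8))
    rw [show (2 : ℝ) ^ (m / 8) = ((2 ^ (m / 8) : ℕ) : ℝ) by push_cast; rfl,
      Nat.floor_div_eq_div] at h4
    rw [show (2 : ℝ) ^ (m / 8) = ((2 ^ (m / 8) : ℕ) : ℝ) by push_cast; rfl]
    exact h4.le
  calc (2 : ℝ) ^ (-((m % 8 : ℕ) : ℝ) / 8) * ((2 : ℝ) ^ (m / 8))⁻¹
      ≤ (c8 (m % 8) / 2 ^ 24) * ((2 : ℝ) ^ (m / 8))⁻¹ := by gcongr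
    _ = (c8 (m % 8) / 2 ^ (m / 8)) / 2 ^ 24 := by field_simp
    _ ≤ _ := by gcongr

/-- the value used at a vertex -/
noncomputable def ev (g : GD) (c : Cn) (v : V4) : ℝ :=
  if v.w = 0 then 0 else expF g c v.w v.x v.y v.z / v.w

noncomputable def sumV (g : GD) (v : V4) : List Cn → ℝ
  | [] => 0
  | c :: cs => (2 : ℝ) ^ (ev g c v) + sumV g v cs

theorem vsum_spec {g : GD} {w pg x y z : ℕ} (hw : 0 < w) (hpg : pg = g.P * x + g.Q * y + g.R * z)
    (cs : List Cn) (acc : ℕ) (h : vsum g w pg x y z cs acc = true) :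
    (acc + 2 ^ 24 * sumV g ⟨w, x, y, z⟩ cs) * g.q ≤ 2 ^ 24 - 1 ∧
    ∀ c ∈ cs, expF g c w x y z ≤ w * ev g c ⟨w, x, y, z⟩ := by
  induction cs generalizing acc with
  | nil =>
    simp only [vsum, Nat.blt_eq, Nat.mul_eq] at h
    constructor
    · simp only [sumV, mul_zero, add_zero]
      have : acc * g.q ≤ 16777216 - 1 := by omega
      have h2 : ((acc * g.q : ℕ) : ℝ) ≤ ((16777216 - 1 : ℕ) : ℝ) := by exact_mod_cast this
      push_cast at h2
      norm_num at h2 ⊢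
      exact h2
    · simp
  | cons c cs ih =>
    rw [vsum, Bool.and_eq_true] at h
    obtain ⟨h1, h2⟩ := h
    obtain ⟨h3, h4⟩ := ih _ h2
    have h1 := Nat.le_of_ble_eq_true h1
    simp only [Nat.add_eq, Nat.mul_eq] at h1
    have hwr : (0 : ℝ) < w := by exact_mod_cast hw
    have hev : ev g c ⟨w, x, y, z⟩ = expF g c w x y z / w := by
      unfold ev; rw [if_neg]; simp; omega
    set pos : ℕ := 12 * c.l * w + pg with hpos
    set neg : ℕ := 12 * OFF * w + 4 * (c.j * x + c.k * y + c.i * z) with hneg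
    have hx : expF g c w x y z = ((pos : ℝ) - neg) / 48 := by
      unfold expF posF negF
      rw [hpos, hneg, hpg]; push_cast; ring
    have hle : (2 : ℝ) ^ (ev g c ⟨w, x, y, z⟩) ≤ r8 ((neg - pos) / (6 * w)) / 2 ^ 24 := by
      refine le_trans ?_ (r8_le _)
      apply Real.rpow_le_rpow_of_exponent_le (by norm_num)
      rw [hev, hx]
      have h5 : (((neg - pos) / (6 * w) : ℕ) : ℝ) ≤ ((neg - pos : ℕ) : ℝ) / ((6 * w : ℕ) : ℝ) :=
        Nat.cast_div_le
      rw [Nat.cast_sub h1] at h5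
      push_cast at h5
      rw [div_div, le_div_iff₀ (by norm_num), ]
      have h6 : ((pos : ℝ) - neg) / (48 * w) * 8 = -(((neg : ℝ) - pos) / (6 * w)) := by
        field_simp; ring
      rw [h6]; linarith
    constructor
    · simp only [sumV]
      have e2 : ((Nat.add acc (r8 (Nat.div (Nat.sub neg pos) (Nat.mul 6 w))) : ℕ) : ℝ)
          = acc + r8 ((neg - pos) / (6 * w)) := by
        show ((acc + r8 ((neg - pos) / (6 * w)) : ℕ) : ℝ) = _
        push_cast; rfl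
      have h7 : (acc + 2 ^ 24 * ((2 : ℝ) ^ ev g c ⟨w, x, y, z⟩ + sumV g ⟨w, x, y, z⟩ cs)) * g.q
          ≤ ((acc + r8 ((neg - pos) / (6 * w)) : ℝ) + 2 ^ 24 * sumV g ⟨w, x, y, z⟩ cs) * g.q := by
        apply mul_le_mul_of_nonneg_right _ (by positivity)
        have : (2 : ℝ) ^ 24 * (2 : ℝ) ^ ev g c ⟨w, x, y, z⟩ ≤ r8 ((neg - pos) / (6 * w)) := by
          have := mul_le_mul_of_nonneg_left hle (show (0 : ℝ) ≤ 2 ^ 24 by positivity)
          rwa [mul_div_cancel₀ _ (by positivity)] at this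
        linarith
      refine h7.trans ?_
      rw [← e2]
      exact h3
    · intro c' hc'
      rcases List.mem_cons.1 hc' with rfl | hc'
      · rw [hev, mul_div_cancel₀ _ hwr.ne']
      · exact h4 c' hc'

theorem vray_spec {g : GD} {pg x y z : ℕ} (hpg : pg = g.P * x + g.Q * y + g.R * z)
    (cs : List Cn) (h : vray g pg x y z cs = true) :
    ∀ c ∈ cs, expF g c (0 : ℕ) x y z ≤ ((0 : ℕ) : ℝ) * ev g c ⟨0, x, y, z⟩ := by
  induction cs with
  | nil => simp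
  | cons c cs ih =>
    rw [vray, Bool.and_eq_true] at h
    intro c' hc'
    rcases List.mem_cons.1 hc' with rfl | hc'
    · have h1 := Nat.le_of_ble_eq_true h.1
      simp only [Nat.add_eq, Nat.mul_eq] at h1
      rw [hpg] at h1
      have h2 : (g.P * x + g.Q * y + g.R * z : ℝ) ≤ 4 * (c'.j * x + c'.k * y + c'.i * z) := by
        exact_mod_cast h1
      unfold expF posF negF
      push_cast
      rw [zero_mul, div_nonpos_iff]
      right
      constructor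
      · linarith
      · norm_num
    · exact ih h.2 c' hc'

/-- the combined property of a vertex -/
def VOK (g : GD) (v : V4) : Prop :=
  (v.w ≠ 0 → 2 ^ 24 * sumV g v g.cs * g.q ≤ 2 ^ 24 - 1) ∧
    ∀ c ∈ g.cs, expF g c v.w v.x v.y v.z ≤ v.w * ev g c v

theorem okV_spec {g : GD} {v : V4} (h : okV g v = true) : VOK g v := by
  obtain ⟨w, x, y, z⟩ := v
  cases w with
  | zero =>
    simp only [okV] at h
    exact ⟨fun h => absurd rfl h, vray_spec rfl g.cs h⟩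
  | succ w =>
    simp only [okV] at h
    obtain ⟨h1, h2⟩ := vsum_spec (Nat.succ_pos w) rfl g.cs 0 h
    refine ⟨fun _ => ?_, fun c hc => ?_⟩
    · push_cast at h1 ⊢
      linarith [h1]
    · have := h2 c hc
      push_cast at this ⊢
      exact this

/-! ### the simplex -/

structure InS (ξ η ζ : ℝ) (a b c d : V4) (t0 t1 t2 t3 : ℝ) : Prop where
  h0 : 0 ≤ t0
  h1 : 0 ≤ t1
  h2 : 0 ≤ t2
  h3 : 0 ≤ t3
  hw : t0 * a.w + t1 * b.w + t2 * c.w + t3 * d.w = 1
  hx : t0 * a.x + t1 * b.x + t2 * c.x + t3 * d.x = ξ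
  hy : t0 * a.y + t1 * b.y + t2 * c.y + t3 * d.y = η
  hz : t0 * a.z + t1 * b.z + t2 * c.z + t3 * d.z = ζ

def InC (ξ η ζ : ℝ) (a b c d : V4) : Prop := ∃ t0 t1 t2 t3, InS ξ η ζ a b c d t0 t1 t2 t3

theorem pow_le4 {e a b c d t0 t1 t2 t3 : ℝ} (h0 : 0 ≤ t0) (h1 : 0 ≤ t1) (h2 : 0 ≤ t2) (h3 : 0 ≤ t3)
    (hs : t0 + t1 + t2 + t3 = 1) (he : e ≤ t0 * a + t1 * b + t2 * c + t3 * d) :
    (2 : ℝ) ^ e ≤ t0 * 2 ^ a + t1 * 2 ^ b + t2 * 2 ^ c + t3 * 2 ^ d := by
  have h4 := Real.geom_mean_le_arith_mean4_weighted h0 h1 h2 h3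
    (Real.rpow_nonneg (by norm_num : (0 : ℝ) ≤ 2) a) (Real.rpow_nonneg (by norm_num : (0 : ℝ) ≤ 2) b)
    (Real.rpow_nonneg (by norm_num : (0 : ℝ) ≤ 2) c) (Real.rpow_nonneg (by norm_num : (0 : ℝ) ≤ 2) d) hs
  refine le_trans ?_ h4
  rw [← Real.rpow_mul (by norm_num), ← Real.rpow_mul (by norm_num), ← Real.rpow_mul (by norm_num),
    ← Real.rpow_mul (by norm_num), ← Real.rpow_add (by norm_num), ← Real.rpow_add (by norm_num),
    ← Real.rpow_add (by norm_num)]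
  apply Real.rpow_le_rpow_of_exponent_le (by norm_num)
  linarith

theorem sumG_le {g : GD} {ξ η ζ : ℝ} {a b c d : V4} {t0 t1 t2 t3 : ℝ}
    (h : InS ξ η ζ a b c d t0 t1 t2 t3) (l : List Cn)
    (ha : ∀ x ∈ l, expF g x a.w a.x a.y a.z ≤ a.w * ev g x a)
    (hb : ∀ x ∈ l, expF g x b.w b.x b.y b.z ≤ b.w * ev g x b)
    (hc : ∀ x ∈ l, expF g x c.w c.x c.y c.z ≤ c.w * ev g x c)
    (hd : ∀ x ∈ l, expF g x d.w d.x d.y d.z ≤ d.w * ev g x d) :
    sumG g ξ η ζ l ≤ (t0 * a.w) * sumV g a l + (t1 * b.w) * sumV g b l + (t2 * c.w) * sumV g c l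
      + (t3 * d.w) * sumV g d l := by
  induction l with
  | nil => simp [sumG, sumV]
  | cons x l ih =>
    have h5 := ih (fun y hy => ha y (List.mem_cons_of_mem _ hy))
      (fun y hy => hb y (List.mem_cons_of_mem _ hy)) (fun y hy => hc y (List.mem_cons_of_mem _ hy))
      (fun y hy => hd y (List.mem_cons_of_mem _ hy))
    have a1 := mul_le_mul_of_nonneg_left (ha x List.mem_cons_self) h.h0
    have b1 := mul_le_mul_of_nonneg_left (hb x List.mem_cons_self) h.h1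
    have c1 := mul_le_mul_of_nonneg_left (hc x List.mem_cons_self) h.h2
    have d1 := mul_le_mul_of_nonneg_left (hd x List.mem_cons_self) h.h3
    have he : expF g x 1 ξ η ζ ≤ (t0 * a.w) * ev g x a + (t1 * b.w) * ev g x b
        + (t2 * c.w) * ev g x c + (t3 * d.w) * ev g x d := by
      have e1 : expF g x 1 ξ η ζ = t0 * expF g x a.w a.x a.y a.z + t1 * expF g x b.w b.x b.y b.z
          + t2 * expF g x c.w c.x c.y c.z + t3 * expF g x d.w d.x d.y d.z := by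
        unfold expF posF negF
        rw [← h.hx, ← h.hy, ← h.hz]
        linear_combination (-(12 * (x.l : ℝ) - 12 * OFF) / 48) * h.hw
      rw [e1]; linarith
    have h6 := pow_le4 (mul_nonneg h.h0 (Nat.cast_nonneg a.w)) (mul_nonneg h.h1 (Nat.cast_nonneg b.w))
      (mul_nonneg h.h2 (Nat.cast_nonneg c.w)) (mul_nonneg h.h3 (Nat.cast_nonneg d.w)) h.hw he
    simp only [sumG, sumV]
    linarith

theorem leaf_fn {g : GD} {ξ η ζ : ℝ} {a b c d : V4} (hin : InC ξ η ζ a b c d) (hg : GOK g ξ η ζ)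
    (ha : VOK g a) (hb : VOK g b) (hc : VOK g c) (hd : VOK g d) : False := by
  obtain ⟨t0, t1, t2, t3, h⟩ := hin
  have h1 := sumG_le (g := g) h g.cs ha.2 hb.2 hc.2 hd.2
  unfold GOK at hg
  have key : ∀ (v : V4) (t : ℝ), 0 ≤ t → VOK g v →
      (t * v.w) * (g.q * sumV g v g.cs) ≤ (t * v.w) * ((2 ^ 24 - 1) / 2 ^ 24) := by
    intro v t ht hv
    by_cases h0 : v.w = 0
    · rw [h0]; simp
    · apply mul_le_mul_of_nonneg_left _ (mul_nonneg ht (Nat.cast_nonneg _))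
      have := hv.1 h0
      rw [le_div_iff₀ (by positivity)]
      linarith
  have k0 := key a t0 h.h0 ha
  have k1 := key b t1 h.h1 hb
  have k2 := key c t2 h.h2 hc
  have k3 := key d t3 h.h3 hd
  have hq : (0 : ℝ) ≤ g.q := Nat.cast_nonneg _
  have h2 := mul_le_mul_of_nonneg_left h1 hq
  have h3 : (t0 * a.w) * (((2 : ℝ) ^ 24 - 1) / 2 ^ 24) + (t1 * b.w) * ((2 ^ 24 - 1) / 2 ^ 24)
      + (t2 * c.w) * ((2 ^ 24 - 1) / 2 ^ 24) + (t3 * d.w) * ((2 ^ 24 - 1) / 2 ^ 24)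
      = (2 ^ 24 - 1) / 2 ^ 24 := by
    have := h.hw
    linear_combination ((2 ^ 24 - 1) / 2 ^ 24 : ℝ) * this
  have h4 : ((2 : ℝ) ^ 24 - 1) / 2 ^ 24 < 1 := by norm_num
  nlinarith

/-! ### cuts -/

/-- a linear form `p - n` -/
structure Lf where
  p : V4
  n : V4

noncomputable def Lf.val (f : Lf) (ξ η ζ : ℝ) : ℝ :=
  (f.p.w + f.p.x * ξ + f.p.y * η + f.p.z * ζ) - (f.n.w + f.n.x * ξ + f.n.y * η + f.n.z * ζ)

def dotV (a v : V4) : ℕ :=
  Nat.add (Nat.add (Nat.mul a.w v.w) (Nat.mul a.x v.x)) (Nat.add (Nat.mul a.y v.y) (Nat.mul a.z v.z))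

def Lf.neg (f : Lf) (v : V4) : Bool := Nat.ble (dotV f.p v) (dotV f.n v)

theorem leaf_cut {f : Lf} {ξ η ζ : ℝ} {a b c d : V4} (hin : InC ξ η ζ a b c d)
    (hf : 0 < f.val ξ η ζ) (ha : f.neg a = true) (hb : f.neg b = true) (hc : f.neg c = true)
    (hd : f.neg d = true) : False := by
  obtain ⟨t0, t1, t2, t3, h⟩ := hin
  have key : ∀ (v : V4), f.neg v = true →
      (f.p.w * v.w + f.p.x * v.x + (f.p.y * v.y + f.p.z * v.z) : ℝ)
        - (f.n.w * v.w + f.n.x * v.x + (f.n.y * v.y + f.n.z * v.z)) ≤ 0 := by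
    intro v hv
    have := Nat.le_of_ble_eq_true hv
    unfold dotV at this
    simp only [Nat.add_eq, Nat.mul_eq] at this
    have h2 : (f.p.w * v.w + f.p.x * v.x + (f.p.y * v.y + f.p.z * v.z) : ℝ)
      ≤ (f.n.w * v.w + f.n.x * v.x + (f.n.y * v.y + f.n.z * v.z)) := by exact_mod_cast this
    linarith
  have k0 := mul_nonpos_of_nonneg_of_nonpos h.h0 (key a ha)
  have k1 := mul_nonpos_of_nonneg_of_nonpos h.h1 (key b hb)
  have k2 := mul_nonpos_of_nonneg_of_nonpos h.h2 (key c hc)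
  have k3 := mul_nonpos_of_nonneg_of_nonpos h.h3 (key d hd)
  unfold Lf.val at hf
  rw [← h.hx, ← h.hy, ← h.hz] at hf
  have e : (f.p.w + f.p.x * (t0 * a.x + t1 * b.x + t2 * c.x + t3 * d.x)
      + f.p.y * (t0 * a.y + t1 * b.y + t2 * c.y + t3 * d.y)
      + f.p.z * (t0 * a.z + t1 * b.z + t2 * c.z + t3 * d.z) : ℝ)
      - (f.n.w + f.n.x * (t0 * a.x + t1 * b.x + t2 * c.x + t3 * d.x)
      + f.n.y * (t0 * a.y + t1 * b.y + t2 * c.y + t3 * d.y)
      + f.n.z * (t0 * a.z + t1 * b.z + t2 * c.z + t3 * d.z))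
      = t0 * ((f.p.w * a.w + f.p.x * a.x + (f.p.y * a.y + f.p.z * a.z) : ℝ)
        - (f.n.w * a.w + f.n.x * a.x + (f.n.y * a.y + f.n.z * a.z)))
      + t1 * ((f.p.w * b.w + f.p.x * b.x + (f.p.y * b.y + f.p.z * b.z) : ℝ)
        - (f.n.w * b.w + f.n.x * b.x + (f.n.y * b.y + f.n.z * b.z)))
      + t2 * ((f.p.w * c.w + f.p.x * c.x + (f.p.y * c.y + f.p.z * c.z) : ℝ)
        - (f.n.w * c.w + f.n.x * c.x + (f.n.y * c.y + f.n.z * c.z)))
      + t3 * ((f.p.w * d.w + f.p.x * d.x + (f.p.y * d.y + f.p.z * d.z) : ℝ)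
        - (f.n.w * d.w + f.n.x * d.x + (f.n.y * d.y + f.n.z * d.z))) := by
    linear_combination (-(f.p.w : ℝ) + f.n.w) * h.hw
  rw [e] at hf
  linarith

/-! ### splitting -/

def mixV (s t : ℕ) (a b : V4) : V4 :=
  ⟨Nat.add (Nat.mul s a.w) (Nat.mul t b.w), Nat.add (Nat.mul s a.x) (Nat.mul t b.x),
    Nat.add (Nat.mul s a.y) (Nat.mul t b.y), Nat.add (Nat.mul s a.z) (Nat.mul t b.z)⟩

theorem InC.split {ξ η ζ : ℝ} {a b c d : V4} (h : InC ξ η ζ a b c d) {s t : ℕ} (hs : 0 < s)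
    (ht : 0 < t) : InC ξ η ζ (mixV s t a b) b c d ∨ InC ξ η ζ a (mixV s t a b) c d := by
  obtain ⟨t0, t1, t2, t3, h⟩ := h
  have hs' : (0 : ℝ) < s := by exact_mod_cast hs
  have ht' : (0 : ℝ) < t := by exact_mod_cast ht
  have ew : ((mixV s t a b).w : ℝ) = s * a.w + t * b.w := by unfold mixV; simp
  have ex : ((mixV s t a b).x : ℝ) = s * a.x + t * b.x := by unfold mixV; simp
  have ey : ((mixV s t a b).y : ℝ) = s * a.y + t * b.y := by unfold mixV; simp
  have ez : ((mixV s t a b).z : ℝ) = s * a.z + t * b.z := by unfold mixV; simp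
  rcases le_total (t0 * t) (t1 * s) with h5 | h5
  · left
    refine ⟨t0 / s, t1 - t0 * t / s, t2, t3, ?_, ?_, h.h2, h.h3, ?_, ?_, ?_, ?_⟩
    · have := h.h0; positivity
    · rw [sub_nonneg, div_le_iff₀ hs']; exact h5
    · rw [ew, ← h.hw]; field_simp; ring
    · rw [ex, ← h.hx]; field_simp; ring
    · rw [ey, ← h.hy]; field_simp; ring
    · rw [ez, ← h.hz]; field_simp; ring
  · right
    refine ⟨t0 - t1 * s / t, t1 / t, t2, t3, ?_, ?_, h.h2, h.h3, ?_, ?_, ?_, ?_⟩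
    · rw [sub_nonneg, div_le_iff₀ ht']; exact h5
    · have := h.h1; positivity
    · rw [ew, ← h.hw]; field_simp; ring
    · rw [ex, ← h.hx]; field_simp; ring
    · rw [ey, ← h.hy]; field_simp; ring
    · rw [ez, ← h.hz]; field_simp; ring

theorem InC.swap01 {ξ η ζ : ℝ} {a b c d : V4} (h : InC ξ η ζ a b c d) : InC ξ η ζ b a c d := by
  obtain ⟨t0, t1, t2, t3, h⟩ := h
  exact ⟨t1, t0, t2, t3, h.h1, h.h0, h.h2, h.h3, by linarith [h.hw], by linarith [h.hx],
    by linarith [h.hy], by linarith [h.hz]⟩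

theorem InC.swap12 {ξ η ζ : ℝ} {a b c d : V4} (h : InC ξ η ζ a b c d) : InC ξ η ζ a c b d := by
  obtain ⟨t0, t1, t2, t3, h⟩ := h
  exact ⟨t0, t2, t1, t3, h.h0, h.h2, h.h1, h.h3, by linarith [h.hw], by linarith [h.hx],
    by linarith [h.hy], by linarith [h.hz]⟩

theorem InC.swap23 {ξ η ζ : ℝ} {a b c d : V4} (h : InC ξ η ζ a b c d) : InC ξ η ζ a b d c := by
  obtain ⟨t0, t1, t2, t3, h⟩ := h
  exact ⟨t0, t1, t3, t2, h.h0, h.h1, h.h3, h.h2, by linarith [h.hw], by linarith [h.hx],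
    by linarith [h.hy], by linarith [h.hz]⟩

/-- `(s a + t b) / m` -/
def divV (m : ℕ) (v : V4) : V4 := ⟨Nat.div v.w m, Nat.div v.x m, Nat.div v.y m, Nat.div v.z m⟩

def eqM (m : ℕ) (n v : V4) : Bool :=
  Nat.beq (Nat.mul m n.w) v.w && (Nat.beq (Nat.mul m n.x) v.x && (Nat.beq (Nat.mul m n.y) v.y &&
    Nat.beq (Nat.mul m n.z) v.z))

theorem InC.scale {ξ η ζ : ℝ} {v n b c d : V4} {m : ℕ} (h : InC ξ η ζ v b c d)
    (he : eqM m n v = true) : InC ξ η ζ n b c d := by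
  unfold eqM at he
  simp only [Bool.and_eq_true] at he
  obtain ⟨e1, e2, e3, e4⟩ := he
  have e1 : m * n.w = v.w := Nat.eq_of_beq_eq_true e1
  have e2 : m * n.x = v.x := Nat.eq_of_beq_eq_true e2
  have e3 : m * n.y = v.y := Nat.eq_of_beq_eq_true e3
  have e4 : m * n.z = v.z := Nat.eq_of_beq_eq_true e4
  obtain ⟨t0, t1, t2, t3, h⟩ := h
  refine ⟨t0 * m, t1, t2, t3, mul_nonneg h.h0 (Nat.cast_nonneg _), h.h1, h.h2, h.h3, ?_, ?_, ?_, ?_⟩
  · rw [← h.hw, ← e1]; push_cast; ring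
  · rw [← h.hx, ← e2]; push_cast; ring
  · rw [← h.hy, ← e3]; push_cast; ring
  · rw [← h.hz, ← e4]; push_cast; ring

/-! ### trees -/

inductive Tree where
  | fn (f : ℕ)
  | fh (f : ℕ)
  | cut (k : ℕ) (l : List ℕ)
  | split (p s t m : ℕ) (l r : Tree)

def withG : List GD → ℕ → (GD → Bool) → Bool
  | [], _, _ => false
  | g :: _, 0, k => k g
  | _ :: gs, n + 1, k => withG gs n k

/-- a disjunction of conjunctions of strict inequalities -/
abbrev Dj := List (List Lf)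

def withL {α : Type*} : List α → ℕ → (α → Bool) → Bool
  | [], _, _ => false
  | g :: _, 0, k => k g
  | _ :: gs, n + 1, k => withL gs n k

def neg4 (a b c d : V4) (f : Lf) : Bool := f.neg a && (f.neg b && (f.neg c && f.neg d))
def ok4 (a b c d : V4) (g : GD) : Bool := okV g a && (okV g b && (okV g c && okV g d))

def chkAlt (a b c d : V4) : Dj → List ℕ → Bool
  | [], _ => true
  | _ :: _, [] => false
  | al :: als, n :: ns => withL al n (neg4 a b c d) && chkAlt a b c d als ns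

def forceV (v : V4) (k : V4 → Bool) : Bool :=
  match v.w with
  | 0 => match v.x with
    | 0 => match v.y with
      | 0 => match v.z with
        | 0 => k ⟨0, 0, 0, 0⟩
        | z + 1 => k ⟨0, 0, 0, z + 1⟩
      | y + 1 => match v.z with
        | 0 => k ⟨0, 0, y + 1, 0⟩
        | z + 1 => k ⟨0, 0, y + 1, z + 1⟩
    | x + 1 => match v.y with
      | 0 => match v.z with
        | 0 => k ⟨0, x + 1, 0, 0⟩
        | z + 1 => k ⟨0, x + 1, 0, z + 1⟩
      | y + 1 => match v.z with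
        | 0 => k ⟨0, x + 1, y + 1, 0⟩
        | z + 1 => k ⟨0, x + 1, y + 1, z + 1⟩
  | w + 1 => match v.x with
    | 0 => match v.y with
      | 0 => match v.z with
        | 0 => k ⟨w + 1, 0, 0, 0⟩
        | z + 1 => k ⟨w + 1, 0, 0, z + 1⟩
      | y + 1 => match v.z with
        | 0 => k ⟨w + 1, 0, y + 1, 0⟩
        | z + 1 => k ⟨w + 1, 0, y + 1, z + 1⟩
    | x + 1 => match v.y with
      | 0 => match v.z with
        | 0 => k ⟨w + 1, x + 1, 0, 0⟩
        | z + 1 => k ⟨w + 1, x + 1, 0, z + 1⟩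
      | y + 1 => match v.z with
        | 0 => k ⟨w + 1, x + 1, y + 1, 0⟩
        | z + 1 => k ⟨w + 1, x + 1, y + 1, z + 1⟩

theorem forceV_eq (v : V4) (k : V4 → Bool) : forceV v k = k v := by
  obtain ⟨w, x, y, z⟩ := v
  cases w <;> cases x <;> cases y <;> cases z <;> rfl

def mk (s t m : ℕ) (a b : V4) (k : V4 → Bool) : Bool :=
  forceV (mixV s t a b) fun v => forceV (divV m v) fun n => eqM m n v && k n

def spl (p s t m : ℕ) (a b c d : V4) (L R : V4 → V4 → V4 → V4 → Bool) : Bool :=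
  match p with
  | 0 => mk s t m a b fun n => L n b c d && R a n c d
  | 1 => mk s t m a c fun n => L n b c d && R a b n d
  | 2 => mk s t m a d fun n => L n b c d && R a b c n
  | 3 => mk s t m b c fun n => L a n c d && R a b n d
  | 4 => mk s t m b d fun n => L a n c d && R a b c n
  | _ => mk s t m c d fun n => L a b n d && R a b c n

def chkTree (gs : List GD) (hs : List (GD × GD)) (ds : List Dj) : Tree → V4 → V4 → V4 → V4 → Bool
  | .fn f, a, b, c, d => withG gs f (ok4 a b c d)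
  | .fh f, a, b, c, d => withL hs f fun p => ok4 a b c d p.1 && ok4 a b c d p.2
  | .cut k l, a, b, c, d => withL ds k fun D => chkAlt a b c d D l
  | .split p s t m l r, a, b, c, d =>
    Nat.blt 0 s && (Nat.blt 0 t && spl p s t m a b c d (chkTree gs hs ds l) (chkTree gs hs ds r))

/-- what a disjunction says about the point -/
def DOK (ξ η ζ : ℝ) (D : Dj) : Prop := ∃ al ∈ D, ∀ f ∈ al, 0 < f.val ξ η ζ

theorem withL_spec {α : Type*} {l : List α} {n : ℕ} {k : α → Bool} (h : withL l n k = true) :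
    ∃ x ∈ l, k x = true := by
  induction l generalizing n with
  | nil => simp [withL] at h
  | cons a l ih =>
    cases n with
    | zero => exact ⟨a, List.mem_cons_self, h⟩
    | succ n =>
      obtain ⟨x, hx, h2⟩ := ih h
      exact ⟨x, List.mem_cons_of_mem _ hx, h2⟩

theorem withG_spec {l : List GD} {n : ℕ} {k : GD → Bool} (h : withG l n k = true) :
    ∃ x ∈ l, k x = true := by
  induction l generalizing n with
  | nil => simp [withG] at h
  | cons a l ih =>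
    cases n with
    | zero => exact ⟨a, List.mem_cons_self, h⟩
    | succ n =>
      obtain ⟨x, hx, h2⟩ := ih h
      exact ⟨x, List.mem_cons_of_mem _ hx, h2⟩

theorem chkAlt_spec {ξ η ζ : ℝ} {a b c d : V4} (hin : InC ξ η ζ a b c d) (D : Dj) (l : List ℕ)
    (h : chkAlt a b c d D l = true) : ¬ DOK ξ η ζ D := by
  induction D generalizing l with
  | nil => rintro ⟨al, hal, _⟩; simp at hal
  | cons al D ih =>
    cases l with
    | nil => simp [chkAlt] at h
    | cons n l =>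
      rw [chkAlt, Bool.and_eq_true] at h
      rintro ⟨al', hal, hf⟩
      rcases List.mem_cons.1 hal with rfl | hal
      · obtain ⟨f, hf1, hf2⟩ := withL_spec h.1
        unfold neg4 at hf2
        simp only [Bool.and_eq_true] at hf2
        exact leaf_cut hin (hf f hf1) hf2.1 hf2.2.1 hf2.2.2.1 hf2.2.2.2
      · exact ih l h.2 ⟨al', hal, hf⟩

theorem mk_spec {ξ η ζ : ℝ} {s t m : ℕ} (hs : 0 < s) (ht : 0 < t) {a b c d : V4} {k : V4 → Bool}
    (h : mk s t m a b k = true) (hin : InC ξ η ζ a b c d) :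
    ∃ n, k n = true ∧ (InC ξ η ζ n b c d ∨ InC ξ η ζ a n c d) := by
  unfold mk at h
  simp only [forceV_eq, Bool.and_eq_true] at h
  refine ⟨_, h.2, ?_⟩
  rcases hin.split hs ht with h1 | h1
  · left; exact h1.scale h.1
  · right; exact (h1.swap01.scale h.1).swap01

theorem spl_spec {ξ η ζ : ℝ} {p s t m : ℕ} (hs : 0 < s) (ht : 0 < t) {a b c d : V4}
    {L R : V4 → V4 → V4 → V4 → Bool} (h : spl p s t m a b c d L R = true)
    (hin : InC ξ η ζ a b c d)
    (hL : ∀ a b c d, L a b c d = true → InC ξ η ζ a b c d → False)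
    (hR : ∀ a b c d, R a b c d = true → InC ξ η ζ a b c d → False) : False := by
  unfold spl at h
  split at h
  · obtain ⟨n, hn, h1⟩ := mk_spec hs ht h hin
    rw [Bool.and_eq_true] at hn
    rcases h1 with h1 | h1
    · exact hL _ _ _ _ hn.1 h1
    · exact hR _ _ _ _ hn.2 h1
  · obtain ⟨n, hn, h1⟩ := mk_spec hs ht h hin.swap12
    rw [Bool.and_eq_true] at hn
    rcases h1 with h1 | h1
    · exact hL _ _ _ _ hn.1 h1.swap12
    · exact hR _ _ _ _ hn.2 h1.swap12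
  · obtain ⟨n, hn, h1⟩ := mk_spec hs ht h hin.swap23.swap12
    rw [Bool.and_eq_true] at hn
    rcases h1 with h1 | h1
    · exact hL _ _ _ _ hn.1 h1.swap12.swap23
    · exact hR _ _ _ _ hn.2 h1.swap12.swap23
  · obtain ⟨n, hn, h1⟩ := mk_spec hs ht h hin.swap01.swap12
    rw [Bool.and_eq_true] at hn
    rcases h1 with h1 | h1
    · exact hL _ _ _ _ hn.1 h1.swap12.swap01
    · exact hR _ _ _ _ hn.2 h1.swap12.swap01
  · obtain ⟨n, hn, h1⟩ := mk_spec hs ht h hin.swap01.swap23.swap12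
    rw [Bool.and_eq_true] at hn
    rcases h1 with h1 | h1
    · exact hL _ _ _ _ hn.1 h1.swap12.swap23.swap01
    · exact hR _ _ _ _ hn.2 h1.swap12.swap23.swap01
  · obtain ⟨n, hn, h1⟩ := mk_spec hs ht h hin.swap12.swap01.swap23.swap12
    rw [Bool.and_eq_true] at hn
    rcases h1 with h1 | h1
    · exact hL _ _ _ _ hn.1 h1.swap12.swap23.swap01.swap12
    · exact hR _ _ _ _ hn.2 h1.swap12.swap23.swap01.swap12

theorem chkTree_spec {gs : List GD} {hs : List (GD × GD)} {ds : List Dj} {ξ η ζ : ℝ}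
    (hg : ∀ g ∈ gs, GOK g ξ η ζ) (hh : ∀ p ∈ hs, GOK p.1 ξ η ζ ∨ GOK p.2 ξ η ζ)
    (hd : ∀ D ∈ ds, DOK ξ η ζ D) (T : Tree) (a b c d : V4) (h : chkTree gs hs ds T a b c d = true)
    (hin : InC ξ η ζ a b c d) : False := by
  induction T generalizing a b c d with
  | fn f =>
    obtain ⟨g, hm, h⟩ := withG_spec h
    unfold ok4 at h
    simp only [Bool.and_eq_true] at h
    obtain ⟨h0, h1, h2, h3⟩ := h
    exact leaf_fn hin (hg _ hm) (okV_spec h0) (okV_spec h1) (okV_spec h2) (okV_spec h3)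
  | fh f =>
    obtain ⟨p, hm, h⟩ := withL_spec h
    simp only [Bool.and_eq_true, ok4] at h
    obtain ⟨⟨h0, h1, h2, h3⟩, k0, k1, k2, k3⟩ := h
    rcases hh p hm with hp | hp
    · exact leaf_fn hin hp (okV_spec h0) (okV_spec h1) (okV_spec h2) (okV_spec h3)
    · exact leaf_fn hin hp (okV_spec k0) (okV_spec k1) (okV_spec k2) (okV_spec k3)
  | cut k l =>
    obtain ⟨D, hm, h⟩ := withL_spec h
    exact chkAlt_spec hin _ l h (hd _ hm)
  | split p s t m l r ihl ihr =>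
    rw [chkTree, Bool.and_eq_true, Bool.and_eq_true] at h
    obtain ⟨hs, ht, h⟩ := h
    have hs : 0 < s := by simpa [Nat.blt_eq] using hs
    have ht : 0 < t := by simpa [Nat.blt_eq] using ht
    exact spl_spec hs ht h hin ihl ihr

end Pool.Agent.Work.MP_71a505_fin
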