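import Pool.Agent.Work.MP_71a505_fin.Chk

/-!
Approximations with error tables and norms; the main rule `App.mul`.
-/

namespace Pool.Agent.Work.MP_71a505_fin

def Dom1 (u : ℝ) (c : P1) (m : ℕ) : Prop := |ev1 u c| ≤ (m : ℝ)
def Dom2 (u : ℝ) : P2 → List ℕ → Prop := List.Forall₂ (Dom1 u)
def Dom3 (u : ℝ) : P3 → Tab → Prop := List.Forall₂ (Dom2 u)

def horNT (b : Box) : Tab → ℕ
  | [] => 0
  | r :: rs => Nat.add (horN b.nX r) (cdiv (horNT b rs) b.nY)

theorem Dom2.le {b : Box} {u X Y : ℝ} (h : InBox b u X Y) {p : P2} {A : List ℕ}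
    (hd : Dom2 u p A) : |ev2 u X p| ≤ horN b.nX A := horN_bound h.nX h.X0 h.X1 hd

theorem Dom3.rows {b : Box} {u X Y : ℝ} (h : InBox b u X Y) {p : P3} {A : Tab}
    (hd : Dom3 u p A) :
    List.Forall₂ (fun (c : P2) (m : ℕ) => |ev2 u X c| ≤ (m : ℝ)) p (A.map (horN b.nX)) := by
  unfold Dom3 at hd
  induction hd with
  | nil => exact List.Forall₂.nil
  | cons hcm _ ih => exact List.Forall₂.cons (Dom2.le h hcm) ih

theorem Dom3.le {b : Box} {u X Y : ℝ} (h : InBox b u X Y) {p : P3} {A : Tab}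
    (hd : Dom3 u p A) : |ev3 u X Y p| ≤ horNT b A := by
  have h1 := horN_bound (f := ev2 u X) h.nY h.Y0 h.Y1 (hd.rows h)
  refine h1.trans ?_
  have : ∀ A : Tab, horN b.nY (A.map (horN b.nX)) = horNT b A := by
    intro A
    induction A with
    | nil => rfl
    | cons r A ih =>
      show Nat.add _ (cdiv (horN b.nY (A.map (horN b.nX))) b.nY) = Nat.add _ (cdiv (horNT b A) b.nY)
      rw [ih]
  rw [this]

/-- a polynomial with an error table and bounds for the norms of its coefficients -/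
structure PE where
  p : P3
  e : Tab
  n : Tab

/-- `f` is approximated by `q` below the staircase `T` -/
def App (T : Tab) (u X Y f : ℝ) (q : PE) : Prop :=
  |f - ev3 u X Y q.p| ≤ evT u X Y T q.e ∧ Dom3 u q.p q.n

theorem App.congr {T : Tab} {u X Y f g : ℝ} {p : PE} (hf : App T u X Y f p) (h : f = g) :
    App T u X Y g p := h ▸ hf

def supPE (b : Box) (T : Tab) (f : PE) : ℕ := Nat.add (horNT b f.n) (supT b T f.e)

theorem App.abs_le {b : Box} {T : Tab} {u X Y f : ℝ} (h : InBox b u X Y) {p : PE}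
    (hf : App T u X Y f p) : |f| ≤ supPE b T p := by
  obtain ⟨h1, h2⟩ := hf
  unfold supPE
  have e : ((Nat.add (horNT b p.n) (supT b T p.e) : ℕ) : ℝ) = horNT b p.n + supT b T p.e :=
    Nat.cast_add _ _
  rw [e]
  have h3 := h2.le h
  have h4 := supT_le h T p.e
  calc |f| = |ev3 u X Y p.p + (f - ev3 u X Y p.p)| := by congr 1; ring
    _ ≤ |ev3 u X Y p.p| + |f - ev3 u X Y p.p| := abs_add_le _ _
    _ ≤ _ := add_le_add h3 (h1.trans h4)

/-! ### checks -/

def chkN1 (nu : ℕ) : P2 → List ℕ → Bool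
  | [], [] => true
  | c :: cs, m :: ms => Nat.ble (hor1 nu c) m && chkN1 nu cs ms
  | _, _ => false

def chkN (nu : ℕ) : P3 → Tab → Bool
  | [], [] => true
  | c :: cs, m :: ms => chkN1 nu c m && chkN nu cs ms
  | _, _ => false

theorem chkN1_spec {b : Box} {u X Y : ℝ} (h : InBox b u X Y) {p : P2} {A : List ℕ}
    (hc : chkN1 b.nu p A = true) : Dom2 u p A := by
  induction p generalizing A with
  | nil =>
    cases A with
    | nil => exact List.Forall₂.nil
    | cons m A => simp [chkN1] at hc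
  | cons c p ih =>
    cases A with
    | nil => simp [chkN1] at hc
    | cons m A =>
      rw [chkN1, Bool.and_eq_true] at hc
      refine List.Forall₂.cons ?_ (ih hc.2)
      have h1 := hor1_le h.nu h.u0 h.u1 c
      have h2 : (hor1 b.nu c : ℝ) ≤ m := by exact_mod_cast Nat.le_of_ble_eq_true hc.1
      exact h1.trans h2

theorem chkN_spec {b : Box} {u X Y : ℝ} (h : InBox b u X Y) {p : P3} {A : Tab}
    (hc : chkN b.nu p A = true) : Dom3 u p A := by
  induction p generalizing A with
  | nil =>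
    cases A with
    | nil => exact List.Forall₂.nil
    | cons m A => simp [chkN] at hc
  | cons c p ih =>
    cases A with
    | nil => simp [chkN] at hc
    | cons m A =>
      rw [chkN, Bool.and_eq_true] at hc
      exact List.Forall₂.cons (chkN1_spec h hc.1) (ih hc.2)

def hdN : List ℕ → ℕ
  | [] => 0
  | c :: _ => c

def chkR (B h nu n1 B1 : ℕ) : List ℕ → ℕ → ℕ → P2 → List ℕ → List ℕ → ℕ → Bool
  | [], _, _, t, e, s, o => isZ2 t && Nat.ble (Nat.add o (hdN s)) (hdN e)
  | _ :: _, 0, _, _, _, _, _ => false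
  | L :: Ls, n + 1, M, t, e, s, o => forceN M fun M =>
      chkE B h nu (hdN s) (hdN e) L n1 (Nat.mod M B1) (hdL t) &&
      chkR B h nu n1 B1 Ls n (Nat.div M B1) (tlL t) (tlL e) (tlL s) o

def chkT (B h nu n1 B1 n2 B2 : ℕ) : Tab → ℕ → ℕ → P3 → Tab → Tab → List ℕ → Bool
  | [], _, _, t, e, s, o => isZ3 t && Nat.ble (Nat.add (hdN o) (hdN (hdL s))) (hdN (hdL e))
  | _ :: _, 0, _, _, _, _, _ => false
  | r :: rs, n + 1, M, t, e, s, o => forceN M fun M =>
      chkR B h nu n1 B1 r n2 (Nat.mod M B2) (hdL t) (hdL e) (hdL s) (hdN o) &&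
      chkT B h nu n1 B1 n2 B2 rs n (Nat.div M B2) (tlL t) (tlL e) (tlL s) (tlL o)

theorem b2_mod {B h n1 : ℕ} (hB : B = 2 * h) (hh : 1 ≤ h) {n : ℕ} {p : P2} (hp : Sm2 h n1 p) :
    (b2 B h n1 (n + 1) p) % B ^ n1 = b1 B h n1 (hdL p) := by
  rw [b2, Nat.add_mul_mod_self_left]
  exact Nat.mod_eq_of_lt (b1_lt hB hh n1 _ hp.hd.1)

theorem b2_div {B h n1 : ℕ} (hB : B = 2 * h) (hh : 1 ≤ h) {n : ℕ} {p : P2} (hp : Sm2 h n1 p) :
    (b2 B h n1 (n + 1) p) / B ^ n1 = b2 B h n1 n (tlL p) := by
  rw [b2, Nat.add_mul_div_left _ _ (by have : 0 < B := by omega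
                                       positivity),
    Nat.div_eq_of_lt (b1_lt hB hh n1 _ hp.hd.1), zero_add]

theorem b3_mod {B h n1 n2 : ℕ} (hB : B = 2 * h) (hh : 1 ≤ h) {n : ℕ} {p : P3}
    (hp : Sm3 h n1 n2 p) :
    (b3 B h n1 n2 (n + 1) p) % (B ^ n1) ^ n2 = b2 B h n1 n2 (hdL p) := by
  rw [b3, Nat.add_mul_mod_self_left]
  exact Nat.mod_eq_of_lt (b2_lt hB hh n2 _ hp.hd.1)

theorem b3_div {B h n1 n2 : ℕ} (hB : B = 2 * h) (hh : 1 ≤ h) {n : ℕ} {p : P3}
    (hp : Sm3 h n1 n2 p) :
    (b3 B h n1 n2 (n + 1) p) / (B ^ n1) ^ n2 = b3 B h n1 n2 n (tlL p) := by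
  rw [b3, Nat.add_mul_div_left _ _ (by have : 0 < B := by omega
                                       positivity),
    Nat.div_eq_of_lt (b2_lt hB hh n2 _ hp.hd.1), zero_add]

theorem evR_nil (u X : ℝ) (e : List ℕ) : evR u X [] e = hdN e := by
  cases e <;> simp [evR, hdN]

theorem evR_cons (u X : ℝ) (L : ℕ) (Ls e : List ℕ) :
    evR u X (L :: Ls) e = u ^ L * hdN e + X * evR u X Ls (tlL e) := by
  cases e with
  | nil =>
    have : evR u X Ls [] = 0 := by cases Ls <;> simp [evR]
    simp [evR, hdN, tlL, this]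
  | cons a e => rfl

theorem evT_nil (u X Y : ℝ) (e : Tab) : evT u X Y [] e = hdN (hdL e) := by
  cases e with
  | nil => simp [evT, hdN, hdL]
  | cons a e => simp only [evT, hdL]; exact evR_nil u X a

theorem evT_cons (u X Y : ℝ) (r : List ℕ) (rs e : Tab) :
    evT u X Y (r :: rs) e = evR u X r (hdL e) + Y * evT u X Y rs (tlL e) := by
  cases e with
  | nil =>
    have : evT u X Y rs [] = 0 := by cases rs <;> simp [evT]
    have h2 : evR u X r [] = 0 := by cases r <;> simp [evR]
    simp [evT, hdL, tlL, this, h2]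
  | cons a e => rfl

theorem ev2_hd_tl (u X : ℝ) (p : P2) : ev2 u X p = ev1 u (hdL p) + X * ev2 u X (tlL p) := by
  cases p with
  | nil => simp [ev2, evL, hdL, tlL, ev1]
  | cons a p => rfl

theorem ev3_hd_tl (u X Y : ℝ) (p : P3) :
    ev3 u X Y p = ev2 u X (hdL p) + Y * ev3 u X Y (tlL p) := by
  cases p with
  | nil => simp [ev3, evL, hdL, tlL, ev2]
  | cons a p => rfl

theorem chkR_spec {B h n1 : ℕ} (hB : B = 2 * h) (hh : 1 ≤ h) {b : Box} {u X Y : ℝ}
    (hb : InBox b u X Y) (Ls : List ℕ) (n : ℕ) (r t : P2) (e s : List ℕ) (o : ℕ)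
    (hr : Sm2 h n1 r)
    (hk : chkR B h b.nu n1 (B ^ n1) Ls n (b2 B h n1 n r) t e s o = true)
    (ho : |ev2 u X (r.drop Ls.length)| ≤ o) :
    |ev2 u X r - ev2 u X t| + evR u X Ls s ≤ evR u X Ls e := by
  induction Ls generalizing n r t e s with
  | nil =>
    rw [chkR, Bool.and_eq_true] at hk
    rw [isZ2_ev hk.1, sub_zero, evR_nil, evR_nil]
    have h1 : ((Nat.add o (hdN s) : ℕ) : ℝ) ≤ hdN e := by
      exact_mod_cast Nat.le_of_ble_eq_true hk.2
    have h2 : ((Nat.add o (hdN s) : ℕ) : ℝ) = o + hdN s := Nat.cast_add _ _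
    simp only [List.length_nil, List.drop_zero] at ho
    linarith
  | cons L Ls ih =>
    cases n with
    | zero => simp [chkR] at hk
    | succ n =>
      rw [chkR, forceN_eq, Bool.and_eq_true] at hk
      have e1 : Nat.mod (b2 B h n1 (n + 1) r) (B ^ n1) = b1 B h n1 (hdL r) := b2_mod hB hh hr
      have e2 : Nat.div (b2 B h n1 (n + 1) r) (B ^ n1) = b2 B h n1 n (tlL r) := b2_div hB hh hr
      rw [e1, e2] at hk
      obtain ⟨h1, h2⟩ := chkE_spec hB hh hb.nu L n1 (hdL r) (hdL t) hr.hd.2 hr.hd.1 hk.1 u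
      have h3 := ih n (tlL r) (tlL t) (tlL e) (tlL s) hr.tl hk.2 (by
        rw [List.length_cons, drop_tlL] at ho; exact ho)
      rw [ev2_hd_tl u X r, ev2_hd_tl u X t, evR_cons, evR_cons, ev1_split u L (hdL r), h1]
      have h4 := hor1_le hb.nu hb.u0 hb.u1 ((hdL r).drop L)
      have h5 : |ev1 u (hdL t) + u ^ L * ev1 u (List.drop L (hdL r)) + X * ev2 u X (tlL r)
          - (ev1 u (hdL t) + X * ev2 u X (tlL t))|
          ≤ u ^ L * hor1 b.nu ((hdL r).drop L) + X * |ev2 u X (tlL r) - ev2 u X (tlL t)| := by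
        have e3 : ev1 u (hdL t) + u ^ L * ev1 u (List.drop L (hdL r)) + X * ev2 u X (tlL r)
          - (ev1 u (hdL t) + X * ev2 u X (tlL t))
          = u ^ L * ev1 u (List.drop L (hdL r)) + X * (ev2 u X (tlL r) - ev2 u X (tlL t)) := by
          ring
        rw [e3]
        refine (abs_add_le _ _).trans (add_le_add ?_ ?_)
        · rw [abs_mul, abs_of_nonneg (pow_nonneg hb.u0 L)]
          exact mul_le_mul_of_nonneg_left h4 (pow_nonneg hb.u0 L)
        · rw [abs_mul, abs_of_nonneg hb.X0]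
      have h6 : (hor1 b.nu ((hdL r).drop L) : ℝ) + hdN s ≤ hdN e := by exact_mod_cast h2
      have h7 := mul_le_mul_of_nonneg_left h6 (pow_nonneg hb.u0 L)
      have h8 := mul_le_mul_of_nonneg_left h3 hb.X0
      linarith [h5, h7, h8, mul_add (u ^ L) (hor1 b.nu ((hdL r).drop L) : ℝ) (hdN s : ℝ),
        mul_add X |ev2 u X (tlL r) - ev2 u X (tlL t)| (evR u X Ls (tlL s))]

/-- the parts outside the table -/
def OutOK (u X Y : ℝ) : Tab → P3 → List ℕ → Prop
  | [], m, o => |ev3 u X Y m| ≤ (hdN o : ℝ)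
  | r :: rs, m, o => |ev2 u X ((hdL m).drop r.length)| ≤ (hdN o : ℝ) ∧
      OutOK u X Y rs (tlL m) (tlL o)

theorem chkT_spec {B h n1 n2 : ℕ} (hB : B = 2 * h) (hh : 1 ≤ h) {b : Box} {u X Y : ℝ}
    (hb : InBox b u X Y) (T : Tab) (n : ℕ) (m t : P3) (e s : Tab) (o : List ℕ)
    (hm : Sm3 h n1 n2 m)
    (hk : chkT B h b.nu n1 (B ^ n1) n2 ((B ^ n1) ^ n2) T n (b3 B h n1 n2 n m) t e s o = true)
    (ho : OutOK u X Y T m o) :
    |ev3 u X Y m - ev3 u X Y t| + evT u X Y T s ≤ evT u X Y T e := by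
  induction T generalizing n m t e s o with
  | nil =>
    rw [chkT, Bool.and_eq_true] at hk
    rw [isZ3_ev hk.1, sub_zero, evT_nil, evT_nil]
    have h1 : ((Nat.add (hdN o) (hdN (hdL s)) : ℕ) : ℝ) ≤ hdN (hdL e) := by
      exact_mod_cast Nat.le_of_ble_eq_true hk.2
    have h2 : ((Nat.add (hdN o) (hdN (hdL s)) : ℕ) : ℝ) = hdN o + hdN (hdL s) :=
      Nat.cast_add _ _
    have h3 : |ev3 u X Y m| ≤ (hdN o : ℝ) := ho
    linarith
  | cons r rs ih =>
    cases n with
    | zero => simp [chkT] at hk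
    | succ n =>
      rw [chkT, forceN_eq, Bool.and_eq_true] at hk
      have e1 : Nat.mod (b3 B h n1 n2 (n + 1) m) ((B ^ n1) ^ n2) = b2 B h n1 n2 (hdL m) :=
        b3_mod hB hh hm
      have e2 : Nat.div (b3 B h n1 n2 (n + 1) m) ((B ^ n1) ^ n2) = b3 B h n1 n2 n (tlL m) :=
        b3_div hB hh hm
      rw [e1, e2] at hk
      obtain ⟨ho1, ho2⟩ := ho
      have h1 := chkR_spec hB hh hb r n2 (hdL m) (hdL t) (hdL e) (hdL s) (hdN o) hm.hd.1 hk.1 ho1
      have h2 := ih n (tlL m) (tlL t) (tlL e) (tlL s) (tlL o) hm.tl hk.2 ho2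
      rw [ev3_hd_tl u X Y m, ev3_hd_tl u X Y t, evT_cons, evT_cons]
      have e3 : ev2 u X (hdL m) + Y * ev3 u X Y (tlL m) - (ev2 u X (hdL t) + Y * ev3 u X Y (tlL t))
          = (ev2 u X (hdL m) - ev2 u X (hdL t)) + Y * (ev3 u X Y (tlL m) - ev3 u X Y (tlL t)) := by
        ring
      rw [e3]
      have h3 : |(ev2 u X (hdL m) - ev2 u X (hdL t)) + Y * (ev3 u X Y (tlL m) - ev3 u X Y (tlL t))|
          ≤ |ev2 u X (hdL m) - ev2 u X (hdL t)| + Y * |ev3 u X Y (tlL m) - ev3 u X Y (tlL t)| := by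
        refine (abs_add_le _ _).trans (add_le_add le_rfl ?_)
        rw [abs_mul, abs_of_nonneg hb.Y0]
      have h4 := mul_le_mul_of_nonneg_left h2 hb.Y0
      rw [mul_add] at h4
      linarith

/-- bound of the part of row `k` of a product with `X`-degree at least `J` -/
def rowtp (nX : ℕ) : Tab → Tab → ℕ → ℕ → ℕ
  | [], _, _, _ => 0
  | a :: _, B, 0, J => tp nX a (hdL B) J
  | a :: as, B, k + 1, J => Nat.add (tp nX a (B.getD (k + 1) []) J) (rowtp nX as B k J)

def outsF (b : Box) (A B : Tab) : Tab → ℕ → List ℕ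
  | [], k => [tp b.nY (A.map (horN b.nX)) (B.map (horN b.nX)) k]
  | r :: rs, k => rowtp b.nX A B k r.length :: outsF b A B rs (k + 1)

theorem add2_nil (p : P2) : add2 p [] = p := by
  unfold add2
  cases p <;> rfl

theorem getD_addL2 (p q : P3) (k : ℕ) :
    (add3 p q).getD k [] = add2 (p.getD k []) (q.getD k []) := by
  unfold add3
  induction k generalizing p q with
  | zero =>
    cases p with
    | nil => simp [addL, add2]
    | cons a p =>
      cases q with
      | nil => simp [addL, add2_nil]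
      | cons b q => simp [addL]
  | succ k ih =>
    cases p with
    | nil => simp [addL, add2]
    | cons a p =>
      cases q with
      | nil => simp [addL, add2_nil]
      | cons b q => simpa [addL] using ih p q

theorem tp2_bound {b : Box} {u X Y : ℝ} (h : InBox b u X Y) {p q : P2} {A B : List ℕ}
    (hp : Dom2 u p A) (hq : Dom2 u q B) (J : ℕ) :
    |ev2 u X ((mul2 p q).drop J)| ≤ tp b.nX A B J :=
  tp_bound (f := ev1 u) (by simp [ev1, evL]) (ev1_add u) (ev1_mul u) h.nX h.X0 h.X1 hp hq J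

theorem Dom3.getD {u : ℝ} {q : P3} {B : Tab} (hq : Dom3 u q B) (k : ℕ) :
    Dom2 u (q.getD k []) (B.getD k []) := by
  unfold Dom3 at hq
  induction hq generalizing k with
  | nil => simp only [List.getD_nil]; exact List.Forall₂.nil
  | cons hcm _ ih =>
    cases k with
    | zero => simpa using hcm
    | succ k => simpa using ih k

theorem getD_map_nil (f : P2 → P2) (q : P3) (k : ℕ) :
    (q.map f).getD k [] = f (q.getD k []) ∨ (q.map f).getD k [] = [] := by
  induction q generalizing k with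
  | nil => right; simp
  | cons a q ih =>
    cases k with
    | zero => left; simp
    | succ k => simpa using ih k

theorem rowtp_bound {b : Box} {u X Y : ℝ} (h : InBox b u X Y) {p q : P3} {A B : Tab}
    (hp : Dom3 u p A) (hq : Dom3 u q B) (k J : ℕ) :
    |ev2 u X (((mul3 p q).getD k []).drop J)| ≤ rowtp b.nX A B k J := by
  unfold Dom3 at hp
  induction hp generalizing k with
  | nil => simp [mul3, mulL, ev2, evL, rowtp]
  | @cons c m p A hcm hp ih =>
    have e0 : mul3 (c :: p) q = add3 (q.map (mul2 c)) ([] :: mul3 p q) := rfl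
    rw [e0, getD_addL2]
    have key : ∀ k : ℕ, |ev2 u X (((q.map (mul2 c)).getD k []).drop J)|
        ≤ tp b.nX m (B.getD k []) J := by
      intro k
      rcases getD_map_nil (mul2 c) q k with h1 | h1
      · rw [h1]; exact tp2_bound h hcm (hq.getD k) J
      · rw [h1]; simp [ev2, evL]
    have hsplit : ∀ x y : P2, |ev2 u X ((add2 x y).drop J)|
        ≤ |ev2 u X (x.drop J)| + |ev2 u X (y.drop J)| := by
      intro x y
      have : (add2 x y).drop J = add2 (x.drop J) (y.drop J) := drop_addL add1 x y J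
      rw [this, ev2_add]
      exact abs_add_le _ _
    cases k with
    | zero =>
      rw [rowtp]
      have h1 := hsplit ((q.map (mul2 c)).getD 0 []) (([] :: mul3 p q : P3).getD 0 [])
      have h2 := key 0
      have e2 : (([] :: mul3 p q : P3).getD 0 []) = [] := rfl
      have e3 : B.getD 0 [] = hdL B := by cases B <;> rfl
      rw [e2] at h1 ⊢
      rw [e3] at h2
      simp only [List.drop_nil, ev2, evL, abs_zero, add_zero] at h1
      exact h1.trans h2
    | succ k =>
      rw [rowtp]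
      have h1 := hsplit ((q.map (mul2 c)).getD (k + 1) []) (([] :: mul3 p q : P3).getD (k + 1) [])
      have h2 := key (k + 1)
      have h3 := ih k
      have e2 : (([] :: mul3 p q : P3).getD (k + 1) []) = (mul3 p q).getD k [] := by simp
      rw [e2] at h1 ⊢
      have e : ((Nat.add (tp b.nX m (B.getD (k + 1) []) J) (rowtp b.nX A B k J) : ℕ) : ℝ)
          = tp b.nX m (B.getD (k + 1) []) J + rowtp b.nX A B k J := Nat.cast_add _ _
      rw [e]
      linarith

theorem outOK_outsF {b : Box} {u X Y : ℝ} (h : InBox b u X Y) {p q : P3} {A B : Tab}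
    (hp : Dom3 u p A) (hq : Dom3 u q B) (T : Tab) (k : ℕ) :
    OutOK u X Y T ((mul3 p q).drop k) (outsF b A B T k) := by
  induction T generalizing k with
  | nil =>
    simp only [OutOK, outsF, hdN]
    exact tp_bound (f := ev2 u X) (by simp [ev2, evL]) (ev2_add u X) (ev2_mul u X) h.nY h.Y0 h.Y1
      (hp.rows h) (hq.rows h) k
  | cons r T ih =>
    simp only [OutOK, outsF, hdN]
    constructor
    · have e1 : hdL ((mul3 p q).drop k) = (mul3 p q).getD k [] := by
        generalize mul3 p q = m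
        induction k generalizing m with
        | zero => cases m <;> simp [hdL]
        | succ k ih => cases m with
          | nil => simp [hdL]
          | cons a m => simpa using ih m
      rw [e1]
      exact rowtp_bound h hp hq k r.length
    · have e2 : tlL ((mul3 p q).drop k) = (mul3 p q).drop (k + 1) := by
        generalize mul3 p q = m
        induction k generalizing m with
        | zero => cases m <;> simp [tlL]
        | succ k ih => cases m with
          | nil => simp [tlL]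
          | cons a m => simpa using ih m
      show OutOK u X Y T (tlL ((mul3 p q).drop k)) (outsF b A B T (k + 1))
      rw [e2]
      exact ih (k + 1)

end Pool.Agent.Work.MP_71a505_fin
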