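import Pool.Agent.Work.MP_71a505_fin.Mul

/-!
Quantitative calculus of approximations by truncated polynomials.
A staircase table `T : List (List ℕ)` has rows `T[k] = [L₀, L₁, …]`; the monomial
`u ^ i * X ^ j * Y ^ k` is kept when `i < T[k][j]`; an error table `e` assigns to every corner
`u ^ T[k][j] * X ^ j * Y ^ k` (and to the ends `X ^ J * Y ^ k`, `Y ^ K`) a natural number.
The box is `u ≤ 1 / nu`, `X ≤ 1 / nX`, `Y ≤ 1 / nY`.
-/

namespace Pool.Agent.Work.MP_71a505_fin

structure Box where
  nu : ℕ
  nX : ℕ
  nY : ℕ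

/-- division rounded up -/
def cdiv (a n : ℕ) : ℕ := (a + (n - 1)) / n

theorem cdiv_le {a n : ℕ} (hn : 0 < n) : (a : ℝ) / n ≤ cdiv a n := by
  unfold cdiv
  rw [div_le_iff₀ (by exact_mod_cast hn)]
  have h1 : a ≤ (a + (n - 1)) / n * n := by
    have h2 := Nat.lt_div_mul_add (a := a + (n - 1)) hn
    omega
  exact_mod_cast h1

/-- `∑ |c i| / n ^ i`, rounded up -/
def hor1 (n : ℕ) : P1 → ℕ
  | [] => 0
  | c :: l => c.natAbs + cdiv (hor1 n l) n
def hor2 (b : Box) : P2 → ℕ
  | [] => 0
  | c :: l => hor1 b.nu c + cdiv (hor2 b l) b.nX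
def hor3 (b : Box) : P3 → ℕ
  | [] => 0
  | c :: l => hor2 b c + cdiv (hor3 b l) b.nY

/-- the point lies in the box -/
structure InBox (b : Box) (u X Y : ℝ) : Prop where
  nu : 0 < b.nu
  nX : 0 < b.nX
  nY : 0 < b.nY
  u0 : 0 ≤ u
  X0 : 0 ≤ X
  Y0 : 0 ≤ Y
  u1 : u ≤ 1 / b.nu
  X1 : X ≤ 1 / b.nX
  Y1 : Y ≤ 1 / b.nY

theorem evL_abs_le {α : Type*} {f : α → ℝ} {g : α → ℕ} (hg : ∀ a, |f a| ≤ g a) {n : ℕ}
    (hn : 0 < n) {v : ℝ} (v0 : 0 ≤ v) (v1 : v ≤ 1 / n) {H : List α → ℕ}
    (h0 : ∀ a l, H (a :: l) = g a + cdiv (H l) n) (l : List α) : |evL f v l| ≤ H l := by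
  induction l with
  | nil => simp [evL]
  | cons a l ih =>
    rw [evL, h0]
    push_cast
    have h1 : |v * evL f v l| ≤ (cdiv (H l) n : ℝ) := by
      rw [abs_mul, abs_of_nonneg v0]
      calc v * |evL f v l| ≤ 1 / n * H l := by
            apply mul_le_mul v1 ih (abs_nonneg _) (by positivity)
        _ = H l / n := by ring
        _ ≤ _ := cdiv_le hn
    exact (abs_add_le _ _).trans (add_le_add (hg a) h1)

theorem hor1_le {n : ℕ} (hn : 0 < n) {v : ℝ} (v0 : 0 ≤ v) (v1 : v ≤ 1 / n) (l : P1) :
    |ev1 v l| ≤ hor1 n l :=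
  evL_abs_le (g := Int.natAbs) (fun a => by rw [← Int.cast_abs, Int.abs_eq_natAbs]; simp) hn v0 v1
    (fun _ _ => rfl) l

theorem hor2_le {b : Box} {u X Y : ℝ} (h : InBox b u X Y) (l : P2) :
    |ev2 u X l| ≤ hor2 b l :=
  evL_abs_le (g := hor1 b.nu) (hor1_le h.nu h.u0 h.u1) h.nX h.X0 h.X1 (fun _ _ => rfl) l

theorem hor3_le {b : Box} {u X Y : ℝ} (h : InBox b u X Y) (l : P3) :
    |ev3 u X Y l| ≤ hor3 b l :=
  evL_abs_le (g := hor2 b) (hor2_le h) h.nY h.Y0 h.Y1 (fun _ _ => rfl) l

/-! ### tables -/

abbrev Tab := List (List ℕ)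

noncomputable def evR (u X : ℝ) : List ℕ → List ℕ → ℝ
  | _, [] => 0
  | [], e :: _ => e
  | L :: Ls, e :: es => u ^ L * e + X * evR u X Ls es

noncomputable def evT (u X Y : ℝ) : Tab → Tab → ℝ
  | _, [] => 0
  | [], e :: _ => evR u X [] e
  | r :: rs, e :: es => evR u X r e + Y * evT u X Y rs es

theorem evR_nonneg {u X : ℝ} (hu : 0 ≤ u) (hX : 0 ≤ X) (T e : List ℕ) : 0 ≤ evR u X T e := by
  induction e generalizing T with
  | nil => cases T <;> simp [evR]
  | cons a e ih =>
    cases T with
    | nil => simp [evR]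
    | cons L T =>
      rw [evR]
      have := ih T
      positivity

theorem evT_nonneg {u X Y : ℝ} (hu : 0 ≤ u) (hX : 0 ≤ X) (hY : 0 ≤ Y) (T e : Tab) :
    0 ≤ evT u X Y T e := by
  induction e generalizing T with
  | nil => cases T <;> simp [evT]
  | cons a e ih =>
    cases T with
    | nil => simpa [evT] using evR_nonneg hu hX _ _
    | cons L T =>
      rw [evT]
      have := ih T
      have h2 := evR_nonneg hu hX L a
      positivity

def addR : List ℕ → List ℕ → List ℕ := addL (· + ·)
def addT : Tab → Tab → Tab := addL addR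
def smulR (s : ℕ) (e : List ℕ) : List ℕ := e.map (s * ·)
def smulT (s : ℕ) (e : Tab) : Tab := e.map (smulR s)
def divR (n : ℕ) (e : List ℕ) : List ℕ := e.map (cdiv · n)
def divT (n : ℕ) (e : Tab) : Tab := e.map (divR n)

theorem evR_add (u X : ℝ) (T e f : List ℕ) :
    evR u X T (addR e f) = evR u X T e + evR u X T f := by
  unfold addR
  induction T generalizing e f with
  | nil => cases e <;> cases f <;> simp [addL, evR]
  | cons L T ih =>
    cases e with
    | nil => cases f <;> simp [addL, evR]
    | cons a e =>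
      cases f with
      | nil => simp [addL, evR]
      | cons b f =>
        simp only [addL, evR, ih]
        push_cast; ring

theorem evT_add (u X Y : ℝ) (T e f : Tab) :
    evT u X Y T (addT e f) = evT u X Y T e + evT u X Y T f := by
  unfold addT
  induction T generalizing e f with
  | nil =>
    cases e with
    | nil => cases f <;> simp [addL, evT]
    | cons a e =>
      cases f with
      | nil => simp [addL, evT]
      | cons b f => simp only [addL, evT]; exact evR_add u X [] a b
  | cons L T ih =>
    cases e with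
    | nil => cases f <;> simp [addL, evT]
    | cons a e =>
      cases f with
      | nil => simp [addL, evT]
      | cons b f =>
        simp only [addL, evT, ih, evR_add]
        ring

theorem evR_smul (u X : ℝ) (s : ℕ) (T e : List ℕ) :
    evR u X T (smulR s e) = s * evR u X T e := by
  unfold smulR
  induction e generalizing T with
  | nil => cases T <;> simp [evR]
  | cons a e ih =>
    cases T with
    | nil => simp [evR]
    | cons L T =>
      simp only [List.map_cons, evR, ih]
      push_cast; ring

theorem evT_smul (u X Y : ℝ) (s : ℕ) (T e : Tab) :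
    evT u X Y T (smulT s e) = s * evT u X Y T e := by
  unfold smulT
  induction e generalizing T with
  | nil => cases T <;> simp [evT]
  | cons a e ih =>
    cases T with
    | nil => simpa [evT] using evR_smul u X s [] a
    | cons L T =>
      simp only [List.map_cons, evT, ih, evR_smul]
      ring

theorem evR_div {u X : ℝ} (hu : 0 ≤ u) (hX : 0 ≤ X) {n : ℕ} (hn : 0 < n) (T e : List ℕ) :
    evR u X T e / n ≤ evR u X T (divR n e) := by
  unfold divR
  induction e generalizing T with
  | nil => cases T <;> simp [evR]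
  | cons a e ih =>
    cases T with
    | nil => simpa [evR] using cdiv_le (a := a) hn
    | cons L T =>
      simp only [List.map_cons, evR]
      have h1 := cdiv_le (a := a) hn
      have h2 := ih T
      calc (u ^ L * a + X * evR u X T e) / n = u ^ L * (a / n) + X * (evR u X T e / n) := by ring
        _ ≤ _ := by gcongr

theorem evT_div {u X Y : ℝ} (hu : 0 ≤ u) (hX : 0 ≤ X) (hY : 0 ≤ Y) {n : ℕ} (hn : 0 < n)
    (T e : Tab) : evT u X Y T e / n ≤ evT u X Y T (divT n e) := by
  unfold divT
  induction e generalizing T with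
  | nil => cases T <;> simp [evT]
  | cons a e ih =>
    cases T with
    | nil => simpa [evT] using evR_div hu hX hn [] a
    | cons L T =>
      simp only [List.map_cons, evT]
      have h1 := evR_div hu hX hn L a
      have h2 := ih T
      calc (evR u X L a + Y * evT u X Y T e) / n = evR u X L a / n + Y * (evT u X Y T e / n) := by
            ring
        _ ≤ _ := by gcongr

/-! ### truncation -/

def keepR : List ℕ → P2 → P2
  | [], _ => []
  | _ :: _, [] => []
  | L :: Ls, c :: cs => c.take L :: keepR Ls cs

def errR (b : Box) : List ℕ → P2 → List ℕ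
  | [], p => [hor2 b p]
  | _ :: _, [] => []
  | L :: Ls, c :: cs => hor1 b.nu (c.drop L) :: errR b Ls cs

def keepT : Tab → P3 → P3
  | [], _ => []
  | _ :: _, [] => []
  | r :: rs, c :: cs => keepR r c :: keepT rs cs

def errT (b : Box) : Tab → P3 → Tab
  | [], p => [[hor3 b p]]
  | _ :: _, [] => []
  | r :: rs, c :: cs => errR b r c :: errT b rs cs

theorem ev1_split (u : ℝ) (L : ℕ) (c : P1) :
    ev1 u c = ev1 u (c.take L) + u ^ L * ev1 u (c.drop L) := by
  unfold ev1
  induction c generalizing L with
  | nil => simp [evL]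
  | cons a c ih =>
    cases L with
    | zero => simp [evL]
    | succ L =>
      simp only [List.take_succ_cons, List.drop_succ_cons, evL]
      rw [ih L]; ring

theorem trunc_R {b : Box} {u X Y : ℝ} (h : InBox b u X Y) (T : List ℕ) (p : P2) :
    |ev2 u X p - ev2 u X (keepR T p)| ≤ evR u X T (errR b T p) := by
  induction T generalizing p with
  | nil =>
    simp only [keepR, errR, evR]
    have := hor2_le h p
    simpa [ev2, evL] using this
  | cons L T ih =>
    cases p with
    | nil => simp [keepR, errR, evR]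
    | cons c p =>
      simp only [keepR, errR, evR]
      have h1 := ih p
      have h2 := hor1_le h.nu h.u0 h.u1 (c.drop L)
      have e1 : ev2 u X (c :: p) - ev2 u X (c.take L :: keepR T p)
          = u ^ L * ev1 u (c.drop L) + X * (ev2 u X p - ev2 u X (keepR T p)) := by
        simp only [ev2, evL]
        rw [ev1_split u L c]; ring
      rw [e1]
      refine (abs_add_le _ _).trans (add_le_add ?_ ?_)
      · rw [abs_mul, abs_of_nonneg (pow_nonneg h.u0 L)]
        exact mul_le_mul_of_nonneg_left h2 (pow_nonneg h.u0 L)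
      · rw [abs_mul, abs_of_nonneg h.X0]
        exact mul_le_mul_of_nonneg_left h1 h.X0

theorem trunc_T {b : Box} {u X Y : ℝ} (h : InBox b u X Y) (T : Tab) (p : P3) :
    |ev3 u X Y p - ev3 u X Y (keepT T p)| ≤ evT u X Y T (errT b T p) := by
  induction T generalizing p with
  | nil =>
    simp only [keepT, errT, evT, evR]
    have := hor3_le h p
    simpa [ev3, evL] using this
  | cons L T ih =>
    cases p with
    | nil => simp [keepT, errT, evT]
    | cons c p =>
      simp only [keepT, errT, evT]
      have h1 := ih p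
      have h2 := trunc_R h L c
      have e1 : ev3 u X Y (c :: p) - ev3 u X Y (keepR L c :: keepT T p)
          = (ev2 u X c - ev2 u X (keepR L c)) + Y * (ev3 u X Y p - ev3 u X Y (keepT T p)) := by
        simp only [ev3, evL]; ring
      rw [e1]
      refine (abs_add_le _ _).trans (add_le_add h2 ?_)
      rw [abs_mul, abs_of_nonneg h.Y0]
      exact mul_le_mul_of_nonneg_left h1 h.Y0

/-- bound of an error table on the box -/
def supR (b : Box) : List ℕ → List ℕ → ℕ
  | _, [] => 0
  | [], e :: _ => e
  | L :: Ls, e :: es => cdiv e (b.nu ^ L) + cdiv (supR b Ls es) b.nX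

def supT (b : Box) : Tab → Tab → ℕ
  | _, [] => 0
  | [], e :: _ => supR b [] e
  | r :: rs, e :: es => supR b r e + cdiv (supT b rs es) b.nY

theorem supR_le {b : Box} {u X Y : ℝ} (h : InBox b u X Y) (T e : List ℕ) :
    evR u X T e ≤ supR b T e := by
  induction e generalizing T with
  | nil => cases T <;> simp [evR, supR]
  | cons a e ih =>
    cases T with
    | nil => simp [evR, supR]
    | cons L T =>
      simp only [evR, supR]
      push_cast
      apply add_le_add
      · have h1 : u ^ L ≤ 1 / ((b.nu ^ L : ℕ) : ℝ) := by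
          push_cast
          rw [← one_div_pow]
          exact pow_le_pow_left₀ h.u0 h.u1 L
        calc u ^ L * a ≤ 1 / ((b.nu ^ L : ℕ) : ℝ) * a := by gcongr
          _ = a / ((b.nu ^ L : ℕ) : ℝ) := by ring
          _ ≤ _ := cdiv_le (pow_pos h.nu L)
      · calc X * evR u X T e ≤ 1 / b.nX * supR b T e := by
              apply mul_le_mul h.X1 (ih T) (evR_nonneg h.u0 h.X0 _ _) (by positivity)
          _ = supR b T e / b.nX := by ring
          _ ≤ _ := cdiv_le h.nX

theorem supT_le {b : Box} {u X Y : ℝ} (h : InBox b u X Y) (T e : Tab) :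
    evT u X Y T e ≤ supT b T e := by
  induction e generalizing T with
  | nil => cases T <;> simp [evT, supT]
  | cons a e ih =>
    cases T with
    | nil => simp only [evT, supT]; exact supR_le h _ _
    | cons L T =>
      simp only [evT, supT]
      push_cast
      apply add_le_add (supR_le h _ _)
      calc Y * evT u X Y T e ≤ 1 / b.nY * supT b T e := by
            apply mul_le_mul h.Y1 (ih T) (evT_nonneg h.u0 h.X0 h.Y0 _ _) (by positivity)
        _ = supT b T e / b.nY := by ring
        _ ≤ _ := cdiv_le h.nY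


end Pool.Agent.Work.MP_71a505_fin
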