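import Pool.Agent.Work.MP_71a505_up.Defs

/-!
The chart `X = 1/(ad)`, `Y = 1/(ag)`, `u ^ 3 = 1/(dg)`.
-/

namespace Pool.Agent.Work.MP_71a505_fin

open Pool.Agent.Work.MP_71a505_up

/-- normalised quantities -/
structure Ch (u X Y v χ ψ ω sX sY sZ B C E wh H al be ga de Kh : ℝ) : Prop where
  v0 : 0 < v
  χ0 : 0 < χ
  ψ0 : 0 < ψ
  ω0 : 0 < ω
  uv : v ^ 2 = u
  Xχ : χ ^ 2 = X
  Yψ : ψ ^ 2 = Y
  ωω : ω ^ 2 = ψ * v
  sX0 : 0 < sX
  sY0 : 0 < sY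
  sZ0 : 0 < sZ
  sX2 : sX ^ 2 = 1 + X
  sY2 : sY ^ 2 = 1 + Y
  sZ2 : sZ ^ 2 = 1 + u ^ 3
  B_eq : B = 2 + X + Y + u ^ 3 + 2 * (sX * sY * sZ)
  C_eq : C = 2 * B + 2 * (sX * (sZ + sX * sY) * (sY + sX * sZ)) + X * (u ^ 3 + Y + B)
  E0 : 0 < E
  uE1 : u * E < 1
  wh0 : 0 < wh
  wh2 : wh ^ 2 * (1 + 2 * (u * E)) = B * (C - X * u ^ 3)
  E3 : wh ^ 2 * (E ^ 3 * (2 + u * E)) = C - B * X
  H0 : 0 < H
  H3 : H * (X * H + 3) ^ 2 * (E ^ 3 * wh ^ 2)
    = (sZ + sX * sY) ^ 2 * (2 + 2 * (u * E) ^ 2 - 4 * (u * E) - 3 * (X * H * (u * E)))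
  al0 : 0 < al
  be0 : 0 < be
  ga0 : 0 < ga
  de0 : 0 < de
  al2 : al ^ 2 = H * E * wh
  be2 : be ^ 2 = (X * H + 2 * (u * E) + 4) * E * wh
  ga2 : ga ^ 2 = (X * H * (u * E) + 2 + 4 * (u * E)) * wh
  de2 : de ^ 2 = (2 + 2 * (u * E) ^ 2 - 4 * (u * E) - 3 * (X * H * (u * E))) * wh
  Kh_eq : Kh * de = al * be * ga

/-- monomial scale -/
noncomputable def mon (v χ ψ : ℝ) (p q r : ℤ) : ℝ := χ ^ (-p) * ψ ^ (-q) * v ^ (-r)

theorem mon_mul {v χ ψ : ℝ} (hv : 0 < v) (hχ : 0 < χ) (hψ : 0 < ψ) (p q r p' q' r' : ℤ) :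
    mon v χ ψ p q r * mon v χ ψ p' q' r' = mon v χ ψ (p + p') (q + q') (r + r') := by
  unfold mon
  rw [neg_add, neg_add, neg_add, zpow_add₀ hv.ne', zpow_add₀ hχ.ne', zpow_add₀ hψ.ne']
  ring

theorem mon_pos {v χ ψ : ℝ} (hv : 0 < v) (hχ : 0 < χ) (hψ : 0 < ψ) (p q r : ℤ) :
    0 < mon v χ ψ p q r := by unfold mon; positivity

theorem mon_zero (v χ ψ : ℝ) : mon v χ ψ 0 0 0 = 1 := by simp [mon]

/-- the values of the generators -/
structure Vals (a b c d g r s t x y z xb yb xc W e α β γ δ : ℝ)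
    (u v χ ψ sX sY sZ B C E wh al be ga de Kh : ℝ) : Prop where
  va : a = mon v χ ψ 1 1 (-3)
  vd : d = mon v χ ψ 1 (-1) 3
  vg : g = mon v χ ψ (-1) 1 3
  vx : x = sX * mon v χ ψ 1 0 0
  vy : y = sY * mon v χ ψ 0 1 0
  vz : z = sZ * mon v χ ψ 0 0 3
  vb : b = B * mon v χ ψ 1 1 3
  vc : c = C * mon v χ ψ 3 1 3
  vr : r = (sZ + sX * sY) * mon v χ ψ 1 1 0
  vxb : xb = (sY + sX * sZ) * mon v χ ψ 1 0 3
  vW : W = wh * mon v χ ψ 2 1 3
  vU : e * W = E * wh * mon v χ ψ 2 1 1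
  vM : e ^ 2 * W = E ^ 2 * wh * mon v χ ψ 2 1 (-1)
  vA : α ^ 2 = al ^ 2 * mon v χ ψ 0 1 1
  vB : β ^ 2 = be ^ 2 * mon v χ ψ 2 1 1
  vC : γ ^ 2 = ga ^ 2 * mon v χ ψ 2 1 3
  vD : δ ^ 2 = de ^ 2 * mon v χ ψ 2 1 3
  vαβ : α * β = al * be * mon v χ ψ 1 1 1
  vαγ : α * γ = al * ga * mon v χ ψ 1 1 2
  vαδ : α * δ = al * de * mon v χ ψ 1 1 2
  vβγ : β * γ = be * ga * mon v χ ψ 2 1 2
  vβδ : β * δ = be * de * mon v χ ψ 2 1 2
  vγδ : γ * δ = ga * de * mon v χ ψ 2 1 3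
  vK : α * β * γ / δ = Kh * mon v χ ψ 1 1 1

theorem mon_nat (v χ ψ : ℝ) (p q r : ℕ) :
    mon v χ ψ p q r = 1 / (χ ^ p * ψ ^ q * v ^ r) := by
  unfold mon
  simp only [zpow_neg, zpow_natCast]
  field_simp

theorem chart {a b c d g r s t x y z xb yb xc W e h α β γ δ : ℝ}
    (R : RD a b c r s t W e h α β γ δ) (Q : RQ a b c d g r s t x y z xb yb xc) :
    ∃ u X Y v χ ψ ω sX sY sZ B C E wh H al be ga de Kh : ℝ,
      Ch u X Y v χ ψ ω sX sY sZ B C E wh H al be ga de Kh ∧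
      Vals a b c d g r s t x y z xb yb xc W e α β γ δ u v χ ψ sX sY sZ B C E wh al be ga de Kh ∧
      X * (a * d) = 1 ∧ Y * (a * g) = 1 ∧ u ^ 3 * (d * g) = 1 ∧ 0 < u ∧ 0 < X ∧ 0 < Y := by
  have ha : 0 < a := by have := Q.a1; linarith
  have hd : 0 < d := by have := Q.d1; linarith
  have hg : 0 < g := by have := Q.g1; linarith
  have had : 0 < a * d := by positivity
  have hag : 0 < a * g := by positivity
  have hdg : 0 < d * g := by positivity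
  -- v with v ^ 6 * (d g) = 1
  obtain ⟨v, v0, v6⟩ : ∃ v : ℝ, 0 < v ∧ v ^ 6 * (d * g) = 1 := by
    refine ⟨(d * g) ^ (-(1 / 6 : ℝ)), by positivity, ?_⟩
    rw [← Real.rpow_natCast, ← Real.rpow_mul hdg.le]
    have : (-(1 / 6 : ℝ)) * ((6 : ℕ) : ℝ) = -1 := by norm_num
    rw [this, Real.rpow_neg_one]
    field_simp
  obtain ⟨χ, χ0, χ2⟩ : ∃ χ : ℝ, 0 < χ ∧ χ ^ 2 * (a * d) = 1 := by
    refine ⟨1 / Real.sqrt (a * d), by positivity, ?_⟩
    rw [div_pow, Real.sq_sqrt had.le]; field_simp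
  obtain ⟨ψ, ψ0, ψ2⟩ : ∃ ψ : ℝ, 0 < ψ ∧ ψ ^ 2 * (a * g) = 1 := by
    refine ⟨1 / Real.sqrt (a * g), by positivity, ?_⟩
    rw [div_pow, Real.sq_sqrt hag.le]; field_simp
  obtain ⟨ω, ω0, ω2⟩ : ∃ ω : ℝ, 0 < ω ∧ ω ^ 2 = ψ * v :=
    ⟨Real.sqrt (ψ * v), by positivity, Real.sq_sqrt (by positivity)⟩
  have e1 : χ * ψ * a = v ^ 3 := by
    apply sq_eq_of_pos (by positivity) (by positivity)
    have h1 : (χ * ψ * a) ^ 2 * (d * g) = 1 := by
      have : (χ * ψ * a) ^ 2 * (d * g) = (χ ^ 2 * (a * d)) * (ψ ^ 2 * (a * g)) := by ring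
      rw [this, χ2, ψ2]; ring
    have h2 : (v ^ 3) ^ 2 * (d * g) = 1 := by rw [← v6]; ring
    exact mul_right_cancel₀ hdg.ne' (h1.trans h2.symm)
  have e2 : χ * v ^ 3 * d = ψ := by
    apply sq_eq_of_pos (by positivity) (by positivity)
    have h1 : (χ * v ^ 3 * d) ^ 2 * (a * g) = 1 := by
      have : (χ * v ^ 3 * d) ^ 2 * (a * g) = (χ ^ 2 * (a * d)) * (v ^ 6 * (d * g)) := by ring
      rw [this, χ2, v6]; ring
    exact mul_right_cancel₀ hag.ne' (h1.trans ψ2.symm)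
  have e3 : ψ * v ^ 3 * g = χ := by
    apply sq_eq_of_pos (by positivity) (by positivity)
    have h1 : (ψ * v ^ 3 * g) ^ 2 * (a * d) = 1 := by
      have : (ψ * v ^ 3 * g) ^ 2 * (a * d) = (ψ ^ 2 * (a * g)) * (v ^ 6 * (d * g)) := by ring
      rw [this, ψ2, v6]; ring
    exact mul_right_cancel₀ had.ne' (h1.trans χ2.symm)
  have hx0 := Q.x0
  have hy0 := Q.y0
  have hz0 := Q.z0
  have he := R.he
  have hh := R.hh
  have hW := R.hW
  have hα := R.hα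
  have hβ := R.hβ
  have hγ := R.hγ
  have hδ := R.hδ
  have f1 : a * χ * ψ * v ^ 3 = v ^ 6 := by linear_combination v ^ 3 * e1
  have f2 : d * χ * ψ * v ^ 3 = ψ ^ 2 := by linear_combination ψ * e2
  have f3 : g * χ * ψ * v ^ 3 = χ ^ 2 := by linear_combination χ * e3
  have f4 : a * d * g * χ * ψ * v ^ 3 = 1 := by
    linear_combination (a * g) * f2 + ψ2
  refine ⟨v ^ 2, χ ^ 2, ψ ^ 2, v, χ, ψ, ω, x * χ, y * ψ, z * v ^ 3, b * (χ * ψ * v ^ 3),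
    c * (χ ^ 3 * ψ * v ^ 3), e / v ^ 2, W * (χ ^ 2 * ψ * v ^ 3), h / χ ^ 2, α * ω, β * (χ * ω),
    γ * (χ * v * ω), δ * (χ * v * ω), α * β * γ / δ * (χ * ψ * v), ?_, ?_, χ2, ψ2,
    by rw [← v6]; ring, by positivity, by positivity, by positivity⟩
  · have hue : v ^ 2 * (e / v ^ 2) = e := by field_simp
    have hXH : χ ^ 2 * (h / χ ^ 2) = h := by field_simp
    have hr1 : z * v ^ 3 + x * χ * (y * ψ) = r * (χ * ψ) := by
      rw [Q.er]; linear_combination (-z) * e1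
    have hxb1 : y * ψ + x * χ * (z * v ^ 3) = xb * (χ * v ^ 3) := by
      rw [Q.exb]; linear_combination (-y) * e2
    have hWh2 : (W * (χ ^ 2 * ψ * v ^ 3)) ^ 2 = W ^ 2 * (χ ^ 4 * ψ ^ 2 * v ^ 6) := by ring
    have hE3 : (e / v ^ 2) ^ 3 * v ^ 6 = e ^ 3 := by field_simp
    refine
      { v0 := v0, χ0 := χ0, ψ0 := ψ0, ω0 := ω0, uv := rfl, Xχ := rfl, Yψ := rfl, ωω := ω2
        sX0 := by positivity, sY0 := by positivity, sZ0 := by positivity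
        sX2 := ?_, sY2 := ?_, sZ2 := ?_, B_eq := ?_, C_eq := ?_, E0 := by positivity
        uE1 := ?_, wh0 := by positivity, wh2 := ?_, E3 := ?_, H0 := by positivity, H3 := ?_
        al0 := by positivity, be0 := by positivity, ga0 := by positivity, de0 := by positivity
        al2 := ?_, be2 := ?_, ga2 := ?_, de2 := ?_, Kh_eq := ?_ }
    · linear_combination (-(χ ^ 2)) * Q.x2 + χ2
    · linear_combination (-(ψ ^ 2)) * Q.y2 + ψ2
    · linear_combination (-(v ^ 6)) * Q.z2 + v6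
    · rw [Q.eb]
      linear_combination f1 + f2 + f3 + 2 * f4
    · rw [hr1, hxb1, Q.ec]
      linear_combination (χ ^ 2) * f1 + (χ ^ 2) * f2 + (2 * b * χ * ψ * v ^ 3) * χ2
    · rw [hue]; exact R.he1
    · rw [hue, hWh2]
      linear_combination (-(χ ^ 4 * ψ ^ 2 * v ^ 6)) * R.bca - (b * χ ^ 3 * ψ * v ^ 3) * f1
    · rw [hue, hWh2]
      have h1 : W ^ 2 * (χ ^ 4 * ψ ^ 2 * v ^ 6) * ((e / v ^ 2) ^ 3 * (2 + e))
        = W ^ 2 * (χ ^ 4 * ψ ^ 2) * (2 + e) * ((e / v ^ 2) ^ 3 * v ^ 6) := by ring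
      rw [h1, hE3]
      have h2 : a * χ * ψ = v ^ 3 := by linear_combination e1
      have h3 : W ^ 2 * (χ ^ 4 * ψ ^ 2) * (2 + e) * e ^ 3 = (a * (c - b)) * (χ ^ 4 * ψ ^ 2) := by
        rw [R.acb]; ring
      rw [h3]
      linear_combination ((c - b) * χ ^ 3 * ψ) * h2
    · rw [hue, hXH, hr1]
      have h1 : h / χ ^ 2 * (h + 3) ^ 2 * ((e / v ^ 2) ^ 3 * (W * (χ ^ 2 * ψ * v ^ 3)) ^ 2)
          = h * (h + 3) ^ 2 * W ^ 2 * (χ ^ 2 * ψ ^ 2) * ((e / v ^ 2) ^ 3 * v ^ 6) := by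
        field_simp
      rw [h1, hE3]
      have h2 : r ^ 2 * δ ^ 2 = α ^ 2 * ((h + 3) * e * W) ^ 2 := by
        have := R.rα
        calc r ^ 2 * δ ^ 2 = (r * δ) ^ 2 := by ring
          _ = _ := by rw [this]; ring
      rw [R.D2, R.A2] at h2
      have h3 : r ^ 2 * (2 + 2 * e ^ 2 - 4 * e - 3 * (h * e)) = h * (h + 3) ^ 2 * e ^ 3 * W ^ 2 := by
        have h4 : (r ^ 2 * (2 + 2 * e ^ 2 - 4 * e - 3 * (h * e))) * W
            = (h * (h + 3) ^ 2 * e ^ 3 * W ^ 2) * W := by linear_combination h2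
        exact mul_right_cancel₀ hW.ne' h4
      linear_combination (-(χ ^ 2 * ψ ^ 2)) * h3
    · rw [mul_pow, R.A2, ω2]; field_simp
    · rw [hue, hXH, mul_pow, R.B2, mul_pow, ω2]; field_simp
    · rw [hue, hXH, mul_pow, R.C2, mul_pow, mul_pow, ω2]; ring
    · rw [hue, hXH, mul_pow, R.D2, mul_pow, mul_pow, ω2]; ring
    · have h1 : α * β * γ / δ * (χ * ψ * v) * (δ * (χ * v * ω))
          = α * β * γ * (χ * ψ * v) * (χ * v * ω) := by field_simp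
      rw [h1]
      linear_combination (-(α * β * γ * χ ^ 2 * v * ω)) * ω2
  · have g1 : mon v χ ψ 1 1 (-3) = v ^ 3 / (χ * ψ) := by
      unfold mon
      have h1 : v ^ (-(-3 : ℤ)) = v ^ 3 := by norm_num [zpow_ofNat]
      rw [h1]; simp only [zpow_neg_one]; field_simp
    have g2 : mon v χ ψ 1 (-1) 3 = ψ / (χ * v ^ 3) := by
      unfold mon
      have h1 : ψ ^ (-(-1 : ℤ)) = ψ := by norm_num
      have h2 : v ^ (-(3 : ℤ)) = 1 / v ^ 3 := by rw [zpow_neg, one_div]; norm_cast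
      rw [h1, h2]; simp only [zpow_neg_one]; field_simp
    have g3 : mon v χ ψ (-1) 1 3 = χ / (ψ * v ^ 3) := by
      unfold mon
      have h1 : χ ^ (-(-1 : ℤ)) = χ := by norm_num
      have h2 : v ^ (-(3 : ℤ)) = 1 / v ^ 3 := by rw [zpow_neg, one_div]; norm_cast
      rw [h1, h2]; simp only [zpow_neg_one]; field_simp
    have g4 : mon v χ ψ 2 1 (-1) = v / (χ ^ 2 * ψ) := by
      unfold mon
      have h1 : v ^ (-(-1 : ℤ)) = v := by norm_num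
      have h2 : χ ^ (-(2 : ℤ)) = 1 / χ ^ 2 := by rw [zpow_neg, one_div]; norm_cast
      rw [h1, h2]; simp only [zpow_neg_one]; field_simp
    have m1 := mon_nat v χ ψ 1 0 0
    have m2 := mon_nat v χ ψ 0 1 0
    have m3 := mon_nat v χ ψ 0 0 3
    have m4 := mon_nat v χ ψ 1 1 3
    have m5 := mon_nat v χ ψ 3 1 3
    have m6 := mon_nat v χ ψ 1 1 0
    have m7 := mon_nat v χ ψ 1 0 3
    have m8 := mon_nat v χ ψ 2 1 3
    have m9 := mon_nat v χ ψ 2 1 1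
    have m10 := mon_nat v χ ψ 0 1 1
    have m11 := mon_nat v χ ψ 1 1 1
    have m12 := mon_nat v χ ψ 1 1 2
    have m13 := mon_nat v χ ψ 2 1 2
    push_cast at m1 m2 m3 m4 m5 m6 m7 m8 m9 m10 m11 m12 m13
    have hr1 : z * v ^ 3 + x * χ * (y * ψ) = r * (χ * ψ) := by
      rw [Q.er]; linear_combination (-z) * e1
    have hxb1 : y * ψ + x * χ * (z * v ^ 3) = xb * (χ * v ^ 3) := by
      rw [Q.exb]; linear_combination (-y) * e2
    have hvc : v ^ 2 * (e / v ^ 2) = e := by field_simp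
    refine
      { va := ?_, vd := ?_, vg := ?_, vx := ?_, vy := ?_, vz := ?_, vb := ?_, vc := ?_, vr := ?_
        vxb := ?_, vW := ?_, vU := ?_, vM := ?_, vA := ?_, vB := ?_, vC := ?_, vD := ?_
        vαβ := ?_, vαγ := ?_, vαδ := ?_, vβγ := ?_, vβδ := ?_, vγδ := ?_, vK := ?_ }
    · rw [g1, eq_div_iff (by positivity)]; linear_combination e1
    · rw [g2, eq_div_iff (by positivity)]; linear_combination e2
    · rw [g3, eq_div_iff (by positivity)]; linear_combination e3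
    · rw [m1]; field_simp
    · rw [m2]; field_simp
    · rw [m3]; field_simp
    · rw [m4]; field_simp
    · rw [m5]; field_simp
    · rw [hr1, m6]; field_simp
    · rw [hxb1, m7]; field_simp
    · rw [m8]; field_simp
    · rw [m9]; field_simp
    · rw [g4]; field_simp
    · rw [m10, mul_pow, ω2]; field_simp
    · rw [m9, mul_pow, mul_pow, ω2]; field_simp
    · rw [m8, mul_pow, mul_pow, mul_pow, ω2]; field_simp
    · rw [m8, mul_pow, mul_pow, mul_pow, ω2]; field_simp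
    · rw [m11]
      have h1 : α * ω * (β * (χ * ω)) = α * β * χ * ω ^ 2 := by ring
      rw [h1, ω2]; field_simp
    · rw [m12]
      have h1 : α * ω * (γ * (χ * v * ω)) = α * γ * χ * v * ω ^ 2 := by ring
      rw [h1, ω2]; field_simp
    · rw [m12]
      have h1 : α * ω * (δ * (χ * v * ω)) = α * δ * χ * v * ω ^ 2 := by ring
      rw [h1, ω2]; field_simp
    · rw [m13]
      have h1 : β * (χ * ω) * (γ * (χ * v * ω)) = β * γ * χ ^ 2 * v * ω ^ 2 := by ring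
      rw [h1, ω2]; field_simp
    · rw [m13]
      have h1 : β * (χ * ω) * (δ * (χ * v * ω)) = β * δ * χ ^ 2 * v * ω ^ 2 := by ring
      rw [h1, ω2]; field_simp
    · rw [m8]
      have h1 : γ * (χ * v * ω) * (δ * (χ * v * ω)) = γ * δ * χ ^ 2 * v ^ 2 * ω ^ 2 := by ring
      rw [h1, ω2]; field_simp
    · rw [m11]; field_simp

end Pool.Agent.Work.MP_71a505_fin
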