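import Pool.Agent.Work.MP_71a505_fin.Calc

/-!
Checked multiplication: `chkMul b T k f g r` verifies that `r` is a valid approximation of the
product, see `App.mul`.
-/

namespace Pool.Agent.Work.MP_71a505_fin

/-- force a natural number to a literal -/
def forceN {α : Type*} (n : ℕ) (k : ℕ → α) : α :=
  match n with
  | 0 => k 0
  | m + 1 => k (Nat.succ m)

theorem forceN_eq {α : Type*} (n : ℕ) (k : ℕ → α) : forceN n k = k n := by
  cases n <;> rfl

/-! ### tails of digits -/

def horD (B h nu : ℕ) : ℕ → ℕ → ℕ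
  | 0, _ => 0
  | n + 1, M => forceN M fun M =>
      Nat.add (Nat.add (Nat.sub (Nat.mod M B) h) (Nat.sub h (Nat.mod M B)))
        (cdiv (horD B h nu n (Nat.div M B)) nu)

theorem b1_mod {B h : ℕ} (hB : B = 2 * h) (hh : 1 ≤ h) {n : ℕ} {p : P1} (hp : Sm1 h p) :
    (b1 B h (n + 1) p) % B = (hdZ p + h).toNat := by
  have h2 := abs_lt.1 (hp.hd hh)
  rw [b1, Nat.add_mul_mod_self_left]
  apply Nat.mod_eq_of_lt
  have : hdZ p + h < B := by rw [hB]; push_cast; linarith
  omega

theorem b1_div {B h : ℕ} (hB : B = 2 * h) (hh : 1 ≤ h) {n : ℕ} {p : P1} (hp : Sm1 h p) :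
    (b1 B h (n + 1) p) / B = b1 B h n (tlL p) := by
  have h2 := abs_lt.1 (hp.hd hh)
  have h3 : (hdZ p + h).toNat < B := by
    have : hdZ p + h < B := by rw [hB]; push_cast; linarith
    omega
  rw [b1, Nat.add_mul_div_left _ _ (by omega), Nat.div_eq_of_lt h3, zero_add]

theorem horD_eq {B h nu : ℕ} (hB : B = 2 * h) (hh : 1 ≤ h) (hnu : 0 < nu) (n : ℕ) (p : P1)
    (hl : p.length ≤ n) (hp : Sm1 h p) : horD B h nu n (b1 B h n p) = hor1 nu p := by
  induction n generalizing p with
  | zero =>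
    have : p = [] := List.length_eq_zero_iff.1 (by omega)
    rw [this]; rfl
  | succ n ih =>
    rw [horD, forceN_eq]
    have e1 : Nat.mod (b1 B h (n + 1) p) B = (hdZ p + h).toNat := b1_mod hB hh hp
    have e2 : Nat.div (b1 B h (n + 1) p) B = b1 B h n (tlL p) := b1_div hB hh hp
    rw [e1, e2, ih (tlL p) (length_tlL hl) hp.tl]
    have h2 := abs_lt.1 (hp.hd hh)
    have e3 : Nat.add (Nat.sub (hdZ p + h).toNat h) (Nat.sub h (hdZ p + h).toNat)
        = (hdZ p).natAbs := by
      show ((hdZ p + h).toNat - h) + (h - (hdZ p + h).toNat) = (hdZ p).natAbs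
      omega
    rw [e3]
    cases p with
    | nil =>
      simp only [hdZ, tlL, hor1]
      show 0 + cdiv 0 nu = 0
      unfold cdiv
      rw [zero_add, zero_add]
      exact Nat.div_eq_of_lt (by omega)
    | cons c p => rfl

/-! ### the check of one coefficient polynomial -/

def digEq (d h : ℕ) : ℤ → Bool
  | Int.ofNat n => Nat.beq d (Nat.add h n)
  | Int.negSucc n => Nat.beq (Nat.add d (Nat.succ n)) h

theorem digEq_spec {d h : ℕ} {c : ℤ} (hd : digEq d h c = true) : (d : ℤ) = c + h := by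
  cases c with
  | ofNat n =>
    have := Nat.eq_of_beq_eq_true hd
    simp only [Nat.add_eq] at this
    rw [this]; simp; ring
  | negSucc n =>
    have := Nat.eq_of_beq_eq_true hd
    simp only [Nat.add_eq] at this
    rw [Int.negSucc_eq]
    omega

def chkE (B h nu s e : ℕ) : ℕ → ℕ → ℕ → P1 → Bool
  | 0, n, M, t => isZ1 t && Nat.ble (Nat.add (horD B h nu n M) s) e
  | _ + 1, 0, _, _ => false
  | L + 1, n + 1, M, t => forceN M fun M =>
      digEq (Nat.mod M B) h (hdZ t) && chkE B h nu s e L n (Nat.div M B) (tlL t)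

theorem ev1_hd_tl (u : ℝ) (p : P1) : ev1 u p = hdZ p + u * ev1 u (tlL p) := by
  cases p with
  | nil => simp [ev1, evL, hdZ, tlL]
  | cons a p => rfl

theorem isZ1_ev {u : ℝ} {p : P1} (h : isZ1 p = true) : ev1 u p = 0 := by
  unfold isZ1 at h
  apply evL_zero (isz := fun a : ℤ => a == 0) _ u p h
  intro x hx
  have : x = 0 := by simpa using hx
  rw [this]; simp

theorem isZ2_ev {u X : ℝ} {p : P2} (h : isZ2 p = true) : ev2 u X p = 0 :=
  evL_zero (isz := isZ1) (fun _ ha => isZ1_ev ha) X p h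

theorem isZ3_ev {u X Y : ℝ} {p : P3} (h : isZ3 p = true) : ev3 u X Y p = 0 :=
  evL_zero (isz := isZ2) (fun _ ha => isZ2_ev ha) Y p h

theorem tlL_take {α : Type*} (L : ℕ) (c : List α) : tlL (c.take (L + 1)) = (tlL c).take L := by
  cases c <;> simp [tlL]

theorem hdZ_take (L : ℕ) (c : P1) : hdZ (c.take (L + 1)) = hdZ c := by
  cases c <;> simp [hdZ]

theorem drop_tlL {α : Type*} (L : ℕ) (c : List α) : c.drop (L + 1) = (tlL c).drop L := by
  cases c <;> simp [tlL]

theorem chkE_spec {B h nu s e : ℕ} (hB : B = 2 * h) (hh : 1 ≤ h) (hnu : 0 < nu) (L n : ℕ)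
    (c t : P1) (hl : c.length ≤ n) (hc : Sm1 h c)
    (hk : chkE B h nu s e L n (b1 B h n c) t = true) (u : ℝ) :
    ev1 u (c.take L) = ev1 u t ∧ hor1 nu (c.drop L) + s ≤ e := by
  induction L generalizing n c t with
  | zero =>
    rw [chkE, Bool.and_eq_true] at hk
    rw [horD_eq hB hh hnu n c hl hc] at hk
    refine ⟨?_, Nat.le_of_ble_eq_true hk.2⟩
    rw [isZ1_ev hk.1]
    simp [ev1, evL]
  | succ L ih =>
    cases n with
    | zero => simp [chkE] at hk
    | succ n =>
      rw [chkE, forceN_eq, Bool.and_eq_true] at hk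
      have e1 : Nat.mod (b1 B h (n + 1) c) B = (hdZ c + h).toNat := b1_mod hB hh hc
      have e2 : Nat.div (b1 B h (n + 1) c) B = b1 B h n (tlL c) := b1_div hB hh hc
      rw [e1, e2] at hk
      have h1 := digEq_spec hk.1
      have h2 := (abs_lt.1 (hc.hd hh)).1
      rw [Int.toNat_of_nonneg (by linarith)] at h1
      have h3 : hdZ c = hdZ t := by linarith
      obtain ⟨h4, h5⟩ := ih n (tlL c) (tlL t) (length_tlL hl) hc.tl hk.2
      constructor
      · rw [ev1_hd_tl, ev1_hd_tl u t, hdZ_take, tlL_take, h4, h3]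
      · rw [drop_tlL]; exact h5

/-! ### tails of products -/

/-- bound of `∑_{j ≥ J} c_j x ^ (j - J)` for the product of two polynomials with coefficient
bounds `a`, `b` -/
def tp (n : ℕ) : List ℕ → List ℕ → ℕ → ℕ
  | [], _, _ => 0
  | a :: as, b, 0 => Nat.mul (horN n (a :: as)) (horN n b)
  | a :: as, b, J + 1 => Nat.add (Nat.mul a (horN n (b.drop (J + 1)))) (tp n as b J)
where
  horN (n : ℕ) : List ℕ → ℕ
  | [] => 0
  | c :: l => Nat.add c (cdiv (horN n l) n)

abbrev horN := tp.horN

theorem horN_bound {α : Type*} {f : α → ℝ} {n : ℕ} (hn : 0 < n) {x : ℝ} (x0 : 0 ≤ x)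
    (x1 : x ≤ 1 / n) {p : List α} {A : List ℕ} (h : List.Forall₂ (fun (c : α) (m : ℕ) => |f c| ≤ (m : ℝ)) p A) :
    |evL f x p| ≤ horN n A := by
  induction h with
  | nil => simp [evL, tp.horN]
  | @cons c m p A hcm _ ih =>
    rw [evL, horN, tp.horN]
    have e : ((Nat.add m (cdiv (tp.horN n A) n) : ℕ) : ℝ) = m + cdiv (tp.horN n A) n :=
      Nat.cast_add _ _
    rw [e]
    refine (abs_add_le _ _).trans (add_le_add hcm ?_)
    rw [abs_mul, abs_of_nonneg x0]
    calc x * |evL f x p| ≤ 1 / n * tp.horN n A := by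
          apply mul_le_mul x1 ih (abs_nonneg _) (by positivity)
      _ = tp.horN n A / n := by ring
      _ ≤ _ := cdiv_le hn

theorem drop_addL {α : Type*} (add : α → α → α) (p q : List α) (J : ℕ) :
    (addL add p q).drop J = addL add (p.drop J) (q.drop J) := by
  induction J generalizing p q with
  | zero => rfl
  | succ J ih =>
    cases p with
    | nil => simp [addL]
    | cons a p =>
      cases q with
      | nil =>
        simp only [addL, List.drop_succ_cons, List.drop_nil]
        cases p.drop J <;> simp [addL]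
      | cons b q => simp [addL, ih]

theorem tp_bound {α : Type*} {f : α → ℝ} {z : α} {add mul : α → α → α} (h0 : f z = 0)
    (hadd : ∀ a b, f (add a b) = f a + f b) (hmul : ∀ a b, f (mul a b) = f a * f b)
    {n : ℕ} (hn : 0 < n) {x : ℝ} (x0 : 0 ≤ x) (x1 : x ≤ 1 / n) {p q : List α} {A B : List ℕ}
    (hp : List.Forall₂ (fun (c : α) (m : ℕ) => |f c| ≤ (m : ℝ)) p A)
    (hq : List.Forall₂ (fun (c : α) (m : ℕ) => |f c| ≤ (m : ℝ)) q B) (J : ℕ) :
    |evL f x ((mulL z add mul p q).drop J)| ≤ tp n A B J := by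
  induction hp generalizing J with
  | nil => simp [mulL, evL, tp]
  | @cons c m p A hcm hp ih =>
    cases J with
    | zero =>
      rw [List.drop_zero, evL_mulL h0 hadd hmul, tp, abs_mul]
      have e : ((Nat.mul (horN n (m :: A)) (horN n B) : ℕ) : ℝ)
          = (horN n (m :: A) : ℝ) * horN n B := Nat.cast_mul _ _
      rw [e]
      exact mul_le_mul (horN_bound hn x0 x1 (List.Forall₂.cons hcm hp)) (horN_bound hn x0 x1 hq)
        (abs_nonneg _) (by positivity)
    | succ J =>
      simp only [mulL]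
      rw [drop_addL, evL_addL hadd, tp]
      have e : ((Nat.add (Nat.mul m (horN n (B.drop (J + 1)))) (tp n A B J) : ℕ) : ℝ)
          = m * horN n (B.drop (J + 1)) + tp n A B J := by
        show ((m * horN n (B.drop (J + 1)) + tp n A B J : ℕ) : ℝ) = _
        push_cast; ring
      rw [e]
      refine (abs_add_le _ _).trans (add_le_add ?_ ?_)
      · rw [← List.map_drop, evL_map (fun a => hmul c a), abs_mul]
        refine mul_le_mul hcm (horN_bound hn x0 x1 ?_) (abs_nonneg _) (by positivity)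
        exact List.forall₂_drop _ hq
      · rw [List.drop_succ_cons]
        exact ih J

end Pool.Agent.Work.MP_71a505_fin
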