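import Pool.Agent.Work.MP_71a505_fin.Region
import Pool.Agent.Work.MP_71a505_fin.Chk

/-!
Polyhedral cells: binary trees of splittings of cones by linear forms.
-/

namespace Pool.Agent.Work.MP_71a505_fin

abbrev R4 := ℝ × ℝ × ℝ × ℝ

def V4.r (v : V4) : R4 := (v.w, v.x, v.y, v.z)

/-- the cone over a list of vectors -/
inductive Kn (G : List V4) : R4 → Prop
  | zero : Kn G 0
  | add {p q : R4} : Kn G p → Kn G q → Kn G (p + q)
  | gen {g : V4} (c : ℝ) : 0 ≤ c → g ∈ G → Kn G (c • g.r)

theorem Kn.smul {G : List V4} {p : R4} (h : Kn G p) {c : ℝ} (hc : 0 ≤ c) : Kn G (c • p) := by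
  induction h with
  | zero => rw [smul_zero]; exact Kn.zero
  | add _ _ h1 h2 => rw [smul_add]; exact h1.add h2
  | gen c' hc' hg => rw [smul_smul]; exact Kn.gen _ (mul_nonneg hc hc') hg

theorem Kn.mono {G G' : List V4} (h : ∀ g ∈ G, g ∈ G') {p : R4} (hp : Kn G p) : Kn G' p := by
  induction hp with
  | zero => exact Kn.zero
  | add _ _ h1 h2 => exact h1.add h2
  | gen c hc hg => exact Kn.gen c hc (h _ hg)

/-! ### linear forms -/

def fr (p n : V4) (q : R4) : ℝ :=
  ((p.w : ℝ) - n.w) * q.1 + ((p.x : ℝ) - n.x) * q.2.1 + ((p.y : ℝ) - n.y) * q.2.2.1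
    + ((p.z : ℝ) - n.z) * q.2.2.2

theorem fr_zero (p n : V4) : fr p n 0 = 0 := by simp [fr]

theorem fr_add (p n : V4) (a b : R4) : fr p n (a + b) = fr p n a + fr p n b := by
  simp only [fr, Prod.fst_add, Prod.snd_add]; ring

theorem fr_smul (p n : V4) (c : ℝ) (a : R4) : fr p n (c • a) = c * fr p n a := by
  simp only [fr, Prod.smul_fst, Prod.smul_snd, smul_eq_mul]; ring

theorem fr_r (p n g : V4) : fr p n g.r = (dotV p g : ℝ) - dotV n g := by
  unfold fr V4.r dotV
  simp only [Nat.add_eq, Nat.mul_eq]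
  push_cast; ring

/-! ### splitting by a linear form -/

theorem Kn.decomp {p n : V4} {G A B : List V4} (hA : ∀ g ∈ G, 0 ≤ fr p n g.r → g ∈ A)
    (hB : ∀ g ∈ G, fr p n g.r < 0 → g ∈ B) {q : R4} (h : Kn G q) :
    ∃ a b, Kn A a ∧ Kn B b ∧ q = a + b := by
  induction h with
  | zero => exact ⟨0, 0, Kn.zero, Kn.zero, by simp⟩
  | add _ _ h1 h2 =>
    obtain ⟨a, b, ha, hb, e⟩ := h1
    obtain ⟨a', b', ha', hb', e'⟩ := h2
    exact ⟨a + a', b + b', ha.add ha', hb.add hb', by rw [e, e']; abel⟩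
  | @gen g c hc hg =>
    rcases le_or_gt 0 (fr p n g.r) with h | h
    · exact ⟨_, 0, Kn.gen c hc (hA g hg h), Kn.zero, by simp⟩
    · exact ⟨0, _, Kn.zero, Kn.gen c hc (hB g hg h), by simp⟩

theorem Kn.neg_part {p n : V4} {B : List V4} (hB : ∀ g ∈ B, fr p n g.r < 0) {q : R4} (h : Kn B q) :
    fr p n q ≤ 0 ∧ (fr p n q = 0 → q = 0) := by
  induction h with
  | zero => exact ⟨(fr_zero p n).le, fun _ => rfl⟩
  | add _ _ h1 h2 =>
    rw [fr_add]
    refine ⟨by linarith [h1.1, h2.1], fun h => ?_⟩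
    have e1 := h1.2 (by linarith [h1.1, h2.1])
    have e2 := h2.2 (by linarith [h1.1, h2.1])
    rw [e1, e2, add_zero]
  | @gen g c hc hg =>
    have := hB g hg
    rw [fr_smul]
    refine ⟨mul_nonpos_of_nonneg_of_nonpos hc this.le, fun h => ?_⟩
    rcases mul_eq_zero.1 h with h | h
    · rw [h, zero_smul]
    · linarith

theorem Kn.cross1 {p n : V4} {A G1 : List V4} {b : R4}
    (hA : ∀ a ∈ A, Kn G1 ((-fr p n b) • a.r + fr p n a.r • b)) {q : R4} (h : Kn A q) :
    Kn G1 ((-fr p n b) • q + fr p n q • b) := by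
  induction h with
  | zero => rw [fr_zero, zero_smul, smul_zero, add_zero]; exact Kn.zero
  | @add q1 q2 _ _ h1 h2 =>
    have := h1.add h2
    rw [fr_add, smul_add, add_smul]
    have e : -fr p n b • q1 + fr p n q1 • b + (-fr p n b • q2 + fr p n q2 • b)
        = -fr p n b • q1 + -fr p n b • q2 + (fr p n q1 • b + fr p n q2 • b) := by abel
    rwa [e] at this
  | @gen g c hc hg =>
    have := (hA g hg).smul hc
    rw [fr_smul, smul_comm, mul_smul, ← smul_add]
    exact this

theorem Kn.cross2 {p n : V4} {B G1 : List V4} {a : R4}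
    (hB : ∀ b ∈ B, Kn G1 ((-fr p n b.r) • a + fr p n a • b.r)) {q : R4} (h : Kn B q) :
    Kn G1 ((-fr p n q) • a + fr p n a • q) := by
  induction h with
  | zero => rw [fr_zero, neg_zero, zero_smul, smul_zero, add_zero]; exact Kn.zero
  | @add q1 q2 _ _ h1 h2 =>
    have := h1.add h2
    rw [fr_add, smul_add, neg_add, add_smul]
    have e : -fr p n q1 • a + fr p n a • q1 + (-fr p n q2 • a + fr p n a • q2)
        = -fr p n q1 • a + -fr p n q2 • a + (fr p n a • q1 + fr p n a • q2) := by abel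
    rwa [e] at this
  | @gen g c hc hg =>
    have := (hB g hg).smul hc
    rw [fr_smul, ← mul_neg, mul_smul, smul_comm (fr p n a) c, ← smul_add]
    exact this

/-- the double description step -/
theorem Kn.split {p n : V4} {G G1 : List V4} (h1 : ∀ g ∈ G, 0 ≤ fr p n g.r → g ∈ G1)
    (h2 : ∀ a ∈ G, ∀ b ∈ G, 0 < fr p n a.r → fr p n b.r < 0 →
      Kn G1 ((-fr p n b.r) • a.r + fr p n a.r • b.r)) {q : R4} (h : Kn G q)
    (hq : 0 ≤ fr p n q) : Kn G1 q := by
  classical
  obtain ⟨a, b, ha, hb, e⟩ := h.decomp (p := p) (n := n)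
    (A := G.filter fun g => 0 ≤ fr p n g.r) (B := G.filter fun g => fr p n g.r < 0)
    (fun g hg h => by simp [hg, h]) (fun g hg h => by simp [hg, h])
  have hA1 : Kn G1 a := ha.mono fun g hg => by
    simp only [List.mem_filter, decide_eq_true_eq] at hg
    exact h1 g hg.1 hg.2
  have hneg := hb.neg_part (p := p) (n := n) (fun g hg => by
    simp only [List.mem_filter, decide_eq_true_eq] at hg
    exact hg.2)
  have hx : Kn G1 ((-fr p n b) • a + fr p n a • b) := by
    refine Kn.cross2 (fun b' hb' => ?_) hb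
    simp only [List.mem_filter, decide_eq_true_eq] at hb'
    refine Kn.cross1 (fun a' ha' => ?_) ha
    simp only [List.mem_filter, decide_eq_true_eq] at ha'
    rcases ha'.2.lt_or_eq with h3 | h3
    · exact h2 a' ha'.1 b' hb'.1 h3 hb'.2
    · rw [← h3, zero_smul, add_zero]
      rw [← one_smul ℝ a'.r, smul_smul, mul_one]
      exact Kn.gen _ (by linarith [hb'.2]) (h1 a' ha'.1 ha'.2)
  rw [e, fr_add] at hq
  rw [e]
  have ha0 : 0 ≤ fr p n a := by linarith [hneg.1]
  rcases ha0.lt_or_eq with h3 | h3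
  · have k1 : 0 ≤ 1 - (-fr p n b) / fr p n a := by
      rw [sub_nonneg, div_le_one h3]; linarith
    have := (hA1.smul k1).add (hx.smul (inv_nonneg.2 h3.le))
    have e2 : (1 - -fr p n b / fr p n a) • a + (fr p n a)⁻¹ • ((-fr p n b) • a + fr p n a • b)
        = a + b := by
      rw [smul_add, smul_smul, smul_smul, inv_mul_cancel₀ h3.ne', one_smul, ← add_assoc, ← add_smul]
      congr 1
      have : 1 - -fr p n b / fr p n a + (fr p n a)⁻¹ * -fr p n b = 1 := by
        field_simp; ring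
      rw [this, one_smul]
    rwa [e2] at this
  · have h4 : b = 0 := hneg.2 (le_antisymm hneg.1 (by linarith))
    rw [h4, add_zero]
    exact hA1

theorem fr_swap (p n : V4) (q : R4) : fr n p q = -fr p n q := by unfold fr; ring

/-- the other side -/
theorem Kn.split' {p n : V4} {G G1 : List V4} (h1 : ∀ g ∈ G, fr p n g.r ≤ 0 → g ∈ G1)
    (h2 : ∀ a ∈ G, ∀ b ∈ G, 0 < fr p n a.r → fr p n b.r < 0 →
      Kn G1 ((-fr p n b.r) • a.r + fr p n a.r • b.r)) {q : R4} (h : Kn G q)
    (hq : fr p n q ≤ 0) : Kn G1 q := by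
  refine Kn.split (p := n) (n := p) (fun g hg h3 => h1 g hg ?_) (fun a ha b hb h3 h4 => ?_) h ?_
  · rw [fr_swap] at h3; linarith
  · rw [fr_swap] at h3 h4
    have := h2 b hb a ha (by linarith) (by linarith)
    rw [fr_swap, fr_swap p n a.r, neg_neg, add_comm]
    exact this
  · rw [fr_swap]; linarith

/-! ### the check of a splitting -/

/-- positive, zero and negative generators -/
def splitK (p n : V4) : List V4 → List V4 → List V4 → List V4 →
    (List V4 → List V4 → List V4 → Bool) → Bool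
  | [], A, O, B, k => k A O B
  | g :: G, A, O, B, k =>
    match Nat.ble (dotV p g) (dotV n g), Nat.ble (dotV n g) (dotV p g) with
    | true, true => splitK p n G A (g :: O) B k
    | true, false => splitK p n G A O (g :: B) k
    | false, _ => splitK p n G (g :: A) O B k

theorem splitK_spec {p n : V4} {G A O B : List V4} {k : List V4 → List V4 → List V4 → Bool}
    (h : splitK p n G A O B k = true) :
    ∃ A' O' B', k A' O' B' = true ∧ (∀ g ∈ G, 0 < fr p n g.r → g ∈ A') ∧
      (∀ g ∈ G, fr p n g.r = 0 → g ∈ O') ∧ (∀ g ∈ G, fr p n g.r < 0 → g ∈ B') ∧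
      (∀ g ∈ A, g ∈ A') ∧ (∀ g ∈ O, g ∈ O') ∧ (∀ g ∈ B, g ∈ B') := by
  induction G generalizing A O B with
  | nil => exact ⟨A, O, B, h, by simp, by simp, by simp, fun _ h => h, fun _ h => h, fun _ h => h⟩
  | cons g G ih =>
    rw [splitK] at h
    split at h
    · next h1 h2 =>
      obtain ⟨A', O', B', k1, k2, k3, k4, k5, k6, k7⟩ := ih h
      have h1 := Nat.le_of_ble_eq_true h1
      have h2 := Nat.le_of_ble_eq_true h2
      have h3 : fr p n g.r = 0 := by
        rw [fr_r]
        have : dotV p g = dotV n g := le_antisymm h1 h2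
        rw [this]; ring
      refine ⟨A', O', B', k1, ?_, ?_, ?_, k5, fun x hx => k6 x (List.mem_cons_of_mem _ hx), k7⟩
      · intro x hx hx2
        rcases List.mem_cons.1 hx with rfl | hx
        · linarith
        · exact k2 x hx hx2
      · intro x hx hx2
        rcases List.mem_cons.1 hx with rfl | hx
        · exact k6 _ List.mem_cons_self
        · exact k3 x hx hx2
      · intro x hx hx2
        rcases List.mem_cons.1 hx with rfl | hx
        · linarith
        · exact k4 x hx hx2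
    · next h1 h2 =>
      obtain ⟨A', O', B', k1, k2, k3, k4, k5, k6, k7⟩ := ih h
      have h1 := Nat.le_of_ble_eq_true h1
      have h3 : fr p n g.r ≤ 0 := by
        rw [fr_r]
        have : (dotV p g : ℝ) ≤ dotV n g := by exact_mod_cast h1
        linarith
      have h4 : fr p n g.r ≠ 0 := by
        intro h5
        rw [fr_r] at h5
        have h6 : dotV n g ≤ dotV p g := by
          have : (dotV n g : ℝ) ≤ dotV p g := by linarith
          exact_mod_cast this
        rw [Nat.ble_eq_true_of_le h6] at h2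
        exact absurd h2 (by simp)
      refine ⟨A', O', B', k1, ?_, ?_, ?_, k5, k6, fun x hx => k7 x (List.mem_cons_of_mem _ hx)⟩
      · intro x hx hx2
        rcases List.mem_cons.1 hx with rfl | hx
        · linarith
        · exact k2 x hx hx2
      · intro x hx hx2
        rcases List.mem_cons.1 hx with rfl | hx
        · exact absurd hx2 h4
        · exact k3 x hx hx2
      · intro x hx hx2
        rcases List.mem_cons.1 hx with rfl | hx
        · exact k7 _ List.mem_cons_self
        · exact k4 x hx hx2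
    · next h1 =>
      obtain ⟨A', O', B', k1, k2, k3, k4, k5, k6, k7⟩ := ih h
      have h3 : 0 < fr p n g.r := by
        by_contra h5
        push Not at h5
        rw [fr_r] at h5
        have h6 : dotV p g ≤ dotV n g := by
          have : (dotV p g : ℝ) ≤ dotV n g := by linarith
          exact_mod_cast this
        rw [Nat.ble_eq_true_of_le h6] at h1
        exact absurd h1 (by simp)
      refine ⟨A', O', B', k1, ?_, ?_, ?_, fun x hx => k5 x (List.mem_cons_of_mem _ hx), k6, k7⟩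
      · intro x hx hx2
        rcases List.mem_cons.1 hx with rfl | hx
        · exact k5 _ List.mem_cons_self
        · exact k2 x hx hx2
      · intro x hx hx2
        rcases List.mem_cons.1 hx with rfl | hx
        · linarith
        · exact k3 x hx hx2
      · intro x hx hx2
        rcases List.mem_cons.1 hx with rfl | hx
        · linarith
        · exact k4 x hx hx2

/-- certificate: `m` times the vector is the combination `c` -/
structure Ct where
  m : ℕ
  c : List ℕ

def linW : List ℕ → List V4 → ℕ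
  | c :: cs, z :: zs => Nat.add (Nat.mul c z.w) (linW cs zs)
  | _, _ => 0
def linX : List ℕ → List V4 → ℕ
  | c :: cs, z :: zs => Nat.add (Nat.mul c z.x) (linX cs zs)
  | _, _ => 0
def linY : List ℕ → List V4 → ℕ
  | c :: cs, z :: zs => Nat.add (Nat.mul c z.y) (linY cs zs)
  | _, _ => 0
def linZ : List ℕ → List V4 → ℕ
  | c :: cs, z :: zs => Nat.add (Nat.mul c z.z) (linZ cs zs)
  | _, _ => 0

theorem lin_kn (cs : List ℕ) (Z : List V4) :
    Kn Z ((linW cs Z : ℝ), (linX cs Z : ℝ), (linY cs Z : ℝ), (linZ cs Z : ℝ)) := by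
  induction Z generalizing cs with
  | nil =>
    have : (((linW cs [] : ℕ) : ℝ), ((linX cs [] : ℕ) : ℝ), ((linY cs [] : ℕ) : ℝ),
        ((linZ cs [] : ℕ) : ℝ)) = (0 : R4) := by
      cases cs <;> simp [linW, linX, linY, linZ]
    rw [this]
    exact Kn.zero
  | cons z Z ih =>
    cases cs with
    | nil =>
      have : (((linW [] (z :: Z) : ℕ) : ℝ), ((linX [] (z :: Z) : ℕ) : ℝ),
          ((linY [] (z :: Z) : ℕ) : ℝ), ((linZ [] (z :: Z) : ℕ) : ℝ)) = (0 : R4) := by
        simp [linW, linX, linY, linZ]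
      rw [this]
      exact Kn.zero
    | cons c cs =>
      have h1 := (ih cs).mono (G' := z :: Z) (fun g hg => List.mem_cons_of_mem _ hg)
      have h2 : Kn (z :: Z) ((c : ℝ) • z.r) := Kn.gen _ (Nat.cast_nonneg _) List.mem_cons_self
      have h3 := h2.add h1
      have e : (c : ℝ) • z.r + ((linW cs Z : ℝ), (linX cs Z : ℝ), (linY cs Z : ℝ), (linZ cs Z : ℝ))
          = ((linW (c :: cs) (z :: Z) : ℝ), (linX (c :: cs) (z :: Z) : ℝ),
            (linY (c :: cs) (z :: Z) : ℝ), (linZ (c :: cs) (z :: Z) : ℝ)) := by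
        simp only [linW, linX, linY, linZ, Nat.add_eq, Nat.mul_eq, V4.r]
        push_cast
        rfl
      rwa [e] at h3

def chkCt (α β : ℕ) (a b : V4) (Z : List V4) (t : Ct) : Bool :=
  Nat.ble 1 t.m &&
  (Nat.beq (Nat.mul t.m (Nat.add (Nat.mul β a.w) (Nat.mul α b.w))) (linW t.c Z) &&
  (Nat.beq (Nat.mul t.m (Nat.add (Nat.mul β a.x) (Nat.mul α b.x))) (linX t.c Z) &&
  (Nat.beq (Nat.mul t.m (Nat.add (Nat.mul β a.y) (Nat.mul α b.y))) (linY t.c Z) &&
   Nat.beq (Nat.mul t.m (Nat.add (Nat.mul β a.z) (Nat.mul α b.z))) (linZ t.c Z))))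

theorem chkCt_spec {α β : ℕ} {a b : V4} {Z : List V4} {t : Ct} (h : chkCt α β a b Z t = true) :
    Kn Z ((β : ℝ) • a.r + (α : ℝ) • b.r) := by
  unfold chkCt at h
  simp only [Bool.and_eq_true] at h
  obtain ⟨h0, h1, h2, h3, h4⟩ := h
  have h0 : 1 ≤ t.m := Nat.le_of_ble_eq_true h0
  have h1 : t.m * (β * a.w + α * b.w) = linW t.c Z := Nat.eq_of_beq_eq_true h1
  have h2 : t.m * (β * a.x + α * b.x) = linX t.c Z := Nat.eq_of_beq_eq_true h2
  have h3 : t.m * (β * a.y + α * b.y) = linY t.c Z := Nat.eq_of_beq_eq_true h3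
  have h4 : t.m * (β * a.z + α * b.z) = linZ t.c Z := Nat.eq_of_beq_eq_true h4
  have hm : (0 : ℝ) < t.m := by exact_mod_cast h0
  have h5 := (lin_kn t.c Z).smul (inv_nonneg.2 hm.le)
  have e : (t.m : ℝ)⁻¹ • (((linW t.c Z : ℕ) : ℝ), ((linX t.c Z : ℕ) : ℝ), ((linY t.c Z : ℕ) : ℝ),
      ((linZ t.c Z : ℕ) : ℝ)) = (β : ℝ) • a.r + (α : ℝ) • b.r := by
    rw [← h1, ← h2, ← h3, ← h4]
    push_cast
    ext
    · simp [V4.r]; field_simp
    · simp [V4.r]; field_simp
    · simp [V4.r]; field_simp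
    · simp [V4.r]; field_simp
  rwa [e] at h5

def chkRow (p n a : V4) (Z : List V4) (α : ℕ) : List V4 → List Ct → Bool
  | [], _ => true
  | _ :: _, [] => false
  | b :: B, t :: ts =>
    (forceN (Nat.sub (dotV n b) (dotV p b)) fun β => chkCt α β a b Z t) && chkRow p n a Z α B ts

def chkRows (p n : V4) (Z B : List V4) : List V4 → List (List Ct) → Bool
  | [], _ => true
  | _ :: _, [] => false
  | a :: A, r :: rs =>
    (forceN (Nat.sub (dotV p a) (dotV n a)) fun α => chkRow p n a Z α B r) && chkRows p n Z B A rs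

theorem chkRow_spec {p n a : V4} {Z : List V4} {α : ℕ} {B : List V4} {ts : List Ct}
    (h : chkRow p n a Z α B ts = true) {b : V4} (hb : b ∈ B) :
    Kn Z (((dotV n b - dotV p b : ℕ) : ℝ) • a.r + (α : ℝ) • b.r) := by
  induction B generalizing ts with
  | nil => simp at hb
  | cons b' B ih =>
    cases ts with
    | nil => simp [chkRow] at h
    | cons t ts =>
      rw [chkRow, Bool.and_eq_true, forceN_eq] at h
      rcases List.mem_cons.1 hb with rfl | hb
      · exact chkCt_spec h.1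
      · exact ih h.2 hb

theorem chkRows_spec {p n : V4} {Z B A : List V4} {rs : List (List Ct)}
    (h : chkRows p n Z B A rs = true) {a b : V4} (ha : a ∈ A) (hb : b ∈ B) :
    Kn Z (((dotV n b - dotV p b : ℕ) : ℝ) • a.r + ((dotV p a - dotV n a : ℕ) : ℝ) • b.r) := by
  induction A generalizing rs with
  | nil => simp at ha
  | cons a' A ih =>
    cases rs with
    | nil => simp [chkRows] at h
    | cons r rs =>
      rw [chkRows, Bool.and_eq_true, forceN_eq] at h
      rcases List.mem_cons.1 ha with rfl | ha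
      · exact chkRow_spec h.1 hb
      · exact ih h.2 ha

/-! ### leaves -/

/-- the tangent function of a corner -/
noncomputable def tg (g : GD) (ξ η ζ : ℝ) (c : Cn) (q : R4) : ℝ :=
  2 ^ expF g c 1 ξ η ζ * q.1 + (2 ^ expF g c 1 ξ η ζ * Real.log 2)
    * (expF g c q.1 q.2.1 q.2.2.1 q.2.2.2 - expF g c 1 ξ η ζ * q.1)

noncomputable def tgs (g : GD) (ξ η ζ : ℝ) : List Cn → R4 → ℝ
  | [], _ => 0
  | c :: cs, q => tg g ξ η ζ c q + tgs g ξ η ζ cs q

theorem tgs_zero (g : GD) (ξ η ζ : ℝ) (cs : List Cn) : tgs g ξ η ζ cs 0 = 0 := by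
  induction cs with
  | nil => rfl
  | cons c cs ih => simp [tgs, ih, tg, expF, posF, negF]

theorem tgs_add (g : GD) (ξ η ζ : ℝ) (cs : List Cn) (a b : R4) :
    tgs g ξ η ζ cs (a + b) = tgs g ξ η ζ cs a + tgs g ξ η ζ cs b := by
  induction cs with
  | nil => simp [tgs]
  | cons c cs ih =>
    simp only [tgs, ih, tg, expF, posF, negF, Prod.fst_add, Prod.snd_add]
    ring

theorem tgs_smul (g : GD) (ξ η ζ : ℝ) (cs : List Cn) (t : ℝ) (a : R4) :
    tgs g ξ η ζ cs (t • a) = t * tgs g ξ η ζ cs a := by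
  induction cs with
  | nil => simp [tgs]
  | cons c cs ih =>
    simp only [tgs, ih, tg, expF, posF, negF, Prod.smul_fst, Prod.smul_snd, smul_eq_mul]
    ring

theorem tgs_pt (g : GD) (ξ η ζ : ℝ) (cs : List Cn) :
    tgs g ξ η ζ cs (1, ξ, η, ζ) = sumG g ξ η ζ cs := by
  induction cs with
  | nil => rfl
  | cons c cs ih => simp only [tgs, ih, tg, sumG]; ring

theorem tangent (x y : ℝ) : (2 : ℝ) ^ x + (2 ^ x * Real.log 2) * (y - x) ≤ 2 ^ y := by
  have h1 := Real.add_one_le_exp ((y - x) * Real.log 2)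
  have h2 : (2 : ℝ) ^ y = 2 ^ x * Real.exp ((y - x) * Real.log 2) := by
    rw [Real.rpow_def_of_pos (by norm_num), Real.rpow_def_of_pos (by norm_num), ← Real.exp_add]
    congr 1; ring
  rw [h2]
  have h3 : (0 : ℝ) < 2 ^ x := Real.rpow_pos_of_pos (by norm_num) _
  nlinarith [mul_le_mul_of_nonneg_left h1 h3.le]

theorem tgs_gen {g : GD} {ξ η ζ : ℝ} {v : V4} (cs : List Cn)
    (h : ∀ c ∈ cs, expF g c v.w v.x v.y v.z ≤ v.w * ev g c v) :
    tgs g ξ η ζ cs v.r ≤ v.w * sumV g v cs := by
  induction cs with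
  | nil => simp [tgs, sumV]
  | cons c cs ih =>
    have h1 := ih fun c hc => h c (List.mem_cons_of_mem _ hc)
    have h2 := h c List.mem_cons_self
    simp only [tgs, sumV]
    have h3 : tg g ξ η ζ c v.r ≤ v.w * 2 ^ ev g c v := by
      have hk : (0 : ℝ) ≤ 2 ^ expF g c 1 ξ η ζ * Real.log 2 := by
        have := Real.log_nonneg (show (1 : ℝ) ≤ 2 by norm_num)
        positivity
      have hw : (0 : ℝ) ≤ v.w := Nat.cast_nonneg _
      have h4 := mul_le_mul_of_nonneg_left (tangent (expF g c 1 ξ η ζ) (ev g c v)) hw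
      refine le_trans ?_ h4
      unfold tg V4.r
      simp only
      have h5 := mul_le_mul_of_nonneg_left h2 hk
      nlinarith
    rw [mul_add]
    linarith

theorem leafK {g : GD} {ξ η ζ : ℝ} {G : List V4} (hin : Kn G (1, ξ, η, ζ)) (hg : GOK g ξ η ζ)
    (hv : ∀ v ∈ G, VOK g v) : False := by
  have key : ∀ q : R4, Kn G q → g.q * tgs g ξ η ζ g.cs q ≤ ((2 ^ 24 - 1) / 2 ^ 24) * q.1 := by
    intro q hq
    induction hq with
    | zero => rw [tgs_zero]; simp
    | add _ _ h1 h2 =>
      rw [tgs_add, Prod.fst_add, mul_add, mul_add]; linarith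
    | @gen v c hc hvG =>
      rw [tgs_smul, Prod.smul_fst, smul_eq_mul]
      have h1 := hv v hvG
      have h2 := tgs_gen (ξ := ξ) (η := η) (ζ := ζ) g.cs h1.2
      have h3 : (g.q : ℝ) * tgs g ξ η ζ g.cs v.r ≤ ((2 ^ 24 - 1) / 2 ^ 24) * v.w := by
        have h4 := mul_le_mul_of_nonneg_left h2 (show (0 : ℝ) ≤ g.q from Nat.cast_nonneg _)
        refine h4.trans ?_
        by_cases h0 : v.w = 0
        · rw [h0]; simp
        · have h5 := h1.1 h0
          have hw : (0 : ℝ) ≤ v.w := Nat.cast_nonneg _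
          have h6 := mul_le_mul_of_nonneg_left h5 hw
          rw [div_mul_eq_mul_div, le_div_iff₀ (by positivity)]
          linarith
      have h7 := mul_le_mul_of_nonneg_left h3 hc
      have e1 : (V4.r v).1 = (v.w : ℝ) := rfl
      rw [e1]
      linarith
  have h1 := key _ hin
  rw [tgs_pt] at h1
  unfold GOK at hg
  simp only at h1
  norm_num at h1
  linarith

theorem cutK {f : Lf} {ξ η ζ : ℝ} {G : List V4} (hin : Kn G (1, ξ, η, ζ))
    (hf : 0 < f.val ξ η ζ) (hv : ∀ v ∈ G, f.neg v = true) : False := by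
  have key : ∀ q : R4, Kn G q → fr f.p f.n q ≤ 0 := by
    intro q hq
    induction hq with
    | zero => rw [fr_zero]
    | add _ _ h1 h2 => rw [fr_add]; linarith
    | @gen v c hc hvG =>
      rw [fr_smul, fr_r]
      have h1 := Nat.le_of_ble_eq_true (hv v hvG)
      have h2 : (dotV f.p v : ℝ) ≤ dotV f.n v := by exact_mod_cast h1
      exact mul_nonpos_of_nonneg_of_nonpos hc (by linarith)
  have h1 := key _ hin
  unfold fr at h1
  unfold Lf.val at hf
  simp only at h1
  linarith

/-! ### trees -/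

inductive PT where
  | fn (f : ℕ)
  | fh (f : ℕ)
  | cut (k : ℕ) (l : List ℕ)
  | sp (p n : V4) (Z : List V4) (rs : List (List Ct)) (l r : PT)

def allV (k : V4 → Bool) : List V4 → Bool
  | [] => true
  | v :: vs => k v && allV k vs

theorem allV_spec {k : V4 → Bool} {G : List V4} (h : allV k G = true) : ∀ v ∈ G, k v = true := by
  induction G with
  | nil => simp
  | cons v G ih =>
    rw [allV, Bool.and_eq_true] at h
    intro x hx
    rcases List.mem_cons.1 hx with rfl | hx
    · exact h.1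
    · exact ih h.2 x hx

def chkAltK (G : List V4) : Dj → List ℕ → Bool
  | [], _ => true
  | _ :: _, [] => false
  | al :: als, n :: ns => withL al n (fun f => allV f.neg G) && chkAltK G als ns

theorem chkAltK_spec {ξ η ζ : ℝ} {G : List V4} (hin : Kn G (1, ξ, η, ζ)) (D : Dj) (l : List ℕ)
    (h : chkAltK G D l = true) : ¬ DOK ξ η ζ D := by
  induction D generalizing l with
  | nil => rintro ⟨al, hal, _⟩; simp at hal
  | cons al D ih =>
    cases l with
    | nil => simp [chkAltK] at h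
    | cons n l =>
      rw [chkAltK, Bool.and_eq_true] at h
      rintro ⟨al', hal, hf⟩
      rcases List.mem_cons.1 hal with rfl | hal
      · obtain ⟨f, hf1, hf2⟩ := withL_spec h.1
        exact cutK hin (hf f hf1) (allV_spec hf2)
      · exact ih l h.2 ⟨al', hal, hf⟩

def appK : List V4 → List V4 → (List V4 → Bool) → Bool
  | [], Z, k => k Z
  | o :: O, Z, k => appK O Z fun L => k (o :: L)

theorem appK_eq (O Z : List V4) (k : List V4 → Bool) : appK O Z k = k (O ++ Z) := by
  induction O generalizing k with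
  | nil => rfl
  | cons o O ih => rw [appK, ih]; rfl

def chkPT (gs : List GD) (hs : List (GD × GD)) (ds : List Dj) : PT → List V4 → Bool
  | .fn f, G => withG gs f fun g => allV (okV g) G
  | .fh f, G => withL hs f fun p => allV (okV p.1) G && allV (okV p.2) G
  | .cut k l, G => withL ds k fun D => chkAltK G D l
  | .sp p n Z rs l r, G => splitK p n G [] [] [] fun A O B => appK O Z fun L =>
      chkRows p n L B A rs && (chkPT gs hs ds l (A ++ L) && chkPT gs hs ds r (B ++ L))

theorem chkPT_spec {gs : List GD} {hs : List (GD × GD)} {ds : List Dj} {ξ η ζ : ℝ}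
    (hg : ∀ g ∈ gs, GOK g ξ η ζ) (hh : ∀ p ∈ hs, GOK p.1 ξ η ζ ∨ GOK p.2 ξ η ζ)
    (hd : ∀ D ∈ ds, DOK ξ η ζ D) (T : PT) (G : List V4) (h : chkPT gs hs ds T G = true)
    (hin : Kn G (1, ξ, η, ζ)) : False := by
  induction T generalizing G with
  | fn f =>
    obtain ⟨g, hm, h⟩ := withG_spec h
    exact leafK hin (hg _ hm) fun v hv => okV_spec (allV_spec h v hv)
  | fh f =>
    obtain ⟨p, hm, h⟩ := withL_spec h
    rw [Bool.and_eq_true] at h
    rcases hh p hm with hp | hp
    · exact leafK hin hp fun v hv => okV_spec (allV_spec h.1 v hv)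
    · exact leafK hin hp fun v hv => okV_spec (allV_spec h.2 v hv)
  | cut k l =>
    obtain ⟨D, hm, h⟩ := withL_spec h
    exact chkAltK_spec hin _ l h (hd _ hm)
  | sp p n Z rs l r ihl ihr =>
    obtain ⟨A, O, B, hk, hA, hO, hB, _, _, _⟩ := splitK_spec h
    rw [appK_eq, Bool.and_eq_true, Bool.and_eq_true] at hk
    obtain ⟨k1, k2, k3⟩ := hk
    have cross : ∀ a ∈ G, ∀ b ∈ G, 0 < fr p n a.r → fr p n b.r < 0 →
        Kn (O ++ Z) ((-fr p n b.r) • a.r + fr p n a.r • b.r) := by
      intro a ha b hb h1 h2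
      have := chkRows_spec k1 (hA a ha h1) (hB b hb h2)
      rw [fr_r] at h1 h2
      have e1 : ((dotV n b - dotV p b : ℕ) : ℝ) = -fr p n b.r := by
        rw [fr_r, Nat.cast_sub]
        · ring
        · have : (dotV p b : ℝ) ≤ dotV n b := by linarith
          exact_mod_cast this
      have e2 : ((dotV p a - dotV n a : ℕ) : ℝ) = fr p n a.r := by
        rw [fr_r, Nat.cast_sub]
        have : (dotV n a : ℝ) ≤ dotV p a := by linarith
        exact_mod_cast this
      rwa [e1, e2] at this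
    rcases le_total 0 (fr p n (1, ξ, η, ζ)) with h0 | h0
    · refine ihl _ k2 (Kn.split (fun g hg h1 => ?_) (fun a ha b hb h1 h2 => ?_) hin h0)
      · rcases h1.lt_or_eq with h1 | h1
        · simp [hA g hg h1]
        · simp [hO g hg h1.symm]
      · exact (cross a ha b hb h1 h2).mono fun g hg => List.mem_append_right _ hg
    · refine ihr _ k3 (Kn.split' (fun g hg h1 => ?_) (fun a ha b hb h1 h2 => ?_) hin h0)
      · rcases h1.lt_or_eq with h1 | h1
        · simp [hB g hg h1]
        · simp [hO g hg h1]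
      · exact (cross a ha b hb h1 h2).mono fun g hg => List.mem_append_right _ hg

/-- the positive orthant -/
def root4 : List V4 := [⟨1, 0, 0, 0⟩, ⟨0, 1, 0, 0⟩, ⟨0, 0, 1, 0⟩, ⟨0, 0, 0, 1⟩]

theorem root_kn {ξ η ζ : ℝ} (h1 : 0 ≤ ξ) (h2 : 0 ≤ η) (h3 : 0 ≤ ζ) : Kn root4 (1, ξ, η, ζ) := by
  have a0 : Kn root4 ((1 : ℝ) • (⟨1, 0, 0, 0⟩ : V4).r) := Kn.gen _ (by norm_num) (by simp [root4])
  have a1 : Kn root4 (ξ • (⟨0, 1, 0, 0⟩ : V4).r) := Kn.gen _ h1 (by simp [root4])
  have a2 : Kn root4 (η • (⟨0, 0, 1, 0⟩ : V4).r) := Kn.gen _ h2 (by simp [root4])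
  have a3 : Kn root4 (ζ • (⟨0, 0, 0, 1⟩ : V4).r) := Kn.gen _ h3 (by simp [root4])
  have := ((a0.add a1).add a2).add a3
  have e : (1 : ℝ) • (⟨1, 0, 0, 0⟩ : V4).r + ξ • (⟨0, 1, 0, 0⟩ : V4).r + η • (⟨0, 0, 1, 0⟩ : V4).r
      + ζ • (⟨0, 0, 0, 1⟩ : V4).r = (1, ξ, η, ζ) := by
    simp [V4.r]
  rwa [e] at this

end Pool.Agent.Work.MP_71a505_fin
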