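import Pool.Agent.Work.MP_71a505_fin.Mono
import Pool.Agent.Work.MP_71a505_fin.Region

/-!
From a checked function to a bound `GOK`.
-/

namespace Pool.Agent.Work.MP_71a505_fin

/-- corner: coefficient and exponents -/
structure Co where
  K : ℕ
  i : ℕ
  j : ℕ
  k : ℕ

def coR (k : ℕ) : ℕ → List ℕ → List ℕ → List Co
  | _, _, [] => []
  | j, [], e :: _ => [⟨e, 0, j, k⟩]
  | j, L :: Ls, e :: es => ⟨e, L, j, k⟩ :: coR k (Nat.succ j) Ls es

def coT : ℕ → Tab → Tab → List Co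
  | _, _, [] => []
  | k, [], e :: _ => coR k 0 [] e
  | k, r :: rs, e :: es => coR k 0 r e ++ coT (Nat.succ k) rs es

noncomputable def coV (u X Y : ℝ) : List Co → ℝ
  | [] => 0
  | c :: cs => c.K * (u ^ c.i * X ^ c.j * Y ^ c.k) + coV u X Y cs

theorem coV_append (u X Y : ℝ) (a b : List Co) : coV u X Y (a ++ b) = coV u X Y a + coV u X Y b := by
  induction a with
  | nil => simp [coV]
  | cons c a ih => simp only [List.cons_append, coV, ih]; ring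

theorem coR_eq (u X Y : ℝ) (k j : ℕ) (L e : List ℕ) :
    coV u X Y (coR k j L e) = X ^ j * Y ^ k * evR u X L e := by
  induction e generalizing j L with
  | nil => cases L <;> simp [coR, coV, evR]
  | cons a e ih =>
    cases L with
    | nil => simp only [coR, coV, evR]; ring
    | cons L Ls =>
      simp only [coR, coV, evR, ih, Nat.succ_eq_add_one]
      ring

theorem coT_eq (u X Y : ℝ) (k : ℕ) (T e : Tab) : coV u X Y (coT k T e) = Y ^ k * evT u X Y T e := by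
  induction e generalizing k T with
  | nil => cases T <;> simp [coT, coV, evT]
  | cons a e ih =>
    cases T with
    | nil => simp only [coT, evT, coR_eq]; ring
    | cons r rs =>
      simp only [coT, coV_append, coR_eq, evT, ih, Nat.succ_eq_add_one]
      ring

/-- the check that `g.cs` bounds the corners; `N` is the total denominator, `M` a factor, `W` the
fourth power of a further denominator -/
def chkCo (M N W : ℕ) : List Co → List Cn → Bool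
  | [], _ => true
  | c :: cs, [] => Nat.beq c.K 0 && chkCo M N W cs []
  | c :: cs, d :: ds => (Nat.beq c.K 0 && chkCo M N W cs (d :: ds)) ||
      (Nat.beq c.i d.i && (Nat.beq c.j d.j && (Nat.beq c.k d.k &&
          (Nat.ble (Nat.mul (Nat.pow (Nat.mul M c.K) 4) (Nat.pow 2 OFF))
            (Nat.mul (Nat.mul (Nat.pow 2 d.l) (Nat.pow (Nat.mul (Nat.mul N (Nat.pow 24 c.i))
              (Nat.mul (Nat.pow 1296 c.j) (Nat.pow 144 c.k))) 4)) W) && chkCo M N W cs ds))))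

theorem rpow_exp {g : GD} {d : Cn} {v χ ψ ξ η ζ : ℝ} {P Q R : ℕ} (hP : g.P = 2 * P)
    (hQ : g.Q = 2 * Q) (hR : g.R = 2 * R) (hv : 0 < v) (hχ : 0 < χ) (hψ : 0 < ψ)
    (hξ : ξ = 24 * Real.logb 2 χ⁻¹) (hη : η = 24 * Real.logb 2 ψ⁻¹) (hζ : ζ = 24 * Real.logb 2 v⁻¹) :
    (2 : ℝ) ^ (expF g d 1 ξ η ζ) = (2 : ℝ) ^ (((d.l : ℝ) - OFF) / 4)
      * (mon v χ ψ P Q R * ((v ^ 2) ^ d.i * (χ ^ 2) ^ d.j * (ψ ^ 2) ^ d.k)) := by
  have h2 : (0 : ℝ) < 2 := by norm_num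
  have key : ∀ (x : ℝ) (n : ℝ), 0 < x → (2 : ℝ) ^ (n * Real.logb 2 x⁻¹) = (x⁻¹) ^ n := by
    intro x n hx
    rw [mul_comm, Real.rpow_mul h2.le, Real.rpow_logb h2 (by norm_num) (inv_pos.2 hx)]
  have e1 : expF g d 1 ξ η ζ = ((d.l : ℝ) - OFF) / 4 + ((P : ℝ) - 2 * d.j) * Real.logb 2 χ⁻¹
      + ((Q : ℝ) - 2 * d.k) * Real.logb 2 ψ⁻¹ + ((R : ℝ) - 2 * d.i) * Real.logb 2 v⁻¹ := by
    unfold expF posF negF
    rw [hξ, hη, hζ, hP, hQ, hR]; push_cast; ring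
  rw [e1, Real.rpow_add h2, Real.rpow_add h2, Real.rpow_add h2, key χ _ hχ, key ψ _ hψ, key v _ hv]
  have k2 : ∀ (x : ℝ) (n m : ℕ), 0 < x → (x⁻¹) ^ ((n : ℝ) - 2 * (m : ℝ)) = x ^ (-(n : ℤ)) * (x ^ 2) ^ m := by
    intro x n m hx
    have hx' : (0 : ℝ) < x⁻¹ := inv_pos.2 hx
    rw [Real.rpow_sub hx', Real.rpow_natCast, zpow_neg, zpow_natCast, inv_pow]
    have : (x⁻¹) ^ (2 * (m : ℝ)) = ((x ^ 2) ^ m)⁻¹ := by
      rw [show (2 * (m : ℝ)) = ((2 * m : ℕ) : ℝ) by push_cast; ring, Real.rpow_natCast, inv_pow,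
        pow_mul]
    rw [this, div_inv_eq_mul]
  rw [k2 χ _ _ hχ, k2 ψ _ _ hψ, k2 v _ _ hv]
  unfold mon
  ring

theorem sumG_nonneg (g : GD) (ξ η ζ : ℝ) (ds : List Cn) : 0 ≤ sumG g ξ η ζ ds := by
  induction ds with
  | nil => simp [sumG]
  | cons d ds ih => simp only [sumG]; positivity

theorem chkCo_spec {g : GD} {v χ ψ ξ η ζ : ℝ} {P Q R : ℕ} (hP : g.P = 2 * P)
    (hQ : g.Q = 2 * Q) (hR : g.R = 2 * R) (hv : 0 < v) (hχ : 0 < χ) (hψ : 0 < ψ)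
    (hξ : ξ = 24 * Real.logb 2 χ⁻¹) (hη : η = 24 * Real.logb 2 ψ⁻¹) (hζ : ζ = 24 * Real.logb 2 v⁻¹)
    {M N W : ℕ} {κ : ℝ} (hκ : 0 ≤ κ) (hκW : κ ^ 4 = W) (hN : 0 < N) (cs : List Co) (ds : List Cn)
    (h : chkCo M N W cs ds = true) :
    M * (mon v χ ψ P Q R * coV (v ^ 2 / 24) (χ ^ 2 / 1296) (ψ ^ 2 / 144) cs)
      ≤ N * κ * sumG g ξ η ζ ds := by
  have hM := mon_pos hv hχ hψ P Q R
  have hN' : (0 : ℝ) < N := by exact_mod_cast hN
  have hM0 : (0 : ℝ) ≤ M := Nat.cast_nonneg _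
  induction cs generalizing ds with
  | nil =>
    simp only [coV, mul_zero]
    exact mul_nonneg (mul_nonneg hN'.le hκ) (sumG_nonneg _ _ _ _ _)
  | cons c cs ih =>
    cases ds with
    | nil =>
      rw [chkCo, Bool.and_eq_true] at h
      have h0 : c.K = 0 := Nat.eq_of_beq_eq_true h.1
      have := ih [] h.2
      simp only [coV, h0]
      simpa using this
    | cons d ds =>
      rw [chkCo, Bool.or_eq_true] at h
      rcases h with h | h
      · rw [Bool.and_eq_true] at h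
        have h0 : c.K = 0 := Nat.eq_of_beq_eq_true h.1
        have := ih _ h.2
        simp only [coV, h0]
        simpa using this
      · simp only [Bool.and_eq_true] at h
        obtain ⟨h1, h2, h3, h4, h5⟩ := h
        have h1 : c.i = d.i := Nat.eq_of_beq_eq_true h1
        have h2 : c.j = d.j := Nat.eq_of_beq_eq_true h2
        have h3 : c.k = d.k := Nat.eq_of_beq_eq_true h3
        have h4 := Nat.le_of_ble_eq_true h4
        simp only [Nat.mul_eq, Nat.pow_eq] at h4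
        have h6 := ih ds h5
        simp only [coV, sumG]
        have e0 : (M : ℝ) * (mon v χ ψ P Q R * (c.K * ((v ^ 2 / 24) ^ c.i * (χ ^ 2 / 1296) ^ c.j
              * (ψ ^ 2 / 144) ^ c.k) + coV (v ^ 2 / 24) (χ ^ 2 / 1296) (ψ ^ 2 / 144) cs))
            = M * (mon v χ ψ P Q R * (c.K * ((v ^ 2 / 24) ^ c.i * (χ ^ 2 / 1296) ^ c.j
              * (ψ ^ 2 / 144) ^ c.k)))
            + M * (mon v χ ψ P Q R * coV (v ^ 2 / 24) (χ ^ 2 / 1296) (ψ ^ 2 / 144) cs) := by ring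
        rw [e0, mul_add]
        refine add_le_add ?_ h6
        rw [rpow_exp hP hQ hR hv hχ hψ hξ hη hζ, h1, h2, h3]
        have e1 : (v ^ 2 / 24) ^ d.i * (χ ^ 2 / 1296) ^ d.j * (ψ ^ 2 / 144) ^ d.k
            = ((v ^ 2) ^ d.i * (χ ^ 2) ^ d.j * (ψ ^ 2) ^ d.k)
              / (24 ^ d.i * (1296 ^ d.j * 144 ^ d.k)) := by
          rw [div_pow, div_pow, div_pow]; field_simp
        rw [e1]
        set Mo := (v ^ 2) ^ d.i * (χ ^ 2) ^ d.j * (ψ ^ 2) ^ d.k with hMo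
        have hMo0 : 0 < Mo := by rw [hMo]; positivity
        set Dn : ℝ := 24 ^ d.i * (1296 ^ d.j * 144 ^ d.k) with hDn
        have hDn0 : 0 < Dn := by rw [hDn]; positivity
        have h7 : (M : ℝ) * c.K ≤ (2 : ℝ) ^ (((d.l : ℝ) - OFF) / 4) * (N * κ * Dn) := by
          have h8 : ((M : ℝ) * c.K) ^ 4
              ≤ ((2 : ℝ) ^ (((d.l : ℝ) - OFF) / 4) * (N * κ * Dn)) ^ 4 := by
            rw [mul_pow _ (N * κ * Dn), ← Real.rpow_natCast ((2 : ℝ) ^ (((d.l : ℝ) - OFF) / 4)) 4,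
              ← Real.rpow_mul (by norm_num)]
            have e2 : ((d.l : ℝ) - OFF) / 4 * ((4 : ℕ) : ℝ) = (d.l : ℝ) - OFF := by push_cast; ring
            rw [e2, Real.rpow_sub (by norm_num), Real.rpow_natCast, Real.rpow_natCast]
            generalize OFF = O at h4
            have h9 : (((M * c.K) ^ 4 * 2 ^ O : ℕ) : ℝ)
                ≤ ((2 ^ d.l * (N * 24 ^ c.i * (1296 ^ c.j * 144 ^ c.k)) ^ 4 * W : ℕ) : ℝ) := by
              exact_mod_cast h4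
            rw [h1, h2, h3] at h9
            push_cast at h9
            rw [div_mul_eq_mul_div, le_div_iff₀ (by positivity)]
            have e3 : ((N : ℝ) * κ * Dn) ^ 4
                = (N * 24 ^ d.i * (1296 ^ d.j * 144 ^ d.k)) ^ 4 * W := by
              rw [hDn, ← hκW]; ring
            rw [e3]
            linarith
          exact le_of_pow_le_pow_left₀ (by norm_num) (by positivity) h8
        calc (M : ℝ) * (mon v χ ψ P Q R * (c.K * (Mo / Dn)))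
            = M * c.K * (mon v χ ψ P Q R * Mo / Dn) := by ring
          _ ≤ ((2 : ℝ) ^ (((d.l : ℝ) - OFF) / 4) * (N * κ * Dn)) * (mon v χ ψ P Q R * Mo / Dn) :=
              mul_le_mul_of_nonneg_right h7 (by positivity)
          _ = N * κ * (2 ^ (((d.l : ℝ) - OFF) / 4) * (mon v χ ψ P Q R * Mo)) := by
              field_simp

/-! ### absolute values of coefficients -/

def abs1 (j k : ℕ) : ℕ → P1 → List Co
  | _, [] => []
  | i, c :: cs => ⟨c.natAbs, i, j, k⟩ :: abs1 j k (Nat.succ i) cs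

def abs2 (k : ℕ) : ℕ → P2 → List Co
  | _, [] => []
  | j, p :: ps => abs1 j k 0 p ++ abs2 k (Nat.succ j) ps

def abs3 : ℕ → P3 → List Co
  | _, [] => []
  | k, p :: ps => abs2 k 0 p ++ abs3 (Nat.succ k) ps

theorem abs1_spec {u X Y : ℝ} (hu : 0 ≤ u) (hX : 0 ≤ X) (hY : 0 ≤ Y) (j k i : ℕ) (p : P1) :
    u ^ i * (X ^ j * Y ^ k) * |ev1 u p| ≤ coV u X Y (abs1 j k i p) := by
  induction p generalizing i with
  | nil => simp [abs1, coV, ev1, evL]
  | cons c cs ih =>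
    have h1 := ih (i + 1)
    simp only [abs1, coV, Nat.succ_eq_add_one]
    have e : ev1 u (c :: cs) = c + u * ev1 u cs := rfl
    have h2 : |ev1 u (c :: cs)| ≤ c.natAbs + u * |ev1 u cs| := by
      rw [e]
      refine (abs_add_le _ _).trans ?_
      rw [abs_mul, abs_of_nonneg hu]
      have : |(c : ℝ)| = (c.natAbs : ℝ) := by
        rw [Nat.cast_natAbs, Int.cast_abs]
      rw [this]
    calc u ^ i * (X ^ j * Y ^ k) * |ev1 u (c :: cs)|
        ≤ u ^ i * (X ^ j * Y ^ k) * (c.natAbs + u * |ev1 u cs|) :=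
          mul_le_mul_of_nonneg_left h2 (by positivity)
      _ = c.natAbs * (u ^ i * X ^ j * Y ^ k) + u ^ (i + 1) * (X ^ j * Y ^ k) * |ev1 u cs| := by ring
      _ ≤ _ := by linarith

theorem abs2_spec {u X Y : ℝ} (hu : 0 ≤ u) (hX : 0 ≤ X) (hY : 0 ≤ Y) (k j : ℕ) (p : P2) :
    X ^ j * Y ^ k * |ev2 u X p| ≤ coV u X Y (abs2 k j p) := by
  induction p generalizing j with
  | nil => simp [abs2, coV, ev2, evL]
  | cons c cs ih =>
    have h1 := ih (j + 1)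
    have h0 := abs1_spec hu hX hY j k 0 c
    simp only [abs2, coV_append, Nat.succ_eq_add_one]
    have e : ev2 u X (c :: cs) = ev1 u c + X * ev2 u X cs := rfl
    have h2 : |ev2 u X (c :: cs)| ≤ |ev1 u c| + X * |ev2 u X cs| := by
      rw [e]
      refine (abs_add_le _ _).trans ?_
      rw [abs_mul, abs_of_nonneg hX]
    calc X ^ j * Y ^ k * |ev2 u X (c :: cs)|
        ≤ X ^ j * Y ^ k * (|ev1 u c| + X * |ev2 u X cs|) :=
          mul_le_mul_of_nonneg_left h2 (by positivity)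
      _ = u ^ 0 * (X ^ j * Y ^ k) * |ev1 u c| + X ^ (j + 1) * Y ^ k * |ev2 u X cs| := by ring
      _ ≤ _ := by linarith

theorem abs3_spec {u X Y : ℝ} (hu : 0 ≤ u) (hX : 0 ≤ X) (hY : 0 ≤ Y) (k : ℕ) (p : P3) :
    Y ^ k * |ev3 u X Y p| ≤ coV u X Y (abs3 k p) := by
  induction p generalizing k with
  | nil => simp [abs3, coV, ev3, evL]
  | cons c cs ih =>
    have h1 := ih (k + 1)
    have h0 := abs2_spec hu hX hY k 0 c
    simp only [abs3, coV_append, Nat.succ_eq_add_one]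
    have e : ev3 u X Y (c :: cs) = ev2 u X c + Y * ev3 u X Y cs := rfl
    have h2 : |ev3 u X Y (c :: cs)| ≤ |ev2 u X c| + Y * |ev3 u X Y cs| := by
      rw [e]
      refine (abs_add_le _ _).trans ?_
      rw [abs_mul, abs_of_nonneg hY]
    calc Y ^ k * |ev3 u X Y (c :: cs)|
        ≤ Y ^ k * (|ev2 u X c| + Y * |ev3 u X Y cs|) :=
          mul_le_mul_of_nonneg_left h2 (by positivity)
      _ = X ^ 0 * Y ^ k * |ev2 u X c| + Y ^ (k + 1) * |ev3 u X Y cs| := by ring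
      _ ≤ _ := by linarith

/-- full data: the function, the denominator `D`, the constant `n / q`, a lower bound `m / q` for the
distance of `n / q` to the integers and the bounds `g` -/
structure FF where
  f : FD
  D : ℕ
  n : ℕ
  q : ℕ
  m : ℕ
  g : GD

def chkFF (F : FF) : Bool :=
  Nat.beq F.g.P (Nat.mul 2 F.f.P) && (Nat.beq F.g.Q (Nat.mul 2 F.f.Q) &&
    (Nat.beq F.g.R (Nat.mul 2 F.f.R) &&
    (Nat.ble 1 F.f.Λ && (Nat.ble 1 F.D && (Nat.ble 1 F.q && (Nat.ble 1 F.m && (Nat.beq F.g.q 1 &&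
      (Nat.ble F.m (Nat.mod F.n F.q) && (Nat.ble (Nat.add F.m (Nat.mod F.n F.q)) F.q &&
      chkCo F.q (Nat.mul (Nat.mul F.f.Λ F.D) F.m) 1 (abs3 0 F.f.t ++ coT 0 F.f.TF F.f.K)
        F.g.cs)))))))))

theorem dist_le {n q m : ℕ} (hq : 0 < q) (h1 : m ≤ n % q) (h2 : m + n % q ≤ q) (N : ℤ) :
    (m : ℝ) / q ≤ |(N : ℝ) - (n : ℝ) / q| := by
  have hqr : (0 : ℝ) < q := by exact_mod_cast hq
  have e1 : (N : ℝ) - n / q = ((N : ℝ) * q - n) / q := by field_simp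
  rw [e1, abs_div, abs_of_pos hqr]
  gcongr
  have h3 : (n : ℤ) = n % q + q * (n / q) := by
    have := Nat.mod_add_div n q
    exact_mod_cast this.symm
  have key : (m : ℤ) ≤ |N * q - n| := by
    set r : ℤ := (n : ℤ) % q with hr
    set k : ℤ := (n : ℤ) / q with hk
    have h4 : (m : ℤ) ≤ r := by rw [hr]; exact_mod_cast h1
    have h5 : (m : ℤ) + r ≤ q := by rw [hr]; exact_mod_cast h2
    have h6 : N * q - n = (N - k) * q - r := by rw [h3]; ring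
    rw [h6]
    have hq' : (0 : ℤ) < q := by exact_mod_cast hq
    rcases le_or_gt (N - k) 0 with h | h
    · have : (N - k) * q ≤ 0 := mul_nonpos_of_nonpos_of_nonneg h hq'.le
      have h7 : (m : ℤ) ≤ -((N - k) * q - r) := by linarith
      exact h7.trans (neg_le_abs _)
    · have : (q : ℤ) ≤ (N - k) * q := by
        have h8 : 1 ≤ N - k := h
        nlinarith
      have h7 : (m : ℤ) ≤ (N - k) * q - r := by linarith
      exact h7.trans (le_abs_self _)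
  exact_mod_cast key

theorem gok_of {F : FF} (hF : chkFF F = true) {v χ ψ ξ η ζ : ℝ} (hv : 0 < v) (hχ : 0 < χ)
    (hψ : 0 < ψ) (hξ : ξ = 24 * Real.logb 2 χ⁻¹) (hη : η = 24 * Real.logb 2 ψ⁻¹)
    (hζ : ζ = 24 * Real.logb 2 v⁻¹) {R : ℝ} {N : ℤ}
    (hR : R = F.D * ((N : ℝ) - (F.n : ℝ) / F.q))
    (hb : |F.f.Λ * R - mon v χ ψ F.f.P F.f.Q F.f.R
        * ev3 (v ^ 2 / 24) (χ ^ 2 / 1296) (ψ ^ 2 / 144) F.f.t|
      ≤ mon v χ ψ F.f.P F.f.Q F.f.R
        * evT (v ^ 2 / 24) (χ ^ 2 / 1296) (ψ ^ 2 / 144) F.f.TF F.f.K) :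
    GOK F.g ξ η ζ := by
  unfold chkFF at hF
  simp only [Bool.and_eq_true] at hF
  obtain ⟨hP, hQ, hR', hΛ, hD, hq, hm, hg, hn1, hn2, hc⟩ := hF
  have hP : F.g.P = 2 * F.f.P := Nat.eq_of_beq_eq_true hP
  have hQ : F.g.Q = 2 * F.f.Q := Nat.eq_of_beq_eq_true hQ
  have hR' : F.g.R = 2 * F.f.R := Nat.eq_of_beq_eq_true hR'
  have hΛ : 1 ≤ F.f.Λ := Nat.le_of_ble_eq_true hΛ
  have hD : 1 ≤ F.D := Nat.le_of_ble_eq_true hD
  have hq : 1 ≤ F.q := Nat.le_of_ble_eq_true hq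
  have hm : 1 ≤ F.m := Nat.le_of_ble_eq_true hm
  have hg : F.g.q = 1 := Nat.eq_of_beq_eq_true hg
  have hn1 : F.m ≤ F.n % F.q := Nat.le_of_ble_eq_true hn1
  have hn2 : F.m + F.n % F.q ≤ F.q := Nat.le_of_ble_eq_true hn2
  have hu0 : 0 ≤ v ^ 2 / 24 := by positivity
  have hX0 : 0 ≤ χ ^ 2 / 1296 := by positivity
  have hY0 : 0 ≤ ψ ^ 2 / 144 := by positivity
  have hS := mon_pos hv hχ hψ F.f.P F.f.Q F.f.R
  have hN0 : 0 < Nat.mul (Nat.mul F.f.Λ F.D) F.m := Nat.mul_pos (Nat.mul_pos hΛ hD) hm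
  have h1 := chkCo_spec (g := F.g) hP hQ hR' hv hχ hψ hξ hη hζ (κ := 1) (by norm_num) (by norm_num)
    hN0 _ _ hc
  rw [coV_append, coT_eq, pow_zero, one_mul, mul_one] at h1
  have h0 := abs3_spec hu0 hX0 hY0 0 F.f.t
  rw [pow_zero, one_mul] at h0
  have hb1 : |F.f.Λ * R| ≤ mon v χ ψ F.f.P F.f.Q F.f.R
      * (coV (v ^ 2 / 24) (χ ^ 2 / 1296) (ψ ^ 2 / 144) (abs3 0 F.f.t)
        + evT (v ^ 2 / 24) (χ ^ 2 / 1296) (ψ ^ 2 / 144) F.f.TF F.f.K) := by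
    have h2 : |F.f.Λ * R| ≤ |F.f.Λ * R - mon v χ ψ F.f.P F.f.Q F.f.R
        * ev3 (v ^ 2 / 24) (χ ^ 2 / 1296) (ψ ^ 2 / 144) F.f.t|
        + |mon v χ ψ F.f.P F.f.Q F.f.R
        * ev3 (v ^ 2 / 24) (χ ^ 2 / 1296) (ψ ^ 2 / 144) F.f.t| := by
      have := abs_add_le (F.f.Λ * R - mon v χ ψ F.f.P F.f.Q F.f.R
        * ev3 (v ^ 2 / 24) (χ ^ 2 / 1296) (ψ ^ 2 / 144) F.f.t) (mon v χ ψ F.f.P F.f.Q F.f.R
        * ev3 (v ^ 2 / 24) (χ ^ 2 / 1296) (ψ ^ 2 / 144) F.f.t)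
      rwa [sub_add_cancel] at this
    rw [abs_mul (mon v χ ψ F.f.P F.f.Q F.f.R), abs_of_pos hS] at h2
    have h3 := mul_le_mul_of_nonneg_left h0 hS.le
    rw [mul_add]
    linarith
  have hqr : (0 : ℝ) < F.q := by exact_mod_cast hq
  have hmr : (0 : ℝ) < F.m := by exact_mod_cast hm
  have hΛr : (0 : ℝ) < F.f.Λ := by exact_mod_cast hΛ
  have hDr : (0 : ℝ) < F.D := by exact_mod_cast hD
  have h3 := dist_le hq hn1 hn2 N
  have e2 : (F.f.Λ : ℝ) * R = (F.f.Λ * F.D) * ((N : ℝ) - (F.n : ℝ) / F.q) := by rw [hR]; ring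
  rw [e2, abs_mul, abs_of_pos (mul_pos hΛr hDr)] at hb1
  have h4 : (F.f.Λ : ℝ) * F.D * (F.m / F.q) ≤ F.f.Λ * F.D * |(N : ℝ) - (F.n : ℝ) / F.q| :=
    mul_le_mul_of_nonneg_left h3 (by positivity)
  have h5 := mul_le_mul_of_nonneg_left (h4.trans hb1) hqr.le
  have e3 : (F.q : ℝ) * (F.f.Λ * F.D * (F.m / F.q)) = F.f.Λ * F.D * F.m := by field_simp
  rw [e3] at h5
  have h6 := h5.trans h1
  have e4 : ((Nat.mul (Nat.mul F.f.Λ F.D) F.m : ℕ) : ℝ) = F.f.Λ * F.D * F.m := by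
    show ((F.f.Λ * F.D * F.m : ℕ) : ℝ) = _
    push_cast; ring
  rw [e4] at h6
  unfold GOK
  rw [hg, Nat.cast_one, one_mul]
  have h7 : (F.f.Λ * F.D * F.m : ℝ) * 1 ≤ F.f.Λ * F.D * F.m * sumG F.g ξ η ζ F.g.cs := by
    rw [mul_one]; exact h6
  exact le_of_mul_le_mul_left h7 (by positivity)

/-! ### half functions -/

def toP3 : List Co → P3
  | [] => []
  | c :: cs => add3 (sh3 c.i c.j c.k [[[(c.K : ℤ)]]]) (toP3 cs)

theorem ev3_toP3 (u X Y : ℝ) (cs : List Co) : ev3 u X Y (toP3 cs) = coV u X Y cs := by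
  induction cs with
  | nil => simp [toP3, coV, ev3, evL]
  | cons c cs ih =>
    rw [toP3, ev3_add, ev3_sh, ih, coV]
    simp only [ev3, ev2, ev1, evL]
    push_cast
    ring

/-- data of a half function: `f.t` is the polynomial of the main terms `tl`, `m0 ∈ tl` is the
dominating one; `g1` bounds everything, `g2` the quotient of the error by the main term `m0` -/
structure FH where
  f : FD
  n0 : ℕ
  tl : List Co
  m0 : Co
  g1 : GD
  g2 : GD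

def memCo (c : Co) : List Co → Bool
  | [] => false
  | d :: ds => (Nat.beq c.K d.K && (Nat.beq c.i d.i && (Nat.beq c.j d.j && Nat.beq c.k d.k))) ||
      memCo c ds

theorem memCo_spec {c : Co} {l : List Co} (h : memCo c l = true) : c ∈ l := by
  induction l with
  | nil => simp [memCo] at h
  | cons d l ih =>
    rw [memCo, Bool.or_eq_true] at h
    rcases h with h | h
    · simp only [Bool.and_eq_true] at h
      obtain ⟨h1, h2, h3, h4⟩ := h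
      have h1 : c.K = d.K := Nat.eq_of_beq_eq_true h1
      have h2 : c.i = d.i := Nat.eq_of_beq_eq_true h2
      have h3 : c.j = d.j := Nat.eq_of_beq_eq_true h3
      have h4 : c.k = d.k := Nat.eq_of_beq_eq_true h4
      have : c = d := by cases c; cases d; simp_all
      rw [this]; exact List.mem_cons_self
    · exact List.mem_cons_of_mem _ (ih h)

theorem coV_nonneg {u X Y : ℝ} (hu : 0 ≤ u) (hX : 0 ≤ X) (hY : 0 ≤ Y) (l : List Co) :
    0 ≤ coV u X Y l := by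
  induction l with
  | nil => simp [coV]
  | cons d l ih => simp only [coV]; positivity

theorem coV_mem {u X Y : ℝ} (hu : 0 ≤ u) (hX : 0 ≤ X) (hY : 0 ≤ Y) {c : Co} {l : List Co}
    (h : c ∈ l) : c.K * (u ^ c.i * X ^ c.j * Y ^ c.k) ≤ coV u X Y l := by
  induction l with
  | nil => simp at h
  | cons d l ih =>
    simp only [coV]
    rcases List.mem_cons.1 h with rfl | h
    · have := coV_nonneg hu hX hY l
      linarith
    · have h1 := ih h
      have : 0 ≤ (d.K : ℝ) * (u ^ d.i * X ^ d.j * Y ^ d.k) := by positivity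
      linarith

def chkFH (H : FH) : Bool :=
  Nat.beq H.g1.P (Nat.mul 2 H.f.P) && (Nat.beq H.g1.Q (Nat.add (Nat.mul 2 H.f.Q) 1) &&
    (Nat.beq H.g1.R (Nat.add (Nat.mul 2 H.f.R) 1) && (Nat.beq H.g2.P (Nat.mul 4 H.m0.j) &&
    (Nat.beq H.g2.Q (Nat.mul 4 H.m0.k) && (Nat.beq H.g2.R (Nat.mul 4 H.m0.i) &&
    (Nat.ble 1 H.f.Λ && (Nat.ble 1 H.m0.K && (eq3 H.f.t (toP3 H.tl) && (memCo H.m0 H.tl &&
    (Nat.beq H.g1.q 1 && (Nat.beq H.g2.q 1 &&
    (chkCo 1 H.f.Λ (Nat.pow H.n0 2) (H.tl ++ coT 0 H.f.TF H.f.K) H.g1.cs &&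
     chkCo (Nat.mul (Nat.pow 24 H.m0.i) (Nat.mul (Nat.pow 1296 H.m0.j) (Nat.pow 144 H.m0.k)))
      H.m0.K 1 (coT 0 H.f.TF H.f.K) H.g2.cs))))))))))))

/-- bounds with the additional factor `ω⁻¹` -/
theorem chkCo_half {g : GD} {v χ ψ ω ξ η ζ : ℝ} {P Q R : ℕ} (hP : g.P = 2 * P)
    (hQ : g.Q = 2 * Q + 1) (hR : g.R = 2 * R + 1) (hv : 0 < v) (hχ : 0 < χ) (hψ : 0 < ψ)
    (hω : 0 < ω) (hω2 : ω ^ 2 = ψ * v)
    (hξ : ξ = 24 * Real.logb 2 χ⁻¹) (hη : η = 24 * Real.logb 2 ψ⁻¹) (hζ : ζ = 24 * Real.logb 2 v⁻¹)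
    {M N W : ℕ} {κ : ℝ} (hκ : 0 ≤ κ) (hκW : κ ^ 4 = W) (hN : 0 < N) (cs : List Co) (ds : List Cn)
    (h : chkCo M N W cs ds = true) :
    M * (mon v χ ψ P Q R * coV (v ^ 2 / 24) (χ ^ 2 / 1296) (ψ ^ 2 / 144) cs)
      ≤ N * κ * (ω * sumG g ξ η ζ ds) := by
  have h1 := chkCo_spec (g := ⟨2 * P, 2 * Q, 2 * R, g.q, g.cs⟩) (P := P) (Q := Q) (R := R) rfl rfl rfl
    hv hχ hψ hξ hη hζ hκ hκW hN cs ds h
  have h2 : ∀ ds : List Cn, sumG ⟨2 * P, 2 * Q, 2 * R, g.q, g.cs⟩ ξ η ζ ds = ω * sumG g ξ η ζ ds := by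
    intro ds
    induction ds with
    | nil => simp [sumG]
    | cons d ds ih =>
      simp only [sumG]
      rw [ih, mul_add]
      congr 1
      have e1 : expF g d 1 ξ η ζ = expF ⟨2 * P, 2 * Q, 2 * R, g.q, g.cs⟩ d 1 ξ η ζ + (η + ζ) / 48 := by
        unfold expF posF negF
        simp only [hP, hQ, hR]
        push_cast; ring
      have e2 : (2 : ℝ) ^ ((η + ζ) / 48) = ω⁻¹ := by
        have h3 : (η + ζ) / 48 = Real.logb 2 ω⁻¹ := by
          have h4 : Real.logb 2 (ω ^ 2) = Real.logb 2 (ψ * v) := by rw [hω2]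
          rw [Real.logb_mul hψ.ne' hv.ne', Real.logb_pow] at h4
          rw [hη, hζ, Real.logb_inv, Real.logb_inv, Real.logb_inv]
          push_cast at h4
          linarith
        rw [h3, Real.rpow_logb (by norm_num) (by norm_num) (inv_pos.2 hω)]
      rw [e1, Real.rpow_add (by norm_num), e2]
      field_simp
  rw [h2] at h1
  exact h1

theorem gokH_of {H : FH} (hH : chkFH H = true) {v χ ψ ω ξ η ζ : ℝ} (hv : 0 < v) (hχ : 0 < χ)
    (hψ : 0 < ψ) (hω : 0 < ω) (hω2 : ω ^ 2 = ψ * v) (hξ : ξ = 24 * Real.logb 2 χ⁻¹)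
    (hη : η = 24 * Real.logb 2 ψ⁻¹) (hζ : ζ = 24 * Real.logb 2 v⁻¹) {h R : ℝ}
    (hn0 : 0 < H.n0) (hI : ∃ n : ℤ, (n : ℝ) = h ^ 2 / H.n0) (hR : R = ω * h)
    (hb : |H.f.Λ * R - mon v χ ψ H.f.P H.f.Q H.f.R
        * ev3 (v ^ 2 / 24) (χ ^ 2 / 1296) (ψ ^ 2 / 144) H.f.t|
      ≤ mon v χ ψ H.f.P H.f.Q H.f.R
        * evT (v ^ 2 / 24) (χ ^ 2 / 1296) (ψ ^ 2 / 144) H.f.TF H.f.K) :
    GOK H.g1 ξ η ζ ∨ GOK H.g2 ξ η ζ := by
  unfold chkFH at hH
  simp only [Bool.and_eq_true] at hH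
  obtain ⟨a1, a2, a3, a4, a5, a6, a7, a8, a9, a10, a11, a12, a13, a14⟩ := hH
  have a1 : H.g1.P = 2 * H.f.P := Nat.eq_of_beq_eq_true a1
  have a2 : H.g1.Q = 2 * H.f.Q + 1 := Nat.eq_of_beq_eq_true a2
  have a3 : H.g1.R = 2 * H.f.R + 1 := Nat.eq_of_beq_eq_true a3
  have a4 : H.g2.P = 4 * H.m0.j := Nat.eq_of_beq_eq_true a4
  have a5 : H.g2.Q = 4 * H.m0.k := Nat.eq_of_beq_eq_true a5
  have a6 : H.g2.R = 4 * H.m0.i := Nat.eq_of_beq_eq_true a6
  have a7 : 1 ≤ H.f.Λ := Nat.le_of_ble_eq_true a7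
  have a8 : 1 ≤ H.m0.K := Nat.le_of_ble_eq_true a8
  have a10 := memCo_spec a10
  have a11 : H.g1.q = 1 := Nat.eq_of_beq_eq_true a11
  have a12 : H.g2.q = 1 := Nat.eq_of_beq_eq_true a12
  set S := mon v χ ψ H.f.P H.f.Q H.f.R with hS
  have hS0 : 0 < S := mon_pos hv hχ hψ _ _ _
  have hu0 : 0 ≤ v ^ 2 / 24 := by positivity
  have hX0 : 0 ≤ χ ^ 2 / 1296 := by positivity
  have hY0 : 0 ≤ ψ ^ 2 / 144 := by positivity
  by_contra hcon
  push Not at hcon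
  obtain ⟨c1, c2⟩ := hcon
  unfold GOK at c1 c2
  rw [a11, Nat.cast_one, one_mul] at c1
  rw [a12, Nat.cast_one, one_mul] at c2
  push Not at c1 c2
  rw [ev3_eq a9, ev3_toP3] at hb
  -- total bound
  have b1 := chkCo_half (W := H.n0 ^ 2) (κ := Real.sqrt H.n0) a1 a2 a3 hv hχ hψ hω hω2 hξ hη hζ
    (Real.sqrt_nonneg _) (by
      have : Real.sqrt H.n0 ^ 4 = (Real.sqrt H.n0 ^ 2) ^ 2 := by ring
      rw [this, Real.sq_sqrt (Nat.cast_nonneg _)]; push_cast; ring)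
    (by omega : 0 < H.f.Λ) _ _ a13
  rw [coV_append, coT_eq, pow_zero, one_mul, Nat.cast_one, one_mul] at b1
  -- the quotient
  have b2 := chkCo_spec (g := H.g2) (P := 2 * H.m0.j) (Q := 2 * H.m0.k) (R := 2 * H.m0.i)
    (by rw [a4]; ring) (by rw [a5]; ring) (by rw [a6]; ring) hv hχ hψ hξ hη hζ (κ := 1) (by norm_num)
    (by norm_num) (by omega : 0 < H.m0.K) _ _ a14
  rw [coT_eq, pow_zero, one_mul, mul_one] at b2
  set E := evT (v ^ 2 / 24) (χ ^ 2 / 1296) (ψ ^ 2 / 144) H.f.TF H.f.K with hE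
  set T := coV (v ^ 2 / 24) (χ ^ 2 / 1296) (ψ ^ 2 / 144) H.tl with hT
  have hm : mon v χ ψ ((2 * H.m0.j : ℕ) : ℤ) ((2 * H.m0.k : ℕ) : ℤ) ((2 * H.m0.i : ℕ) : ℤ)
      = ((v ^ 2) ^ H.m0.i * (χ ^ 2) ^ H.m0.j * (ψ ^ 2) ^ H.m0.k)⁻¹ := by
    rw [mon_nat, one_div]
    congr 1
    rw [← pow_mul, ← pow_mul, ← pow_mul]; ring
  rw [hm] at b2
  have hMo : 0 < (v ^ 2) ^ H.m0.i * (χ ^ 2) ^ H.m0.j * (ψ ^ 2) ^ H.m0.k := by positivity
  have hmem := coV_mem hu0 hX0 hY0 a10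
  rw [← hT] at hmem
  have hK0 : (0 : ℝ) < H.m0.K := by exact_mod_cast (by omega : 0 < H.m0.K)
  have h5 : E < T := by
    refine lt_of_lt_of_le ?_ hmem
    have e1 : (v ^ 2 / 24) ^ H.m0.i * (χ ^ 2 / 1296) ^ H.m0.j * (ψ ^ 2 / 144) ^ H.m0.k
        = ((v ^ 2) ^ H.m0.i * (χ ^ 2) ^ H.m0.j * (ψ ^ 2) ^ H.m0.k)
          / (24 ^ H.m0.i * (1296 ^ H.m0.j * 144 ^ H.m0.k)) := by
      rw [div_pow, div_pow, div_pow]; field_simp
    rw [e1]
    have hM : (0 : ℝ) < 24 ^ H.m0.i * (1296 ^ H.m0.j * 144 ^ H.m0.k) := by positivity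
    have e2 : ((Nat.mul (Nat.pow 24 H.m0.i) (Nat.mul (Nat.pow 1296 H.m0.j) (Nat.pow 144 H.m0.k)) : ℕ) : ℝ)
        = 24 ^ H.m0.i * (1296 ^ H.m0.j * 144 ^ H.m0.k) := by
      show ((24 ^ H.m0.i * (1296 ^ H.m0.j * 144 ^ H.m0.k) : ℕ) : ℝ) = _
      push_cast; rfl
    rw [e2] at b2
    generalize (24 : ℝ) ^ H.m0.i * (1296 ^ H.m0.j * 144 ^ H.m0.k) = m at b2 hM ⊢
    generalize (v ^ 2) ^ H.m0.i * (χ ^ 2) ^ H.m0.j * (ψ ^ 2) ^ H.m0.k = o at b2 hMo ⊢
    have h6 : m * (o⁻¹ * E) < H.m0.K := by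
      refine lt_of_le_of_lt b2 ?_
      calc (H.m0.K : ℝ) * sumG H.g2 ξ η ζ H.g2.cs < H.m0.K * 1 := mul_lt_mul_of_pos_left c2 hK0
        _ = _ := mul_one _
    have h7 : E * m < H.m0.K * o := by
      have := mul_lt_mul_of_pos_right h6 hMo
      have e3 : m * (o⁻¹ * E) * o = E * m := by field_simp
      rw [e3] at this; exact this
    rw [← mul_div_assoc, lt_div_iff₀ hM]
    exact h7
  have hb' := abs_le.1 hb
  have h8 : 0 < H.f.Λ * R := by
    have : 0 < S * T - S * E := by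
      rw [← mul_sub]; exact mul_pos hS0 (by linarith)
    linarith [hb'.1]
  have hΛ : (0 : ℝ) < H.f.Λ := by exact_mod_cast (by omega : 0 < H.f.Λ)
  have h9 : 0 < h := by
    rw [hR] at h8
    have := (mul_pos_iff_of_pos_left hΛ).1 h8
    exact (mul_pos_iff_of_pos_left hω).1 this
  have hn0r : (0 : ℝ) < H.n0 := by exact_mod_cast hn0
  have h10 : (H.n0 : ℝ) ≤ h ^ 2 := by
    obtain ⟨n, hn⟩ := hI
    have h11 : 0 < h ^ 2 / H.n0 := by positivity
    rw [← hn] at h11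
    have h12 : 0 < n := by exact_mod_cast h11
    have h13 : (1 : ℝ) ≤ n := by exact_mod_cast (show 1 ≤ n by omega)
    rw [hn, le_div_iff₀ hn0r] at h13
    linarith
  have h11 : Real.sqrt H.n0 ≤ h := Real.sqrt_le_iff.2 ⟨h9.le, h10⟩
  have h12 : H.f.Λ * R ≤ S * (T + E) := by
    have := hb'.2
    rw [mul_add]; linarith
  have h13 : H.f.Λ * (ω * Real.sqrt H.n0) ≤ S * (T + E) := by
    refine le_trans ?_ h12
    rw [hR]
    gcongr
  have h14 := h13.trans b1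
  have hsq : 0 < Real.sqrt H.n0 := Real.sqrt_pos.2 hn0r
  have h15 : H.f.Λ * Real.sqrt H.n0 * (ω * sumG H.g1 ξ η ζ H.g1.cs)
      < H.f.Λ * Real.sqrt H.n0 * (ω * 1) := by
    apply mul_lt_mul_of_pos_left _ (by positivity)
    exact mul_lt_mul_of_pos_left c1 hω
  have h16 : H.f.Λ * Real.sqrt H.n0 * (ω * 1) = H.f.Λ * (ω * Real.sqrt H.n0) := by ring
  linarith

end Pool.Agent.Work.MP_71a505_fin
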