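import Pool.Agent.Work.MP_71a505_fin.Rules

/-!
Check of a linear combination of shifted approximations: one packed number per class.
-/

namespace Pool.Agent.Work.MP_71a505_fin

/-! ### shifts -/

def sh1 (i : ℕ) (c : P1) : P1 := List.replicate i 0 ++ c
def sh2 (i j : ℕ) (c : P2) : P2 := List.replicate j [] ++ c.map (sh1 i)
def sh3 (i j k : ℕ) (p : P3) : P3 := List.replicate k [] ++ p.map (sh2 i j)

theorem ev1_sh (u : ℝ) (i : ℕ) (c : P1) : ev1 u (sh1 i c) = u ^ i * ev1 u c :=
  evL_replicate (by simp) u i c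

theorem ev2_sh (u X : ℝ) (i j : ℕ) (c : P2) : ev2 u X (sh2 i j c) = X ^ j * (u ^ i * ev2 u X c) := by
  unfold sh2 ev2
  rw [evL_replicate (by simp [ev1, evL]) X j, evL_map (ev1_sh u i)]

theorem ev3_sh (u X Y : ℝ) (i j k : ℕ) (p : P3) :
    ev3 u X Y (sh3 i j k p) = u ^ i * X ^ j * Y ^ k * ev3 u X Y p := by
  unfold sh3 ev3
  rw [evL_replicate (by simp [ev2, evL]) Y k,
    evL_map (c := X ^ j * u ^ i) (fun a => by rw [ev2_sh]; ring)]
  ring

theorem pk_sh (B : ℤ) (i : ℕ) (c : P1) : pk B (sh1 i c) = B ^ i * pk B c := by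
  unfold sh1
  induction i with
  | zero => simp
  | succ i ih =>
    rw [List.replicate_succ, List.cons_append, pk, ih]; ring

theorem pk2_sh (B B1 : ℤ) (i j : ℕ) (c : P2) :
    pk2 B B1 (sh2 i j c) = B ^ i * B1 ^ j * pk2 B B1 c := by
  unfold sh2
  induction j with
  | zero =>
    simp only [List.replicate_zero, List.nil_append, pow_zero, mul_one]
    induction c with
    | nil => simp [pk2]
    | cons a c ih => simp only [List.map_cons, pk2, ih, pk_sh]; ring
  | succ j ih =>
    rw [List.replicate_succ, List.cons_append, pk2, ih]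
    simp only [pk]; ring

theorem pk3_sh (B B1 B2 : ℤ) (i j k : ℕ) (p : P3) :
    pk3 B B1 B2 (sh3 i j k p) = B ^ i * B1 ^ j * B2 ^ k * pk3 B B1 B2 p := by
  unfold sh3
  induction k with
  | zero =>
    simp only [List.replicate_zero, List.nil_append, pow_zero, mul_one]
    induction p with
    | nil => simp [pk3]
    | cons a p ih => simp only [List.map_cons, pk3, ih, pk2_sh]; ring
  | succ k ih =>
    rw [List.replicate_succ, List.cons_append, pk3, ih]
    simp only [pk2]; ring

theorem pk_smul (B c : ℤ) (p : P1) : pk B (smul1 c p) = c * pk B p := pk_map B c p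

theorem pk2_smul (B B1 c : ℤ) (p : P2) : pk2 B B1 (smul2 c p) = c * pk2 B B1 p := by
  unfold smul2
  induction p with
  | nil => simp [pk2]
  | cons a p ih => simp only [List.map_cons, pk2, ih, pk_smul]; ring

theorem pk3_smul (B B1 B2 c : ℤ) (p : P3) : pk3 B B1 B2 (smul3 c p) = c * pk3 B B1 B2 p := by
  unfold smul3
  induction p with
  | nil => simp [pk3]
  | cons a p ih => simp only [List.map_cons, pk3, ih, pk2_smul]; ring

/-! ### sizes -/

/-- coefficients at most `M`, dimensions at most `n1, n2, n3` -/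
def Sz (M n1 n2 n3 : ℕ) (p : P3) : Prop :=
  Bd3 M n1 p ∧ (∀ c ∈ p, c.length ≤ n2) ∧ p.length ≤ n3

theorem Sz.nil (M n1 n2 n3 : ℕ) : Sz M n1 n2 n3 [] :=
  ⟨fun _ h => by simp at h, fun _ h => by simp at h, by simp⟩

theorem Sz.mono {M M' n1 n2 n3 : ℕ} {p : P3} (h : Sz M n1 n2 n3 p) (hM : M ≤ M') :
    Sz M' n1 n2 n3 p := ⟨h.1.mono hM le_rfl, h.2⟩

theorem Sz.add {M M' n1 n2 n3 : ℕ} {p q : P3} (hp : Sz M n1 n2 n3 p) (hq : Sz M' n1 n2 n3 q) :
    Sz (M + M') n1 n2 n3 (add3 p q) := by
  refine ⟨bd3_add hp.1 hq.1, ?_, ?_⟩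
  · intro c hc
    rcases mem_addL hc with h | h | ⟨x, hx, y, hy, h⟩
    · exact hp.2.1 c h
    · exact hq.2.1 c h
    · rw [h, add2, length_addL]; exact max_le (hp.2.1 x hx) (hq.2.1 y hy)
  · rw [add3, length_addL]; exact max_le hp.2.2 hq.2.2

theorem Sz.smul {M n1 n2 n3 : ℕ} {p : P3} (c : ℤ) (hp : Sz M n1 n2 n3 p) :
    Sz (c.natAbs * M) n1 n2 n3 (smul3 c p) := by
  refine ⟨?_, ?_, ?_⟩
  · intro x hx
    obtain ⟨y, hy, rfl⟩ := List.mem_map.1 hx
    intro z hz
    obtain ⟨w, hw, rfl⟩ := List.mem_map.1 hz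
    exact bd1_smul c (hp.1 y hy w hw)
  · intro x hx
    obtain ⟨y, hy, rfl⟩ := List.mem_map.1 hx
    simpa [smul2] using hp.2.1 y hy
  · simpa [smul3] using hp.2.2

theorem Sz.sh {M m1 m2 m3 n1 n2 n3 i j k : ℕ} {p : P3} (hp : Sz M m1 m2 m3 p) (h1 : m1 + i ≤ n1)
    (h2 : m2 + j ≤ n2) (h3 : m3 + k ≤ n3) : Sz M n1 n2 n3 (sh3 i j k p) := by
  refine ⟨?_, ?_, ?_⟩
  · intro x hx
    rcases List.mem_append.1 hx with hx | hx
    · rw [List.eq_of_mem_replicate hx]
      intro z hz; simp at hz
    · obtain ⟨y, hy, rfl⟩ := List.mem_map.1 hx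
      intro z hz
      rcases List.mem_append.1 hz with hz | hz
      · rw [List.eq_of_mem_replicate hz]
        exact ⟨by simp, fun c hc => by simp at hc⟩
      · obtain ⟨w, hw, rfl⟩ := List.mem_map.1 hz
        have h4 := hp.1 y hy w hw
        refine ⟨?_, ?_⟩
        · have := h4.1
          simp only [sh1, List.length_append, List.length_replicate]; omega
        · intro c hc
          rcases List.mem_append.1 hc with hc | hc
          · rw [List.eq_of_mem_replicate hc]; simp
          · exact h4.2 c hc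
  · intro x hx
    rcases List.mem_append.1 hx with hx | hx
    · rw [List.eq_of_mem_replicate hx]; simp
    · obtain ⟨y, hy, rfl⟩ := List.mem_map.1 hx
      have := hp.2.1 y hy
      simp only [sh2, List.length_append, List.length_replicate, List.length_map]; omega
  · have := hp.2.2
    simp only [sh3, List.length_append, List.length_replicate, List.length_map]; omega

theorem sz_self (p : P3) : Sz (linf3 p) (len3 p) (rlen p) p.length p :=
  ⟨bd3_self p, fun _ hc => rlen_spec hc, le_rfl⟩

theorem Sz.sm {M h n1 n2 n3 : ℕ} {p : P3} (hp : Sz M n1 n2 n3 p) (hM : M < h) :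
    Sm3 h n1 n2 p := by
  intro c hc
  refine ⟨?_, hp.2.1 c hc⟩
  intro x hx
  have h1 := hp.1 c hc x hx
  refine ⟨?_, h1.1⟩
  intro y hy
  have h2 := h1.2 y hy
  have h3 : |y| ≤ (M : ℤ) := by rw [Int.abs_eq_natAbs]; exact_mod_cast h2
  have h4 : (M : ℤ) < h := by exact_mod_cast hM
  exact lt_of_le_of_lt h3 h4

/-! ### packed tables of natural numbers -/

def pkR (B : ℕ) : List ℕ → ℕ
  | [] => 0
  | c :: l => Nat.add c (Nat.mul B (pkR B l))
def pkT (B B1 : ℕ) : Tab → ℕ
  | [] => 0
  | r :: l => Nat.add (pkR B r) (Nat.mul B1 (pkT B B1 l))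

theorem pkR_add (B : ℕ) (r s : List ℕ) : pkR B (addR r s) = pkR B r + pkR B s := by
  unfold addR
  induction r generalizing s with
  | nil => simp [addL, pkR]
  | cons a r ih =>
    cases s with
    | nil => simp [addL, pkR]
    | cons b s => simp only [addL, pkR, ih, Nat.add_eq, Nat.mul_eq]; ring

theorem pkT_add (B B1 : ℕ) (r s : Tab) : pkT B B1 (addT r s) = pkT B B1 r + pkT B B1 s := by
  unfold addT
  induction r generalizing s with
  | nil => simp [addL, pkT]
  | cons a r ih =>
    cases s with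
    | nil => simp [addL, pkT]
    | cons b s => simp only [addL, pkT, ih, pkR_add, Nat.add_eq, Nat.mul_eq]; ring

theorem pkR_smul (B c : ℕ) (r : List ℕ) : pkR B (smulR c r) = c * pkR B r := by
  unfold smulR
  induction r with
  | nil => simp [pkR]
  | cons a r ih => simp only [List.map_cons, pkR, ih, Nat.add_eq, Nat.mul_eq]; ring

theorem pkT_smul (B B1 c : ℕ) (r : Tab) : pkT B B1 (smulT c r) = c * pkT B B1 r := by
  unfold smulT
  induction r with
  | nil => simp [pkT]
  | cons a r ih => simp only [List.map_cons, pkT, ih, pkR_smul, Nat.add_eq, Nat.mul_eq]; ring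

def shR (j : ℕ) (r : List ℕ) : List ℕ := List.replicate j 0 ++ r
def shT (j k : ℕ) (r : Tab) : Tab := List.replicate k [] ++ r.map (shR j)

theorem pkR_sh (B j : ℕ) (r : List ℕ) : pkR B (shR j r) = B ^ j * pkR B r := by
  unfold shR
  induction j with
  | zero => simp
  | succ j ih =>
    rw [List.replicate_succ, List.cons_append, pkR, ih]
    simp only [Nat.add_eq, Nat.mul_eq]; ring

theorem pkT_sh (B B1 j k : ℕ) (r : Tab) : pkT B B1 (shT j k r) = B ^ j * B1 ^ k * pkT B B1 r := by
  unfold shT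
  induction k with
  | zero =>
    simp only [List.replicate_zero, List.nil_append, pow_zero, mul_one]
    induction r with
    | nil => simp [pkT]
    | cons a r ih =>
      simp only [List.map_cons, pkT, ih, pkR_sh, Nat.add_eq, Nat.mul_eq]; ring
  | succ k ih =>
    rw [List.replicate_succ, List.cons_append, pkT, ih]
    simp only [pkR, Nat.add_eq, Nat.mul_eq]; ring

/-- entries at most `M`, dimensions at most `n2, n3` -/
def Tz (M n2 n3 : ℕ) (A : Tab) : Prop :=
  (∀ r ∈ A, r.length ≤ n2 ∧ ∀ c ∈ r, c ≤ M) ∧ A.length ≤ n3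

theorem Tz.nil (M n2 n3 : ℕ) : Tz M n2 n3 [] := ⟨fun _ h => by simp at h, by simp⟩

theorem rz_add {M M' n2 : ℕ} {p q : List ℕ} (hp : p.length ≤ n2 ∧ ∀ c ∈ p, c ≤ M)
    (hq : q.length ≤ n2 ∧ ∀ c ∈ q, c ≤ M') :
    (addR p q).length ≤ n2 ∧ ∀ c ∈ addR p q, c ≤ M + M' := by
  refine ⟨by rw [addR, length_addL]; exact max_le hp.1 hq.1, ?_⟩
  intro c hc
  rcases mem_addL hc with h | h | ⟨x, hx, y, hy, h⟩
  · exact (hp.2 c h).trans (by omega)
  · exact (hq.2 c h).trans (by omega)
  · have h1 := hp.2 x hx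
    have h2 := hq.2 y hy
    omega

theorem Tz.add {M M' n2 n3 : ℕ} {p q : Tab} (hp : Tz M n2 n3 p) (hq : Tz M' n2 n3 q) :
    Tz (M + M') n2 n3 (addT p q) := by
  refine ⟨?_, by rw [addT, length_addL]; exact max_le hp.2 hq.2⟩
  intro c hc
  rcases mem_addL hc with h | h | ⟨x, hx, y, hy, h⟩
  · have := hp.1 c h
    exact ⟨this.1, fun d hd => (this.2 d hd).trans (by omega)⟩
  · have := hq.1 c h
    exact ⟨this.1, fun d hd => (this.2 d hd).trans (by omega)⟩
  · rw [h]; exact rz_add (hp.1 x hx) (hq.1 y hy)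

theorem Tz.smul {M n2 n3 : ℕ} {p : Tab} (c : ℕ) (hp : Tz M n2 n3 p) :
    Tz (c * M) n2 n3 (smulT c p) := by
  refine ⟨?_, by simpa [smulT] using hp.2⟩
  intro r hr
  obtain ⟨x, hx, rfl⟩ := List.mem_map.1 hr
  refine ⟨by simpa [smulR] using (hp.1 x hx).1, ?_⟩
  intro d hd
  obtain ⟨y, hy, rfl⟩ := List.mem_map.1 hd
  exact Nat.mul_le_mul_left _ ((hp.1 x hx).2 y hy)

theorem Tz.sh {M m2 m3 n2 n3 j k : ℕ} {p : Tab} (hp : Tz M m2 m3 p) (h2 : m2 + j ≤ n2)
    (h3 : m3 + k ≤ n3) : Tz M n2 n3 (shT j k p) := by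
  refine ⟨?_, ?_⟩
  · intro r hr
    rcases List.mem_append.1 hr with hr | hr
    · rw [List.eq_of_mem_replicate hr]; exact ⟨by simp, fun c hc => by simp at hc⟩
    · obtain ⟨x, hx, rfl⟩ := List.mem_map.1 hr
      have h4 := hp.1 x hx
      refine ⟨by simp only [shR, List.length_append, List.length_replicate]; omega, ?_⟩
      intro c hc
      rcases List.mem_append.1 hc with hc | hc
      · rw [List.eq_of_mem_replicate hc]; omega
      · exact h4.2 c hc
  · have := hp.2
    simp only [shT, List.length_append, List.length_replicate, List.length_map]; omega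

/-! ### digits of packed tables -/

def horND (B nX : ℕ) : ℕ → ℕ → ℕ
  | 0, _ => 0
  | n + 1, N => forceN N fun N => Nat.add (Nat.mod N B) (cdiv (horND B nX n (Nat.div N B)) nX)

def horNN (B B1 n2 nX nY : ℕ) : ℕ → ℕ → ℕ
  | 0, _ => 0
  | n + 1, N => forceN N fun N =>
      Nat.add (horND B nX n2 (Nat.mod N B1)) (cdiv (horNN B B1 n2 nX nY n (Nat.div N B1)) nY)

def outsD (B B1 n2 nX nY : ℕ) : Tab → ℕ → ℕ → List ℕ
  | [], n, N => [horNN B B1 n2 nX nY n N]
  | _ :: _, 0, _ => []
  | r :: rs, n + 1, N =>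
      horND B nX (Nat.sub n2 r.length) (Nat.div (Nat.mod N B1) (Nat.pow B r.length))
        :: outsD B B1 n2 nX nY rs n (Nat.div N B1)

theorem cdiv_zero {n : ℕ} (hn : 0 < n) : cdiv 0 n = 0 := by
  unfold cdiv; rw [zero_add]; exact Nat.div_eq_of_lt (by omega)

theorem pkR_mod {B : ℕ} {c : ℕ} {r : List ℕ} (hc : c < B) : pkR B (c :: r) % B = c := by
  simp only [pkR, Nat.add_eq, Nat.mul_eq]
  rw [Nat.add_mul_mod_self_left]; exact Nat.mod_eq_of_lt hc

theorem pkR_div {B : ℕ} {c : ℕ} {r : List ℕ} (hc : c < B) : pkR B (c :: r) / B = pkR B r := by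
  simp only [pkR, Nat.add_eq, Nat.mul_eq]
  rw [Nat.add_mul_div_left _ _ (by omega), Nat.div_eq_of_lt hc, zero_add]

theorem horND_eq {B nX : ℕ} (hnX : 0 < nX) (n : ℕ) (r : List ℕ) (hl : r.length ≤ n)
    (hr : ∀ c ∈ r, c < B) : horND B nX n (pkR B r) = horN nX r := by
  induction n generalizing r with
  | zero =>
    have : r = [] := List.length_eq_zero_iff.1 (by omega)
    rw [this]; rfl
  | succ n ih =>
    rw [horND, forceN_eq]
    cases r with
    | nil =>
      have h1 := ih [] (by simp) (by simp)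
      simp only [pkR] at h1 ⊢
      have e1 : Nat.mod 0 B = 0 := Nat.zero_mod B
      have e2 : Nat.div 0 B = 0 := Nat.zero_div B
      rw [e1, e2, h1]
      show 0 + cdiv 0 nX = 0
      rw [cdiv_zero hnX]
    | cons c r =>
      have hc := hr c List.mem_cons_self
      have e1 : Nat.mod (pkR B (c :: r)) B = c := pkR_mod hc
      have e2 : Nat.div (pkR B (c :: r)) B = pkR B r := pkR_div hc
      rw [e1, e2, ih r (by simpa using hl) (fun d hd => hr d (List.mem_cons_of_mem _ hd))]
      rfl

theorem pkR_lt {B : ℕ} (hB : 0 < B) (n : ℕ) (r : List ℕ) (hl : r.length ≤ n) (hr : ∀ c ∈ r, c < B) :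
    pkR B r < B ^ n := by
  induction n generalizing r with
  | zero =>
    have : r = [] := List.length_eq_zero_iff.1 (by omega)
    rw [this]; simp [pkR]
  | succ n ih =>
    cases r with
    | nil => simp only [pkR]; positivity
    | cons c r =>
      have hc := hr c List.mem_cons_self
      have h1 := ih r (by simpa using hl) (fun d hd => hr d (List.mem_cons_of_mem _ hd))
      simp only [pkR, Nat.add_eq, Nat.mul_eq]
      calc c + B * pkR B r < B + B * pkR B r := by omega
        _ = B * (pkR B r + 1) := by ring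
        _ ≤ B * B ^ n := Nat.mul_le_mul_left _ h1
        _ = B ^ (n + 1) := by ring

theorem pkR_drop {B : ℕ} (hB : 0 < B) (J : ℕ) (r : List ℕ) (hr : ∀ c ∈ r, c < B) :
    pkR B r / B ^ J = pkR B (r.drop J) := by
  induction J generalizing r with
  | zero => simp
  | succ J ih =>
    cases r with
    | nil => simp [pkR]
    | cons c r =>
      rw [pow_succ', ← Nat.div_div_eq_div_mul, pkR_div (hr c List.mem_cons_self),
        ih r (fun d hd => hr d (List.mem_cons_of_mem _ hd))]
      simp

theorem pkT_mod {B n2 : ℕ} (hB : 0 < B) {r : List ℕ} {A : Tab} (hl : r.length ≤ n2)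
    (hr : ∀ c ∈ r, c < B) : pkT B (B ^ n2) (r :: A) % B ^ n2 = pkR B r := by
  simp only [pkT, Nat.add_eq, Nat.mul_eq]
  rw [Nat.add_mul_mod_self_left]; exact Nat.mod_eq_of_lt (pkR_lt hB n2 r hl hr)

theorem pkT_div {B n2 : ℕ} (hB : 0 < B) {r : List ℕ} {A : Tab} (hl : r.length ≤ n2)
    (hr : ∀ c ∈ r, c < B) : pkT B (B ^ n2) (r :: A) / B ^ n2 = pkT B (B ^ n2) A := by
  simp only [pkT, Nat.add_eq, Nat.mul_eq]
  rw [Nat.add_mul_div_left _ _ (by positivity), Nat.div_eq_of_lt (pkR_lt hB n2 r hl hr), zero_add]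

theorem horNN_zero {B n2 nX nY : ℕ} (hnX : 0 < nX) (hnY : 0 < nY) (n : ℕ) :
    horNN B (B ^ n2) n2 nX nY n 0 = 0 := by
  induction n with
  | zero => rfl
  | succ n ih =>
    rw [horNN, forceN_eq]
    have e1 : Nat.mod 0 (B ^ n2) = 0 := Nat.zero_mod _
    have e2 : Nat.div 0 (B ^ n2) = 0 := Nat.zero_div _
    rw [e1, e2, ih]
    have h1 := horND_eq (B := B) hnX n2 [] (by simp) (by simp)
    simp only [pkR] at h1
    rw [h1]
    show 0 + cdiv 0 nY = 0
    rw [cdiv_zero hnY]

theorem horNN_eq {B n2 nX nY M : ℕ} (hM : M < B) (hnX : 0 < nX) (hnY : 0 < nY) (n : ℕ) (A : Tab)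
    (hA : Tz M n2 n A) :
    horNN B (B ^ n2) n2 nX nY n (pkT B (B ^ n2) A) = horN nY (A.map (horN nX)) := by
  have hB : 0 < B := by omega
  induction n generalizing A with
  | zero =>
    have : A = [] := List.length_eq_zero_iff.1 (by have := hA.2; omega)
    rw [this]; rfl
  | succ n ih =>
    cases A with
    | nil => simp only [pkT]; exact horNN_zero hnX hnY _
    | cons r A =>
      rw [horNN, forceN_eq]
      have h1 := hA.1 r List.mem_cons_self
      have h2 : ∀ c ∈ r, c < B := fun c hc => lt_of_le_of_lt (h1.2 c hc) hM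
      have e1 : Nat.mod (pkT B (B ^ n2) (r :: A)) (B ^ n2) = pkR B r := pkT_mod hB h1.1 h2
      have e2 : Nat.div (pkT B (B ^ n2) (r :: A)) (B ^ n2) = pkT B (B ^ n2) A :=
        pkT_div hB h1.1 h2
      rw [e1, e2, horND_eq hnX n2 r h1.1 h2,
        ih A ⟨fun s hs => hA.1 s (List.mem_cons_of_mem _ hs), by have := hA.2; simpa using this⟩]
      rfl

theorem outOK_outsD {b : Box} {u X Y : ℝ} (h : InBox b u X Y) {B n2 M : ℕ} (hM : M < B)
    (TF : Tab) (n : ℕ) (m : P3) (A : Tab) (hd : Dom3 u m A) (hA : Tz M n2 n A) :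
    OutOK u X Y TF m (outsD B (B ^ n2) n2 b.nX b.nY TF n (pkT B (B ^ n2) A)) := by
  have hB : 0 < B := by omega
  induction TF generalizing n m A with
  | nil =>
    simp only [OutOK, outsD, hdN]
    rw [horNN_eq hM h.nX h.nY n A hA]
    exact horN_bound (f := ev2 u X) h.nY h.Y0 h.Y1 (hd.rows h)
  | cons r TF ih =>
    cases n with
    | zero =>
      have e1 : A = [] := List.length_eq_zero_iff.1 (by have := hA.2; omega)
      have e2 : m = [] := by
        subst e1
        unfold Dom3 at hd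
        cases hd; rfl
      subst e1 e2
      rw [outsD]
      have : ∀ TF : Tab, OutOK u X Y TF [] [] := by
        intro TF
        induction TF with
        | nil => simp [OutOK, hdN, ev3, evL]
        | cons r TF ih => exact ⟨by simp [hdL, hdN, ev2, evL], ih⟩
      exact this _
    | succ n =>
      unfold Dom3 at hd
      cases hd with
      | nil =>
        simp only [pkT, outsD]
        refine ⟨?_, ?_⟩
        · simp [hdL, ev2, evL, hdN]
        · have e2 : Nat.div 0 (B ^ n2) = 0 := Nat.zero_div _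
          rw [e2]
          simpa [tlL, pkT] using ih n [] [] (by unfold Dom3; exact List.Forall₂.nil)
            (Tz.nil M n2 n)
      | @cons c s m A hcs hd =>
        have h1 := hA.1 s List.mem_cons_self
        have h2 : ∀ c ∈ s, c < B := fun c hc => lt_of_le_of_lt (h1.2 c hc) hM
        have e1 : Nat.mod (pkT B (B ^ n2) (s :: A)) (B ^ n2) = pkR B s := pkT_mod hB h1.1 h2
        have e2 : Nat.div (pkT B (B ^ n2) (s :: A)) (B ^ n2) = pkT B (B ^ n2) A :=
          pkT_div hB h1.1 h2
        rw [outsD, e1, e2]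
        refine ⟨?_, ?_⟩
        · simp only [hdL, hdN]
          have e3 : Nat.div (pkR B s) (Nat.pow B r.length) = pkR B (s.drop r.length) :=
            pkR_drop hB _ s h2
          rw [e3, horND_eq h.nX _ (s.drop r.length)
            (by rw [List.length_drop]; exact Nat.sub_le_sub_right h1.1 _)
            (fun c hc => h2 c (List.mem_of_mem_drop hc))]
          exact horN_bound (f := ev1 u) h.nX h.X0 h.X1 (List.forall₂_drop _ hcs)
        · exact ih n m A hd ⟨fun s hs => hA.1 s (List.mem_cons_of_mem _ hs),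
            by have := hA.2; simpa using this⟩

/-! ### folding error tables -/

def subR : List ℕ → List ℕ → Bool
  | [], _ => true
  | F :: Fs, L :: Ls => Nat.ble F L && subR Fs Ls
  | _ :: _, [] => false

def subT : Tab → Tab → Bool
  | [], _ => true
  | F :: Fs, L :: Ls => subR F L && subT Fs Ls
  | _ :: _, [] => false

def foldR (b : Box) (w : ℕ) : List ℕ → List ℕ → List ℕ → List ℕ
  | [], Ls, es => [Nat.mul w (supR b Ls es)]
  | F :: Fs, L :: Ls, e :: es => cdiv (Nat.mul w e) (Nat.pow b.nu (Nat.sub L F)) :: foldR b w Fs Ls es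
  | _, _, _ => []

def foldT (b : Box) (w : ℕ) : Tab → Tab → Tab → Tab
  | [], Ls, es => [[Nat.mul w (supT b Ls es)]]
  | F :: Fs, L :: Ls, e :: es => foldR b w F L e :: foldT b w Fs Ls es
  | _, _, _ => []

theorem foldR_le {b : Box} {u X Y : ℝ} (h : InBox b u X Y) (w : ℕ) (F L e : List ℕ)
    (hs : subR F L = true) : w * evR u X L e ≤ evR u X F (foldR b w F L e) := by
  induction F generalizing L e with
  | nil =>
    simp only [foldR, evR]
    have e1 : ((Nat.mul w (supR b L e) : ℕ) : ℝ) = w * supR b L e := Nat.cast_mul _ _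
    rw [e1]
    exact mul_le_mul_of_nonneg_left (supR_le h L e) (by positivity)
  | cons F Fs ih =>
    cases L with
    | nil => simp [subR] at hs
    | cons L Ls =>
      rw [subR, Bool.and_eq_true] at hs
      cases e with
      | nil => simp [foldR, evR]
      | cons e es =>
        simp only [foldR, evR]
        have h1 := ih Ls es hs.2
        have hFL : F ≤ L := Nat.le_of_ble_eq_true hs.1
        have h2 : (w : ℝ) * (u ^ L * e) ≤ u ^ F * cdiv (w * e) (b.nu ^ (L - F)) := by
          have h3 := cdiv_le (a := w * e) (pow_pos h.nu (L - F))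
          have h4 : u ^ L ≤ u ^ F * (1 / ((b.nu ^ (L - F) : ℕ) : ℝ)) := by
            have e1 : u ^ L = u ^ F * u ^ (L - F) := by rw [← pow_add]; congr 1; omega
            rw [e1]
            apply mul_le_mul_of_nonneg_left _ (pow_nonneg h.u0 F)
            push_cast
            rw [← one_div_pow]
            exact pow_le_pow_left₀ h.u0 h.u1 _
          push_cast at h3 h4 ⊢
          calc (w : ℝ) * (u ^ L * e) ≤ w * ((u ^ F * (1 / (b.nu : ℝ) ^ (L - F))) * e) := by gcongr
            _ = u ^ F * ((w * e) / (b.nu : ℝ) ^ (L - F)) := by ring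
            _ ≤ _ := mul_le_mul_of_nonneg_left h3 (pow_nonneg h.u0 F)
        have h5 := mul_le_mul_of_nonneg_left h1 h.X0
        have e2 : (w : ℝ) * (u ^ L * e + X * evR u X Ls es)
            = w * (u ^ L * e) + X * (w * evR u X Ls es) := by ring
        rw [e2]
        exact add_le_add h2 h5

theorem foldT_le {b : Box} {u X Y : ℝ} (h : InBox b u X Y) (w : ℕ) (F L e : Tab)
    (hs : subT F L = true) : w * evT u X Y L e ≤ evT u X Y F (foldT b w F L e) := by
  induction F generalizing L e with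
  | nil =>
    simp only [foldT, evT, evR]
    have e1 : ((Nat.mul w (supT b L e) : ℕ) : ℝ) = w * supT b L e := Nat.cast_mul _ _
    rw [e1]
    exact mul_le_mul_of_nonneg_left (supT_le h L e) (by positivity)
  | cons F Fs ih =>
    cases L with
    | nil => simp [subT] at hs
    | cons L Ls =>
      rw [subT, Bool.and_eq_true] at hs
      cases e with
      | nil => simp [foldT, evT]
      | cons e es =>
        simp only [foldT, evT]
        have h1 := ih Ls es hs.2
        have h2 := foldR_le h w F L e hs.1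
        have h5 := mul_le_mul_of_nonneg_left h1 h.Y0
        have e2 : (w : ℝ) * (evR u X L e + Y * evT u X Y Ls es)
            = w * evR u X L e + Y * (w * evT u X Y Ls es) := by ring
        rw [e2]
        exact add_le_add h2 h5

end Pool.Agent.Work.MP_71a505_fin
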