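import Pool.Agent.Work.MP_71a505_fin.FChk

/-!
The check of one function: a list of terms for every class.
-/

namespace Pool.Agent.Work.MP_71a505_fin

/-- a term `c u^i X^j Y^k` -/
structure T4 where
  c : ℤ
  i : ℕ
  j : ℕ
  k : ℕ

/-- a class: `σ f` is approximated by `q`, the value is `f * mon p qq (r - 1)`; `s` is an error
scale -/
structure CL where
  q : PE
  s : ℕ
  σ : ℕ
  p : ℕ
  qq : ℕ
  r : ℕ

noncomputable def sv1 (u X Y : ℝ) : List T4 → ℝ
  | [] => 0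
  | t :: ts => t.c * (u ^ t.i * X ^ t.j * Y ^ t.k) + sv1 u X Y ts

noncomputable def sv (u X Y : ℝ) : List ℝ → List (List T4) → ℝ
  | v :: vs, ts :: tss => v * sv1 u X Y ts + sv u X Y vs tss
  | _, _ => 0

/-- the polynomial part -/
def gp1 (p : P3) : List T4 → P3
  | [] => []
  | t :: ts => add3 (smul3 t.c (sh3 t.i t.j t.k p)) (gp1 p ts)
def gp : List CL → List (List T4) → P3
  | c :: cs, ts :: tss => add3 (gp1 c.q.p ts) (gp cs tss)
  | _, _ => []

/-- the table of norms -/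
def gn1 (b : Box) (n : Tab) : List T4 → Tab
  | [] => []
  | t :: ts => addT (shT t.j t.k (smulT (cdiv t.c.natAbs (Nat.pow b.nu t.i)) n)) (gn1 b n ts)
def gn (b : Box) : List CL → List (List T4) → Tab
  | c :: cs, ts :: tss => addT (gn1 b c.q.n ts) (gn b cs tss)
  | _, _ => []

/-- error weights -/
def sW1 (b : Box) (s : ℕ) : List T4 → ℕ
  | [] => 0
  | t :: ts => Nat.add (cdiv (Nat.mul t.c.natAbs s)
      (Nat.mul (Nat.mul (Nat.pow b.nu t.i) (Nat.pow b.nX t.j)) (Nat.pow b.nY t.k))) (sW1 b s ts)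

/-- forced class data -/
structure CD where
  P : ℕ
  Q : ℕ
  N : ℕ
  s : ℕ
  mx : ℕ
  mn : ℕ
  l : ℕ
  rl : ℕ
  kl : ℕ

def mkCD (B B1 B2 B' B1' : ℕ) (c : CL) : CD :=
  ⟨pos3 B B1 B2 c.q.p, neg3 B B1 B2 c.q.p, pkT B' B1' c.q.n, c.s, linf3 c.q.p, maxLT c.q.n,
    len3 c.q.p, rlen c.q.p, c.q.p.length⟩

def forceCDs (B B1 B2 B' B1' : ℕ) : List CL → (List CD → Bool) → Bool
  | [], k => k []
  | c :: cs, k =>
    forceN (pos3 B B1 B2 c.q.p) fun P => forceN (neg3 B B1 B2 c.q.p) fun Q =>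
    forceN (pkT B' B1' c.q.n) fun N => forceN c.s fun s => forceN (linf3 c.q.p) fun mx =>
    forceN (maxLT c.q.n) fun mn => forceN (len3 c.q.p) fun l => forceN (rlen c.q.p) fun rl =>
    forceN c.q.p.length fun kl =>
    forceCDs B B1 B2 B' B1' cs fun ds => k (⟨P, Q, N, s, mx, mn, l, rl, kl⟩ :: ds)

theorem forceCDs_eq (B B1 B2 B' B1' : ℕ) (cs : List CL) (k : List CD → Bool) :
    forceCDs B B1 B2 B' B1' cs k = k (cs.map (mkCD B B1 B2 B' B1')) := by
  induction cs generalizing k with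
  | nil => rfl
  | cons c cs ih => simp only [forceCDs, forceN_eq, ih]; rfl

/-- position of a shifted term in the packed number -/
def psn (n1 n2 : ℕ) (t : T4) : ℕ := Nat.add t.i (Nat.mul n1 (Nat.add t.j (Nat.mul n2 t.k)))

/-- positive and negative packed parts (`B = 2 ^ kb`) -/
def sP1 (kb n1 n2 P Q : ℕ) : List T4 → ℕ
  | [] => 0
  | t :: ts => Nat.add (Nat.shiftLeft (match t.c with
      | Int.ofNat n => Nat.mul n P
      | Int.negSucc n => Nat.mul (Nat.succ n) Q) (Nat.mul kb (psn n1 n2 t))) (sP1 kb n1 n2 P Q ts)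
def sP (kb n1 n2 : ℕ) : List CD → List (List T4) → ℕ
  | c :: cs, ts :: tss => Nat.add (sP1 kb n1 n2 c.P c.Q ts) (sP kb n1 n2 cs tss)
  | _, _ => 0
def sQ (kb n1 n2 : ℕ) : List CD → List (List T4) → ℕ
  | c :: cs, ts :: tss => Nat.add (sP1 kb n1 n2 c.Q c.P ts) (sQ kb n1 n2 cs tss)
  | _, _ => 0

/-- packed norms (`B' = 2 ^ kb'`) -/
def sN1 (b : Box) (kb' n2 N : ℕ) : List T4 → ℕ
  | [] => 0
  | t :: ts => Nat.add (Nat.shiftLeft (Nat.mul (cdiv t.c.natAbs (Nat.pow b.nu t.i)) N)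
      (Nat.mul kb' (Nat.add t.j (Nat.mul n2 t.k)))) (sN1 b kb' n2 N ts)
def sN (b : Box) (kb' n2 : ℕ) : List CD → List (List T4) → ℕ
  | c :: cs, ts :: tss => Nat.add (sN1 b kb' n2 c.N ts) (sN b kb' n2 cs tss)
  | _, _ => 0

def sW (b : Box) : List CD → List (List T4) → ℕ
  | c :: cs, ts :: tss => Nat.add (sW1 b c.s ts) (sW b cs tss)
  | _, _ => 0

/-- bounds for the coefficients -/
def sM1 (m : ℕ) : List T4 → ℕ
  | [] => 0
  | t :: ts => Nat.add (Nat.mul t.c.natAbs m) (sM1 m ts)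
def sM : List CD → List (List T4) → ℕ
  | c :: cs, ts :: tss => Nat.add (sM1 c.mx ts) (sM cs tss)
  | _, _ => 0
def sL1 (b : Box) (m : ℕ) : List T4 → ℕ
  | [] => 0
  | t :: ts => Nat.add (Nat.mul (cdiv t.c.natAbs (Nat.pow b.nu t.i)) m) (sL1 b m ts)
def sL (b : Box) : List CD → List (List T4) → ℕ
  | c :: cs, ts :: tss => Nat.add (sL1 b c.mn ts) (sL b cs tss)
  | _, _ => 0

def dm1 (n1 n2 n3 l rl kl : ℕ) : List T4 → Bool
  | [] => true
  | t :: ts => Nat.ble (Nat.add l t.i) n1 && (Nat.ble (Nat.add rl t.j) n2 &&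
      (Nat.ble (Nat.add kl t.k) n3 && dm1 n1 n2 n3 l rl kl ts))
def dm (n1 n2 n3 : ℕ) : List CD → List (List T4) → Bool
  | c :: cs, ts :: tss => dm1 n1 n2 n3 c.l c.rl c.kl ts && dm n1 n2 n3 cs tss
  | _, _ => true

/-- error tables are bounded by `s * E0` -/
def okE (E0 : Tab) : List CL → Bool
  | [] => true
  | c :: cs => leT c.q.e (smulT c.s E0) && okE E0 cs

/-! ### proofs -/

theorem sv1_gp1 (u X Y : ℝ) (p : P3) (ts : List T4) :
    ev3 u X Y (gp1 p ts) = ev3 u X Y p * sv1 u X Y ts := by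
  induction ts with
  | nil => simp [gp1, sv1, ev3, evL]
  | cons t ts ih => rw [gp1, ev3_add, ev3_smul, ev3_sh, ih, sv1]; ring

theorem abs_sv1_le {b : Box} {u X Y : ℝ} (h : InBox b u X Y) (s : ℕ) (ts : List T4) :
    |sv1 u X Y ts| * s ≤ sW1 b s ts := by
  induction ts with
  | nil => simp [sv1, sW1]
  | cons t ts ih =>
    rw [sv1, sW1]
    have e1 : ((Nat.add (cdiv (Nat.mul t.c.natAbs s) (Nat.mul (Nat.mul (Nat.pow b.nu t.i)
        (Nat.pow b.nX t.j)) (Nat.pow b.nY t.k))) (sW1 b s ts) : ℕ) : ℝ)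
        = (cdiv (t.c.natAbs * s) (b.nu ^ t.i * b.nX ^ t.j * b.nY ^ t.k) : ℕ) + sW1 b s ts :=
      Nat.cast_add _ _
    rw [e1]
    have h1 : |(t.c : ℝ) * (u ^ t.i * X ^ t.j * Y ^ t.k)| * s
        ≤ (cdiv (t.c.natAbs * s) (b.nu ^ t.i * b.nX ^ t.j * b.nY ^ t.k) : ℕ) := by
      have hp : 0 < b.nu ^ t.i * b.nX ^ t.j * b.nY ^ t.k :=
        Nat.mul_pos (Nat.mul_pos (pow_pos h.nu _) (pow_pos h.nX _)) (pow_pos h.nY _)
      have h2 := cdiv_le (a := t.c.natAbs * s) hp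
      refine le_trans ?_ h2
      rw [abs_mul, abs_int_cast]
      have h3 : |u ^ t.i * X ^ t.j * Y ^ t.k|
          ≤ 1 / ((b.nu ^ t.i * b.nX ^ t.j * b.nY ^ t.k : ℕ) : ℝ) := by
        rw [abs_of_nonneg (mul_nonneg (mul_nonneg (pow_nonneg h.u0 _) (pow_nonneg h.X0 _))
          (pow_nonneg h.Y0 _))]
        push_cast
        have a1 := pow_le_pow_left₀ h.u0 h.u1 t.i
        have a2 := pow_le_pow_left₀ h.X0 h.X1 t.j
        have a3 := pow_le_pow_left₀ h.Y0 h.Y1 t.k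
        have hu := pow_nonneg h.u0 t.i
        have hX := pow_nonneg h.X0 t.j
        have hY := pow_nonneg h.Y0 t.k
        have b1 : (0 : ℝ) ≤ 1 / b.nu := by positivity
        have b2 : (0 : ℝ) ≤ 1 / b.nX := by positivity
        calc u ^ t.i * X ^ t.j * Y ^ t.k
            ≤ (1 / b.nu : ℝ) ^ t.i * (1 / b.nX : ℝ) ^ t.j * (1 / b.nY : ℝ) ^ t.k := by gcongr
          _ = _ := by simp only [one_div_pow]; field_simp
      push_cast at h3 ⊢
      calc (t.c.natAbs : ℝ) * |u ^ t.i * X ^ t.j * Y ^ t.k| * s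
          ≤ t.c.natAbs * (1 / ((b.nu : ℝ) ^ t.i * (b.nX : ℝ) ^ t.j * (b.nY : ℝ) ^ t.k)) * s := by
            gcongr
        _ = _ := by ring
    calc |(t.c : ℝ) * (u ^ t.i * X ^ t.j * Y ^ t.k) + sv1 u X Y ts| * s
        ≤ (|(t.c : ℝ) * (u ^ t.i * X ^ t.j * Y ^ t.k)| + |sv1 u X Y ts|) * s :=
          mul_le_mul_of_nonneg_right (abs_add_le _ _) (by positivity)
      _ = |(t.c : ℝ) * (u ^ t.i * X ^ t.j * Y ^ t.k)| * s + |sv1 u X Y ts| * s := by ring
      _ ≤ _ := add_le_add h1 ih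

theorem sv_gp {b : Box} {T E0 : Tab} {u X Y : ℝ} (h : InBox b u X Y) {vs : List ℝ} {cs : List CL}
    (hv : List.Forall₂ (fun v (c : CL) => App T u X Y v c.q) vs cs) (hE : okE E0 cs = true)
    (B B1 B2 B' B1' : ℕ) (tss : List (List T4)) :
    |sv u X Y vs tss - ev3 u X Y (gp cs tss)|
      ≤ sW b (cs.map (mkCD B B1 B2 B' B1')) tss * evT u X Y T E0 := by
  induction hv generalizing tss with
  | nil => simp [sv, gp, sW, ev3, evL]
  | @cons v c vs cs hvc _ ih =>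
    rw [okE, Bool.and_eq_true] at hE
    cases tss with
    | nil => simp [sv, gp, sW, ev3, evL]
    | cons ts tss =>
      have h1 := ih hE.2 tss
      simp only [sv, gp, List.map_cons, sW]
      rw [ev3_add, sv1_gp1]
      have e1 : ((Nat.add (sW1 b (mkCD B B1 B2 B' B1' c).s ts)
          (sW b (cs.map (mkCD B B1 B2 B' B1')) tss) : ℕ) : ℝ)
          = sW1 b c.s ts + sW b (cs.map (mkCD B B1 B2 B' B1')) tss := Nat.cast_add _ _
      rw [e1, add_mul]
      have h2 : |(v - ev3 u X Y c.q.p) * sv1 u X Y ts| ≤ sW1 b c.s ts * evT u X Y T E0 := by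
        have h3 := leT_spec h.u0 h.X0 h.Y0 T _ _ hE.1
        rw [evT_smul] at h3
        have h4 := hvc.1.trans h3
        have h5 := abs_sv1_le h c.s ts
        have h6 := evT_nonneg h.u0 h.X0 h.Y0 T E0
        rw [abs_mul]
        calc |v - ev3 u X Y c.q.p| * |sv1 u X Y ts|
            ≤ (c.s * evT u X Y T E0) * |sv1 u X Y ts| :=
              mul_le_mul_of_nonneg_right h4 (abs_nonneg _)
          _ = (|sv1 u X Y ts| * c.s) * evT u X Y T E0 := by ring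
          _ ≤ _ := mul_le_mul_of_nonneg_right h5 h6
      calc |v * sv1 u X Y ts + sv u X Y vs tss
            - (ev3 u X Y c.q.p * sv1 u X Y ts + ev3 u X Y (gp cs tss))|
          = |(v - ev3 u X Y c.q.p) * sv1 u X Y ts + (sv u X Y vs tss - ev3 u X Y (gp cs tss))| := by
            congr 1; ring
        _ ≤ _ := (abs_add_le _ _).trans (add_le_add h2 h1)

theorem dom1_sh {b : Box} {u X Y : ℝ} (h : InBox b u X Y) (c : ℤ) (i : ℕ) {p : P1} {n : ℕ}
    (hp : Dom1 u p n) : Dom1 u (smul1 c (sh1 i p)) (cdiv c.natAbs (b.nu ^ i) * n) := by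
  unfold Dom1 at *
  rw [ev1_smul, ev1_sh, abs_mul, abs_mul, abs_int_cast, abs_of_nonneg (pow_nonneg h.u0 i)]
  push_cast
  have h1 := cdiv_le (a := c.natAbs) (pow_pos h.nu i)
  have h2 := pow_le_pow_left₀ h.u0 h.u1 i
  have hu := pow_nonneg h.u0 i
  calc (c.natAbs : ℝ) * (u ^ i * |ev1 u p|) ≤ c.natAbs * ((1 / (b.nu : ℝ)) ^ i * n) := by gcongr
    _ = c.natAbs / ((b.nu ^ i : ℕ) : ℝ) * n := by push_cast; rw [one_div_pow]; ring
    _ ≤ _ := mul_le_mul_of_nonneg_right h1 (by positivity)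

theorem forall₂_replicate_append {α β : Type*} {R : α → β → Prop} {a : α} {b : β} (h : R a b) (n : ℕ)
    {l : List α} {m : List β} (hl : List.Forall₂ R l m) :
    List.Forall₂ R (List.replicate n a ++ l) (List.replicate n b ++ m) := by
  induction n with
  | zero => simpa using hl
  | succ n ih => simpa [List.replicate_succ] using List.Forall₂.cons h ih

theorem dom3_sh {b : Box} {u X Y : ℝ} (h : InBox b u X Y) (c : ℤ) (i j k : ℕ) {p : P3} {A : Tab}
    (hp : Dom3 u p A) :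
    Dom3 u (smul3 c (sh3 i j k p)) (shT j k (smulT (cdiv c.natAbs (Nat.pow b.nu i)) A)) := by
  unfold Dom3 smul3 sh3 shT smulT
  rw [List.map_append, List.map_replicate, List.map_map, List.map_map]
  refine forall₂_replicate_append (by exact List.Forall₂.nil) k ?_
  refine forall₂_map (R := Dom2 u) (fun q B hqB => ?_) hp
  simp only [Function.comp, smul2, sh2, shR, smulR]
  rw [List.map_append, List.map_replicate, List.map_map]
  refine forall₂_replicate_append ?_ j ?_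
  · simp [Dom1, smul1, ev1, evL]
  · refine forall₂_map (R := Dom1 u) (fun x y hxy => ?_) hqB
    exact dom1_sh h c i hxy

theorem dom3_gn1 {b : Box} {u X Y : ℝ} (h : InBox b u X Y) {p : P3} {n : Tab} (hp : Dom3 u p n)
    (ts : List T4) : Dom3 u (gp1 p ts) (gn1 b n ts) := by
  induction ts with
  | nil => exact List.Forall₂.nil
  | cons t ts ih => exact dom3_add (dom3_sh h t.c t.i t.j t.k hp) ih

theorem dom3_gn {b : Box} {T : Tab} {u X Y : ℝ} (h : InBox b u X Y) {vs : List ℝ} {cs : List CL}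
    (hv : List.Forall₂ (fun v (c : CL) => App T u X Y v c.q) vs cs) (tss : List (List T4)) :
    Dom3 u (gp cs tss) (gn b cs tss) := by
  induction hv generalizing tss with
  | nil => exact List.Forall₂.nil
  | @cons v c vs cs hvc _ ih =>
    cases tss with
    | nil => exact List.Forall₂.nil
    | cons ts tss => exact dom3_add (dom3_gn1 h hvc.2 ts) (ih tss)

/-! sizes -/

theorem linf_dim {p : P3} {n1 n2 n3 i j k : ℕ} (h1 : len3 p + i ≤ n1) (h2 : rlen p + j ≤ n2)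
    (h3 : p.length + k ≤ n3) : Sz (linf3 p) n1 n2 n3 (sh3 i j k p) := (sz_self p).sh h1 h2 h3

theorem sz_gp1 {n1 n2 n3 : ℕ} (p : P3) (ts : List T4)
    (hd : dm1 n1 n2 n3 (len3 p) (rlen p) p.length ts = true) :
    Sz (sM1 (linf3 p) ts) n1 n2 n3 (gp1 p ts) := by
  induction ts with
  | nil => exact Sz.nil _ _ _ _
  | cons t ts ih =>
    rw [dm1, Bool.and_eq_true, Bool.and_eq_true, Bool.and_eq_true] at hd
    obtain ⟨h1, h2, h3, h4⟩ := hd
    have h5 := (linf_dim (Nat.le_of_ble_eq_true h1) (Nat.le_of_ble_eq_true h2)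
      (Nat.le_of_ble_eq_true h3)).smul t.c
    exact h5.add (ih h4)

theorem sz_gp {n1 n2 n3 : ℕ} (B B1 B2 B' B1' : ℕ) (cs : List CL) (tss : List (List T4))
    (hd : dm n1 n2 n3 (cs.map (mkCD B B1 B2 B' B1')) tss = true) :
    Sz (sM (cs.map (mkCD B B1 B2 B' B1')) tss) n1 n2 n3 (gp cs tss) := by
  induction cs generalizing tss with
  | nil => cases tss <;> exact Sz.nil _ _ _ _
  | cons c cs ih =>
    cases tss with
    | nil => exact Sz.nil _ _ _ _
    | cons ts tss =>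
      simp only [List.map_cons, dm, Bool.and_eq_true] at hd
      exact (sz_gp1 c.q.p ts hd.1).add (ih tss hd.2)

theorem le_mxR {l : List ℕ} {c : ℕ} (h : c ∈ l) : c ≤ mxR l := by
  induction l with
  | nil => simp at h
  | cons a l ih =>
    rcases List.mem_cons.1 h with rfl | h
    · exact le_max_left _ _
    · exact (ih h).trans (le_max_right _ _)

theorem tz_self {u : ℝ} {p : P3} {A : Tab} (h : Dom3 u p A) : Tz (maxLT A) (rlen p) p.length A := by
  unfold Dom3 at h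
  induction h with
  | nil => exact Tz.nil _ _ _
  | @cons c m p A hcm _ ih =>
    refine ⟨?_, ?_⟩
    · intro r hr
      rcases List.mem_cons.1 hr with rfl | hr
      · refine ⟨?_, fun c hc => ?_⟩
        · have e1 := List.Forall₂.length_eq hcm
          rw [← e1]; exact le_max_left _ _
        · exact (le_mxR hc).trans (le_max_left _ _)
      · have h1 := ih.1 r hr
        exact ⟨h1.1.trans (le_max_right _ _), fun c hc => (h1.2 c hc).trans (le_max_right _ _)⟩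
    · have := ih.2
      simp only [List.length_cons]; omega

theorem tz_gn1 {b : Box} {u : ℝ} {n1 n2 n3 : ℕ} {p : P3} {A : Tab} (hp : Dom3 u p A)
    (ts : List T4) (hd : dm1 n1 n2 n3 (len3 p) (rlen p) p.length ts = true) :
    Tz (sL1 b (maxLT A) ts) n2 n3 (gn1 b A ts) := by
  induction ts with
  | nil => exact Tz.nil _ _ _
  | cons t ts ih =>
    rw [dm1, Bool.and_eq_true, Bool.and_eq_true, Bool.and_eq_true] at hd
    obtain ⟨h1, h2, h3, h4⟩ := hd
    exact (((tz_self hp).smul _).sh (Nat.le_of_ble_eq_true h2) (Nat.le_of_ble_eq_true h3)).add (ih h4)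

theorem tz_gn {b : Box} {T : Tab} {u X Y : ℝ} {n1 n2 n3 : ℕ} (B B1 B2 B' B1' : ℕ) {vs : List ℝ}
    {cs : List CL} (hv : List.Forall₂ (fun v (c : CL) => App T u X Y v c.q) vs cs)
    (tss : List (List T4)) (hd : dm n1 n2 n3 (cs.map (mkCD B B1 B2 B' B1')) tss = true) :
    Tz (sL b (cs.map (mkCD B B1 B2 B' B1')) tss) n2 n3 (gn b cs tss) := by
  induction hv generalizing tss with
  | nil => cases tss <;> exact Tz.nil _ _ _
  | @cons v c vs cs hvc _ ih =>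
    cases tss with
    | nil => exact Tz.nil _ _ _
    | cons ts tss =>
      simp only [List.map_cons, dm, Bool.and_eq_true] at hd
      exact (tz_gn1 hvc.2 ts hd.1).add (ih tss hd.2)

/-! packed values -/

theorem sP1_eq (kb n1 n2 : ℕ) (p : P3) (ts : List T4) :
    (sP1 kb n1 n2 (pos3 (2 ^ kb) ((2 ^ kb) ^ n1) (((2 ^ kb) ^ n1) ^ n2) p)
        (neg3 (2 ^ kb) ((2 ^ kb) ^ n1) (((2 ^ kb) ^ n1) ^ n2) p) ts : ℤ)
      - sP1 kb n1 n2 (neg3 (2 ^ kb) ((2 ^ kb) ^ n1) (((2 ^ kb) ^ n1) ^ n2) p)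
        (pos3 (2 ^ kb) ((2 ^ kb) ^ n1) (((2 ^ kb) ^ n1) ^ n2) p) ts
      = pk3 ((2 ^ kb : ℕ) : ℤ) (((2 ^ kb) ^ n1 : ℕ) : ℤ) ((((2 ^ kb) ^ n1) ^ n2 : ℕ) : ℤ)
        (gp1 p ts) := by
  induction ts with
  | nil => simp [sP1, gp1, pk3]
  | cons t ts ih =>
    rw [gp1, pk3_add, pk3_smul, pk3_sh, ← ih, ← pos3_sub]
    generalize pos3 (2 ^ kb) ((2 ^ kb) ^ n1) (((2 ^ kb) ^ n1) ^ n2) p = a
    generalize neg3 (2 ^ kb) ((2 ^ kb) ^ n1) (((2 ^ kb) ^ n1) ^ n2) p = c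
    have e1 : ∀ x : ℕ, Nat.shiftLeft x (Nat.mul kb (psn n1 n2 t))
        = x * ((2 ^ kb) ^ t.i * ((2 ^ kb) ^ n1) ^ t.j * (((2 ^ kb) ^ n1) ^ n2) ^ t.k) := by
      intro x
      show x <<< (kb * (t.i + n1 * (t.j + n2 * t.k))) = _
      rw [Nat.shiftLeft_eq]
      congr 1
      rw [← pow_mul, ← pow_mul, ← pow_mul, ← pow_mul, ← pow_mul, ← pow_mul, ← pow_add, ← pow_add]
      congr 1; ring
    simp only [sP1, Nat.add_eq, e1]
    rcases t.c with n | n
    · simp only [Nat.mul_eq, Int.ofNat_eq_natCast]; push_cast; ring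
    · simp only [Nat.mul_eq]
      rw [Int.negSucc_eq]; push_cast; ring

theorem sP_eq (kb n1 n2 B' B1' : ℕ) (cs : List CL) (tss : List (List T4)) :
    (sP kb n1 n2 (cs.map (mkCD (2 ^ kb) ((2 ^ kb) ^ n1) (((2 ^ kb) ^ n1) ^ n2) B' B1')) tss : ℤ)
      - sQ kb n1 n2 (cs.map (mkCD (2 ^ kb) ((2 ^ kb) ^ n1) (((2 ^ kb) ^ n1) ^ n2) B' B1')) tss
      = pk3 ((2 ^ kb : ℕ) : ℤ) (((2 ^ kb) ^ n1 : ℕ) : ℤ) ((((2 ^ kb) ^ n1) ^ n2 : ℕ) : ℤ)
        (gp cs tss) := by
  induction cs generalizing tss with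
  | nil => cases tss <;> simp [sP, sQ, gp, pk3]
  | cons c cs ih =>
    cases tss with
    | nil => simp [sP, sQ, gp, pk3]
    | cons ts tss =>
      simp only [List.map_cons, sP, sQ, gp, Nat.add_eq]
      rw [pk3_add, ← ih tss, ← sP1_eq]
      simp only [mkCD]
      push_cast; ring

theorem sN1_eq (b : Box) (kb' n2 : ℕ) (n : Tab) (ts : List T4) :
    sN1 b kb' n2 (pkT (2 ^ kb') ((2 ^ kb') ^ n2) n) ts
      = pkT (2 ^ kb') ((2 ^ kb') ^ n2) (gn1 b n ts) := by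
  induction ts with
  | nil => simp [sN1, gn1, pkT]
  | cons t ts ih =>
    rw [gn1, pkT_add, pkT_sh, pkT_smul, ← ih]
    have e1 : ∀ x : ℕ, Nat.shiftLeft x (Nat.mul kb' (Nat.add t.j (Nat.mul n2 t.k)))
        = x * ((2 ^ kb') ^ t.j * ((2 ^ kb') ^ n2) ^ t.k) := by
      intro x
      show x <<< (kb' * (t.j + n2 * t.k)) = _
      rw [Nat.shiftLeft_eq]
      congr 1
      rw [← pow_mul, ← pow_mul, ← pow_mul, ← pow_add]
      congr 1; ring
    rw [sN1, e1]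
    simp only [Nat.add_eq, Nat.mul_eq, Nat.pow_eq]
    ring

theorem sN_eq (b : Box) (kb' n2 B B1 B2 : ℕ) (cs : List CL) (tss : List (List T4)) :
    sN b kb' n2 (cs.map (mkCD B B1 B2 (2 ^ kb') ((2 ^ kb') ^ n2))) tss
      = pkT (2 ^ kb') ((2 ^ kb') ^ n2) (gn b cs tss) := by
  induction cs generalizing tss with
  | nil => cases tss <;> simp [sN, gn, pkT]
  | cons c cs ih =>
    cases tss with
    | nil => simp [sN, gn, pkT]
    | cons ts tss =>
      simp only [List.map_cons, sN, gn, Nat.add_eq]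
      rw [pkT_add, ← ih tss, ← sN1_eq]
      simp only [mkCD]

/-! ### the check -/

def forceL {α : Type*} : List ℕ → (List ℕ → α) → α
  | [], k => k []
  | a :: l, k => forceN a fun a => forceL l fun l => k (a :: l)

theorem forceL_eq {α : Type*} (l : List ℕ) (k : List ℕ → α) : forceL l k = k l := by
  induction l generalizing k with
  | nil => rfl
  | cons a l ih => simp only [forceL, forceN_eq, ih]

def forceT {α : Type*} : Tab → (Tab → α) → α
  | [], k => k []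
  | a :: l, k => forceL a fun a => forceT l fun l => k (a :: l)

theorem forceT_eq {α : Type*} (l : Tab) (k : Tab → α) : forceT l k = k l := by
  induction l generalizing k with
  | nil => rfl
  | cons a l ih => simp only [forceT, forceL_eq, ih]

/-- the check of one function; `B = 2 ^ kb = 2 * h`, `B1 = B ^ n1`, `B2 = B1 ^ n2`,
`off = h * gsum B (n1 * n2 * n3)` -/
def chkF (b : Box) (T E0 : Tab) (kb n1 n2 n3 kb' h B B1 B2 off B' B1' : ℕ) (cds : List CD)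
    (TF : Tab) (t : P3) (K : Tab) (tss : List (List T4)) : Bool :=
  forceN (sP kb n1 n2 cds tss) fun a => forceN (sQ kb n1 n2 cds tss) fun c =>
  forceN (sN b kb' n2 cds tss) fun N => forceN (sW b cds tss) fun w =>
  forceN (Nat.sub (Nat.add a off) c) fun M =>
  forceL (outsD B' B1' n2 b.nX b.nY TF n3 N) fun o => forceT (foldT b w TF T E0) fun s =>
  subT TF T && (dm n1 n2 n3 cds tss && (Nat.blt (sM cds tss) h && (Nat.blt (sL b cds tss) B' &&
    chkT B h b.nu n1 B1 n2 B2 TF n3 M t K s o)))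

theorem chkF_spec {b : Box} {T E0 : Tab} {u X Y : ℝ} (hb : InBox b u X Y) {vs : List ℝ}
    {cs : List CL} (hv : List.Forall₂ (fun v (c : CL) => App T u X Y v c.q) vs cs)
    (hE : okE E0 cs = true) {k n1 n2 n3 kb' : ℕ} (hn1 : 1 ≤ n1) (hn2 : 1 ≤ n2) {TF : Tab} {t : P3}
    {K : Tab} {tss : List (List T4)}
    (hk : chkF b T E0 (k + 1) n1 n2 n3 kb' (2 ^ k) (2 ^ (k + 1)) ((2 ^ (k + 1)) ^ n1)
      (((2 ^ (k + 1)) ^ n1) ^ n2) (2 ^ k * gsum (2 ^ (k + 1)) (n1 * n2 * n3)) (2 ^ kb')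
      ((2 ^ kb') ^ n2) (cs.map (mkCD (2 ^ (k + 1)) ((2 ^ (k + 1)) ^ n1)
        (((2 ^ (k + 1)) ^ n1) ^ n2) (2 ^ kb') ((2 ^ kb') ^ n2))) TF t K tss = true) :
    |sv u X Y vs tss - ev3 u X Y t| ≤ evT u X Y TF K := by
  unfold chkF at hk
  simp only [forceN_eq, forceL_eq, forceT_eq, Bool.and_eq_true] at hk
  obtain ⟨h1, h2, h3, h4, h5⟩ := hk
  have hB : 2 ^ (k + 1) = 2 * 2 ^ k := by ring
  have hh : 1 ≤ 2 ^ k := Nat.one_le_two_pow
  have hsz := sz_gp _ _ _ _ _ cs tss h2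
  have hlt : sM (cs.map (mkCD (2 ^ (k + 1)) ((2 ^ (k + 1)) ^ n1)
        (((2 ^ (k + 1)) ^ n1) ^ n2) (2 ^ kb') ((2 ^ kb') ^ n2))) tss < 2 ^ k := by
    simpa [Nat.blt_eq] using h3
  have hsm : Sm3 (2 ^ k) n1 n2 (gp cs tss) := hsz.sm hlt
  have hM := b3_eq (B := 2 ^ (k + 1)) hB hh hn1 hn2 n3 (gp cs tss) hsz.2.2 hsm
  rw [← sP_eq (k + 1) n1 n2 (2 ^ kb') ((2 ^ kb') ^ n2) cs tss] at hM
  rw [sN_eq] at h5
  have hL : sL b (cs.map (mkCD (2 ^ (k + 1)) ((2 ^ (k + 1)) ^ n1)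
        (((2 ^ (k + 1)) ^ n1) ^ n2) (2 ^ kb') ((2 ^ kb') ^ n2))) tss < 2 ^ kb' := by
    simpa [Nat.blt_eq] using h4
  have hout := outOK_outsD hb hL TF n3 (gp cs tss) (gn b cs tss) (dom3_gn hb hv tss)
    (tz_gn _ _ _ _ _ hv tss h2)
  have hM' : Nat.sub (Nat.add (sP (k + 1) n1 n2 (cs.map (mkCD (2 ^ (k + 1)) ((2 ^ (k + 1)) ^ n1)
        (((2 ^ (k + 1)) ^ n1) ^ n2) (2 ^ kb') ((2 ^ kb') ^ n2))) tss)
        (2 ^ k * gsum (2 ^ (k + 1)) (n1 * n2 * n3)))
      (sQ (k + 1) n1 n2 (cs.map (mkCD (2 ^ (k + 1)) ((2 ^ (k + 1)) ^ n1)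
        (((2 ^ (k + 1)) ^ n1) ^ n2) (2 ^ kb') ((2 ^ kb') ^ n2))) tss)
      = b3 (2 ^ (k + 1)) (2 ^ k) n1 n2 n3 (gp cs tss) := by
    generalize sP (k + 1) n1 n2 _ tss = a1 at hM ⊢
    generalize sQ (k + 1) n1 n2 _ tss = a2 at hM ⊢
    generalize b3 (2 ^ (k + 1)) (2 ^ k) n1 n2 n3 (gp cs tss) = N at hM ⊢
    show (a1 + 2 ^ k * gsum (2 ^ (k + 1)) (n1 * n2 * n3)) - a2 = N
    have h6 : N + a2 = a1 + 2 ^ k * gsum (2 ^ (k + 1)) (n1 * n2 * n3) := by
      have : (N : ℤ) + a2 = a1 + (2 ^ k : ℕ) * gsum (2 ^ (k + 1)) (n1 * n2 * n3) := by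
        rw [hM]; ring
      exact_mod_cast this
    omega
  rw [hM'] at h5
  have h6 := chkT_spec hB hh hb TF n3 (gp cs tss) t K _ _ hsm h5 hout
  have h7 := sv_gp hb hv hE (2 ^ (k + 1)) ((2 ^ (k + 1)) ^ n1) (((2 ^ (k + 1)) ^ n1) ^ n2) (2 ^ kb')
    ((2 ^ kb') ^ n2) tss
  have h8 := foldT_le hb (sW b (cs.map (mkCD (2 ^ (k + 1)) ((2 ^ (k + 1)) ^ n1)
        (((2 ^ (k + 1)) ^ n1) ^ n2) (2 ^ kb') ((2 ^ kb') ^ n2))) tss) TF T E0 h1
  calc |sv u X Y vs tss - ev3 u X Y t|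
      = |(sv u X Y vs tss - ev3 u X Y (gp cs tss)) + (ev3 u X Y (gp cs tss) - ev3 u X Y t)| := by
        congr 1; ring
    _ ≤ |sv u X Y vs tss - ev3 u X Y (gp cs tss)| + |ev3 u X Y (gp cs tss) - ev3 u X Y t| :=
        abs_add_le _ _
    _ ≤ evT u X Y TF K := by linarith

end Pool.Agent.Work.MP_71a505_fin
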