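import Pool.Agent.Work.MP_71a505_fin.Rules

namespace Pool.Agent.Work.MP_71a505_fin

/-- a point of the chart -/
structure Pt where
  (u X Y v χ ψ ω sX sY sZ B C E wh H al be ga de Kh : ℝ)
  hc : Ch u X Y v χ ψ ω sX sY sZ B C E wh H al be ga de Kh

end Pool.Agent.Work.MP_71a505_fin
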