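import Pool.Agent.Work.MP_71a505_fin.FChk2
import Pool.Agent.Work.MP_71a505_fin.Pts

/-!
From monomials `c a^i d^j g^k V` to shifted terms.
-/

namespace Pool.Agent.Work.MP_71a505_fin

/-- a term `c * a ^ a * d ^ d * g ^ g` -/
structure Raw where
  c : ℤ
  a : ℕ
  d : ℕ
  g : ℕ

noncomputable def rv1 (a d g : ℝ) : List Raw → ℝ
  | [] => 0
  | t :: ts => t.c * (a ^ t.a * d ^ t.d * g ^ t.g) + rv1 a d g ts

noncomputable def rv (a d g : ℝ) : List ℝ → List (List Raw) → ℝ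
  | V :: Vs, r :: rs => V * rv1 a d g r + rv a d g Vs rs
  | _, _ => 0

def mulC (c : ℤ) (m : ℕ) : ℤ :=
  match c with
  | Int.ofNat n => Int.ofNat (Nat.mul n m)
  | Int.negSucc n => Int.negSucc (Nat.sub (Nat.mul (Nat.succ n) m) 1)

theorem mulC_eq {c : ℤ} {m : ℕ} (hm : 1 ≤ m) : mulC c m = c * m := by
  unfold mulC
  rcases c with n | n
  · simp
  · show Int.negSucc ((n + 1) * m - 1) = _
    have h1 : 1 ≤ (n + 1) * m := Nat.mul_pos (by omega) hm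
    rw [Int.negSucc_eq, Int.negSucc_eq]
    push_cast [h1]
    ring

def ci (R r : ℕ) (t : Raw) : ℕ :=
  Nat.div (Nat.sub (Nat.add (Nat.add R (Nat.mul 3 t.a)) 1) (Nat.add (Nat.mul 3 (Nat.add t.d t.g)) r)) 2
def cj (P p : ℕ) (t : Raw) : ℕ := Nat.div (Nat.sub (Nat.add P t.g) (Nat.add (Nat.add t.a t.d) p)) 2
def ck (Q q : ℕ) (t : Raw) : ℕ := Nat.div (Nat.sub (Nat.add Q t.d) (Nat.add (Nat.add t.a t.g) q)) 2

def conv1 (P Q R lam p q r : ℕ) (t : Raw) : T4 :=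
  ⟨mulC t.c (Nat.mul (Nat.mul lam (Nat.pow 24 (ci R r t)))
    (Nat.mul (Nat.pow 1296 (cj P p t)) (Nat.pow 144 (ck Q q t)))), ci R r t, cj P p t, ck Q q t⟩

def okc1 (P Q R p q r : ℕ) (t : Raw) : Bool :=
  Nat.beq (Nat.add (Nat.mul 2 (ci R r t)) (Nat.add (Nat.mul 3 (Nat.add t.d t.g)) r))
    (Nat.add (Nat.add R (Nat.mul 3 t.a)) 1) &&
  (Nat.beq (Nat.add (Nat.mul 2 (cj P p t)) (Nat.add (Nat.add t.a t.d) p)) (Nat.add P t.g) &&
  Nat.beq (Nat.add (Nat.mul 2 (ck Q q t)) (Nat.add (Nat.add t.a t.g) q)) (Nat.add Q t.d))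

def okc (P Q R Λ : ℕ) : List CL → List (List Raw) → Bool
  | c :: cs, r :: rs => (r.all (okc1 P Q R c.p c.qq c.r) && (Nat.beq (Nat.mul c.σ (Nat.div Λ c.σ)) Λ &&
      Nat.ble 1 Λ)) && okc P Q R Λ cs rs
  | _, _ => true

def conv (P Q R Λ : ℕ) : List CL → List (List Raw) → List (List T4)
  | c :: cs, r :: rs => r.map (conv1 P Q R (Nat.div Λ c.σ) c.p c.qq c.r) :: conv P Q R Λ cs rs
  | _, _ => []

/-- forced version -/
def forceC {α : Type*} (c : ℤ) (k : ℤ → α) : α :=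
  match c with
  | Int.ofNat n => forceN n fun n => k (Int.ofNat n)
  | Int.negSucc n => forceN n fun n => k (Int.negSucc n)

theorem forceC_eq {α : Type*} (c : ℤ) (k : ℤ → α) : forceC c k = k c := by
  cases c <;> simp [forceC, forceN_eq]

def forceR (P Q R lam p q r : ℕ) : List Raw → (List T4 → Bool) → Bool
  | [], k => k []
  | t :: ts, k => forceN (ci R r t) fun i => forceN (cj P p t) fun j => forceN (ck Q q t) fun l =>
      forceN (Nat.mul (Nat.mul lam (Nat.pow 24 i)) (Nat.mul (Nat.pow 1296 j) (Nat.pow 144 l))) fun m =>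
      forceC (mulC t.c m) fun c => forceR P Q R lam p q r ts fun rs => k (⟨c, i, j, l⟩ :: rs)

theorem forceR_eq (P Q R lam p q r : ℕ) (l : List Raw) (k : List T4 → Bool) :
    forceR P Q R lam p q r l k = k (l.map (conv1 P Q R lam p q r)) := by
  induction l generalizing k with
  | nil => rfl
  | cons t ts ih => simp only [forceR, forceN_eq, forceC_eq, ih]; rfl

def forceRs (P Q R Λ : ℕ) : List CL → List (List Raw) → (List (List T4) → Bool) → Bool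
  | c :: cs, r :: rs, k => forceN (Nat.div Λ c.σ) fun lam =>
      forceR P Q R lam c.p c.qq c.r r fun t => forceRs P Q R Λ cs rs fun ts => k (t :: ts)
  | _, _, k => k []

theorem forceRs_eq (P Q R Λ : ℕ) (cs : List CL) (rs : List (List Raw))
    (k : List (List T4) → Bool) : forceRs P Q R Λ cs rs k = k (conv P Q R Λ cs rs) := by
  induction cs generalizing rs k with
  | nil => cases rs <;> rfl
  | cons c cs ih =>
    cases rs with
    | nil => rfl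
    | cons r rs => simp only [forceRs, forceN_eq, forceR_eq, ih]; rfl

/-- correctness of a class -/
def ClOK (T : Tab) (u X Y v χ ψ : ℝ) (V : ℝ) (c : CL) : Prop :=
  ∃ f, V = f * mon v χ ψ c.p c.qq ((c.r : ℤ) - 1) ∧
    App T (u / 24) (X / 1296) (Y / 144) (c.σ * f) c.q

theorem mon_pow (v χ ψ : ℝ) (p q r : ℤ) (n : ℕ) :
    (mon v χ ψ p q r) ^ n = mon v χ ψ (n * p) (n * q) (n * r) := by
  unfold mon
  have e : ∀ x : ℤ, -x * (n : ℤ) = -(n * x) := fun x => by ring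
  rw [mul_pow, mul_pow, ← zpow_natCast, ← zpow_natCast, ← zpow_natCast, ← zpow_mul, ← zpow_mul,
    ← zpow_mul, e, e, e]

theorem term_eq {v χ ψ : ℝ} (hv : 0 < v) (hχ : 0 < χ) (hψ : 0 < ψ) {P Q R p q r : ℕ} {t : Raw}
    (ht : okc1 P Q R p q r t = true) :
    (mon v χ ψ 1 1 (-3)) ^ t.a * (mon v χ ψ 1 (-1) 3) ^ t.d * (mon v χ ψ (-1) 1 3) ^ t.g
      * mon v χ ψ p q ((r : ℤ) - 1)
    = mon v χ ψ P Q R * ((v ^ 2) ^ ci R r t * (χ ^ 2) ^ cj P p t * (ψ ^ 2) ^ ck Q q t) := by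
  unfold okc1 at ht
  rw [Bool.and_eq_true, Bool.and_eq_true] at ht
  obtain ⟨h1, h2, h3⟩ := ht
  have h1 := Nat.eq_of_beq_eq_true h1
  have h2 := Nat.eq_of_beq_eq_true h2
  have h3 := Nat.eq_of_beq_eq_true h3
  generalize ci R r t = i at *
  generalize cj P p t = j at *
  generalize ck Q q t = k at *
  simp only [Nat.add_eq, Nat.mul_eq] at h1 h2 h3
  have e1 : (v ^ 2) ^ i = mon v χ ψ 0 0 (-(2 * i)) := by
    unfold mon
    simp only [neg_zero, zpow_zero, one_mul, neg_neg]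
    rw [← pow_mul]; norm_cast
  have e2 : (χ ^ 2) ^ j = mon v χ ψ (-(2 * j)) 0 0 := by
    unfold mon
    simp only [neg_zero, zpow_zero, mul_one, neg_neg]
    rw [← pow_mul]; norm_cast
  have e3 : (ψ ^ 2) ^ k = mon v χ ψ 0 (-(2 * k)) 0 := by
    unfold mon
    simp only [neg_zero, zpow_zero, mul_one, one_mul, neg_neg]
    rw [← pow_mul]; norm_cast
  rw [e1, e2, e3, mon_pow, mon_pow, mon_pow]
  simp only [mon_mul hv hχ hψ]
  have g1 : ((R : ℤ) + 3 * t.a + 1) = 2 * i + (3 * (t.d + t.g) + r) := by exact_mod_cast h1.symm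
  have g2 : ((P : ℤ) + t.g) = 2 * j + (t.a + t.d + p) := by exact_mod_cast h2.symm
  have g3 : ((Q : ℤ) + t.d) = 2 * k + (t.a + t.g + q) := by exact_mod_cast h3.symm
  congr 1
  · linarith
  · linarith
  · linarith

theorem rv1_eq {v χ ψ a d g : ℝ} (hv : 0 < v) (hχ : 0 < χ) (hψ : 0 < ψ)
    (ha : a = mon v χ ψ 1 1 (-3)) (hd : d = mon v χ ψ 1 (-1) 3) (hg : g = mon v χ ψ (-1) 1 3)
    {P Q R lam p q r : ℕ} (hl : 1 ≤ lam) (f : ℝ) (l : List Raw)
    (ht : l.all (okc1 P Q R p q r) = true) :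
    lam * (f * mon v χ ψ p q ((r : ℤ) - 1)) * rv1 a d g l
      = mon v χ ψ P Q R * (f * sv1 (v ^ 2 / 24) (χ ^ 2 / 1296) (ψ ^ 2 / 144)
        (l.map (conv1 P Q R lam p q r))) := by
  induction l with
  | nil => simp [rv1, sv1]
  | cons t l ih =>
    rw [List.all_cons, Bool.and_eq_true] at ht
    have h1 := ih ht.2
    have h2 := term_eq hv hχ hψ ht.1
    rw [← ha, ← hd, ← hg] at h2
    rw [List.map_cons, rv1, sv1, mul_add, h1]
    have e1 : lam * (f * mon v χ ψ p q ((r : ℤ) - 1)) * (t.c * (a ^ t.a * d ^ t.d * g ^ t.g))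
        = lam * f * t.c * (a ^ t.a * d ^ t.d * g ^ t.g * mon v χ ψ p q ((r : ℤ) - 1)) := by ring
    rw [e1, h2]
    unfold conv1
    have hm : 1 ≤ Nat.mul (Nat.mul lam (Nat.pow 24 (ci R r t)))
        (Nat.mul (Nat.pow 1296 (cj P p t)) (Nat.pow 144 (ck Q q t))) :=
      Nat.mul_pos (Nat.mul_pos hl (pow_pos (by norm_num) _))
        (Nat.mul_pos (pow_pos (by norm_num) _) (pow_pos (by norm_num) _))
    simp only [mulC_eq hm]
    have e2 : ((Nat.mul (Nat.mul lam (Nat.pow 24 (ci R r t)))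
        (Nat.mul (Nat.pow 1296 (cj P p t)) (Nat.pow 144 (ck Q q t))) : ℕ) : ℝ)
        = lam * 24 ^ ci R r t * (1296 ^ cj P p t * 144 ^ ck Q q t) := by
      show ((lam * 24 ^ ci R r t * (1296 ^ cj P p t * 144 ^ ck Q q t) : ℕ) : ℝ) = _
      push_cast; ring
    rw [Int.cast_mul, Int.cast_natCast, e2]
    have e3 : (v ^ 2 / 24) ^ ci R r t * (χ ^ 2 / 1296) ^ cj P p t * (ψ ^ 2 / 144) ^ ck Q q t
        = ((v ^ 2) ^ ci R r t * (χ ^ 2) ^ cj P p t * (ψ ^ 2) ^ ck Q q t)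
          / (24 ^ ci R r t * (1296 ^ cj P p t * 144 ^ ck Q q t)) := by
      rw [div_pow, div_pow, div_pow]; field_simp
    rw [e3]
    field_simp

theorem rv_eq {T : Tab} {v χ ψ a d g : ℝ} (hv : 0 < v) (hχ : 0 < χ) (hψ : 0 < ψ)
    (ha : a = mon v χ ψ 1 1 (-3)) (hd : d = mon v χ ψ 1 (-1) 3) (hg : g = mon v χ ψ (-1) 1 3)
    {P Q R Λ : ℕ} {Vs : List ℝ} {cs : List CL}
    (hV : List.Forall₂ (ClOK T (v ^ 2) (χ ^ 2) (ψ ^ 2) v χ ψ) Vs cs) (rs : List (List Raw))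
    (hk : okc P Q R Λ cs rs = true) :
    ∃ vs : List ℝ, List.Forall₂ (fun w (c : CL) =>
        App T (v ^ 2 / 24) (χ ^ 2 / 1296) (ψ ^ 2 / 144) w c.q) vs cs ∧
      Λ * rv a d g Vs rs = mon v χ ψ P Q R *
        sv (v ^ 2 / 24) (χ ^ 2 / 1296) (ψ ^ 2 / 144) vs (conv P Q R Λ cs rs) := by
  induction hV generalizing rs with
  | nil => exact ⟨[], List.Forall₂.nil, by simp [rv, sv]⟩
  | @cons V c Vs cs hVc hV ih =>
    obtain ⟨f, hf1, hf2⟩ := hVc
    cases rs with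
    | nil =>
      obtain ⟨vs, h1, _⟩ := ih [] (by cases cs <;> simp [okc])
      exact ⟨(c.σ * f) :: vs, List.Forall₂.cons hf2 h1, by simp [rv, sv, conv]⟩
    | cons r rs =>
      rw [okc, Bool.and_eq_true, Bool.and_eq_true, Bool.and_eq_true] at hk
      obtain ⟨⟨k1, k2, k3⟩, k4⟩ := hk
      obtain ⟨vs, h1, h2⟩ := ih rs k4
      refine ⟨(c.σ * f) :: vs, List.Forall₂.cons hf2 h1, ?_⟩
      have k2 : c.σ * (Λ / c.σ) = Λ := Nat.eq_of_beq_eq_true k2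
      have k3 : 1 ≤ Λ := Nat.le_of_ble_eq_true k3
      have hl : 1 ≤ Nat.div Λ c.σ := by
        rcases Nat.eq_zero_or_pos (Nat.div Λ c.σ) with h | h
        · have h' : Λ / c.σ = 0 := h
          rw [h'] at k2; omega
        · exact h
      have h3 := rv1_eq hv hχ hψ ha hd hg hl (c.σ * f) r k1
      simp only [rv, sv, conv]
      rw [mul_add, mul_add, h2, hf1, ← h3]
      have e4 : (Λ : ℝ) = c.σ * (Nat.div Λ c.σ : ℕ) := by
        have : ((c.σ * (Λ / c.σ) : ℕ) : ℝ) = Λ := by rw [k2]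
        rw [← this]; push_cast; rfl
      rw [e4]; ring

/-- parameters of packing -/
structure PkP where
  k : ℕ
  n1 : ℕ
  n2 : ℕ
  n3 : ℕ
  kb' : ℕ

/-- data of a function -/
structure FD where
  P : ℕ
  Q : ℕ
  R : ℕ
  Λ : ℕ
  TF : Tab
  t : P3
  K : Tab
  rs : List (List Raw)

def chkFD (b : Box) (T E0 : Tab) (cs : List CL) (kb n1 n2 n3 kb' h B B1 B2 off B' B1' : ℕ)
    (cds : List CD) (f : FD) : Bool :=
  okc f.P f.Q f.R f.Λ cs f.rs && forceRs f.P f.Q f.R f.Λ cs f.rs fun tss =>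
    chkF b T E0 kb n1 n2 n3 kb' h B B1 B2 off B' B1' cds f.TF f.t f.K tss

/-- the check of a list of functions with common packing parameters -/
def chkFDs (b : Box) (T E0 : Tab) (cs : List CL) (w : PkP) (fs : List FD) : Bool :=
  Nat.ble 1 w.n1 && (Nat.ble 1 w.n2 && (okE E0 cs &&
  forceN (Nat.pow 2 w.k) fun h => forceN (Nat.pow 2 (Nat.add w.k 1)) fun B =>
  forceN (Nat.pow B w.n1) fun B1 => forceN (Nat.pow B1 w.n2) fun B2 =>
  forceN (Nat.mul h (gsum B (Nat.mul (Nat.mul w.n1 w.n2) w.n3))) fun off =>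
  forceN (Nat.pow 2 w.kb') fun B' => forceN (Nat.pow B' w.n2) fun B1' =>
  forceCDs B B1 B2 B' B1' cs fun cds => fs.all
    (chkFD b T E0 cs (Nat.add w.k 1) w.n1 w.n2 w.n3 w.kb' h B B1 B2 off B' B1' cds)))

theorem chkFDs_spec {b : Box} {T E0 : Tab} {cs : List CL} {w : PkP} {fs : List FD}
    (hk : chkFDs b T E0 cs w fs = true) {f : FD} (hf : f ∈ fs)
    {v χ ψ a d g : ℝ} (hv : 0 < v) (hχ : 0 < χ) (hψ : 0 < ψ)
    (ha : a = mon v χ ψ 1 1 (-3)) (hd : d = mon v χ ψ 1 (-1) 3) (hg : g = mon v χ ψ (-1) 1 3)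
    (hb : InBox b (v ^ 2 / 24) (χ ^ 2 / 1296) (ψ ^ 2 / 144)) {Vs : List ℝ}
    (hV : List.Forall₂ (ClOK T (v ^ 2) (χ ^ 2) (ψ ^ 2) v χ ψ) Vs cs) :
    |f.Λ * rv a d g Vs f.rs
        - mon v χ ψ f.P f.Q f.R * ev3 (v ^ 2 / 24) (χ ^ 2 / 1296) (ψ ^ 2 / 144) f.t|
      ≤ mon v χ ψ f.P f.Q f.R * evT (v ^ 2 / 24) (χ ^ 2 / 1296) (ψ ^ 2 / 144) f.TF f.K := by
  unfold chkFDs at hk
  simp only [forceN_eq, forceCDs_eq, Bool.and_eq_true] at hk
  obtain ⟨h1, h2, h3, h4⟩ := hk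
  have h5 := List.all_eq_true.1 h4 f hf
  unfold chkFD at h5
  rw [forceRs_eq, Bool.and_eq_true] at h5
  obtain ⟨h6, h7⟩ := h5
  obtain ⟨vs, h8, h9⟩ := rv_eq hv hχ hψ ha hd hg hV f.rs h6
  have h10 := chkF_spec hb h8 h3 (Nat.le_of_ble_eq_true h1) (Nat.le_of_ble_eq_true h2) h7
  rw [h9, ← mul_sub, abs_mul, abs_of_pos (mon_pos hv hχ hψ _ _ _)]
  exact mul_le_mul_of_nonneg_left h10 (mon_pos hv hχ hψ _ _ _).le

end Pool.Agent.Work.MP_71a505_fin
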