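import Pool.Agent.Work.MP_71a505_fin.Mono

/-!
Values of the half classes.
-/

namespace Pool.Agent.Work.MP_71a505_fin

open Pool.Agent.Work.MP_71a505_up

theorem psi_v {v χ ψ : ℝ} : ψ * v = mon v χ ψ 0 (-1) (-1) := by
  unfold mon
  simp

theorem half_vals {a b c d g r s t x y z xb yb xc W e α β γ δ : ℝ} (P : Pt)
    (V : Vals a b c d g r s t x y z xb yb xc W e α β γ δ P.u P.v P.χ P.ψ P.sX P.sY P.sZ P.B P.C
      P.E P.wh P.al P.be P.ga P.de P.Kh)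
    (hα : 0 < α) (hβ : 0 < β) (hγ : 0 < γ) (hδ : 0 < δ) :
    P.ω * α = P.al * mon P.v P.χ P.ψ 0 0 0 ∧ P.ω * β = P.be * mon P.v P.χ P.ψ 1 0 0 ∧
    P.ω * γ = P.ga * mon P.v P.χ P.ψ 1 0 1 ∧ P.ω * δ = P.de * mon P.v P.χ P.ψ 1 0 1 := by
  have hv := P.hc.v0
  have hχ := P.hc.χ0
  have hψ := P.hc.ψ0
  have hω := P.hc.ω0
  have h2 := P.hc.ωω
  rw [psi_v (χ := P.χ)] at h2
  have key : ∀ (α' al : ℝ) (p q r p' q' r' : ℤ), 0 < α' → 0 < al →
      α' ^ 2 = al ^ 2 * mon P.v P.χ P.ψ p q r → p = 2 * p' → q - 1 = 2 * q' → r - 1 = 2 * r' →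
      P.ω * α' = al * mon P.v P.χ P.ψ p' q' r' := by
    intro α' al p q r p' q' r' h3 h4 h5 h6 h7 h8
    have hm := mon_pos hv hχ hψ p' q' r'
    apply sq_eq_of_pos (by positivity) (by positivity)
    rw [mul_pow, h2, h5, mul_pow, mon_pow]
    have e1 : mon P.v P.χ P.ψ 0 (-1) (-1) * (al ^ 2 * mon P.v P.χ P.ψ p q r)
        = al ^ 2 * (mon P.v P.χ P.ψ 0 (-1) (-1) * mon P.v P.χ P.ψ p q r) := by ring
    rw [e1, mon_mul hv hχ hψ]
    congr 2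
    · rw [h6]; push_cast; ring
    · push_cast; linarith
    · push_cast; linarith
  exact ⟨key α P.al 0 1 1 0 0 0 hα P.hc.al0 V.vA (by norm_num) (by norm_num) (by norm_num),
    key β P.be 2 1 1 1 0 0 hβ P.hc.be0 V.vB (by norm_num) (by norm_num) (by norm_num),
    key γ P.ga 2 1 3 1 0 1 hγ P.hc.ga0 V.vC (by norm_num) (by norm_num) (by norm_num),
    key δ P.de 2 1 3 1 0 1 hδ P.hc.de0 V.vD (by norm_num) (by norm_num) (by norm_num)⟩

end Pool.Agent.Work.MP_71a505_fin
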