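import Pool.Agent.Work.MP_71a505_fin.Mono
import Pool.Agent.Work.MP_71a505_fin.Div

/-!
Integrality of functions, term by term.
-/

namespace Pool.Agent.Work.MP_71a505_fin

open Pool.Agent.Work.MP_71a505_up

/-- proved denominators of `vv i` -/
def den : ℕ → ℕ
  | 0 => 1
  | 1 => 4
  | 2 => 4
  | 3 => 4
  | 4 => 24
  | 5 => 24
  | 6 => 2
  | 7 => 24
  | 8 => 576
  | 9 => 24
  | 10 => 576
  | 11 => 576
  | 12 => 24
  | 13 => 24
  | 14 => 13824
  | _ => 1

theorem den_pos (i : ℕ) : 0 < den i := by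
  unfold den
  split <;> norm_num

/-- the integrality hypotheses -/
structure EI (E : Env) : Prop where
  a : IsI E.a
  d : IsI E.d
  g : IsI E.g
  x : IsI E.x
  y : IsI E.y
  z : IsI E.z
  v : DV E.W E.e E.α E.β E.γ E.δ

theorem EI.vv {E : Env} (h : EI E) (i : ℕ) : IsI (E.vv i / den i) := by
  have hv := h.v
  match i with
  | 0 => simp only [Env.vv, den]; exact ⟨1, by norm_num⟩
  | 1 => simp only [Env.vv, den]; exact_mod_cast hv.iW
  | 2 => simp only [Env.vv, den]; exact_mod_cast hv.iU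
  | 3 => simp only [Env.vv, den]; exact_mod_cast hv.iM
  | 4 => simp only [Env.vv, den]; exact_mod_cast hv.iA
  | 5 => simp only [Env.vv, den]; exact_mod_cast hv.iAB
  | 6 => simp only [Env.vv, den]; exact_mod_cast hv.iK
  | 7 => simp only [Env.vv, den]; exact_mod_cast hv.iAC
  | 8 => simp only [Env.vv, den]; exact_mod_cast hv.iAD
  | 9 => simp only [Env.vv, den]; exact_mod_cast hv.iBC
  | 10 => simp only [Env.vv, den]; exact_mod_cast hv.iBD
  | 11 => simp only [Env.vv, den]; exact_mod_cast hv.iCD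
  | 12 => simp only [Env.vv, den]; exact_mod_cast hv.iB
  | 13 => simp only [Env.vv, den]; exact_mod_cast hv.iC
  | 14 => simp only [Env.vv, den]; exact_mod_cast hv.iD
  | _ + 15 => simp only [Env.vv, den]; exact ⟨0, by norm_num⟩

theorem EI.ss {E : Env} (h : EI E) (s : ℕ) : IsI (E.ss s) := by
  match s with
  | 0 => exact ⟨1, by simp [Env.ss]⟩
  | 1 => exact h.x
  | 2 => exact h.y
  | 3 => exact h.x.mul h.y
  | 4 => exact h.z
  | 5 => exact h.x.mul h.z
  | 6 => exact h.y.mul h.z
  | 7 => exact (h.x.mul h.y).mul h.z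
  | _ + 8 => exact ⟨0, by simp [Env.ss]⟩

def chkDen (D : ℕ) : List Ci → List (List Raw) → Bool
  | c :: cs, r :: rs => r.all (fun t => Nat.beq
      (Nat.mod (Nat.mul t.c.natAbs (Nat.mul (den c.i) (den c.j))) D) 0) && chkDen D cs rs
  | _, _ => true

theorem int_term {E : Env} (h : EI E) {D : ℕ} (hD : 0 < D) (c : Ci) (r : List Raw)
    (hr : r.all (fun t => Nat.beq
      (Nat.mod (Nat.mul t.c.natAbs (Nat.mul (den c.i) (den c.j))) D) 0) = true) :
    IsI (E.cv c * rv1 E.a E.d E.g r / D) := by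
  induction r with
  | nil => exact ⟨0, by simp [rv1]⟩
  | cons t r ih =>
    rw [List.all_cons, Bool.and_eq_true] at hr
    have h1 := ih hr.2
    have h2 : t.c.natAbs * (den c.i * den c.j) % D = 0 := Nat.eq_of_beq_eq_true hr.1
    obtain ⟨k, hk⟩ := Nat.dvd_of_mod_eq_zero h2
    have hDr : (D : ℝ) ≠ 0 := by exact_mod_cast hD.ne'
    have hi : (den c.i : ℝ) ≠ 0 := by exact_mod_cast (den_pos _).ne'
    have hj : (den c.j : ℝ) ≠ 0 := by exact_mod_cast (den_pos _).ne'
    have h3 : ∃ k' : ℤ, t.c * (den c.i * den c.j) = D * k' := by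
      rcases Int.natAbs_eq t.c with h4 | h4
      · exact ⟨k, by rw [h4]; exact_mod_cast hk⟩
      · refine ⟨-k, ?_⟩
        rw [h4]
        have : ((t.c.natAbs * (den c.i * den c.j) : ℕ) : ℤ) = ((D * k : ℕ) : ℤ) := by rw [hk]
        rw [Nat.cast_mul, Nat.cast_mul, Nat.cast_mul] at this
        rw [neg_mul, this]; ring
    obtain ⟨k', hk'⟩ := h3
    have h5 : (t.c : ℝ) = D * k' / (den c.i * den c.j) := by
      rw [eq_div_iff (mul_ne_zero hi hj)]; exact_mod_cast hk'
    have h6 : IsI (E.vv c.i / den c.i * (E.vv c.j / den c.j) * E.ss c.s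
        * (E.a ^ t.a * E.d ^ t.d * E.g ^ t.g) * (k' : ℝ)) :=
      ((((h.vv c.i).mul (h.vv c.j)).mul (h.ss c.s)).mul (((h.a.pow _).mul (h.d.pow _)).mul
        (h.g.pow _))).mul (IsI.int k')
    refine isI_congr (h6.add h1) ?_
    simp only [rv1, Env.cv]
    rw [h5]
    field_simp

theorem int_fv {E : Env} (h : EI E) {D : ℕ} (hD : 0 < D) (cs : List Ci) (rs : List (List Raw))
    (hk : chkDen D cs rs = true) : IsI (E.fv cs rs / D) := by
  unfold Env.fv
  induction cs generalizing rs with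
  | nil => exact ⟨0, by simp [rv]⟩
  | cons c cs ih =>
    cases rs with
    | nil => exact ⟨0, by simp [rv]⟩
    | cons r rs =>
      rw [chkDen, Bool.and_eq_true] at hk
      have h1 := ih rs hk.2
      have h2 := int_term h hD c r hk.1
      refine isI_congr (h2.add h1) ?_
      simp only [List.map_cons, rv]
      ring

end Pool.Agent.Work.MP_71a505_fin
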