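import Pool.Agent.Work.MP_71a505_fin.Conn
import Pool.Agent.Work.MP_71a505_fin.IntF
import Pool.Agent.Work.MP_71a505_fin.Half

/-!
Lists of functions and the bounds they give.
-/

namespace Pool.Agent.Work.MP_71a505_fin

open Pool.Agent.Work.MP_71a505_up

/-- `m * q = - N`, `m < 0` -/
def negC (q N : ℕ) : ℤ → Bool
  | Int.ofNat _ => false
  | Int.negSucc m => Nat.beq (Nat.mul (Nat.succ m) q) N

theorem negC_spec {q N : ℕ} {m : ℤ} (h : negC q N m = true) : m * q = -N := by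
  cases m with
  | ofNat m => simp [negC] at h
  | negSucc m =>
    have h1 : (m + 1) * q = N := Nat.eq_of_beq_eq_true h
    rw [Int.negSucc_eq, ← h1]
    push_cast; ring

/-- the first term is the constant `- D n / q`, the other ones give `D` times an integer -/
def chkI (D n q : ℕ) : List Ci → List (List Raw) → Bool
  | c :: cs, (t :: r) :: rs => Nat.beq c.i 0 && (Nat.beq c.j 0 && (Nat.beq c.s 0 &&
      (Nat.beq t.a 0 && (Nat.beq t.d 0 && (Nat.beq t.g 0 && (negC q (Nat.mul D n) t.c &&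
        chkDen D (c :: cs) (r :: rs)))))))
  | _, _ => false

theorem chkI_spec {E : Env} (h : EI E) {D n q : ℕ} (hD : 0 < D) (hq : 0 < q) {cs : List Ci}
    {rs : List (List Raw)} (hk : chkI D n q cs rs = true) :
    ∃ N : ℤ, E.fv cs rs = D * ((N : ℝ) - (n : ℝ) / q) := by
  match cs, rs, hk with
  | c :: cs, (t :: r) :: rs, hk =>
    rw [chkI] at hk
    simp only [Bool.and_eq_true] at hk
    obtain ⟨h1, h2, h3, h4, h5, h6, h7, h8⟩ := hk
    have h1 : c.i = 0 := Nat.eq_of_beq_eq_true h1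
    have h2 : c.j = 0 := Nat.eq_of_beq_eq_true h2
    have h3 : c.s = 0 := Nat.eq_of_beq_eq_true h3
    have h4 : t.a = 0 := Nat.eq_of_beq_eq_true h4
    have h5 : t.d = 0 := Nat.eq_of_beq_eq_true h5
    have h6 : t.g = 0 := Nat.eq_of_beq_eq_true h6
    have h7 := negC_spec h7
    obtain ⟨N, hN⟩ := int_fv h hD _ _ h8
    refine ⟨N, ?_⟩
    have hDr : (0 : ℝ) < D := by exact_mod_cast hD
    have hqr : (0 : ℝ) < q := by exact_mod_cast hq
    have e1 : E.fv (c :: cs) ((t :: r) :: rs) = t.c + E.fv (c :: cs) (r :: rs) := by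
      unfold Env.fv
      simp only [List.map_cons, rv, rv1]
      have : E.cv c = 1 := by unfold Env.cv; rw [h1, h2, h3]; simp [Env.vv, Env.ss]
      rw [this, h4, h5, h6]
      ring
    have e2 : (t.c : ℝ) * q = -(D * n) := by
      have : ((t.c * q : ℤ) : ℝ) = ((-((D * n : ℕ) : ℤ) : ℤ) : ℝ) := by
        exact_mod_cast h7
      push_cast at this
      exact this
    have e3 : (t.c : ℝ) = -(D * n) / q := by rw [eq_div_iff hqr.ne']; exact e2
    rw [e1, e3]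
    have e4 : E.fv (c :: cs) (r :: rs) = D * N := by
      rw [hN]; field_simp
    rw [e4]
    field_simp
    ring

/-- the complete check of a list of functions -/
def chkAll (b : Box) (T E0 : Tab) (cs : List CL) (cis : List Ci) (w : PkP) (Fs : List FF) : Bool :=
  chkFDs b T E0 cs w (Fs.map FF.f) && Fs.all fun F =>
    chkFF F && (Nat.ble 1 F.D && chkI F.D F.n F.q cis F.f.rs)

theorem chkAll_spec {b : Box} {T E0 : Tab} {cs : List CL} {cis : List Ci} {w : PkP} {Fs : List FF}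
    (hk : chkAll b T E0 cs cis w Fs = true) {F : FF} (hF : F ∈ Fs)
    {v χ ψ ξ η ζ : ℝ} (hv : 0 < v) (hχ : 0 < χ) (hψ : 0 < ψ) {E : Env}
    (ha : E.a = mon v χ ψ 1 1 (-3)) (hd : E.d = mon v χ ψ 1 (-1) 3) (hg : E.g = mon v χ ψ (-1) 1 3)
    (hξ : ξ = 24 * Real.logb 2 χ⁻¹) (hη : η = 24 * Real.logb 2 ψ⁻¹) (hζ : ζ = 24 * Real.logb 2 v⁻¹)
    (hb : InBox b (v ^ 2 / 24) (χ ^ 2 / 1296) (ψ ^ 2 / 144))
    (hV : List.Forall₂ (ClOK T (v ^ 2) (χ ^ 2) (ψ ^ 2) v χ ψ) (cis.map E.cv) cs) (hE : EI E) :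
    GOK F.g ξ η ζ := by
  unfold chkAll at hk
  rw [Bool.and_eq_true] at hk
  have h1 := List.all_eq_true.1 hk.2 F hF
  simp only [Bool.and_eq_true] at h1
  obtain ⟨h1, h2, h3⟩ := h1
  have hD : 0 < F.D := Nat.le_of_ble_eq_true h2
  have hq : 0 < F.q := by
    unfold chkFF at h1
    simp only [Bool.and_eq_true] at h1
    exact Nat.le_of_ble_eq_true h1.2.2.2.2.2.1
  obtain ⟨N, hN⟩ := chkI_spec hE hD hq h3
  exact gok_of h1 hv hχ hψ hξ hη hζ hN
    (chkFDs_spec hk.1 (List.mem_map_of_mem hF) hv hχ hψ ha hd hg hb hV)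

/-- the check of half functions -/
def chkHs (b : Box) (T E0 : Tab) (cs : List CL) (w : PkP) (Hs : List FH) : Bool :=
  chkFDs b T E0 cs w (Hs.map FH.f) && Hs.all fun H => chkFH H && Nat.ble 1 H.n0

theorem chkHs_spec {b : Box} {T E0 : Tab} {cs : List CL} {cis : List Hi} {w : PkP} {Hs : List FH}
    (hk : chkHs b T E0 cs w Hs = true) {H : FH} (hH : H ∈ Hs)
    {v χ ψ ω ξ η ζ : ℝ} (hv : 0 < v) (hχ : 0 < χ) (hψ : 0 < ψ) (hω : 0 < ω) (hω2 : ω ^ 2 = ψ * v)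
    {E : Env}
    (ha : E.a = mon v χ ψ 1 1 (-3)) (hd : E.d = mon v χ ψ 1 (-1) 3) (hg : E.g = mon v χ ψ (-1) 1 3)
    (hξ : ξ = 24 * Real.logb 2 χ⁻¹) (hη : η = 24 * Real.logb 2 ψ⁻¹) (hζ : ζ = 24 * Real.logb 2 v⁻¹)
    (hb : InBox b (v ^ 2 / 24) (χ ^ 2 / 1296) (ψ ^ 2 / 144))
    (hV : List.Forall₂ (ClOK T (v ^ 2) (χ ^ 2) (ψ ^ 2) v χ ψ) ((cis.map E.hv).map (ω * ·)) cs)
    (hI : IsI (E.gv cis H.f.rs ^ 2 / H.n0)) :
    GOK H.g1 ξ η ζ ∨ GOK H.g2 ξ η ζ := by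
  unfold chkHs at hk
  rw [Bool.and_eq_true] at hk
  have h1 := List.all_eq_true.1 hk.2 H hH
  rw [Bool.and_eq_true] at h1
  refine gokH_of h1.1 hv hχ hψ hω hω2 hξ hη hζ (Nat.le_of_ble_eq_true h1.2)
    (h := E.gv cis H.f.rs) ?_ (rv_smul _ _ _ _ _ _)
    (chkFDs_spec hk.1 (List.mem_map_of_mem hH) hv hχ hψ ha hd hg hb hV)
  obtain ⟨n, hn⟩ := hI
  exact ⟨n, hn⟩

end Pool.Agent.Work.MP_71a505_fin
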