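import Pool.Agent.Work.MP_71a505_fin.FChk3

/-!
Common language for functions: a class `(i, j, s)` has the value `vv i * vv j * ss s`; a function is
a list of classes with, for each class, a list of terms `c * a ^ . * d ^ . * g ^ .` (`Raw`).
-/

namespace Pool.Agent.Work.MP_71a505_fin

/-- the real numbers attached to a point -/
structure Env where
  (a d g x y z W e α β γ δ : ℝ)

/-- `1, W, U, M, A, αβ, K, αγ, αδ, βγ, βδ, γδ, B, C, D` -/
noncomputable def Env.vv (E : Env) : ℕ → ℝ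
  | 0 => 1
  | 1 => E.W
  | 2 => E.e * E.W
  | 3 => E.e ^ 2 * E.W
  | 4 => E.α ^ 2
  | 5 => E.α * E.β
  | 6 => E.α * E.β * E.γ / E.δ
  | 7 => E.α * E.γ
  | 8 => E.α * E.δ
  | 9 => E.β * E.γ
  | 10 => E.β * E.δ
  | 11 => E.γ * E.δ
  | 12 => E.β ^ 2
  | 13 => E.γ ^ 2
  | 14 => E.δ ^ 2
  | _ => 0

/-- `1, x, y, xy, z, xz, yz, xyz` -/
noncomputable def Env.ss (E : Env) : ℕ → ℝ
  | 0 => 1
  | 1 => E.x
  | 2 => E.y
  | 3 => E.x * E.y
  | 4 => E.z
  | 5 => E.x * E.z
  | 6 => E.y * E.z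
  | 7 => E.x * E.y * E.z
  | _ => 0

/-- index of a class; `i ≤ j` -/
structure Ci where
  i : ℕ
  j : ℕ
  s : ℕ

noncomputable def Env.cv (E : Env) (c : Ci) : ℝ := E.vv c.i * E.vv c.j * E.ss c.s

/-- value of a function -/
noncomputable def Env.fv (E : Env) (cs : List Ci) (rs : List (List Raw)) : ℝ :=
  rv E.a E.d E.g (cs.map E.cv) rs

/-! half functions -/

noncomputable def Env.hh (E : Env) : ℕ → ℝ
  | 0 => E.α
  | 1 => E.β
  | 2 => E.γ
  | 3 => E.δ
  | _ => 0

/-- index of a half class -/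
structure Hi where
  v : ℕ
  s : ℕ

noncomputable def Env.hv (E : Env) (c : Hi) : ℝ := E.hh c.v * E.ss c.s

/-- value of a half function -/
noncomputable def Env.gv (E : Env) (cs : List Hi) (rs : List (List Raw)) : ℝ :=
  rv E.a E.d E.g (cs.map E.hv) rs

theorem rv_smul (a d g ω : ℝ) (Vs : List ℝ) (rs : List (List Raw)) :
    rv a d g (Vs.map (ω * ·)) rs = ω * rv a d g Vs rs := by
  induction Vs generalizing rs with
  | nil => simp [rv]
  | cons V Vs ih =>
    cases rs with
    | nil => simp [rv]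
    | cons r rs => simp only [List.map_cons, rv, ih]; ring

end Pool.Agent.Work.MP_71a505_fin
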