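import Pool.Agent.Work.MP_71a505_fin.Pack

/-!
Verified check of a product of nested coefficient lists by one big multiplication.
All three variables are packed; every intermediate number is forced to a literal.
-/

namespace Pool.Agent.Work.MP_71a505_fin

/-! ### positive and negative parts, packed -/

def pos1 (B : ℕ) : P1 → ℕ
  | [] => 0
  | Int.ofNat n :: l => Nat.add n (Nat.mul B (pos1 B l))
  | Int.negSucc _ :: l => Nat.mul B (pos1 B l)

def neg1 (B : ℕ) : P1 → ℕ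
  | [] => 0
  | Int.ofNat _ :: l => Nat.mul B (neg1 B l)
  | Int.negSucc n :: l => Nat.add (Nat.succ n) (Nat.mul B (neg1 B l))

def pos2 (B B1 : ℕ) : P2 → ℕ
  | [] => 0
  | c :: l => Nat.add (pos1 B c) (Nat.mul B1 (pos2 B B1 l))

def neg2 (B B1 : ℕ) : P2 → ℕ
  | [] => 0
  | c :: l => Nat.add (neg1 B c) (Nat.mul B1 (neg2 B B1 l))

def pos3 (B B1 B2 : ℕ) : P3 → ℕ
  | [] => 0
  | c :: l => Nat.add (pos2 B B1 c) (Nat.mul B2 (pos3 B B1 B2 l))

def neg3 (B B1 B2 : ℕ) : P3 → ℕ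
  | [] => 0
  | c :: l => Nat.add (neg2 B B1 c) (Nat.mul B2 (neg3 B B1 B2 l))

/-- nested evaluation at integers -/
def pk2 (B B1 : ℤ) : P2 → ℤ
  | [] => 0
  | c :: l => pk B c + B1 * pk2 B B1 l
def pk3 (B B1 B2 : ℤ) : P3 → ℤ
  | [] => 0
  | c :: l => pk2 B B1 c + B2 * pk3 B B1 B2 l

theorem pos1_sub (B : ℕ) (p : P1) : (pos1 B p : ℤ) - neg1 B p = pk B p := by
  induction p with
  | nil => simp [pos1, neg1, pk]
  | cons c p ih =>
    cases c with
    | ofNat n =>
      simp only [pos1, neg1, pk, Nat.add_eq, Nat.mul_eq, Int.ofNat_eq_natCast]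
      rw [← ih]; push_cast; ring
    | negSucc n =>
      simp only [pos1, neg1, pk, Nat.add_eq, Nat.mul_eq]
      rw [← ih]; push_cast; rw [Int.negSucc_eq]; ring

theorem pos2_sub (B B1 : ℕ) (p : P2) : (pos2 B B1 p : ℤ) - neg2 B B1 p = pk2 B B1 p := by
  induction p with
  | nil => simp [pos2, neg2, pk2]
  | cons c p ih =>
    simp only [pos2, neg2, pk2, Nat.add_eq, Nat.mul_eq]
    rw [← ih, ← pos1_sub]; push_cast; ring

theorem pos3_sub (B B1 B2 : ℕ) (p : P3) :
    (pos3 B B1 B2 p : ℤ) - neg3 B B1 B2 p = pk3 B B1 B2 p := by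
  induction p with
  | nil => simp [pos3, neg3, pk3]
  | cons c p ih =>
    simp only [pos3, neg3, pk3, Nat.add_eq, Nat.mul_eq]
    rw [← ih, ← pos2_sub]; push_cast; ring

theorem pk2_add (B B1 : ℤ) (p q : P2) : pk2 B B1 (add2 p q) = pk2 B B1 p + pk2 B B1 q := by
  unfold add2
  induction p generalizing q with
  | nil => simp [addL, pk2]
  | cons a p ih =>
    cases q with
    | nil => simp [addL, pk2]
    | cons b q => simp only [addL, pk2, ih, pk_add]; ring

theorem pk2_map (B B1 : ℤ) (a : P1) (p : P2) :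
    pk2 B B1 (p.map (mul1 a)) = pk B a * pk2 B B1 p := by
  induction p with
  | nil => simp [pk2]
  | cons b p ih => simp only [List.map_cons, pk2, ih, pk_mul]; ring

theorem pk2_mul (B B1 : ℤ) (p q : P2) : pk2 B B1 (mul2 p q) = pk2 B B1 p * pk2 B B1 q := by
  unfold mul2
  induction p with
  | nil => simp [mulL, pk2]
  | cons a p ih =>
    have h1 : pk2 B B1 (addL add1 (q.map (mul1 a)) ([] :: mulL [] add1 mul1 p q))
      = pk2 B B1 (q.map (mul1 a)) + pk2 B B1 ([] :: mulL [] add1 mul1 p q) := pk2_add B B1 _ _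
    simp only [mulL]
    rw [h1, pk2_map]
    simp only [pk2, pk, ih]
    ring

theorem pk3_add (B B1 B2 : ℤ) (p q : P3) :
    pk3 B B1 B2 (add3 p q) = pk3 B B1 B2 p + pk3 B B1 B2 q := by
  unfold add3
  induction p generalizing q with
  | nil => simp [addL, pk3]
  | cons a p ih =>
    cases q with
    | nil => simp [addL, pk3]
    | cons b q => simp only [addL, pk3, ih, pk2_add]; ring

theorem pk3_map (B B1 B2 : ℤ) (a : P2) (p : P3) :
    pk3 B B1 B2 (p.map (mul2 a)) = pk2 B B1 a * pk3 B B1 B2 p := by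
  induction p with
  | nil => simp [pk3]
  | cons b p ih => simp only [List.map_cons, pk3, ih, pk2_mul]; ring

theorem pk3_mul (B B1 B2 : ℤ) (p q : P3) :
    pk3 B B1 B2 (mul3 p q) = pk3 B B1 B2 p * pk3 B B1 B2 q := by
  unfold mul3
  induction p with
  | nil => simp [mulL, pk3]
  | cons a p ih =>
    have h1 : pk3 B B1 B2 (addL add2 (q.map (mul2 a)) ([] :: mulL [] add2 mul2 p q))
      = pk3 B B1 B2 (q.map (mul2 a)) + pk3 B B1 B2 ([] :: mulL [] add2 mul2 p q) :=
      pk3_add B B1 B2 _ _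
    simp only [mulL]
    rw [h1, pk3_map]
    simp only [pk3, pk2, ih]
    ring

/-! ### blocks of digits -/

/-- head with default -/
def hdZ : P1 → ℤ
  | [] => 0
  | c :: _ => c
def hdL {α : Type*} : List (List α) → List α
  | [] => []
  | c :: _ => c
def tlL {α : Type*} : List α → List α
  | [] => []
  | _ :: l => l

def b1 (B h : ℕ) : ℕ → P1 → ℕ
  | 0, _ => 0
  | n + 1, c => (hdZ c + h).toNat + B * b1 B h n (tlL c)

def b2 (B h n1 : ℕ) : ℕ → P2 → ℕ
  | 0, _ => 0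
  | n + 1, c => b1 B h n1 (hdL c) + B ^ n1 * b2 B h n1 n (tlL c)

def b3 (B h n1 n2 : ℕ) : ℕ → P3 → ℕ
  | 0, _ => 0
  | n + 1, c => b2 B h n1 n2 (hdL c) + (B ^ n1) ^ n2 * b3 B h n1 n2 n (tlL c)

/-- coefficients smaller than `h` -/
def Sm1 (h : ℕ) (p : P1) : Prop := ∀ c ∈ p, |c| < (h : ℤ)
def Sm2 (h n1 : ℕ) (p : P2) : Prop := ∀ c ∈ p, Sm1 h c ∧ c.length ≤ n1
def Sm3 (h n1 n2 : ℕ) (p : P3) : Prop := ∀ c ∈ p, Sm2 h n1 c ∧ c.length ≤ n2

theorem Sm1.tl {h : ℕ} {p : P1} (hp : Sm1 h p) : Sm1 h (tlL p) := by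
  cases p with
  | nil => exact hp
  | cons a p => exact fun c hc => hp c (List.mem_cons_of_mem _ hc)

theorem Sm1.hd {h : ℕ} (hh : 1 ≤ h) {p : P1} (hp : Sm1 h p) : |hdZ p| < (h : ℤ) := by
  cases p with
  | nil => simp only [hdZ, abs_zero]; exact_mod_cast hh
  | cons a p => exact hp a List.mem_cons_self

theorem Sm2.tl {h n1 : ℕ} {p : P2} (hp : Sm2 h n1 p) : Sm2 h n1 (tlL p) := by
  cases p with
  | nil => exact hp
  | cons a p => exact fun c hc => hp c (List.mem_cons_of_mem _ hc)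

theorem Sm2.hd {h n1 : ℕ} {p : P2} (hp : Sm2 h n1 p) : Sm1 h (hdL p) ∧ (hdL p).length ≤ n1 := by
  cases p with
  | nil => exact ⟨fun c hc => by simp [hdL] at hc, by simp [hdL]⟩
  | cons a p => exact hp a List.mem_cons_self

theorem Sm3.tl {h n1 n2 : ℕ} {p : P3} (hp : Sm3 h n1 n2 p) : Sm3 h n1 n2 (tlL p) := by
  cases p with
  | nil => exact hp
  | cons a p => exact fun c hc => hp c (List.mem_cons_of_mem _ hc)

theorem Sm3.hd {h n1 n2 : ℕ} {p : P3} (hp : Sm3 h n1 n2 p) :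
    Sm2 h n1 (hdL p) ∧ (hdL p).length ≤ n2 := by
  cases p with
  | nil => exact ⟨fun c hc => by simp [hdL] at hc, by simp [hdL]⟩
  | cons a p => exact hp a List.mem_cons_self

theorem length_tlL {α : Type*} {n : ℕ} {l : List α} (h : l.length ≤ n + 1) :
    (tlL l).length ≤ n := by
  cases l with
  | nil => simp [tlL]
  | cons a l => simpa [tlL] using h

theorem pk_hd_tl (B : ℤ) (p : P1) : pk B p = hdZ p + B * pk B (tlL p) := by
  cases p with
  | nil => simp [pk, hdZ, tlL]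
  | cons a p => rfl

theorem pk2_hd_tl (B B1 : ℤ) (p : P2) : pk2 B B1 p = pk B (hdL p) + B1 * pk2 B B1 (tlL p) := by
  cases p with
  | nil => simp [pk2, hdL, tlL, pk]
  | cons a p => rfl

theorem pk3_hd_tl (B B1 B2 : ℤ) (p : P3) :
    pk3 B B1 B2 p = pk2 B B1 (hdL p) + B2 * pk3 B B1 B2 (tlL p) := by
  cases p with
  | nil => simp [pk3, hdL, tlL, pk2]
  | cons a p => rfl

theorem b1_eq {B h : ℕ} (hB : B = 2 * h) (hh : 1 ≤ h) (n : ℕ) (p : P1) (hl : p.length ≤ n)
    (hp : Sm1 h p) : (b1 B h n p : ℤ) = pk B p + h * gsum B n := by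
  induction n generalizing p with
  | zero =>
    have : p = [] := List.length_eq_zero_iff.1 (by omega)
    rw [this]; simp [b1, pk, gsum_zero]
  | succ n ih =>
    rw [b1, gsum_succ (by omega), pk_hd_tl]
    have h1 := ih (tlL p) (length_tlL hl) hp.tl
    have h2 := (abs_lt.1 (hp.hd hh)).1
    push_cast
    rw [h1, Int.toNat_of_nonneg (by linarith)]
    ring

theorem b1_lt {B h : ℕ} (hB : B = 2 * h) (hh : 1 ≤ h) (n : ℕ) (p : P1)
    (hp : Sm1 h p) : b1 B h n p < B ^ n := by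
  induction n generalizing p with
  | zero => simp [b1]
  | succ n ih =>
    rw [b1]
    have h1 := ih (tlL p) hp.tl
    have h2 := abs_lt.1 (hp.hd hh)
    have h3 : (hdZ p + h).toNat < B := by
      have : hdZ p + h < B := by rw [hB]; push_cast; linarith
      omega
    calc (hdZ p + h).toNat + B * b1 B h n (tlL p) < B + B * b1 B h n (tlL p) := by omega
      _ = B * (b1 B h n (tlL p) + 1) := by ring
      _ ≤ B * B ^ n := Nat.mul_le_mul_left _ h1
      _ = B ^ (n + 1) := by ring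

theorem b2_lt {B h n1 : ℕ} (hB : B = 2 * h) (hh : 1 ≤ h) (n : ℕ) (p : P2)
    (hp : Sm2 h n1 p) : b2 B h n1 n p < (B ^ n1) ^ n := by
  induction n generalizing p with
  | zero => simp [b2]
  | succ n ih =>
    rw [b2]
    have h1 := ih (tlL p) hp.tl
    have h3 := b1_lt hB hh n1 (hdL p) hp.hd.1
    calc b1 B h n1 (hdL p) + B ^ n1 * b2 B h n1 n (tlL p)
        < B ^ n1 + B ^ n1 * b2 B h n1 n (tlL p) := by omega
      _ = B ^ n1 * (b2 B h n1 n (tlL p) + 1) := by ring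
      _ ≤ B ^ n1 * (B ^ n1) ^ n := Nat.mul_le_mul_left _ h1
      _ = (B ^ n1) ^ (n + 1) := by ring

theorem gsum_mul {B : ℕ} (hB : 2 ≤ B) (n m : ℕ) (hn : 1 ≤ n) :
    gsum B (n * m) = gsum B n * gsum (B ^ n) m := by
  have hBn : 2 ≤ B ^ n := hB.trans (Nat.le_self_pow (by omega) B)
  induction m with
  | zero => simp [gsum_zero]
  | succ m ih =>
    rw [gsum_succ hBn, mul_add, mul_one]
    have key : ∀ a b : ℕ, gsum B (a + b) = gsum B a + B ^ a * gsum B b := by
      intro a b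
      induction a with
      | zero => simp [gsum_zero]
      | succ a iha =>
        rw [show a + 1 + b = (a + b) + 1 by ring, gsum_succ hB, iha, gsum_succ hB]
        ring
    rw [add_comm (n * m) n, key n (n * m), ih]
    ring

theorem b2_eq {B h n1 : ℕ} (hB : B = 2 * h) (hh : 1 ≤ h) (h1 : 1 ≤ n1) (n : ℕ) (p : P2)
    (hl : p.length ≤ n) (hp : Sm2 h n1 p) :
    (b2 B h n1 n p : ℤ) = pk2 B ((B ^ n1 : ℕ) : ℤ) p + h * gsum B (n1 * n) := by
  rw [gsum_mul (by omega) _ _ h1]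
  have hBn : 2 ≤ B ^ n1 := (show 2 ≤ B by omega).trans (Nat.le_self_pow (by omega) B)
  induction n generalizing p with
  | zero =>
    have : p = [] := List.length_eq_zero_iff.1 (by omega)
    rw [this]; simp [b2, pk2, gsum_zero]
  | succ n ih =>
    rw [b2, gsum_succ hBn, pk2_hd_tl]
    have h2 := ih (tlL p) (length_tlL hl) hp.tl
    have h3 := b1_eq hB hh n1 (hdL p) hp.hd.2 hp.hd.1
    push_cast at h2 h3 ⊢
    rw [h2, h3]
    ring

theorem b3_eq {B h n1 n2 : ℕ} (hB : B = 2 * h) (hh : 1 ≤ h) (h1 : 1 ≤ n1) (h2 : 1 ≤ n2) (n : ℕ)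
    (p : P3) (hl : p.length ≤ n) (hp : Sm3 h n1 n2 p) :
    (b3 B h n1 n2 n p : ℤ) = pk3 B ((B ^ n1 : ℕ) : ℤ) (((B ^ n1) ^ n2 : ℕ) : ℤ) p
      + h * gsum B (n1 * n2 * n) := by
  rw [gsum_mul (by omega) _ _ (by nlinarith : 1 ≤ n1 * n2)]
  have hBn : 2 ≤ B ^ (n1 * n2) :=
    (show 2 ≤ B by omega).trans (Nat.le_self_pow (by positivity) B)
  induction n generalizing p with
  | zero =>
    have : p = [] := List.length_eq_zero_iff.1 (by omega)
    rw [this]; simp [b3, pk3, gsum_zero]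
  | succ n ih =>
    rw [b3, gsum_succ hBn, pk3_hd_tl]
    have h3 := ih (tlL p) (length_tlL hl) hp.tl
    have h4 := b2_eq hB hh h1 n2 (hdL p) hp.hd.2 hp.hd.1
    rw [pow_mul]
    push_cast at h3 h4 ⊢
    rw [pow_mul] at h3
    rw [h3, h4]
    ring

end Pool.Agent.Work.MP_71a505_fin
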