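import Pool.Agent.Work.MP_71a505_fin.Poly

/-!
Fast multiplication of nested coefficient lists: the innermost polynomials are packed into
integers (evaluation at a large power of two `B`), multiplied, and unpacked.
-/

namespace Pool.Agent.Work.MP_71a505_fin

/-- evaluation at an integer -/
def pk (B : ℤ) : P1 → ℤ
  | [] => 0
  | c :: l => c + B * pk B l

/-- `∑_{i < f} B ^ i` -/
def gsum (B f : ℕ) : ℕ := (B ^ f - 1) / (B - 1)

theorem gsum_zero (B : ℕ) : gsum B 0 = 0 := by simp [gsum]

theorem gsum_succ {B : ℕ} (hB : 2 ≤ B) (f : ℕ) : gsum B (f + 1) = 1 + B * gsum B f := by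
  unfold gsum
  rw [← Nat.geomSum_eq hB, ← Nat.geomSum_eq hB, geom_sum_succ]
  ring

/-- digits of a natural number minus `h`; the argument is forced by the match -/
def unpkN (B h : ℕ) : ℕ → ℕ → P1
  | 0, _ => []
  | f + 1, 0 => Int.subNatNat 0 h :: unpkN B h f 0
  | f + 1, m + 1 => Int.subNatNat (Nat.mod (m + 1) B) h :: unpkN B h f (Nat.div (m + 1) B)

theorem unpkN_succ (B h f n : ℕ) :
    unpkN B h (f + 1) n = (((n % B : ℕ) : ℤ) - h) :: unpkN B h f (n / B) := by
  cases n with
  | zero => simp [unpkN, Int.subNatNat_eq_coe]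
  | succ m => simp only [unpkN, Int.subNatNat_eq_coe]; rfl

theorem pk_add (B : ℤ) (p q : P1) : pk B (add1 p q) = pk B p + pk B q := by
  unfold add1
  induction p generalizing q with
  | nil => simp [addL, pk]
  | cons a p ih =>
    cases q with
    | nil => simp [addL, pk]
    | cons b q =>
      simp only [addL, pk, ih]
      ring

theorem pk_map (B c : ℤ) (p : P1) : pk B (p.map (c * ·)) = c * pk B p := by
  induction p with
  | nil => simp [pk]
  | cons a p ih =>
    simp only [List.map_cons, pk, ih]
    ring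

theorem pk_mul (B : ℤ) (p q : P1) : pk B (mul1 p q) = pk B p * pk B q := by
  unfold mul1
  induction p with
  | nil => simp [mulL, pk]
  | cons a p ih =>
    have h1 : pk B (addL (· + ·) (q.map (a * ·)) (0 :: mulL 0 (· + ·) (· * ·) p q))
      = pk B (q.map (a * ·)) + pk B (0 :: mulL 0 (· + ·) (· * ·) p q) := pk_add B _ _
    simp only [mulL]
    rw [h1, pk_map]
    simp only [pk, ih]
    ring

/-- digits in balanced base `B = 2 h` -/
def unpk (B h : ℕ) (f : ℕ) (n : ℤ) : P1 := unpkN B h f (Int.toNat (n + (Nat.mul h (gsum B f) : ℕ)))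

theorem ev1_unpkN {B h : ℕ} (hB : B = 2 * h) (hh : 1 ≤ h) (u : ℝ) (f : ℕ) (p : P1)
    (hf : p.length ≤ f) (hp : ∀ c ∈ p, |c| < h) (N : ℕ)
    (hN : (N : ℤ) = pk B p + h * gsum B f) : ev1 u (unpkN B h f N) = ev1 u p := by
  induction f generalizing p N with
  | zero =>
    have : p = [] := List.length_eq_zero_iff.1 (by omega)
    rw [this]; simp [unpkN]
  | succ f ih =>
    have hB2 : 2 ≤ B := by omega
    rw [unpkN_succ]
    rw [gsum_succ hB2] at hN
    have hBz : (B : ℤ) = 2 * h := by exact_mod_cast hB
    have hhz : (1 : ℤ) ≤ h := by exact_mod_cast hh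
    -- head and tail
    obtain ⟨c, q, hc, hq, hql, hqc⟩ : ∃ (c : ℤ) (q : P1), |c| < h ∧ (pk B p = c + B * pk B q) ∧
        q.length ≤ f ∧ (∀ x ∈ q, |x| < h) ∧ True ∧ ev1 u p = c + u * ev1 u q := by
      cases p with
      | nil => exact ⟨0, [], by rw [abs_zero]; linarith, by simp [pk], by simp, by simp, trivial, by simp [ev1, evL]⟩
      | cons c q =>
        exact ⟨c, q, hp c List.mem_cons_self, rfl, by simpa using hf,
          fun x hx => hp x (List.mem_cons_of_mem _ hx), trivial, rfl⟩
    obtain ⟨hqc, -, hev⟩ := hqc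
    have habs := abs_lt.1 hc
    have e1 : (N : ℤ) = (c + h) + B * (pk B q + h * gsum B f) := by
      rw [hN, hq]; push_cast; ring
    have h1 : (N : ℤ) % B = c + h := by
      rw [e1, Int.add_mul_emod_self_left]
      exact Int.emod_eq_of_lt (by linarith) (by linarith)
    have h2 : (N : ℤ) / B = pk B q + h * gsum B f := by
      rw [e1, Int.add_mul_ediv_left _ _ (by omega)]
      rw [Int.ediv_eq_zero_of_lt (by linarith) (by linarith)]
      ring
    have h3 : ((N % B : ℕ) : ℤ) - h = c := by push_cast; rw [h1]; ring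
    have h4 := ih q hql hqc (N / B) (by push_cast; exact h2)
    rw [hev, ← h4, ← h3]
    simp only [ev1, evL]

theorem ev1_unpk {B h : ℕ} (hB : B = 2 * h) (hh : 1 ≤ h) (u : ℝ) (p : P1) (f : ℕ)
    (hf : p.length ≤ f) (hp : ∀ c ∈ p, |c| < h) : ev1 u (unpk B h f (pk B p)) = ev1 u p := by
  unfold unpk
  apply ev1_unpkN hB hh u f p hf hp
  rw [Int.toNat_of_nonneg]
  · push_cast; rfl
  · -- nonnegativity
    have key : ∀ (f : ℕ) (p : P1), p.length ≤ f → (∀ c ∈ p, |c| < h) →
        0 ≤ pk B p + h * gsum B f := by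
      intro f
      induction f with
      | zero =>
        intro p hl _
        have : p = [] := List.length_eq_zero_iff.1 (by omega)
        rw [this]; simp [pk, gsum_zero]
      | succ f ih =>
        intro p hl hp
        rw [gsum_succ (by omega)]
        have hhz : (1 : ℤ) ≤ h := by exact_mod_cast hh
        cases p with
        | nil => simp only [pk]; positivity
        | cons c q =>
          have h1 := ih q (by simpa using hl) (fun x hx => hp x (List.mem_cons_of_mem _ hx))
          have h2 := (abs_lt.1 (hp c List.mem_cons_self)).1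
          have e1 : pk B (c :: q) + (h : ℤ) * ((1 + B * gsum B f : ℕ) : ℤ)
              = (c + h) + B * (pk B q + h * gsum B f) := by
            simp only [pk]; push_cast; ring
          rw [e1]
          have h3 : 0 ≤ (B : ℤ) * (pk B q + h * gsum B f) := by positivity
          linarith
    have := key f p hf hp
    push_cast; exact this

/-! ### norms -/

def linf1 : P1 → ℕ
  | [] => 0
  | c :: l => max c.natAbs (linf1 l)
def l11 : P1 → ℕ
  | [] => 0
  | c :: l => c.natAbs + l11 l
def linf2 : P2 → ℕ
  | [] => 0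
  | c :: l => max (linf1 c) (linf2 l)
def l12 : P2 → ℕ
  | [] => 0
  | c :: l => l11 c + l12 l
def linf3 : P3 → ℕ
  | [] => 0
  | c :: l => max (linf2 c) (linf3 l)
def l13 : P3 → ℕ
  | [] => 0
  | c :: l => l12 c + l13 l
def len2 : P2 → ℕ
  | [] => 0
  | c :: l => max c.length (len2 l)
def len3 : P3 → ℕ
  | [] => 0
  | c :: l => max (len2 c) (len3 l)

/-- all coefficients of `p` are at most `M` in absolute value and the length is at most `n` -/
def Bd1 (M n : ℕ) (p : P1) : Prop := p.length ≤ n ∧ ∀ c ∈ p, c.natAbs ≤ M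
def Bd2 (M n : ℕ) (p : P2) : Prop := ∀ c ∈ p, Bd1 M n c
def Bd3 (M n : ℕ) (p : P3) : Prop := ∀ c ∈ p, Bd2 M n c

theorem Bd1.mono {M M' n n' : ℕ} {p : P1} (h : Bd1 M n p) (hM : M ≤ M') (hn : n ≤ n') :
    Bd1 M' n' p := ⟨h.1.trans hn, fun c hc => (h.2 c hc).trans hM⟩

theorem Bd2.mono {M M' n n' : ℕ} {p : P2} (h : Bd2 M n p) (hM : M ≤ M') (hn : n ≤ n') :
    Bd2 M' n' p := fun c hc => (h c hc).mono hM hn

theorem Bd3.mono {M M' n n' : ℕ} {p : P3} (h : Bd3 M n p) (hM : M ≤ M') (hn : n ≤ n') :
    Bd3 M' n' p := fun c hc => (h c hc).mono hM hn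

theorem bd1_self (p : P1) : Bd1 (linf1 p) p.length p := by
  refine ⟨le_rfl, ?_⟩
  induction p with
  | nil => simp
  | cons a p ih =>
    intro c hc
    rcases List.mem_cons.1 hc with rfl | hc
    · exact le_max_left _ _
    · exact (ih c hc).trans (le_max_right _ _)

theorem bd2_self (p : P2) : Bd2 (linf2 p) (len2 p) p := by
  induction p with
  | nil => intro c hc; simp at hc
  | cons a p ih =>
    intro c hc
    rcases List.mem_cons.1 hc with rfl | hc
    · exact (bd1_self c).mono (le_max_left _ _) (le_max_left _ _)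
    · exact (ih c hc).mono (le_max_right _ _) (le_max_right _ _)

theorem bd3_self (p : P3) : Bd3 (linf3 p) (len3 p) p := by
  induction p with
  | nil => intro c hc; simp at hc
  | cons a p ih =>
    intro c hc
    rcases List.mem_cons.1 hc with rfl | hc
    · exact (bd2_self c).mono (le_max_left _ _) (le_max_left _ _)
    · exact (ih c hc).mono (le_max_right _ _) (le_max_right _ _)

theorem bd1_add {M M' n : ℕ} {p q : P1} (hp : Bd1 M n p) (hq : Bd1 M' n q) :
    Bd1 (M + M') n (add1 p q) := by
  unfold add1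
  induction p generalizing q n with
  | nil => exact hq.mono (by omega) le_rfl
  | cons a p ih =>
    cases q with
    | nil => exact hp.mono (by omega) le_rfl
    | cons b q =>
      obtain ⟨n, rfl⟩ : ∃ m, n = m + 1 := ⟨n - 1, by have := hp.1; simp at this; omega⟩
      have h1 : Bd1 M n p := ⟨by simpa using hp.1, fun c hc => hp.2 c (List.mem_cons_of_mem _ hc)⟩
      have h2 : Bd1 M' n q := ⟨by simpa using hq.1, fun c hc => hq.2 c (List.mem_cons_of_mem _ hc)⟩
      have h3 := ih h1 h2
      refine ⟨by simpa [addL] using h3.1, ?_⟩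
      intro c hc
      rcases List.mem_cons.1 hc with rfl | hc
      · exact (Int.natAbs_add_le a b).trans
          (add_le_add (hp.2 a List.mem_cons_self) (hq.2 b List.mem_cons_self))
      · exact h3.2 c hc

theorem bd1_smul {M n : ℕ} (a : ℤ) {p : P1} (hp : Bd1 M n p) :
    Bd1 (a.natAbs * M) n (p.map (a * ·)) := by
  refine ⟨by simpa using hp.1, ?_⟩
  intro c hc
  obtain ⟨x, hx, rfl⟩ := List.mem_map.1 hc
  rw [Int.natAbs_mul]
  exact Nat.mul_le_mul_left _ (hp.2 x hx)

theorem bd1_mul {M n m : ℕ} {p q : P1} (hq : Bd1 M n q) (hp : p.length ≤ m) :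
    Bd1 (l11 p * M) (m + n) (mul1 p q) := by
  unfold mul1
  induction p generalizing m with
  | nil => exact ⟨by simp [mulL], by simp [mulL]⟩
  | cons a p ih =>
    obtain ⟨m, rfl⟩ : ∃ k, m = k + 1 := ⟨m - 1, by simp at hp; omega⟩
    have h1 := ih (m := m) (by simpa using hp)
    have h2 : Bd1 (a.natAbs * M) (m + 1 + n) (q.map (a * ·)) :=
      (bd1_smul a hq).mono le_rfl (by omega)
    have h3 : Bd1 (l11 p * M) (m + 1 + n) (0 :: mulL 0 (· + ·) (· * ·) p q) := by
      refine ⟨?_, ?_⟩
      · have := h1.1
        simp only [List.length_cons]; omega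
      · intro c hc
        rcases List.mem_cons.1 hc with rfl | hc
        · simp
        · exact h1.2 c hc
    have h4 := bd1_add h2 h3
    simp only [mulL, l11]
    rw [add_mul]
    exact h4

theorem bd2_add {M M' n : ℕ} {p q : P2} (hp : Bd2 M n p) (hq : Bd2 M' n q) :
    Bd2 (M + M') n (add2 p q) := by
  unfold add2
  induction p generalizing q with
  | nil => exact hq.mono (by omega) le_rfl
  | cons a p ih =>
    cases q with
    | nil => exact hp.mono (by omega) le_rfl
    | cons b q =>
      intro c hc
      rcases List.mem_cons.1 hc with rfl | hc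
      · exact bd1_add (hp a List.mem_cons_self) (hq b List.mem_cons_self)
      · exact ih (fun c hc => hp c (List.mem_cons_of_mem _ hc))
          (fun c hc => hq c (List.mem_cons_of_mem _ hc)) c hc

theorem bd2_mul {M n m : ℕ} {p q : P2} (hq : Bd2 M n q) (hp : len2 p ≤ m) :
    Bd2 (l12 p * M) (m + n) (mul2 p q) := by
  unfold mul2
  induction p with
  | nil => intro c hc; simp [mulL] at hc
  | cons a p ih =>
    have hm : a.length ≤ m ∧ len2 p ≤ m := by
      simp only [len2] at hp; omega
    have h1 := ih hm.2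
    have h2 : Bd2 (l11 a * M) (m + n) (q.map (mul1 a)) := by
      intro c hc
      obtain ⟨x, hx, rfl⟩ := List.mem_map.1 hc
      exact bd1_mul (hq x hx) hm.1
    have h3 : Bd2 (l12 p * M) (m + n) ([] :: mulL [] add1 mul1 p q) := by
      intro c hc
      rcases List.mem_cons.1 hc with rfl | hc
      · exact ⟨by simp, by simp⟩
      · exact h1 c hc
    have h4 := bd2_add h2 h3
    simp only [mulL, l12]
    rw [add_mul]
    exact h4

theorem bd3_add {M M' n : ℕ} {p q : P3} (hp : Bd3 M n p) (hq : Bd3 M' n q) :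
    Bd3 (M + M') n (add3 p q) := by
  unfold add3
  induction p generalizing q with
  | nil => exact hq.mono (by omega) le_rfl
  | cons a p ih =>
    cases q with
    | nil => exact hp.mono (by omega) le_rfl
    | cons b q =>
      intro c hc
      rcases List.mem_cons.1 hc with rfl | hc
      · exact bd2_add (hp a List.mem_cons_self) (hq b List.mem_cons_self)
      · exact ih (fun c hc => hp c (List.mem_cons_of_mem _ hc))
          (fun c hc => hq c (List.mem_cons_of_mem _ hc)) c hc

theorem bd3_mul {M n m : ℕ} {p q : P3} (hq : Bd3 M n q) (hp : len3 p ≤ m) :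
    Bd3 (l13 p * M) (m + n) (mul3 p q) := by
  unfold mul3
  induction p with
  | nil => intro c hc; simp [mulL] at hc
  | cons a p ih =>
    have hm : len2 a ≤ m ∧ len3 p ≤ m := by
      simp only [len3] at hp; omega
    have h1 := ih hm.2
    have h2 : Bd3 (l12 a * M) (m + n) (q.map (mul2 a)) := by
      intro c hc
      obtain ⟨x, hx, rfl⟩ := List.mem_map.1 hc
      exact bd2_mul (hq x hx) hm.1
    have h3 : Bd3 (l13 p * M) (m + n) ([] :: mulL [] add2 mul2 p q) := by
      intro c hc
      rcases List.mem_cons.1 hc with rfl | hc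
      · intro x hx; simp at hx
      · exact h1 c hc
    have h4 := bd3_add h2 h3
    simp only [mulL, l13]
    rw [add_mul]
    exact h4

/-! ### packed multiplication -/

/-- packing of the innermost level -/
def pack (B : ℤ) (p : P3) : P2 := p.map fun r => r.map (pk B)
/-- unpacking of the innermost level -/
def unpack (B h : ℕ) (f : ℕ) (p : P2) : P3 := p.map fun r => r.map (unpk B h f)

theorem map_addL {α β : Type*} {φ : α → β} {add : α → α → α} {add' : β → β → β}
    (h : ∀ a b, φ (add a b) = add' (φ a) (φ b)) (p q : List α) :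
    (addL add p q).map φ = addL add' (p.map φ) (q.map φ) := by
  induction p generalizing q with
  | nil => simp [addL]
  | cons a p ih =>
    cases q with
    | nil => simp [addL]
    | cons b q => simp [addL, h, ih]

theorem map_mulL {α β : Type*} {φ : α → β} {z : α} {z' : β} {add mul : α → α → α}
    {add' mul' : β → β → β} (hz : φ z = z') (h : ∀ a b, φ (add a b) = add' (φ a) (φ b))
    (hm : ∀ a b, φ (mul a b) = mul' (φ a) (φ b)) (p q : List α) :
    (mulL z add mul p q).map φ = mulL z' add' mul' (p.map φ) (q.map φ) := by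
  induction p with
  | nil => simp [mulL]
  | cons a p ih =>
    simp only [mulL, List.map_cons, map_addL h, ih, hz]
    congr 1
    rw [List.map_map, List.map_map]
    congr 1
    funext x
    exact hm a x

theorem pack_mul (B : ℤ) (p q : P3) : pack B (mul3 p q) = mul2 (pack B p) (pack B q) := by
  unfold pack mul3 mul2
  refine map_mulL (φ := fun r : P2 => r.map (pk B)) (by simp) ?_ ?_ p q
  · intro a b
    exact map_addL (pk_add B) a b
  · intro a b
    exact map_mulL (by simp [pk]) (pk_add B) (pk_mul B) a b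

theorem ev3_unpack {B h : ℕ} (hB : B = 2 * h) (hh : 1 ≤ h) (u X Y : ℝ) (p : P3) {M n : ℕ}
    (hp : Bd3 M n p) (hM : M < h) :
    ev3 u X Y (unpack B h n (pack B p)) = ev3 u X Y p := by
  unfold unpack pack ev3
  induction p with
  | nil => simp [evL]
  | cons r p ih =>
    have h1 := ih (fun c hc => hp c (List.mem_cons_of_mem _ hc))
    have h2 := hp r List.mem_cons_self
    simp only [List.map_cons, evL]
    rw [h1]
    congr 1
    unfold ev2
    clear ih h1 hp
    induction r with
    | nil => simp [evL]
    | cons c r ih =>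
      have h3 := ih (fun c hc => h2 c (List.mem_cons_of_mem _ hc))
      have h4 := h2 c List.mem_cons_self
      simp only [List.map_cons, evL]
      rw [h3, ev1_unpk hB hh u c n h4.1]
      intro x hx
      have h5 := h4.2 x hx
      have h6 : |x| ≤ M := by
        rw [Int.abs_eq_natAbs]
        exact_mod_cast h5
      have h7 : (M : ℤ) < h := by exact_mod_cast hM
      linarith

/-- fast multiplication; `k` = number of bits per coefficient -/
def mulF (k : ℕ) (p q : P3) : P3 :=
  bif Nat.blt (Nat.mul (l13 p) (linf3 q)) (2 ^ k) then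
    unpack (2 ^ (k + 1)) (2 ^ k) (Nat.add (len3 p) (len3 q))
      (mul2 (pack (2 ^ (k + 1) : ℕ) p) (pack (2 ^ (k + 1) : ℕ) q))
  else mul3 p q

theorem ev3_mulF (u X Y : ℝ) (k : ℕ) (p q : P3) :
    ev3 u X Y (mulF k p q) = ev3 u X Y p * ev3 u X Y q := by
  unfold mulF
  cases h : Nat.blt (Nat.mul (l13 p) (linf3 q)) (2 ^ k)
  · exact ev3_mul u X Y p q
  · have h1 : l13 p * linf3 q < 2 ^ k := by
      simpa [Nat.blt_eq] using h
    simp only [cond_true]
    rw [← pack_mul]
    have := ev3_unpack (B := 2 ^ (k + 1)) (h := 2 ^ k) (by ring) Nat.one_le_two_pow u X Y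
      (mul3 p q) (bd3_mul (bd3_self q) le_rfl) h1
    rw [← ev3_mul, ← this]
    rfl

end Pool.Agent.Work.MP_71a505_fin
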