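import Mathlib

/-!
Truncated polynomial arithmetic in three small positive variables `u, X, Y`, with integer
coefficients, for kernel computation, and the calculus of asymptotic approximations.
A polynomial is a nested list `p[k][j][i]` = coefficient of `u ^ i * X ^ j * Y ^ k`.
-/

namespace Pool.Agent.Work.MP_71a505_fin

/-! ### generic list polynomials -/

section gen
variable {α : Type*}

/-- evaluation of a list of coefficients -/
noncomputable def evL (f : α → ℝ) (x : ℝ) : List α → ℝ
  | [] => 0
  | a :: l => f a + x * evL f x l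

/-- addition of coefficient lists -/
def addL (add : α → α → α) : List α → List α → List α
  | [], q => q
  | p, [] => p
  | a :: p, b :: q => add a b :: addL add p q

/-- multiplication of coefficient lists -/
def mulL (zero : α) (add mul : α → α → α) : List α → List α → List α
  | [], _ => []
  | a :: p, q => addL add (q.map (mul a)) (zero :: mulL zero add mul p q)

theorem evL_addL {f : α → ℝ} {add : α → α → α} (hadd : ∀ a b, f (add a b) = f a + f b)
    (x : ℝ) (p q : List α) : evL f x (addL add p q) = evL f x p + evL f x q := by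
  induction p generalizing q with
  | nil => simp [addL, evL]
  | cons a p ih =>
    cases q with
    | nil => simp [addL, evL]
    | cons b q =>
      simp only [addL, evL, hadd, ih]
      ring

theorem evL_map {f : α → ℝ} {g : α → α} {c : ℝ} (hg : ∀ a, f (g a) = c * f a)
    (x : ℝ) (p : List α) : evL f x (p.map g) = c * evL f x p := by
  induction p with
  | nil => simp [evL]
  | cons a p ih =>
    simp only [List.map_cons, evL, hg, ih]
    ring

theorem evL_mulL {f : α → ℝ} {zero : α} {add mul : α → α → α} (h0 : f zero = 0)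
    (hadd : ∀ a b, f (add a b) = f a + f b) (hmul : ∀ a b, f (mul a b) = f a * f b)
    (x : ℝ) (p q : List α) :
    evL f x (mulL zero add mul p q) = evL f x p * evL f x q := by
  induction p with
  | nil => simp [mulL, evL]
  | cons a p ih =>
    simp only [mulL, evL_addL hadd, evL, h0, ih, evL_map (hmul a)]
    ring

end gen

/-! ### the three levels -/

abbrev P1 := List ℤ
abbrev P2 := List (List ℤ)
abbrev P3 := List (List (List ℤ))

noncomputable def ev1 (u : ℝ) (p : P1) : ℝ := evL (fun c : ℤ => (c : ℝ)) u p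
noncomputable def ev2 (u X : ℝ) (p : P2) : ℝ := evL (ev1 u) X p
noncomputable def ev3 (u X Y : ℝ) (p : P3) : ℝ := evL (ev2 u X) Y p

def add1 : P1 → P1 → P1 := addL (· + ·)
def add2 : P2 → P2 → P2 := addL add1
def add3 : P3 → P3 → P3 := addL add2

def mul1 : P1 → P1 → P1 := mulL 0 (· + ·) (· * ·)
def mul2 : P2 → P2 → P2 := mulL [] add1 mul1
def mul3 : P3 → P3 → P3 := mulL [] add2 mul2

def smul1 (c : ℤ) (p : P1) : P1 := p.map (c * ·)
def smul2 (c : ℤ) (p : P2) : P2 := p.map (smul1 c)
def smul3 (c : ℤ) (p : P3) : P3 := p.map (smul2 c)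

theorem ev1_add (u : ℝ) (p q : P1) : ev1 u (add1 p q) = ev1 u p + ev1 u q :=
  evL_addL (fun a b => by push_cast; ring) u p q

theorem ev2_add (u X : ℝ) (p q : P2) : ev2 u X (add2 p q) = ev2 u X p + ev2 u X q :=
  evL_addL (ev1_add u) X p q

theorem ev3_add (u X Y : ℝ) (p q : P3) : ev3 u X Y (add3 p q) = ev3 u X Y p + ev3 u X Y q :=
  evL_addL (ev2_add u X) Y p q

theorem ev1_mul (u : ℝ) (p q : P1) : ev1 u (mul1 p q) = ev1 u p * ev1 u q :=
  evL_mulL (by simp) (fun a b => by push_cast; ring) (fun a b => by push_cast; ring) u p q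

theorem ev2_mul (u X : ℝ) (p q : P2) : ev2 u X (mul2 p q) = ev2 u X p * ev2 u X q :=
  evL_mulL (by simp [ev1, evL]) (ev1_add u) (ev1_mul u) X p q

theorem ev3_mul (u X Y : ℝ) (p q : P3) : ev3 u X Y (mul3 p q) = ev3 u X Y p * ev3 u X Y q :=
  evL_mulL (by simp [ev2, evL]) (ev2_add u X) (ev2_mul u X) Y p q

theorem ev1_smul (u : ℝ) (c : ℤ) (p : P1) : ev1 u (smul1 c p) = c * ev1 u p :=
  evL_map (fun a => by push_cast; ring) u p

theorem ev2_smul (u X : ℝ) (c : ℤ) (p : P2) : ev2 u X (smul2 c p) = c * ev2 u X p :=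
  evL_map (ev1_smul u c) X p

theorem ev3_smul (u X Y : ℝ) (c : ℤ) (p : P3) : ev3 u X Y (smul3 c p) = c * ev3 u X Y p :=
  evL_map (ev2_smul u X c) Y p

/-! ### shifts -/

/-- multiplication by `u ^ i` -/
def shiftU (i : ℕ) (p : P3) : P3 := p.map fun r => r.map fun s => List.replicate i 0 ++ s
/-- multiplication by `X ^ j` -/
def shiftX (j : ℕ) (p : P3) : P3 := p.map fun r => List.replicate j [] ++ r
/-- multiplication by `Y ^ k` -/
def shiftY (k : ℕ) (p : P3) : P3 := List.replicate k [] ++ p

theorem evL_replicate {α : Type*} {f : α → ℝ} {z : α} (hz : f z = 0) (x : ℝ) (n : ℕ)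
    (p : List α) : evL f x (List.replicate n z ++ p) = x ^ n * evL f x p := by
  induction n with
  | zero => simp
  | succ n ih =>
    rw [List.replicate_succ, List.cons_append, evL, ih, hz]
    ring

theorem ev3_shiftU (u X Y : ℝ) (i : ℕ) (p : P3) :
    ev3 u X Y (shiftU i p) = u ^ i * ev3 u X Y p := by
  unfold ev3 shiftU
  apply evL_map
  intro a
  unfold ev2
  apply evL_map
  intro b
  exact evL_replicate (by simp) u i b

theorem ev3_shiftX (u X Y : ℝ) (j : ℕ) (p : P3) :
    ev3 u X Y (shiftX j p) = X ^ j * ev3 u X Y p := by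
  unfold ev3 shiftX
  apply evL_map
  intro a
  exact evL_replicate (by simp [ev1, evL]) X j a

theorem ev3_shiftY (u X Y : ℝ) (k : ℕ) (p : P3) :
    ev3 u X Y (shiftY k p) = Y ^ k * ev3 u X Y p :=
  evL_replicate (by simp [ev2, evL]) Y k p

/-! ### comparison modulo trailing zeros -/

def isZ1 (p : P1) : Bool := p.all (· == 0)
def isZ2 (p : P2) : Bool := p.all isZ1
def isZ3 (p : P3) : Bool := p.all isZ2

def eqL {α : Type*} (eq : α → α → Bool) (isz : α → Bool) : List α → List α → Bool
  | [], q => q.all isz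
  | p, [] => p.all isz
  | a :: p, b :: q => eq a b && eqL eq isz p q

def eq1 : P1 → P1 → Bool := eqL (fun a b => decide (a = b)) (fun a => decide (a = 0))
def eq2 : P2 → P2 → Bool := eqL eq1 (fun p => p.all (fun a => decide (a = 0)))
def eq3 : P3 → P3 → Bool :=
  eqL eq2 (fun p => p.all (fun p => p.all (fun a => decide (a = 0))))

theorem evL_zero {α : Type*} {f : α → ℝ} {isz : α → Bool} (hz : ∀ a, isz a = true → f a = 0)
    (x : ℝ) (p : List α) (h : p.all isz = true) : evL f x p = 0 := by
  induction p with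
  | nil => rfl
  | cons a p ih =>
    rw [List.all_cons, Bool.and_eq_true] at h
    rw [evL, hz a h.1, ih h.2]
    ring

theorem evL_eqL {α : Type*} {f : α → ℝ} {eq : α → α → Bool} {isz : α → Bool}
    (heq : ∀ a b, eq a b = true → f a = f b) (hz : ∀ a, isz a = true → f a = 0)
    (x : ℝ) (p q : List α) (h : eqL eq isz p q = true) : evL f x p = evL f x q := by
  induction p generalizing q with
  | nil =>
    rw [eqL] at h
    rw [evL_zero hz x q h]; rfl
  | cons a p ih =>
    cases q with
    | nil =>
      rw [eqL] at h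
      · rw [evL_zero hz x _ h]; rfl
      · simp
    | cons b q =>
      rw [eqL, Bool.and_eq_true] at h
      rw [evL, evL, heq a b h.1, ih q h.2]

theorem ev1_eq {u : ℝ} {p q : P1} (h : eq1 p q = true) : ev1 u p = ev1 u q :=
  evL_eqL (fun a b h => by rw [of_decide_eq_true h]) (fun a h => by rw [of_decide_eq_true h]; simp)
    u p q h

theorem ev1_zero {u : ℝ} {p : P1} (h : p.all (fun a => decide (a = 0)) = true) : ev1 u p = 0 :=
  evL_zero (fun a h => by rw [of_decide_eq_true h]; simp) u p h

theorem ev2_zero {u X : ℝ} {p : P2}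
    (h : p.all (fun p => p.all (fun a => decide (a = 0))) = true) : ev2 u X p = 0 :=
  evL_zero (fun _ h => ev1_zero h) X p h

theorem ev2_eq {u X : ℝ} {p q : P2} (h : eq2 p q = true) : ev2 u X p = ev2 u X q :=
  evL_eqL (fun _ _ h => ev1_eq h) (fun _ h => ev1_zero h) X p q h

theorem ev3_eq {u X Y : ℝ} {p q : P3} (h : eq3 p q = true) : ev3 u X Y p = ev3 u X Y q :=
  evL_eqL (fun _ _ h => ev2_eq h) (fun _ h => ev2_zero h) Y p q h

end Pool.Agent.Work.MP_71a505_fin
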