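import Pool.Agent.Work.MP_71a505_fin.App
import Pool.Agent.Work.MP_71a505_fin.Chart

/-!
Rules for square roots, quotients and the implicit functions `E`, `H`.
-/

namespace Pool.Agent.Work.MP_71a505_fin

def leR : List ℕ → List ℕ → Bool
  | [], _ => true
  | a :: l, b :: m => Nat.ble a b && leR l m
  | a :: l, [] => Nat.ble a 0 && leR l []

def leT : Tab → Tab → Bool
  | [], _ => true
  | a :: l, b :: m => leR a b && leT l m
  | a :: l, [] => leR a [] && leT l []

theorem leR_spec {u X : ℝ} (hu : 0 ≤ u) (hX : 0 ≤ X) (T e f : List ℕ) (h : leR e f = true) :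
    evR u X T e ≤ evR u X T f := by
  induction e generalizing T f with
  | nil =>
    have := evR_nonneg hu hX T f
    cases T <;> simpa [evR] using this
  | cons a e ih =>
    cases f with
    | nil =>
      rw [leR, Bool.and_eq_true] at h
      have ha : a = 0 := by have := Nat.le_of_ble_eq_true h.1; omega
      cases T with
      | nil => simp [evR, ha]
      | cons L T =>
        have := ih T [] h.2
        have e0 : evR u X T [] = 0 := by cases T <;> simp [evR]
        rw [e0] at this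
        simp only [evR, ha]
        have h2 : X * evR u X T e ≤ 0 := mul_nonpos_of_nonneg_of_nonpos hX this
        simpa using h2
    | cons b f =>
      rw [leR, Bool.and_eq_true] at h
      have hab : (a : ℝ) ≤ b := by exact_mod_cast Nat.le_of_ble_eq_true h.1
      cases T with
      | nil => simpa [evR] using hab
      | cons L T =>
        simp only [evR]
        have := ih T f h.2
        gcongr

theorem leT_spec {u X Y : ℝ} (hu : 0 ≤ u) (hX : 0 ≤ X) (hY : 0 ≤ Y) (T e f : Tab)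
    (h : leT e f = true) : evT u X Y T e ≤ evT u X Y T f := by
  induction e generalizing T f with
  | nil =>
    have := evT_nonneg hu hX hY T f
    cases T <;> simpa [evT] using this
  | cons a e ih =>
    have e00 : ∀ L : List ℕ, evR u X L [] = 0 := by intro L; cases L <;> simp [evR]
    cases f with
    | nil =>
      rw [leT, Bool.and_eq_true] at h
      cases T with
      | nil =>
        have := leR_spec hu hX [] a [] h.1
        simp only [evT]
        rw [e00] at this; exact this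
      | cons L T =>
        have h1 := ih T [] h.2
        have e0 : evT u X Y T [] = 0 := by cases T <;> simp [evT]
        have h2 := leR_spec hu hX L a [] h.1
        rw [e0] at h1
        rw [e00] at h2
        simp only [evT]
        have h3 : Y * evT u X Y T e ≤ 0 := mul_nonpos_of_nonneg_of_nonpos hY h1
        linarith
    | cons b f =>
      rw [leT, Bool.and_eq_true] at h
      cases T with
      | nil =>
        simp only [evT]
        exact leR_spec hu hX [] a b h.1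
      | cons L T =>
        simp only [evT]
        have h1 := ih T f h.2
        have h2 := leR_spec hu hX L a b h.1
        gcongr

theorem forall₂_addL {α β : Type*} {R : α → β → Prop} {add : α → α → α} {add' : β → β → β}
    (h : ∀ a b a' b', R a b → R a' b' → R (add a a') (add' b b')) {p q : List α} {p' q' : List β}
    (hp : List.Forall₂ R p p') (hq : List.Forall₂ R q q') :
    List.Forall₂ R (addL add p q) (addL add' p' q') := by
  induction hp generalizing q q' with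
  | nil => simpa [addL] using hq
  | cons hab hp' ih =>
    cases hq with
    | nil => exact List.Forall₂.cons hab hp'
    | cons hcd hq' => exact List.Forall₂.cons (h _ _ _ _ hab hcd) (ih hq')

theorem forall₂_map {α β γ δ : Type*} {R : α → β → Prop} {S : γ → δ → Prop} {f : α → γ} {g : β → δ}
    (h : ∀ a b, R a b → S (f a) (g b)) {p : List α} {p' : List β} (hp : List.Forall₂ R p p') :
    List.Forall₂ S (p.map f) (p'.map g) := by
  induction hp with
  | nil => exact List.Forall₂.nil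
  | cons hab _ ih => exact List.Forall₂.cons (h _ _ hab) ih

theorem dom1_add {u : ℝ} (a : P1) (b : ℕ) (a' : P1) (b' : ℕ) (h : Dom1 u a b) (h' : Dom1 u a' b') :
    Dom1 u (add1 a a') (b + b') := by
  unfold Dom1 at *
  rw [ev1_add]
  push_cast
  exact (abs_add_le _ _).trans (add_le_add h h')

theorem dom3_add {u : ℝ} {p q : P3} {A B : Tab} (hp : Dom3 u p A) (hq : Dom3 u q B) :
    Dom3 u (add3 p q) (addT A B) :=
  forall₂_addL (R := Dom2 u) (fun _ _ _ _ h1 h2 => forall₂_addL (R := Dom1 u) dom1_add h1 h2) hp hq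

theorem abs_int_cast (c : ℤ) : |(c : ℝ)| = (c.natAbs : ℝ) := by
  rw [← Int.cast_abs, Int.abs_eq_natAbs]; simp

theorem dom3_smul {u : ℝ} (c : ℤ) {p : P3} {A : Tab} (hp : Dom3 u p A) :
    Dom3 u (smul3 c p) (smulT c.natAbs A) := by
  refine forall₂_map (R := Dom2 u) (fun a b hab => ?_) hp
  refine forall₂_map (R := Dom1 u) (fun a b hab => ?_) hab
  unfold Dom1 at *
  rw [ev1_smul, abs_mul, abs_int_cast]
  push_cast
  exact mul_le_mul_of_nonneg_left hab (by positivity)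

def addPE (f g : PE) : PE := ⟨add3 f.p g.p, addT f.e g.e, addT f.n g.n⟩

theorem App.add {T : Tab} {u X Y f g : ℝ} {p q : PE} (hf : App T u X Y f p)
    (hg : App T u X Y g q) : App T u X Y (f + g) (addPE p q) := by
  refine ⟨?_, dom3_add hf.2 hg.2⟩
  simp only [addPE]
  rw [ev3_add, evT_add]
  have e1 : f + g - (ev3 u X Y p.p + ev3 u X Y q.p) = (f - ev3 u X Y p.p) + (g - ev3 u X Y q.p) := by
    ring
  rw [e1]
  exact (abs_add_le _ _).trans (add_le_add hf.1 hg.1)

def smulPE (c : ℤ) (f : PE) : PE := ⟨smul3 c f.p, smulT c.natAbs f.e, smulT c.natAbs f.n⟩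

theorem App.smul {T : Tab} {u X Y f : ℝ} {p : PE} (c : ℤ) (hf : App T u X Y f p) :
    App T u X Y (c * f) (smulPE c p) := by
  refine ⟨?_, dom3_smul c hf.2⟩
  simp only [smulPE]
  rw [ev3_smul, evT_smul]
  have e1 : (c : ℝ) * f - c * ev3 u X Y p.p = c * (f - ev3 u X Y p.p) := by ring
  rw [e1, abs_mul, abs_int_cast]
  exact mul_le_mul_of_nonneg_left hf.1 (by positivity)

/-- `q` is a valid weakening of `r` (same polynomial) -/
def leq (b : Box) (r q : PE) : Bool := eq3 r.p q.p && leT r.e q.e && chkN b.nu q.p q.n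

theorem App.le {b : Box} {T : Tab} {u X Y f : ℝ} (h : InBox b u X Y) {r q : PE}
    (hf : App T u X Y f r) (hl : leq b r q = true) : App T u X Y f q := by
  unfold leq at hl
  rw [Bool.and_eq_true, Bool.and_eq_true] at hl
  refine ⟨?_, chkN_spec h hl.2⟩
  rw [← ev3_eq hl.1.1]
  exact hf.1.trans (leT_spec h.u0 h.X0 h.Y0 T _ _ hl.1.2)

/-! ### multiplication -/

def mxR : List ℕ → ℕ
  | [] => 0
  | a :: l => max a (mxR l)
def maxLT : Tab → ℕ
  | [] => 0
  | r :: l => max (mxR r) (maxLT l)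
def maxJT : Tab → ℕ
  | [] => 0
  | r :: l => max r.length (maxJT l)
def rlen : P3 → ℕ
  | [] => 0
  | c :: l => max c.length (rlen l)

def chkMul (b : Box) (T : Tab) (k : ℕ) (f g r : PE) : Bool :=
  forceN (max (len3 f.p + len3 g.p) (maxLT T)) fun n1 =>
  forceN (max (rlen f.p + rlen g.p) (maxJT T)) fun n2 =>
  forceN (max (f.p.length + g.p.length) T.length) fun n3 =>
  forceN (Nat.pow 2 k) fun h =>
  forceN (Nat.mul 2 h) fun B =>
  forceN (Nat.pow B n1) fun B1 =>
  forceN (Nat.pow B1 n2) fun B2 =>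
  forceN (supPE b T g) fun sg =>
  forceN (horNT b f.n) fun sf =>
  forceN (pos3 B B1 B2 f.p) fun pf =>
  forceN (neg3 B B1 B2 f.p) fun nf =>
  forceN (pos3 B B1 B2 g.p) fun pg =>
  forceN (neg3 B B1 B2 g.p) fun ng =>
  forceN (Nat.sub (Nat.add (Nat.add (Nat.mul pf pg) (Nat.mul nf ng))
    (Nat.mul h (gsum B (n1 * n2 * n3)))) (Nat.add (Nat.mul pf ng) (Nat.mul nf pg))) fun M =>
  Nat.blt (Nat.mul (l13 f.p) (linf3 g.p)) h && (Nat.ble 1 n1 && (Nat.ble 1 n2 &&
    (chkT B h b.nu n1 B1 n2 B2 T n3 M r.p r.e (addT (smulT sg f.e) (smulT sf g.e))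
      (outsF b f.n g.n T 0) && chkN b.nu r.p r.n)))

theorem length_addL {α : Type*} (add : α → α → α) (p q : List α) :
    (addL add p q).length = max p.length q.length := by
  induction p generalizing q with
  | nil => simp [addL]
  | cons a p ih =>
    cases q with
    | nil => simp [addL]
    | cons b q => simp [addL, ih]

theorem length_mulL {α : Type*} (z : α) (add mul : α → α → α) (p q : List α) :
    (mulL z add mul p q).length ≤ p.length + q.length := by
  induction p with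
  | nil => simp [mulL]
  | cons a p ih =>
    simp only [mulL, length_addL, List.length_map, List.length_cons]
    omega

theorem rlen_spec {p : P3} {c : P2} (hc : c ∈ p) : c.length ≤ rlen p := by
  induction p with
  | nil => simp at hc
  | cons a p ih =>
    rcases List.mem_cons.1 hc with rfl | hc
    · exact le_max_left _ _
    · exact (ih hc).trans (le_max_right _ _)

theorem mem_addL {α : Type*} {add : α → α → α} {p q : List α} {c : α} (hc : c ∈ addL add p q) :
    c ∈ p ∨ c ∈ q ∨ ∃ a ∈ p, ∃ b ∈ q, c = add a b := by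
  induction p generalizing q with
  | nil => right; left; simpa [addL] using hc
  | cons a p ih =>
    cases q with
    | nil => left; simpa [addL] using hc
    | cons b q =>
      simp only [addL, List.mem_cons] at hc
      rcases hc with rfl | hc
      · right; right; exact ⟨a, List.mem_cons_self, b, List.mem_cons_self, rfl⟩
      · rcases ih hc with h | h | ⟨x, hx, y, hy, h⟩
        · left; exact List.mem_cons_of_mem _ h
        · right; left; exact List.mem_cons_of_mem _ h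
        · right; right
          exact ⟨x, List.mem_cons_of_mem _ hx, y, List.mem_cons_of_mem _ hy, h⟩

theorem rows_mul3 {p q : P3} {c : P2} (hc : c ∈ mul3 p q) : c.length ≤ rlen p + rlen q := by
  unfold mul3 at hc
  induction p generalizing c with
  | nil => simp [mulL] at hc
  | cons a p ih =>
    simp only [mulL] at hc
    have hmap : ∀ x ∈ q.map (mul2 a), x.length ≤ rlen (a :: p) + rlen q := by
      intro x hx
      obtain ⟨y, hy, rfl⟩ := List.mem_map.1 hx
      have h1 : (mul2 a y).length ≤ a.length + y.length := length_mulL _ _ _ _ _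
      have h2 := rlen_spec hy
      have h3 : a.length ≤ rlen (a :: p) := le_max_left _ _
      omega
    have htl : ∀ x ∈ ([] :: mulL [] add2 mul2 p q : P3), x.length ≤ rlen (a :: p) + rlen q := by
      intro x hx
      rcases List.mem_cons.1 hx with rfl | hx
      · simp
      · have h1 := ih hx
        have h2 : rlen p ≤ rlen (a :: p) := le_max_right _ _
        omega
    rcases mem_addL hc with h | h | ⟨x, hx, y, hy, h⟩
    · exact hmap c h
    · exact htl c h
    · rw [h, add2, length_addL]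
      exact max_le (hmap x hx) (htl y hy)

theorem App.mul {b : Box} {T : Tab} {u X Y f g : ℝ} (h : InBox b u X Y) {k : ℕ} {p q r : PE}
    (hf : App T u X Y f p) (hg : App T u X Y g q) (hk : chkMul b T k p q r = true) :
    App T u X Y (f * g) r := by
  unfold chkMul at hk
  simp only [forceN_eq, Bool.and_eq_true] at hk
  obtain ⟨h1, h2, h3, h4, h5⟩ := hk
  refine ⟨?_, chkN_spec h h5⟩
  generalize hn1 : max (len3 p.p + len3 q.p) (maxLT T) = n1 at h2 h4
  generalize hn2 : max (rlen p.p + rlen q.p) (maxJT T) = n2 at h3 h4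
  generalize hn3 : max (p.p.length + q.p.length) T.length = n3 at h4
  have hn1' : 1 ≤ n1 := Nat.le_of_ble_eq_true h2
  have hn2' : 1 ≤ n2 := Nat.le_of_ble_eq_true h3
  have hB : Nat.mul 2 (Nat.pow 2 k) = 2 * 2 ^ k := rfl
  have hh : 1 ≤ 2 ^ k := Nat.one_le_two_pow
  have hsm : Sm3 (2 ^ k) n1 n2 (mul3 p.p q.p) := by
    have hbd := bd3_mul (bd3_self q.p) (le_refl (len3 p.p)) (p := p.p)
    have hlt : l13 p.p * linf3 q.p < 2 ^ k := by
      have : Nat.blt (Nat.mul (l13 p.p) (linf3 q.p)) (Nat.pow 2 k) = true := h1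
      simpa [Nat.blt_eq] using this
    intro c hc
    refine ⟨?_, ?_⟩
    · intro x hx
      have h6 := hbd c hc x hx
      refine ⟨?_, ?_⟩
      · intro y hy
        have h7 := h6.2 y hy
        have h8 : |y| ≤ (l13 p.p * linf3 q.p : ℕ) := by
          rw [Int.abs_eq_natAbs]; exact_mod_cast h7
        have h9 : ((l13 p.p * linf3 q.p : ℕ) : ℤ) < ((2 ^ k : ℕ) : ℤ) := by exact_mod_cast hlt
        exact lt_of_le_of_lt h8 h9
      · have h7 := h6.1
        have : len3 p.p + len3 q.p ≤ n1 := by rw [← hn1]; exact le_max_left _ _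
        omega
    · have h6 := rows_mul3 hc
      have : rlen p.p + rlen q.p ≤ n2 := by rw [← hn2]; exact le_max_left _ _
      omega
  have hlen : (mul3 p.p q.p).length ≤ n3 := by
    have h6 : (mul3 p.p q.p).length ≤ p.p.length + q.p.length := length_mulL _ _ _ _ _
    have : p.p.length + q.p.length ≤ n3 := by rw [← hn3]; exact le_max_left _ _
    omega
  -- the packed number
  have hM := b3_eq (B := 2 * 2 ^ k) rfl hh hn1' hn2' n3 (mul3 p.p q.p) hlen hsm
  rw [pk3_mul, ← pos3_sub, ← pos3_sub] at hM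
  have hM' : Nat.sub (Nat.add (Nat.add
      (Nat.mul (pos3 (2 * 2 ^ k) ((2 * 2 ^ k) ^ n1) (((2 * 2 ^ k) ^ n1) ^ n2) p.p)
        (pos3 (2 * 2 ^ k) ((2 * 2 ^ k) ^ n1) (((2 * 2 ^ k) ^ n1) ^ n2) q.p))
      (Nat.mul (neg3 (2 * 2 ^ k) ((2 * 2 ^ k) ^ n1) (((2 * 2 ^ k) ^ n1) ^ n2) p.p)
        (neg3 (2 * 2 ^ k) ((2 * 2 ^ k) ^ n1) (((2 * 2 ^ k) ^ n1) ^ n2) q.p)))
      (Nat.mul (2 ^ k) (gsum (2 * 2 ^ k) (n1 * n2 * n3))))
      (Nat.add (Nat.mul (pos3 (2 * 2 ^ k) ((2 * 2 ^ k) ^ n1) (((2 * 2 ^ k) ^ n1) ^ n2) p.p)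
        (neg3 (2 * 2 ^ k) ((2 * 2 ^ k) ^ n1) (((2 * 2 ^ k) ^ n1) ^ n2) q.p))
      (Nat.mul (neg3 (2 * 2 ^ k) ((2 * 2 ^ k) ^ n1) (((2 * 2 ^ k) ^ n1) ^ n2) p.p)
        (pos3 (2 * 2 ^ k) ((2 * 2 ^ k) ^ n1) (((2 * 2 ^ k) ^ n1) ^ n2) q.p)))
      = b3 (2 * 2 ^ k) (2 ^ k) n1 n2 n3 (mul3 p.p q.p) := by
    generalize pos3 (2 * 2 ^ k) ((2 * 2 ^ k) ^ n1) (((2 * 2 ^ k) ^ n1) ^ n2) p.p = a1 at hM ⊢
    generalize neg3 (2 * 2 ^ k) ((2 * 2 ^ k) ^ n1) (((2 * 2 ^ k) ^ n1) ^ n2) p.p = a2 at hM ⊢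
    generalize pos3 (2 * 2 ^ k) ((2 * 2 ^ k) ^ n1) (((2 * 2 ^ k) ^ n1) ^ n2) q.p = a3 at hM ⊢
    generalize neg3 (2 * 2 ^ k) ((2 * 2 ^ k) ^ n1) (((2 * 2 ^ k) ^ n1) ^ n2) q.p = a4 at hM ⊢
    generalize b3 (2 * 2 ^ k) (2 ^ k) n1 n2 n3 (mul3 p.p q.p) = N at hM ⊢
    show (a1 * a3 + a2 * a4 + 2 ^ k * gsum (2 * 2 ^ k) (n1 * n2 * n3)) - (a1 * a4 + a2 * a3) = N
    have h6 : N + (a1 * a4 + a2 * a3)
        = a1 * a3 + a2 * a4 + 2 ^ k * gsum (2 * 2 ^ k) (n1 * n2 * n3) := by
      have : (N : ℤ) + (a1 * a4 + a2 * a3)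
        = a1 * a3 + a2 * a4 + (2 ^ k : ℕ) * gsum (2 * 2 ^ k) (n1 * n2 * n3) := by
        rw [hM]; push_cast; ring
      exact_mod_cast this
    omega
  have h4' : chkT (2 * 2 ^ k) (2 ^ k) b.nu n1 ((2 * 2 ^ k) ^ n1) n2 (((2 * 2 ^ k) ^ n1) ^ n2) T n3
      (b3 (2 * 2 ^ k) (2 ^ k) n1 n2 n3 (mul3 p.p q.p)) r.p r.e
      (addT (smulT (supPE b T q) p.e) (smulT (horNT b p.n) q.e)) (outsF b p.n q.n T 0) = true := by
    rw [← hM']
    exact h4
  have h6 := chkT_spec rfl hh h T n3 (mul3 p.p q.p) r.p r.e _ _ hsm h4'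
    (by simpa using outOK_outsF h hf.2 hg.2 T 0)
  rw [ev3_mul, evT_add, evT_smul, evT_smul] at h6
  have h7 := hg.abs_le h
  have h8 := hf.2.le h (X := X) (Y := Y)
  have e1 : f * g - ev3 u X Y r.p
      = (ev3 u X Y p.p * ev3 u X Y q.p - ev3 u X Y r.p)
        + (g * (f - ev3 u X Y p.p) + ev3 u X Y p.p * (g - ev3 u X Y q.p)) := by ring
  rw [e1]
  have h9 : |g * (f - ev3 u X Y p.p)| ≤ supPE b T q * evT u X Y T p.e := by
    rw [abs_mul]
    exact mul_le_mul h7 hf.1 (abs_nonneg _) (by positivity)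
  have h10 : |ev3 u X Y p.p * (g - ev3 u X Y q.p)| ≤ horNT b p.n * evT u X Y T q.e := by
    rw [abs_mul]
    exact mul_le_mul h8 hg.1 (abs_nonneg _) (by positivity)
  have h11 := abs_add_le (ev3 u X Y p.p * ev3 u X Y q.p - ev3 u X Y r.p)
    (g * (f - ev3 u X Y p.p) + ev3 u X Y p.p * (g - ev3 u X Y q.p))
  have h12 := abs_add_le (g * (f - ev3 u X Y p.p)) (ev3 u X Y p.p * (g - ev3 u X Y q.p))
  linarith

/-! ### lower bounds -/

def c01 : P1 → ℤ
  | [] => 0
  | c :: _ => c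
def c02 : P2 → ℤ
  | [] => 0
  | c :: _ => c01 c
def c03 : P3 → ℤ
  | [] => 0
  | c :: _ => c02 c

theorem c01_le {n : ℕ} (hn : 0 < n) {v : ℝ} (v0 : 0 ≤ v) (v1 : v ≤ 1 / n) (l : P1) :
    |ev1 v l - c01 l| ≤ hor1 n l - (c01 l).natAbs := by
  cases l with
  | nil => simp [ev1, evL, c01, hor1]
  | cons c l =>
    simp only [c01, hor1]
    have h1 := hor1_le hn v0 v1 l
    have e1 : ev1 v (c :: l) - c = v * ev1 v l := by simp only [ev1, evL]; ring
    rw [e1, abs_mul, abs_of_nonneg v0]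
    push_cast
    have h2 : v * |ev1 v l| ≤ cdiv (hor1 n l) n := by
      calc v * |ev1 v l| ≤ 1 / n * hor1 n l := by
            apply mul_le_mul v1 h1 (abs_nonneg _) (by positivity)
        _ = hor1 n l / n := by ring
        _ ≤ _ := cdiv_le hn
    linarith

theorem c02_le {b : Box} {u X Y : ℝ} (h : InBox b u X Y) (l : P2) :
    |ev2 u X l - c02 l| ≤ hor2 b l - (c02 l).natAbs := by
  cases l with
  | nil => simp [ev2, evL, c02, hor2]
  | cons c l =>
    simp only [c02, hor2]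
    have h1 := hor2_le h l
    have h0 := c01_le h.nu h.u0 h.u1 c
    have e1 : ev2 u X (c :: l) - c01 c = (ev1 u c - c01 c) + X * ev2 u X l := by
      simp only [ev2, evL]; ring
    rw [e1]
    push_cast
    have h2 : |X * ev2 u X l| ≤ cdiv (hor2 b l) b.nX := by
      rw [abs_mul, abs_of_nonneg h.X0]
      calc X * |ev2 u X l| ≤ 1 / b.nX * hor2 b l := by
            apply mul_le_mul h.X1 h1 (abs_nonneg _) (by positivity)
        _ = hor2 b l / b.nX := by ring
        _ ≤ _ := cdiv_le h.nX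
    have h3 := abs_add_le (ev1 u c - c01 c) (X * ev2 u X l)
    linarith

theorem c03_le {b : Box} {u X Y : ℝ} (h : InBox b u X Y) (l : P3) :
    |ev3 u X Y l - c03 l| ≤ hor3 b l - (c03 l).natAbs := by
  cases l with
  | nil => simp [ev3, evL, c03, hor3]
  | cons c l =>
    simp only [c03, hor3]
    have h1 := hor3_le h l
    have h0 := c02_le h c
    have e1 : ev3 u X Y (c :: l) - c02 c = (ev2 u X c - c02 c) + Y * ev3 u X Y l := by
      simp only [ev3, evL]; ring
    rw [e1]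
    push_cast
    have h2 : |Y * ev3 u X Y l| ≤ cdiv (hor3 b l) b.nY := by
      rw [abs_mul, abs_of_nonneg h.Y0]
      calc Y * |ev3 u X Y l| ≤ 1 / b.nY * hor3 b l := by
            apply mul_le_mul h.Y1 h1 (abs_nonneg _) (by positivity)
        _ = hor3 b l / b.nY := by ring
        _ ≤ _ := cdiv_le h.nY
    have h3 := abs_add_le (ev2 u X c - c02 c) (Y * ev3 u X Y l)
    linarith

/-- lower bound of an approximated function on the box -/
def lowPE (b : Box) (T : Tab) (f : PE) : ℤ :=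
  c03 f.p + (c03 f.p).natAbs - hor3 b f.p - supT b T f.e

theorem App.low {b : Box} {T : Tab} {u X Y f : ℝ} (h : InBox b u X Y) {p : PE}
    (hf : App T u X Y f p) : (lowPE b T p : ℝ) ≤ f := by
  unfold lowPE
  have h1 := (_root_.abs_le.1 (c03_le h p.p)).1
  have h2 := supT_le h T p.e
  have h3 := (_root_.abs_le.1 hf.1).1
  have h4 : (((c03 p.p).natAbs : ℤ) : ℝ) = ((c03 p.p).natAbs : ℝ) := Int.cast_natCast _
  rw [Int.cast_sub, Int.cast_sub, Int.cast_add, h4, Int.cast_natCast, Int.cast_natCast]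
  linarith

/-- an exact polynomial -/
def exPE (b : Box) (p : P3) (n : Tab) : Bool := chkN b.nu p n

theorem app_exact {b : Box} (T : Tab) {u X Y : ℝ} (h : InBox b u X Y) {p : P3} {n : Tab}
    (hn : chkN b.nu p n = true) : App T u X Y (ev3 u X Y p) ⟨p, [], n⟩ := by
  refine ⟨?_, chkN_spec h hn⟩
  simp only [sub_self, abs_zero]
  cases T <;> simp [evT]

/-- check for the result of a root rule -/
def chkRoot (n : ℕ) (r : PE) (E : Tab) : Bool := isZ3 r.p && leT (divT n r.e) E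

theorem App.root' {b : Box} {T : Tab} {u X Y f φ : ℝ} (h : InBox b u X Y) {q : P3} {r : PE}
    {E N : Tab} {n : ℕ} (hn : 0 < n) (hφ : App T u X Y φ r) (hr : chkRoot n r E = true)
    (hN : chkN b.nu q N = true)
    (hle : n * |f - ev3 u X Y q| ≤ |φ|) : App T u X Y f ⟨q, E, N⟩ := by
  unfold chkRoot at hr
  rw [Bool.and_eq_true] at hr
  refine ⟨?_, chkN_spec h hN⟩
  have h1 := hφ.1
  rw [isZ3_ev hr.1, sub_zero] at h1
  have h2 : |f - ev3 u X Y q| ≤ evT u X Y T r.e / n := by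
    rw [le_div_iff₀ (by exact_mod_cast hn)]
    linarith
  exact h2.trans ((evT_div h.u0 h.X0 h.Y0 hn T r.e).trans (leT_spec h.u0 h.X0 h.Y0 T _ _ hr.2))

/-- square root: `m f ^ 2` is known; `S` is the square of the candidate -/
theorem App.sqrt {b : Box} {T : Tab} {u X Y f : ℝ} (h : InBox b u X Y) {G S : PE} {q : P3}
    {E N : Tab} {m n k : ℕ} (hm : 0 < m) (f0 : 0 ≤ f) (hG : App T u X Y (m * f ^ 2) G)
    (hN : chkN b.nu q N = true)
    (hS : chkMul b T k ⟨q, [], N⟩ ⟨q, [], N⟩ S = true)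
    (hn : 0 < n) (hnl : (n : ℤ) ≤ lowPE b T ⟨q, [], N⟩)
    (hr : chkRoot (m * n) (addPE G (smulPE (-m) S)) E = true) :
    App T u X Y f ⟨q, E, N⟩ := by
  have h1 := app_exact T h (u := u) (X := X) (Y := Y) hN
  have h2 := hG.add ((h1.mul h h1 hS).smul (-(m : ℤ)))
  refine App.root' h (Nat.mul_pos hm hn) h2 hr hN ?_
  have h3 : (n : ℝ) ≤ ev3 u X Y q := le_trans (by exact_mod_cast hnl) (h1.low h)
  have hn' : (0 : ℝ) < n := by exact_mod_cast hn
  have e1 : (m : ℝ) * f ^ 2 + ((-(m : ℤ) : ℤ) : ℝ) * (ev3 u X Y q * ev3 u X Y q)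
      = m * ((f - ev3 u X Y q) * (f + ev3 u X Y q)) := by push_cast; ring
  rw [e1, abs_mul, abs_mul, abs_of_nonneg (show (0 : ℝ) ≤ m by positivity),
    abs_of_nonneg (show 0 ≤ f + ev3 u X Y q by linarith)]
  push_cast
  have h4 : (n : ℝ) ≤ f + ev3 u X Y q := by linarith
  have h5 := abs_nonneg (f - ev3 u X Y q)
  nlinarith [mul_le_mul_of_nonneg_left h4 h5, (by positivity : (0 : ℝ) < m)]

/-- quotient: `g f` is known; `S` is `g` times the candidate -/
theorem App.quot {b : Box} {T : Tab} {u X Y f g : ℝ} (h : InBox b u X Y) {G D S : PE} {q : P3}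
    {E N : Tab} {n k : ℕ} (hD : App T u X Y g D) (hG : App T u X Y (g * f) G)
    (hN : chkN b.nu q N = true) (hS : chkMul b T k D ⟨q, [], N⟩ S = true)
    (hn : 0 < n) (hnl : (n : ℤ) ≤ lowPE b T D)
    (hr : chkRoot n (addPE G (smulPE (-1) S)) E = true) :
    App T u X Y f ⟨q, E, N⟩ := by
  have h1 := app_exact T h (u := u) (X := X) (Y := Y) hN
  have h2 := hG.add ((hD.mul h h1 hS).smul (-1))
  refine App.root' h hn h2 hr hN ?_
  have h3 : (n : ℝ) ≤ g := le_trans (by exact_mod_cast hnl) (hD.low h)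
  have hn' : (0 : ℝ) < n := by exact_mod_cast hn
  have e1 : g * f + ((-1 : ℤ) : ℝ) * (g * ev3 u X Y q) = g * (f - ev3 u X Y q) := by
    push_cast; ring
  rw [e1, abs_mul, abs_of_nonneg (show 0 ≤ g by linarith)]
  exact mul_le_mul_of_nonneg_right h3 (abs_nonneg _)

/-- the implicit function `E` : with `κ` a scaling factor, `f = κ E`,
`κ ^ 4 (E ^ 3 (2 + w E) N1 - (1 + 2 w E) N2) = 0`. -/
theorem App.implE {b : Box} {T : Tab} {u X Y f w N1 N2 : ℝ} (h : InBox b u X Y)
    {r P1' : PE} {q : P3} {E N : Tab} {n κ S2 l1 lq : ℕ} {D : ℕ} (hκ : 0 < κ)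
    (f0 : 0 < f) (w0 : 0 ≤ w) (hD : 0 < D) (w1 : w ≤ 1 / D)
    (h0 : f ^ 3 * (2 * κ + w * f) * N1 - (κ ^ 4 + 2 * κ ^ 3 * w * f) * N2 = 0)
    (hN1 : App T u X Y N1 P1') (hl1 : (l1 : ℤ) ≤ lowPE b T P1') (hN2 : N2 ≤ S2)
    (hN : chkN b.nu q N = true) (hlq : (lq : ℤ) ≤ lowPE b T ⟨q, [], N⟩)
    (hr0 : App T u X Y ((ev3 u X Y q) ^ 3 * (2 * κ + w * ev3 u X Y q) * N1
      - (κ ^ 4 + 2 * κ ^ 3 * w * ev3 u X Y q) * N2) r)
    (hn : 0 < n) (hnn : n + cdiv (2 * κ ^ 3 * S2) D ≤ 2 * κ * l1 * lq ^ 2)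
    (hr : chkRoot n r E = true) : App T u X Y f ⟨q, E, N⟩ := by
  refine App.root' h hn hr0 hr hN ?_
  have h1 := app_exact T h (u := u) (X := X) (Y := Y) hN
  have hq : (lq : ℝ) ≤ ev3 u X Y q := le_trans (by exact_mod_cast hlq) (h1.low h)
  have hN1' : (l1 : ℝ) ≤ N1 := le_trans (by exact_mod_cast hl1) (hN1.low h)
  generalize ev3 u X Y q = t at *
  have hκ' : (0 : ℝ) < κ := by exact_mod_cast hκ
  have hlq0 : (0 : ℝ) ≤ lq := by positivity
  have hl10 : (0 : ℝ) ≤ l1 := by positivity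
  have ht0 : 0 ≤ t := hlq0.trans hq
  have hN10 : 0 ≤ N1 := hl10.trans hN1'
  have hS2 : (0 : ℝ) ≤ S2 := by positivity
  have hDr : (0 : ℝ) < D := by exact_mod_cast hD
  have e1 : t ^ 3 * (2 * κ + w * t) * N1 - (κ ^ 4 + 2 * κ ^ 3 * w * t) * N2
      = (t - f) * (N1 * (2 * κ * (t ^ 2 + t * f + f ^ 2)
        + w * (t ^ 3 + t ^ 2 * f + t * f ^ 2 + f ^ 3)) - 2 * κ ^ 3 * w * N2) := by
    linear_combination h0
  rw [e1, abs_mul, abs_sub_comm t f, mul_comm (n : ℝ)]
  apply mul_le_mul_of_nonneg_left _ (abs_nonneg _)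
  refine le_trans ?_ (le_abs_self _)
  have h2 : (2 * κ ^ 3 * w * N2 : ℝ) ≤ cdiv (2 * κ ^ 3 * S2) D := by
    have h3 : w * N2 ≤ 1 / D * S2 := by
      rcases le_or_gt 0 N2 with hN | hN
      · exact mul_le_mul w1 hN2 hN (by positivity)
      · have : w * N2 ≤ 0 := mul_nonpos_of_nonneg_of_nonpos w0 hN.le
        exact this.trans (by positivity)
    have h4 := cdiv_le (a := 2 * κ ^ 3 * S2) hD
    push_cast at h4
    calc (2 * κ ^ 3 * w * N2 : ℝ) = 2 * κ ^ 3 * (w * N2) := by ring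
      _ ≤ 2 * κ ^ 3 * (1 / D * S2) := by gcongr
      _ = 2 * κ ^ 3 * S2 / D := by ring
      _ ≤ _ := h4
  have h5 : (n : ℝ) + cdiv (2 * κ ^ 3 * S2) D ≤ 2 * κ * l1 * lq ^ 2 := by exact_mod_cast hnn
  have h6 : 2 * (κ : ℝ) * l1 * lq ^ 2 ≤ N1 * (2 * κ * (t ^ 2 + t * f + f ^ 2)
        + w * (t ^ 3 + t ^ 2 * f + t * f ^ 2 + f ^ 3)) := by
    have h7 : (lq : ℝ) ^ 2 ≤ t ^ 2 := pow_le_pow_left₀ hlq0 hq 2
    have h8 : 0 ≤ t * f + f ^ 2 := by positivity
    have h9 : 0 ≤ w * (t ^ 3 + t ^ 2 * f + t * f ^ 2 + f ^ 3) := by positivity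
    calc 2 * (κ : ℝ) * l1 * lq ^ 2 = l1 * (2 * κ * lq ^ 2) := by ring
      _ ≤ N1 * (2 * κ * (t ^ 2 + t * f + f ^ 2)
        + w * (t ^ 3 + t ^ 2 * f + t * f ^ 2 + f ^ 3)) := by
          apply mul_le_mul hN1' _ (by positivity) hN10
          have : 2 * κ * (lq : ℝ) ^ 2 ≤ 2 * κ * (t ^ 2 + t * f + f ^ 2) := by
            apply mul_le_mul_of_nonneg_left _ (by positivity)
            linarith
          linarith
  linarith

/-- the implicit function `H` : `f = κ H` with
`f (X' f + 3 κ) ^ 2 M = R2 (κ ^ 3 Q0 - 3 κ ^ 2 X' f w)`. -/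
theorem App.implH {b : Box} {T : Tab} {u X Y f w X' M R2 Q0 : ℝ} (h : InBox b u X Y)
    {r PM : PE} {q : P3} {E N : Tab} {n κ lM lq : ℕ} (hκ : 0 < κ)
    (f0 : 0 < f) (w0 : 0 ≤ w) (X0 : 0 ≤ X') (R0 : 0 ≤ R2)
    (h0 : f * (X' * f + 3 * κ) ^ 2 * M - R2 * (κ ^ 3 * Q0 - 3 * κ ^ 2 * X' * f * w) = 0)
    (hM : App T u X Y M PM) (hlM : (lM : ℤ) ≤ lowPE b T PM)
    (hN : chkN b.nu q N = true) (hlq : (lq : ℤ) ≤ lowPE b T ⟨q, [], N⟩)
    (hr0 : App T u X Y (ev3 u X Y q * (X' * ev3 u X Y q + 3 * κ) ^ 2 * M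
      - R2 * (κ ^ 3 * Q0 - 3 * κ ^ 2 * X' * ev3 u X Y q * w)) r)
    (hn : 0 < n) (hnn : n ≤ 9 * κ ^ 2 * lM)
    (hr : chkRoot n r E = true) : App T u X Y f ⟨q, E, N⟩ := by
  refine App.root' h hn hr0 hr hN ?_
  have h1 := app_exact T h (u := u) (X := X) (Y := Y) hN
  have hq : (lq : ℝ) ≤ ev3 u X Y q := le_trans (by exact_mod_cast hlq) (h1.low h)
  have hM' : (lM : ℝ) ≤ M := le_trans (by exact_mod_cast hlM) (hM.low h)
  generalize ev3 u X Y q = t at *
  have hκ' : (0 : ℝ) < κ := by exact_mod_cast hκ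
  have ht0 : 0 ≤ t := le_trans (by positivity) hq
  have hM0 : 0 ≤ M := le_trans (by positivity) hM'
  have e1 : t * (X' * t + 3 * κ) ^ 2 * M - R2 * (κ ^ 3 * Q0 - 3 * κ ^ 2 * X' * t * w)
      = (t - f) * (M * (9 * κ ^ 2 + 6 * κ * X' * (t + f) + X' ^ 2 * (t ^ 2 + t * f + f ^ 2))
        + 3 * κ ^ 2 * X' * w * R2) := by
    linear_combination h0
  rw [e1, abs_mul, abs_sub_comm t f, mul_comm (n : ℝ)]
  apply mul_le_mul_of_nonneg_left _ (abs_nonneg _)
  refine le_trans ?_ (le_abs_self _)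
  have h5 : (n : ℝ) ≤ 9 * κ ^ 2 * lM := by exact_mod_cast hnn
  have h6 : 9 * (κ : ℝ) ^ 2 * lM ≤ M * (9 * κ ^ 2 + 6 * κ * X' * (t + f)
      + X' ^ 2 * (t ^ 2 + t * f + f ^ 2)) := by
    have h7 : 0 ≤ 6 * κ * X' * (t + f) + X' ^ 2 * (t ^ 2 + t * f + f ^ 2) := by positivity
    calc 9 * (κ : ℝ) ^ 2 * lM = lM * (9 * κ ^ 2) := by ring
      _ ≤ M * (9 * κ ^ 2 + (6 * κ * X' * (t + f) + X' ^ 2 * (t ^ 2 + t * f + f ^ 2))) := by
          apply mul_le_mul hM' _ (by positivity) hM0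
          linarith
      _ = _ := by ring
  have h7 : 0 ≤ 3 * κ ^ 2 * X' * w * R2 := by positivity
  linarith

end Pool.Agent.Work.MP_71a505_fin
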