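import Pool.Agent.Work.MP_71a505_fin.Chk

/-!
Numbers written as `m * 2 ^ k`.
-/

namespace Pool.Agent.Work.MP_71a505_fin

def sc (k m : ℕ) : ℤ := Int.ofNat (Nat.shiftLeft m k)
def sn (k m : ℕ) : ℤ := Int.negSucc (Nat.sub (Nat.shiftLeft m k) 1)
def sq (k m : ℕ) : ℕ := Nat.shiftLeft m k

end Pool.Agent.Work.MP_71a505_fin
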