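import Pool.Agent.Work.MP_71a505_up.FinalC

/-!
The structure attached to an exceptional triple.
-/

namespace Pool.Agent.Work.MP_71a505_fin

open Pool.Agent.Work.MP_71a505_nt Pool.Agent.Work.MP_71a505_up

theorem str_of {a b c r s t x l m : ℤ} (h : Sq3 a b c r s t) (ha : 0 < a) (hab : a < b)
    (hbc : b < c) (hD : Data a b c x l m) :
    ∃ W e h' α β γ δ d g x' y z xb yb xc : ℝ,
      RD a b c r s t W e h' α β γ δ ∧ II a b c r s t W e α β γ δ ∧
      RX a b c r s t x' d ∧ RQ a b c d g r s t x' y z xb yb xc := by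
  have hb : 0 < b := ha.trans hab
  have hB := thmB h ha hab hbc hD
  have hd1 := dm_pos_of_data h ha hab hbc hD
  have hX := rx_of h ha hab hbc hd1
  obtain ⟨W, e, g, α, β, γ, δ, R, I⟩ := base h ha hab hbc hD
  have hz1 := sz1 R
  have hE := E_bound hz1 R I hX (fun q hq hq2 h1 h2 => phiE R.he h1 R.hh h2 hq hq2)
  have ha1R : (1 : ℝ) ≤ a := by exact_mod_cast (show 1 ≤ a from ha)
  have hbR : (0 : ℝ) < b := by exact_mod_cast hb
  have hBR : 100000 * (c : ℝ) ^ 3 < (a : ℝ) ^ 2 * (b : ℝ) ^ 7 := by exact_mod_cast hB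
  rcases classify h ha hab hbc hD with hfar | ⟨hx, hb6⟩ | ⟨hdb, hg⟩
  · exfalso
    exact case_far ha1R hbR hBR hE (by exact_mod_cast hfar)
  · exfalso
    have hxR : (((r * s - a * t : ℤ) : ℝ) - r) ^ 2 = (a : ℝ) ^ 2 := by exact_mod_cast hx
    have hs1 : (1 : ℝ) < s := by
      have h2 := h.2.2.2.2.2.2.2.1
      have h3 := h.2.2.2.2.1
      have : 1 < s := by
        by_contra hh
        push Not at hh
        have h4 : s = 1 := by linarith
        rw [h4] at h2
        have : 0 < a * c := mul_pos ha (hb.trans hbc)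
        linarith
      exact_mod_cast this
    have hs := s_eq hX R.r2 hs1 hxR
    have hG := G1_real hz1 R hX.x0 hxR hs (by exact_mod_cast hb6)
    exact G1_excl R I hX hxR hG
  · obtain ⟨Q, hgb⟩ := rq_of h ha hab hbc hd1 hdb rfl rfl hg
    exact ⟨W, e, g, α, β, γ, δ, _, _, _, _, _, _, _, _, R, I, hX, Q⟩

end Pool.Agent.Work.MP_71a505_fin
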