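import Pool.Agent.Work.MP_71a505_fin.Half
import Pool.Agent.Work.MP_71a505_fin.Z1
import Pool.Agent.Work.MP_71a505_fin.CZ1_0_0
import Pool.Agent.Work.MP_71a505_fin.CZ1_0_1
import Pool.Agent.Work.MP_71a505_fin.CZ1_0_2
import Pool.Agent.Work.MP_71a505_fin.CZ1_0_3
import Pool.Agent.Work.MP_71a505_fin.CZ1_0_4
import Pool.Agent.Work.MP_71a505_fin.CZ1_0_5
import Pool.Agent.Work.MP_71a505_fin.CZ1_0_6
import Pool.Agent.Work.MP_71a505_fin.CZ1_0_7
import Pool.Agent.Work.MP_71a505_fin.CZ1_0_8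
import Pool.Agent.Work.MP_71a505_fin.CZ1_0_9
import Pool.Agent.Work.MP_71a505_fin.CZ1_0_10
import Pool.Agent.Work.MP_71a505_fin.CZ1_1_0
import Pool.Agent.Work.MP_71a505_fin.CZ1_1_1
import Pool.Agent.Work.MP_71a505_fin.CZ1_1_2
import Pool.Agent.Work.MP_71a505_fin.CZ1_1_3
import Pool.Agent.Work.MP_71a505_fin.CZ1_1_4
import Pool.Agent.Work.MP_71a505_fin.CZ1_1_5

set_option maxRecDepth 100000
set_option linter.all false

namespace Pool.Agent.Work.MP_71a505_fin.Z1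

def E0 : Tab := [[111571491622868547658827471347220422844022752160745926419752254410844499,14661014542221258309151534463066214127106063177580724577209289,14714180019804059828134824136478287505934240504769250,12110434444494236459547897238274633369997006,213999113843249351016630242623777,697958517541211377051659689729,73573768781289817766649422561752,68352836540105446479682647754280558,2768976977335479751514354702866810164,102122306791861825325325930002587465193,100739700307700016282040513250956842216815,11594978977468466101905550060714658753478063,10721414303137810028258058144619099045373441705,399671529454040133012057491421782008607429059151,11479937456821730897543798278419678539700839728544,11228617763114038269070322816955126849710702019846424,1088907364354283461162127909848179213704550679961376479,42834978963873244304396259763161749017319640561901513331],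
[982762612341418813620387693910766637835405190874112185050,189820089492576677824901342672583949252026026083,209112955122978265721693719456822608444,140875925993799145325910631822,8474716735580283920751871,796838505206426468018786166,730185277564354693489177805564,24477581067158968979935719340776,575786644859691420392812875966667,555957971880332003783972388837664643,43237487478237282190264950046960070384,40245518294065106198192792981160014436729,3683006137259103408136588968966785774620025],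
[6786178685421015936434436294791979008752357,16423808817826274274725789167944243,13267575446698852045354189,83598080355529858168779,45001917716053501959246,3133284780283603328093821,213943438814747128542641872],
[1191314351006944040103450351536,2111041823153144112660,191191851308376504207,308866404266072631068,22411210810471265759767],
[994523211489433790412366,629398061263069457498,31486366488278903511,2412545255488382145800],
[357310323005360863509648,1840773049763768322432,238347327100817337953],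
[1192319689455410928684786,128121775756177214547105,23075461433455004231210],
[84128996628361073856335407,615792496315402659768025,2689179678792259815391362],
[591734587332475363690422299,5167218557019592012811164,328125287996469796978753416],
[6099167263015421576682376838,32183573984446118311203351],
[20567304738594430592946240388,2949988330549328715858625135],
[1418989233598064797837159718137,348743507169443645548995741169],
[8672880632548240793757370633405,43901629963360180494144848133597],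
[86250218244045533568082569590114,5554478131173249674918261798319720],
[353530068087791157083020529296899]]
def E0h : Tab := [[602192137388513618638781544505547158259507525964733886631515530274347,79067428367333975802617335585711401854350779001129719357380,79421464073260971817220049650825755719285710409641,65387929890583706076593115466465683141683,1158327340721744848943658512774,3762758409812638430256046034,397017641586728054672426326122,368927890827502504760098416126951,14987409108075743739625108028593254,550319865917932436337562355439888617,543168954923201948244667728178179718148,62559513565739588712918619364684709855965,57850270906529862596867742259990601165238061,2165933215109031969181263247900372652955387207,61787459507252239516340581317462136736964337919,60451216007008826849696584747255563381501960657146,5876849635479548908347225284220891147774645489170143,234263071728627021763506588578743756549566420872550314],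
[5297314579274996869199683355550062472936840704550796246,1023852491201296156203049671845237979958872121,1128768499352080513356157672997836719,760399429603993119170950222,45656262853724525323808,4303614119824349265337435,3943153484882198823540853647,132599275066995861855961010443,3105467718916886152186770158592,2998794718873201059612987702710613,233999643052957837412517176556985573,217384011592228342010301124430721459221,19941276862140590334506327143982735846344],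
[36621134486006504871248288351023674557959,88584474941662755925984984643779,71491917868902983266471,451416870281478919374,242504530234200647060,16962690304963599199930,1158249047261805593659211],
[6453378442177320550086747524,11416181572338637174,1035322468485431678,1671106697515083628,121448279015808333739],
[5386547435472444191240,3390795761408203628,170200471957768846,13077602359255980896],
[1926135010884248538037,9961796179257655935,1290424005344892462],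
[6451846086075148958270,690274514287389175551,124898382921104185372],
[454797849672782344305306,3310995776585313059940,14557217874726439634276],
[3189043922444259314425838,27905908767890259865628,1776396540990892692470651],
[32847385169472865529617882,174862000196215733987236],
[111522469380464891945570757,16064595853806087729720325],
[7721121821727946805142192182,1899675345566089379384646281],
[46638420800308020846619290070,239088514480434784440251562022],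
[462895572679632672232081269424,30248727961850437479776190484604],
[1993522252550746213713064592003]]
theorem vmul {v χ ψ : ℝ} (hv : 0 < v) (hχ : 0 < χ) (hψ : 0 < ψ) {V W f g : ℝ} {p q r p' q' r' : ℤ}
    (h1 : V = f * mon v χ ψ p q r) (h2 : W = g * mon v χ ψ p' q' r') :
    V * W = (f * g) * mon v χ ψ (p + p') (q + q') (r + r') := by
  rw [h1, h2, ← mon_mul hv hχ hψ]; ring

theorem cl_mk {T : Tab} {u X Y v χ ψ V f : ℝ} {p q r : ℤ} {c : CL} (h : V = f * mon v χ ψ p q r)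
    (h1 : p = c.p) (h2 : q = c.qq) (h3 : r = (c.r : ℤ) - 1)
    (h4 : App T (u / 24) (X / 1296) (Y / 144) (c.σ * f) c.q) : ClOK T u X Y v χ ψ V c :=
  ⟨f, by rw [← h1, ← h2, ← h3]; exact h, h4⟩

theorem f2_append {α β : Type*} {R : α → β → Prop} {a b : List α} {c d : List β}
    (h : List.Forall₂ R a c) (h2 : List.Forall₂ R b d) :
    List.Forall₂ R (a ++ b) (c ++ d) := List.rel_append h h2

def cls_0 : List CL := [⟨q_c1, 1, 1, 0, 0, 1⟩,
  ⟨q_p2, 880, 16777216, 1, 1, 4⟩,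
  ⟨q_Ew_sX, 162347, 33554432, 3, 1, 2⟩,
  ⟨q_Ew_yz, 43226806, 8589934592, 2, 2, 5⟩,
  ⟨q_HEw_sX, 84408984, 77309411328, 1, 1, 2⟩,
  ⟨q_HEw_yz, 21422034196, 19791209299968, 0, 2, 5⟩,
  ⟨q_ab, 2010, 196608, 1, 1, 2⟩,
  ⟨q_ab_p2, 33711564698, 3298534883328, 2, 2, 5⟩,
  ⟨q_K, 13, 768, 1, 1, 2⟩,
  ⟨q_K_p2, 217272511, 12884901888, 2, 2, 5⟩,
  ⟨q_ag_p1, 126640048, 12884901888, 2, 2, 3⟩,
  ⟨q_ag_sZ, 498307, 50331648, 1, 1, 6⟩,
  ⟨q_ad_p1, 128014293, 12884901888, 2, 2, 3⟩,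
  ⟨q_ad_sZ, 503762, 50331648, 1, 1, 6⟩,
  ⟨q_bg_sY, 706742, 16777216, 2, 2, 3⟩,
  ⟨q_bg_m1, 175784938, 4294967296, 3, 1, 6⟩]
def cis_0 : List Ci := [⟨0, 0, 0⟩, ⟨0, 0, 7⟩, ⟨0, 2, 1⟩, ⟨0, 2, 6⟩, ⟨0, 4, 1⟩, ⟨0, 4, 6⟩, ⟨0, 5, 0⟩, ⟨0, 5, 7⟩, ⟨0, 6, 0⟩, ⟨0, 6, 7⟩, ⟨0, 7, 3⟩, ⟨0, 7, 4⟩, ⟨0, 8, 3⟩, ⟨0, 8, 4⟩, ⟨0, 9, 2⟩, ⟨0, 9, 5⟩]
theorem cls_ok_0 {a b c d g r s t x y z xb yb xc W e α β γ δ : ℝ} (P : Pt)
    (V : Vals a b c d g r s t x y z xb yb xc W e α β γ δ P.u P.v P.χ P.ψ P.sX P.sY P.sZ P.B P.C P.E P.wh P.al P.be P.ga P.de P.Kh)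
    (hb : In P) : List.Forall₂ (ClOK TT (P.v ^ 2) (P.χ ^ 2) (P.ψ ^ 2) P.v P.χ P.ψ)
    (cis_0.map (Env.cv ⟨a, d, g, x, y, z, W, e, α, β, γ, δ⟩)) cls_0 := by
  have hv := P.hc.v0
  have hχ := P.hc.χ0
  have hψ := P.hc.ψ0
  rw [P.hc.uv, P.hc.Xχ, P.hc.Yψ]
  have m0 : (1 : ℝ) = 1 * mon P.v P.χ P.ψ 0 0 0 := by rw [mon_zero]; ring
  have mx := V.vx
  have my := V.vy
  have mz := V.vz
  have mxy := vmul hv hχ hψ mx my
  have mxz := vmul hv hχ hψ mx mz
  have myz := vmul hv hχ hψ my mz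
  have mxyz := vmul hv hχ hψ mxy mz
  have vA' : α ^ 2 = (P.H * P.E * P.wh) * mon P.v P.χ P.ψ 0 1 1 := by rw [V.vA, P.hc.al2]
  have vB' : β ^ 2 = ((P.X * P.H + 2 * (P.u * P.E) + 4) * P.E * P.wh) * mon P.v P.χ P.ψ 2 1 1 := by rw [V.vB, P.hc.be2]
  have vC' : γ ^ 2 = ((P.X * P.H * (P.u * P.E) + 2 + 4 * (P.u * P.E)) * P.wh) * mon P.v P.χ P.ψ 2 1 3 := by rw [V.vC, P.hc.ga2]
  have vD' : δ ^ 2 = ((2 + 2 * (P.u * P.E) ^ 2 - 4 * (P.u * P.E) - 3 * (P.X * P.H * (P.u * P.E))) * P.wh) * mon P.v P.χ P.ψ 2 1 3 := by rw [V.vD, P.hc.de2]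
  refine List.Forall₂.cons (cl_mk (vmul hv hχ hψ (vmul hv hχ hψ m0 m0) m0) (by norm_num) (by norm_num) (by norm_num) ((a_c1 P hb).congr (by push_cast; ring))) ?_
  refine List.Forall₂.cons (cl_mk (vmul hv hχ hψ (vmul hv hχ hψ m0 m0) mxyz) (by norm_num) (by norm_num) (by norm_num) ((a_p2 P hb).congr (by push_cast; ring))) ?_
  refine List.Forall₂.cons (cl_mk (vmul hv hχ hψ (vmul hv hχ hψ m0 V.vU) mx) (by norm_num) (by norm_num) (by norm_num) ((a_Ew_sX P hb).congr (by push_cast; ring))) ?_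
  refine List.Forall₂.cons (cl_mk (vmul hv hχ hψ (vmul hv hχ hψ m0 V.vU) myz) (by norm_num) (by norm_num) (by norm_num) ((a_Ew_yz P hb).congr (by push_cast; ring))) ?_
  refine List.Forall₂.cons (cl_mk (vmul hv hχ hψ (vmul hv hχ hψ m0 vA') mx) (by norm_num) (by norm_num) (by norm_num) ((a_HEw_sX P hb).congr (by push_cast; ring))) ?_
  refine List.Forall₂.cons (cl_mk (vmul hv hχ hψ (vmul hv hχ hψ m0 vA') myz) (by norm_num) (by norm_num) (by norm_num) ((a_HEw_yz P hb).congr (by push_cast; ring))) ?_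
  refine List.Forall₂.cons (cl_mk (vmul hv hχ hψ (vmul hv hχ hψ m0 V.vαβ) m0) (by norm_num) (by norm_num) (by norm_num) ((a_ab P hb).congr (by push_cast; ring))) ?_
  refine List.Forall₂.cons (cl_mk (vmul hv hχ hψ (vmul hv hχ hψ m0 V.vαβ) mxyz) (by norm_num) (by norm_num) (by norm_num) ((a_ab_p2 P hb).congr (by push_cast; ring))) ?_
  refine List.Forall₂.cons (cl_mk (vmul hv hχ hψ (vmul hv hχ hψ m0 V.vK) m0) (by norm_num) (by norm_num) (by norm_num) ((a_K P hb).congr (by push_cast; ring))) ?_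
  refine List.Forall₂.cons (cl_mk (vmul hv hχ hψ (vmul hv hχ hψ m0 V.vK) mxyz) (by norm_num) (by norm_num) (by norm_num) ((a_K_p2 P hb).congr (by push_cast; ring))) ?_
  refine List.Forall₂.cons (cl_mk (vmul hv hχ hψ (vmul hv hχ hψ m0 V.vαγ) mxy) (by norm_num) (by norm_num) (by norm_num) ((a_ag_p1 P hb).congr (by push_cast; ring))) ?_
  refine List.Forall₂.cons (cl_mk (vmul hv hχ hψ (vmul hv hχ hψ m0 V.vαγ) mz) (by norm_num) (by norm_num) (by norm_num) ((a_ag_sZ P hb).congr (by push_cast; ring))) ?_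
  refine List.Forall₂.cons (cl_mk (vmul hv hχ hψ (vmul hv hχ hψ m0 V.vαδ) mxy) (by norm_num) (by norm_num) (by norm_num) ((a_ad_p1 P hb).congr (by push_cast; ring))) ?_
  refine List.Forall₂.cons (cl_mk (vmul hv hχ hψ (vmul hv hχ hψ m0 V.vαδ) mz) (by norm_num) (by norm_num) (by norm_num) ((a_ad_sZ P hb).congr (by push_cast; ring))) ?_
  refine List.Forall₂.cons (cl_mk (vmul hv hχ hψ (vmul hv hχ hψ m0 V.vβγ) my) (by norm_num) (by norm_num) (by norm_num) ((a_bg_sY P hb).congr (by push_cast; ring))) ?_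
  refine List.Forall₂.cons (cl_mk (vmul hv hχ hψ (vmul hv hχ hψ m0 V.vβγ) mxz) (by norm_num) (by norm_num) (by norm_num) ((a_bg_m1 P hb).congr (by push_cast; ring))) ?_
  exact List.Forall₂.nil
def cls_1 : List CL := [⟨q_bd_sY, 712349, 16777216, 2, 2, 3⟩,
  ⟨q_bd_m1, 180572533, 4294967296, 3, 1, 6⟩,
  ⟨q_gd_sX, 670324, 16777216, 3, 1, 4⟩,
  ⟨q_gd_yz, 170389764, 4294967296, 2, 2, 7⟩,
  ⟨q_T1w_sX, 3392513783, 154618822656, 3, 1, 2⟩,
  ⟨q_T1w_yz, 891205919951, 39582418599936, 2, 2, 5⟩,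
  ⟨q_T3w_sX, 3084872949, 154618822656, 3, 1, 4⟩,
  ⟨q_T3w_yz, 788627722943, 39582418599936, 2, 2, 7⟩,
  ⟨q_Ew__HEw, 254391160991, 39582418599936, 2, 2, 3⟩,
  ⟨q_Ew__HEw_p2, 4270466675772279651, 664082786653543858176, 3, 3, 6⟩,
  ⟨q_Ew__ab_sX, 355436134333, 6597069766656, 4, 2, 3⟩,
  ⟨q_Ew__K_sX, 2080935305, 25769803776, 4, 2, 3⟩,
  ⟨q_Ew__ag_sY, 344665214568, 6597069766656, 3, 3, 4⟩,
  ⟨q_Ew__ag_m1, 87554614691501, 1688849860263936, 4, 2, 7⟩,
  ⟨q_Ew__ad_m1, 88534683352918, 1688849860263936, 4, 2, 7⟩,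
  ⟨q_Ew__bg_sZ, 529429453043, 2199023255552, 4, 2, 7⟩]
def cis_1 : List Ci := [⟨0, 10, 2⟩, ⟨0, 10, 5⟩, ⟨0, 11, 1⟩, ⟨0, 11, 6⟩, ⟨0, 12, 1⟩, ⟨0, 12, 6⟩, ⟨0, 14, 1⟩, ⟨0, 14, 6⟩, ⟨2, 4, 0⟩, ⟨2, 4, 7⟩, ⟨2, 5, 1⟩, ⟨2, 6, 1⟩, ⟨2, 7, 2⟩, ⟨2, 7, 5⟩, ⟨2, 8, 5⟩, ⟨2, 9, 4⟩]
theorem cls_ok_1 {a b c d g r s t x y z xb yb xc W e α β γ δ : ℝ} (P : Pt)
    (V : Vals a b c d g r s t x y z xb yb xc W e α β γ δ P.u P.v P.χ P.ψ P.sX P.sY P.sZ P.B P.C P.E P.wh P.al P.be P.ga P.de P.Kh)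
    (hb : In P) : List.Forall₂ (ClOK TT (P.v ^ 2) (P.χ ^ 2) (P.ψ ^ 2) P.v P.χ P.ψ)
    (cis_1.map (Env.cv ⟨a, d, g, x, y, z, W, e, α, β, γ, δ⟩)) cls_1 := by
  have hv := P.hc.v0
  have hχ := P.hc.χ0
  have hψ := P.hc.ψ0
  rw [P.hc.uv, P.hc.Xχ, P.hc.Yψ]
  have m0 : (1 : ℝ) = 1 * mon P.v P.χ P.ψ 0 0 0 := by rw [mon_zero]; ring
  have mx := V.vx
  have my := V.vy
  have mz := V.vz
  have mxy := vmul hv hχ hψ mx my
  have mxz := vmul hv hχ hψ mx mz
  have myz := vmul hv hχ hψ my mz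
  have mxyz := vmul hv hχ hψ mxy mz
  have vA' : α ^ 2 = (P.H * P.E * P.wh) * mon P.v P.χ P.ψ 0 1 1 := by rw [V.vA, P.hc.al2]
  have vB' : β ^ 2 = ((P.X * P.H + 2 * (P.u * P.E) + 4) * P.E * P.wh) * mon P.v P.χ P.ψ 2 1 1 := by rw [V.vB, P.hc.be2]
  have vC' : γ ^ 2 = ((P.X * P.H * (P.u * P.E) + 2 + 4 * (P.u * P.E)) * P.wh) * mon P.v P.χ P.ψ 2 1 3 := by rw [V.vC, P.hc.ga2]
  have vD' : δ ^ 2 = ((2 + 2 * (P.u * P.E) ^ 2 - 4 * (P.u * P.E) - 3 * (P.X * P.H * (P.u * P.E))) * P.wh) * mon P.v P.χ P.ψ 2 1 3 := by rw [V.vD, P.hc.de2]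
  refine List.Forall₂.cons (cl_mk (vmul hv hχ hψ (vmul hv hχ hψ m0 V.vβδ) my) (by norm_num) (by norm_num) (by norm_num) ((a_bd_sY P hb).congr (by push_cast; ring))) ?_
  refine List.Forall₂.cons (cl_mk (vmul hv hχ hψ (vmul hv hχ hψ m0 V.vβδ) mxz) (by norm_num) (by norm_num) (by norm_num) ((a_bd_m1 P hb).congr (by push_cast; ring))) ?_
  refine List.Forall₂.cons (cl_mk (vmul hv hχ hψ (vmul hv hχ hψ m0 V.vγδ) mx) (by norm_num) (by norm_num) (by norm_num) ((a_gd_sX P hb).congr (by push_cast; ring))) ?_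
  refine List.Forall₂.cons (cl_mk (vmul hv hχ hψ (vmul hv hχ hψ m0 V.vγδ) myz) (by norm_num) (by norm_num) (by norm_num) ((a_gd_yz P hb).congr (by push_cast; ring))) ?_
  refine List.Forall₂.cons (cl_mk (vmul hv hχ hψ (vmul hv hχ hψ m0 vB') mx) (by norm_num) (by norm_num) (by norm_num) ((a_T1w_sX P hb).congr (by push_cast; ring))) ?_
  refine List.Forall₂.cons (cl_mk (vmul hv hχ hψ (vmul hv hχ hψ m0 vB') myz) (by norm_num) (by norm_num) (by norm_num) ((a_T1w_yz P hb).congr (by push_cast; ring))) ?_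
  refine List.Forall₂.cons (cl_mk (vmul hv hχ hψ (vmul hv hχ hψ m0 vD') mx) (by norm_num) (by norm_num) (by norm_num) ((a_T3w_sX P hb).congr (by push_cast; ring))) ?_
  refine List.Forall₂.cons (cl_mk (vmul hv hχ hψ (vmul hv hχ hψ m0 vD') myz) (by norm_num) (by norm_num) (by norm_num) ((a_T3w_yz P hb).congr (by push_cast; ring))) ?_
  refine List.Forall₂.cons (cl_mk (vmul hv hχ hψ (vmul hv hχ hψ V.vU vA') m0) (by norm_num) (by norm_num) (by norm_num) ((a_Ew__HEw P hb).congr (by push_cast; ring))) ?_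
  refine List.Forall₂.cons (cl_mk (vmul hv hχ hψ (vmul hv hχ hψ V.vU vA') mxyz) (by norm_num) (by norm_num) (by norm_num) ((a_Ew__HEw_p2 P hb).congr (by push_cast; ring))) ?_
  refine List.Forall₂.cons (cl_mk (vmul hv hχ hψ (vmul hv hχ hψ V.vU V.vαβ) mx) (by norm_num) (by norm_num) (by norm_num) ((a_Ew__ab_sX P hb).congr (by push_cast; ring))) ?_
  refine List.Forall₂.cons (cl_mk (vmul hv hχ hψ (vmul hv hχ hψ V.vU V.vK) mx) (by norm_num) (by norm_num) (by norm_num) ((a_Ew__K_sX P hb).congr (by push_cast; ring))) ?_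
  refine List.Forall₂.cons (cl_mk (vmul hv hχ hψ (vmul hv hχ hψ V.vU V.vαγ) my) (by norm_num) (by norm_num) (by norm_num) ((a_Ew__ag_sY P hb).congr (by push_cast; ring))) ?_
  refine List.Forall₂.cons (cl_mk (vmul hv hχ hψ (vmul hv hχ hψ V.vU V.vαγ) mxz) (by norm_num) (by norm_num) (by norm_num) ((a_Ew__ag_m1 P hb).congr (by push_cast; ring))) ?_
  refine List.Forall₂.cons (cl_mk (vmul hv hχ hψ (vmul hv hχ hψ V.vU V.vαδ) mxz) (by norm_num) (by norm_num) (by norm_num) ((a_Ew__ad_m1 P hb).congr (by push_cast; ring))) ?_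
  refine List.Forall₂.cons (cl_mk (vmul hv hχ hψ (vmul hv hχ hψ V.vU V.vβγ) mz) (by norm_num) (by norm_num) (by norm_num) ((a_Ew__bg_sZ P hb).congr (by push_cast; ring))) ?_
  exact List.Forall₂.nil
def cls_2 : List CL := [⟨q_Ew__gd, 2008103903, 8589934592, 4, 2, 5⟩,
  ⟨q_Ew__T1w, 12802056600095, 79164837199872, 4, 2, 3⟩,
  ⟨q_Ew__T3w, 12298226189889, 79164837199872, 4, 2, 5⟩,
  ⟨q_HEw__HEw, 89268923772804, 91197892454252544, 0, 2, 3⟩,
  ⟨q_HEw__HEw_p2, 1510086999213435277118, 1530046740449765049237504, 1, 3, 6⟩,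
  ⟨q_HEw__ab_sX, 114898720400341, 15199648742375424, 2, 2, 3⟩,
  ⟨q_HEw__ab_yz, 29156181741078907, 3891110078048108544, 1, 3, 6⟩,
  ⟨q_HEw__K_sX, 627731684387, 59373627899904, 2, 2, 3⟩,
  ⟨q_HEw__K_yz, 159393456802552, 15199648742375424, 1, 3, 6⟩,
  ⟨q_HEw__ag_sY, 111867827799915, 15199648742375424, 1, 3, 4⟩,
  ⟨q_HEw__ag_m1, 28433375550287964, 3891110078048108544, 2, 2, 7⟩,
  ⟨q_HEw__ad_sY, 113400279356717, 15199648742375424, 1, 3, 4⟩,
  ⟨q_HEw__ad_m1, 28882655247127495, 3891110078048108544, 2, 2, 7⟩,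
  ⟨q_HEw__bg_sZ, 181846946795813, 5066549580791808, 2, 2, 7⟩,
  ⟨q_HEw__bd_sZ, 183355510141638, 5066549580791808, 2, 2, 7⟩,
  ⟨q_HEw__gd, 688454289066, 19791209299968, 2, 2, 5⟩]
def cis_2 : List Ci := [⟨2, 11, 0⟩, ⟨2, 12, 0⟩, ⟨2, 14, 0⟩, ⟨4, 4, 0⟩, ⟨4, 4, 7⟩, ⟨4, 5, 1⟩, ⟨4, 5, 6⟩, ⟨4, 6, 1⟩, ⟨4, 6, 6⟩, ⟨4, 7, 2⟩, ⟨4, 7, 5⟩, ⟨4, 8, 2⟩, ⟨4, 8, 5⟩, ⟨4, 9, 4⟩, ⟨4, 10, 4⟩, ⟨4, 11, 0⟩]
theorem cls_ok_2 {a b c d g r s t x y z xb yb xc W e α β γ δ : ℝ} (P : Pt)
    (V : Vals a b c d g r s t x y z xb yb xc W e α β γ δ P.u P.v P.χ P.ψ P.sX P.sY P.sZ P.B P.C P.E P.wh P.al P.be P.ga P.de P.Kh)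
    (hb : In P) : List.Forall₂ (ClOK TT (P.v ^ 2) (P.χ ^ 2) (P.ψ ^ 2) P.v P.χ P.ψ)
    (cis_2.map (Env.cv ⟨a, d, g, x, y, z, W, e, α, β, γ, δ⟩)) cls_2 := by
  have hv := P.hc.v0
  have hχ := P.hc.χ0
  have hψ := P.hc.ψ0
  rw [P.hc.uv, P.hc.Xχ, P.hc.Yψ]
  have m0 : (1 : ℝ) = 1 * mon P.v P.χ P.ψ 0 0 0 := by rw [mon_zero]; ring
  have mx := V.vx
  have my := V.vy
  have mz := V.vz
  have mxy := vmul hv hχ hψ mx my
  have mxz := vmul hv hχ hψ mx mz
  have myz := vmul hv hχ hψ my mz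
  have mxyz := vmul hv hχ hψ mxy mz
  have vA' : α ^ 2 = (P.H * P.E * P.wh) * mon P.v P.χ P.ψ 0 1 1 := by rw [V.vA, P.hc.al2]
  have vB' : β ^ 2 = ((P.X * P.H + 2 * (P.u * P.E) + 4) * P.E * P.wh) * mon P.v P.χ P.ψ 2 1 1 := by rw [V.vB, P.hc.be2]
  have vC' : γ ^ 2 = ((P.X * P.H * (P.u * P.E) + 2 + 4 * (P.u * P.E)) * P.wh) * mon P.v P.χ P.ψ 2 1 3 := by rw [V.vC, P.hc.ga2]
  have vD' : δ ^ 2 = ((2 + 2 * (P.u * P.E) ^ 2 - 4 * (P.u * P.E) - 3 * (P.X * P.H * (P.u * P.E))) * P.wh) * mon P.v P.χ P.ψ 2 1 3 := by rw [V.vD, P.hc.de2]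
  refine List.Forall₂.cons (cl_mk (vmul hv hχ hψ (vmul hv hχ hψ V.vU V.vγδ) m0) (by norm_num) (by norm_num) (by norm_num) ((a_Ew__gd P hb).congr (by push_cast; ring))) ?_
  refine List.Forall₂.cons (cl_mk (vmul hv hχ hψ (vmul hv hχ hψ V.vU vB') m0) (by norm_num) (by norm_num) (by norm_num) ((a_Ew__T1w P hb).congr (by push_cast; ring))) ?_
  refine List.Forall₂.cons (cl_mk (vmul hv hχ hψ (vmul hv hχ hψ V.vU vD') m0) (by norm_num) (by norm_num) (by norm_num) ((a_Ew__T3w P hb).congr (by push_cast; ring))) ?_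
  refine List.Forall₂.cons (cl_mk (vmul hv hχ hψ (vmul hv hχ hψ vA' vA') m0) (by norm_num) (by norm_num) (by norm_num) ((a_HEw__HEw P hb).congr (by push_cast; ring))) ?_
  refine List.Forall₂.cons (cl_mk (vmul hv hχ hψ (vmul hv hχ hψ vA' vA') mxyz) (by norm_num) (by norm_num) (by norm_num) ((a_HEw__HEw_p2 P hb).congr (by push_cast; ring))) ?_
  refine List.Forall₂.cons (cl_mk (vmul hv hχ hψ (vmul hv hχ hψ vA' V.vαβ) mx) (by norm_num) (by norm_num) (by norm_num) ((a_HEw__ab_sX P hb).congr (by push_cast; ring))) ?_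
  refine List.Forall₂.cons (cl_mk (vmul hv hχ hψ (vmul hv hχ hψ vA' V.vαβ) myz) (by norm_num) (by norm_num) (by norm_num) ((a_HEw__ab_yz P hb).congr (by push_cast; ring))) ?_
  refine List.Forall₂.cons (cl_mk (vmul hv hχ hψ (vmul hv hχ hψ vA' V.vK) mx) (by norm_num) (by norm_num) (by norm_num) ((a_HEw__K_sX P hb).congr (by push_cast; ring))) ?_
  refine List.Forall₂.cons (cl_mk (vmul hv hχ hψ (vmul hv hχ hψ vA' V.vK) myz) (by norm_num) (by norm_num) (by norm_num) ((a_HEw__K_yz P hb).congr (by push_cast; ring))) ?_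
  refine List.Forall₂.cons (cl_mk (vmul hv hχ hψ (vmul hv hχ hψ vA' V.vαγ) my) (by norm_num) (by norm_num) (by norm_num) ((a_HEw__ag_sY P hb).congr (by push_cast; ring))) ?_
  refine List.Forall₂.cons (cl_mk (vmul hv hχ hψ (vmul hv hχ hψ vA' V.vαγ) mxz) (by norm_num) (by norm_num) (by norm_num) ((a_HEw__ag_m1 P hb).congr (by push_cast; ring))) ?_
  refine List.Forall₂.cons (cl_mk (vmul hv hχ hψ (vmul hv hχ hψ vA' V.vαδ) my) (by norm_num) (by norm_num) (by norm_num) ((a_HEw__ad_sY P hb).congr (by push_cast; ring))) ?_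
  refine List.Forall₂.cons (cl_mk (vmul hv hχ hψ (vmul hv hχ hψ vA' V.vαδ) mxz) (by norm_num) (by norm_num) (by norm_num) ((a_HEw__ad_m1 P hb).congr (by push_cast; ring))) ?_
  refine List.Forall₂.cons (cl_mk (vmul hv hχ hψ (vmul hv hχ hψ vA' V.vβγ) mz) (by norm_num) (by norm_num) (by norm_num) ((a_HEw__bg_sZ P hb).congr (by push_cast; ring))) ?_
  refine List.Forall₂.cons (cl_mk (vmul hv hχ hψ (vmul hv hχ hψ vA' V.vβδ) mz) (by norm_num) (by norm_num) (by norm_num) ((a_HEw__bd_sZ P hb).congr (by push_cast; ring))) ?_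
  refine List.Forall₂.cons (cl_mk (vmul hv hχ hψ (vmul hv hχ hψ vA' V.vγδ) m0) (by norm_num) (by norm_num) (by norm_num) ((a_HEw__gd P hb).congr (by push_cast; ring))) ?_
  exact List.Forall₂.nil
def cls_3 : List CL := [⟨q_HEw__T1w, 4908372709150207, 182395784908505088, 2, 2, 3⟩,
  ⟨q_HEw__T1w_p2, 82360959430983633456719, 3060093480899530098475008, 3, 3, 6⟩,
  ⟨q_HEw__T3w, 4785372550653680, 182395784908505088, 2, 2, 5⟩,
  ⟨q_ab__K, 10970656, 150994944, 2, 2, 3⟩,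
  ⟨q_ab__T1w_sX, 6762736597076533, 30399297484750848, 4, 2, 3⟩,
  ⟨q_K__ag_p1, 707136758652, 9895604649984, 3, 3, 4⟩,
  ⟨q_K__ag_sZ, 2783613719, 38654705664, 2, 2, 7⟩,
  ⟨q_K__ad_p1, 714384091949, 9895604649984, 3, 3, 4⟩,
  ⟨q_K__ad_sZ, 2812180007, 38654705664, 2, 2, 7⟩,
  ⟨q_K__bg_m1, 1251949416196, 3298534883328, 4, 2, 7⟩,
  ⟨q_K__bd_m1, 1260819722930, 3298534883328, 4, 2, 7⟩,
  ⟨q_K__gd_sX, 4871080561, 12884901888, 4, 2, 5⟩,
  ⟨q_K__T1w_sX, 39142755613373, 118747255799808, 4, 2, 3⟩,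
  ⟨q_K__T3w_sX, 38946831575696, 118747255799808, 4, 2, 5⟩,
  ⟨q_ag__T1w_sY, 6564914515277439, 30399297484750848, 3, 3, 4⟩,
  ⟨q_ag__T1w_m1, 1667504560898102716, 7782220156096217088, 4, 2, 7⟩]
def cis_3 : List Ci := [⟨4, 12, 0⟩, ⟨4, 12, 7⟩, ⟨4, 14, 0⟩, ⟨5, 6, 0⟩, ⟨5, 12, 1⟩, ⟨6, 7, 3⟩, ⟨6, 7, 4⟩, ⟨6, 8, 3⟩, ⟨6, 8, 4⟩, ⟨6, 9, 5⟩, ⟨6, 10, 5⟩, ⟨6, 11, 1⟩, ⟨6, 12, 1⟩, ⟨6, 14, 1⟩, ⟨7, 12, 2⟩, ⟨7, 12, 5⟩]
theorem cls_ok_3 {a b c d g r s t x y z xb yb xc W e α β γ δ : ℝ} (P : Pt)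
    (V : Vals a b c d g r s t x y z xb yb xc W e α β γ δ P.u P.v P.χ P.ψ P.sX P.sY P.sZ P.B P.C P.E P.wh P.al P.be P.ga P.de P.Kh)
    (hb : In P) : List.Forall₂ (ClOK TT (P.v ^ 2) (P.χ ^ 2) (P.ψ ^ 2) P.v P.χ P.ψ)
    (cis_3.map (Env.cv ⟨a, d, g, x, y, z, W, e, α, β, γ, δ⟩)) cls_3 := by
  have hv := P.hc.v0
  have hχ := P.hc.χ0
  have hψ := P.hc.ψ0
  rw [P.hc.uv, P.hc.Xχ, P.hc.Yψ]
  have m0 : (1 : ℝ) = 1 * mon P.v P.χ P.ψ 0 0 0 := by rw [mon_zero]; ring
  have mx := V.vx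
  have my := V.vy
  have mz := V.vz
  have mxy := vmul hv hχ hψ mx my
  have mxz := vmul hv hχ hψ mx mz
  have myz := vmul hv hχ hψ my mz
  have mxyz := vmul hv hχ hψ mxy mz
  have vA' : α ^ 2 = (P.H * P.E * P.wh) * mon P.v P.χ P.ψ 0 1 1 := by rw [V.vA, P.hc.al2]
  have vB' : β ^ 2 = ((P.X * P.H + 2 * (P.u * P.E) + 4) * P.E * P.wh) * mon P.v P.χ P.ψ 2 1 1 := by rw [V.vB, P.hc.be2]
  have vC' : γ ^ 2 = ((P.X * P.H * (P.u * P.E) + 2 + 4 * (P.u * P.E)) * P.wh) * mon P.v P.χ P.ψ 2 1 3 := by rw [V.vC, P.hc.ga2]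
  have vD' : δ ^ 2 = ((2 + 2 * (P.u * P.E) ^ 2 - 4 * (P.u * P.E) - 3 * (P.X * P.H * (P.u * P.E))) * P.wh) * mon P.v P.χ P.ψ 2 1 3 := by rw [V.vD, P.hc.de2]
  refine List.Forall₂.cons (cl_mk (vmul hv hχ hψ (vmul hv hχ hψ vA' vB') m0) (by norm_num) (by norm_num) (by norm_num) ((a_HEw__T1w P hb).congr (by push_cast; ring))) ?_
  refine List.Forall₂.cons (cl_mk (vmul hv hχ hψ (vmul hv hχ hψ vA' vB') mxyz) (by norm_num) (by norm_num) (by norm_num) ((a_HEw__T1w_p2 P hb).congr (by push_cast; ring))) ?_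
  refine List.Forall₂.cons (cl_mk (vmul hv hχ hψ (vmul hv hχ hψ vA' vD') m0) (by norm_num) (by norm_num) (by norm_num) ((a_HEw__T3w P hb).congr (by push_cast; ring))) ?_
  refine List.Forall₂.cons (cl_mk (vmul hv hχ hψ (vmul hv hχ hψ V.vαβ V.vK) m0) (by norm_num) (by norm_num) (by norm_num) ((a_ab__K P hb).congr (by push_cast; ring))) ?_
  refine List.Forall₂.cons (cl_mk (vmul hv hχ hψ (vmul hv hχ hψ V.vαβ vB') mx) (by norm_num) (by norm_num) (by norm_num) ((a_ab__T1w_sX P hb).congr (by push_cast; ring))) ?_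
  refine List.Forall₂.cons (cl_mk (vmul hv hχ hψ (vmul hv hχ hψ V.vK V.vαγ) mxy) (by norm_num) (by norm_num) (by norm_num) ((a_K__ag_p1 P hb).congr (by push_cast; ring))) ?_
  refine List.Forall₂.cons (cl_mk (vmul hv hχ hψ (vmul hv hχ hψ V.vK V.vαγ) mz) (by norm_num) (by norm_num) (by norm_num) ((a_K__ag_sZ P hb).congr (by push_cast; ring))) ?_
  refine List.Forall₂.cons (cl_mk (vmul hv hχ hψ (vmul hv hχ hψ V.vK V.vαδ) mxy) (by norm_num) (by norm_num) (by norm_num) ((a_K__ad_p1 P hb).congr (by push_cast; ring))) ?_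
  refine List.Forall₂.cons (cl_mk (vmul hv hχ hψ (vmul hv hχ hψ V.vK V.vαδ) mz) (by norm_num) (by norm_num) (by norm_num) ((a_K__ad_sZ P hb).congr (by push_cast; ring))) ?_
  refine List.Forall₂.cons (cl_mk (vmul hv hχ hψ (vmul hv hχ hψ V.vK V.vβγ) mxz) (by norm_num) (by norm_num) (by norm_num) ((a_K__bg_m1 P hb).congr (by push_cast; ring))) ?_
  refine List.Forall₂.cons (cl_mk (vmul hv hχ hψ (vmul hv hχ hψ V.vK V.vβδ) mxz) (by norm_num) (by norm_num) (by norm_num) ((a_K__bd_m1 P hb).congr (by push_cast; ring))) ?_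
  refine List.Forall₂.cons (cl_mk (vmul hv hχ hψ (vmul hv hχ hψ V.vK V.vγδ) mx) (by norm_num) (by norm_num) (by norm_num) ((a_K__gd_sX P hb).congr (by push_cast; ring))) ?_
  refine List.Forall₂.cons (cl_mk (vmul hv hχ hψ (vmul hv hχ hψ V.vK vB') mx) (by norm_num) (by norm_num) (by norm_num) ((a_K__T1w_sX P hb).congr (by push_cast; ring))) ?_
  refine List.Forall₂.cons (cl_mk (vmul hv hχ hψ (vmul hv hχ hψ V.vK vD') mx) (by norm_num) (by norm_num) (by norm_num) ((a_K__T3w_sX P hb).congr (by push_cast; ring))) ?_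
  refine List.Forall₂.cons (cl_mk (vmul hv hχ hψ (vmul hv hχ hψ V.vαγ vB') my) (by norm_num) (by norm_num) (by norm_num) ((a_ag__T1w_sY P hb).congr (by push_cast; ring))) ?_
  refine List.Forall₂.cons (cl_mk (vmul hv hχ hψ (vmul hv hχ hψ V.vαγ vB') mxz) (by norm_num) (by norm_num) (by norm_num) ((a_ag__T1w_m1 P hb).congr (by push_cast; ring))) ?_
  exact List.Forall₂.nil
def cls_4 : List CL := [⟨q_ad__T1w_m1, 1685210314868533565, 7782220156096217088, 4, 2, 7⟩,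
  ⟨q_bg__T1w_sZ, 10133099161583616, 10133099161583616, 4, 2, 7⟩,
  ⟨q_gd__T1w, 38661380608645, 39582418599936, 4, 2, 5⟩,
  ⟨q_T1w__T1w, 250482756547151807, 364791569817010176, 4, 2, 3⟩,
  ⟨q_T1w__T3w, 241868049662885064, 364791569817010176, 4, 2, 5⟩]
def cis_4 : List Ci := [⟨8, 12, 5⟩, ⟨9, 12, 4⟩, ⟨11, 12, 0⟩, ⟨12, 12, 0⟩, ⟨12, 14, 0⟩]
theorem cls_ok_4 {a b c d g r s t x y z xb yb xc W e α β γ δ : ℝ} (P : Pt)
    (V : Vals a b c d g r s t x y z xb yb xc W e α β γ δ P.u P.v P.χ P.ψ P.sX P.sY P.sZ P.B P.C P.E P.wh P.al P.be P.ga P.de P.Kh)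
    (hb : In P) : List.Forall₂ (ClOK TT (P.v ^ 2) (P.χ ^ 2) (P.ψ ^ 2) P.v P.χ P.ψ)
    (cis_4.map (Env.cv ⟨a, d, g, x, y, z, W, e, α, β, γ, δ⟩)) cls_4 := by
  have hv := P.hc.v0
  have hχ := P.hc.χ0
  have hψ := P.hc.ψ0
  rw [P.hc.uv, P.hc.Xχ, P.hc.Yψ]
  have m0 : (1 : ℝ) = 1 * mon P.v P.χ P.ψ 0 0 0 := by rw [mon_zero]; ring
  have mx := V.vx
  have my := V.vy
  have mz := V.vz
  have mxy := vmul hv hχ hψ mx my
  have mxz := vmul hv hχ hψ mx mz
  have myz := vmul hv hχ hψ my mz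
  have mxyz := vmul hv hχ hψ mxy mz
  have vA' : α ^ 2 = (P.H * P.E * P.wh) * mon P.v P.χ P.ψ 0 1 1 := by rw [V.vA, P.hc.al2]
  have vB' : β ^ 2 = ((P.X * P.H + 2 * (P.u * P.E) + 4) * P.E * P.wh) * mon P.v P.χ P.ψ 2 1 1 := by rw [V.vB, P.hc.be2]
  have vC' : γ ^ 2 = ((P.X * P.H * (P.u * P.E) + 2 + 4 * (P.u * P.E)) * P.wh) * mon P.v P.χ P.ψ 2 1 3 := by rw [V.vC, P.hc.ga2]
  have vD' : δ ^ 2 = ((2 + 2 * (P.u * P.E) ^ 2 - 4 * (P.u * P.E) - 3 * (P.X * P.H * (P.u * P.E))) * P.wh) * mon P.v P.χ P.ψ 2 1 3 := by rw [V.vD, P.hc.de2]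
  refine List.Forall₂.cons (cl_mk (vmul hv hχ hψ (vmul hv hχ hψ V.vαδ vB') mxz) (by norm_num) (by norm_num) (by norm_num) ((a_ad__T1w_m1 P hb).congr (by push_cast; ring))) ?_
  refine List.Forall₂.cons (cl_mk (vmul hv hχ hψ (vmul hv hχ hψ V.vβγ vB') mz) (by norm_num) (by norm_num) (by norm_num) ((a_bg__T1w_sZ P hb).congr (by push_cast; ring))) ?_
  refine List.Forall₂.cons (cl_mk (vmul hv hχ hψ (vmul hv hχ hψ V.vγδ vB') m0) (by norm_num) (by norm_num) (by norm_num) ((a_gd__T1w P hb).congr (by push_cast; ring))) ?_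
  refine List.Forall₂.cons (cl_mk (vmul hv hχ hψ (vmul hv hχ hψ vB' vB') m0) (by norm_num) (by norm_num) (by norm_num) ((a_T1w__T1w P hb).congr (by push_cast; ring))) ?_
  refine List.Forall₂.cons (cl_mk (vmul hv hχ hψ (vmul hv hχ hψ vB' vD') m0) (by norm_num) (by norm_num) (by norm_num) ((a_T1w__T3w P hb).congr (by push_cast; ring))) ?_
  exact List.Forall₂.nil
def cls : List CL := cls_0 ++ cls_1 ++ cls_2 ++ cls_3 ++ cls_4
def cis : List Ci := cis_0 ++ cis_1 ++ cis_2 ++ cis_3 ++ cis_4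
theorem okE_cls : okE E0 cls = true := by decide +kernel
theorem cls_ok {a b c d g r s t x y z xb yb xc W e α β γ δ : ℝ} (P : Pt)
    (V : Vals a b c d g r s t x y z xb yb xc W e α β γ δ P.u P.v P.χ P.ψ P.sX P.sY P.sZ P.B P.C P.E P.wh P.al P.be P.ga P.de P.Kh)
    (hb : In P) : List.Forall₂ (ClOK TT (P.v ^ 2) (P.χ ^ 2) (P.ψ ^ 2) P.v P.χ P.ψ)
    (cis.map (Env.cv ⟨a, d, g, x, y, z, W, e, α, β, γ, δ⟩)) cls := by
  unfold cis cls
  simp only [List.map_append]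
  exact f2_append (f2_append (f2_append (f2_append (cls_ok_0 P V hb) (cls_ok_1 P V hb)) (cls_ok_2 P V hb)) (cls_ok_3 P V hb)) (cls_ok_4 P V hb)
def hcls : List CL := [⟨q_al_sX, 60460, 196608, 1, 0, 1⟩,
  ⟨q_al_sY, 60429, 196608, 0, 1, 1⟩,
  ⟨q_al_m1, 15358793, 50331648, 1, 0, 4⟩,
  ⟨q_al_yz, 15350536, 50331648, 0, 1, 4⟩,
  ⟨q_be, 255, 256, 1, 0, 1⟩,
  ⟨q_be_p1, 16777216, 16777216, 2, 1, 1⟩,
  ⟨q_be_sZ, 65536, 65536, 1, 0, 4⟩,
  ⟨q_be_p2, 4294967296, 4294967296, 2, 1, 4⟩,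
  ⟨q_ga, 229, 256, 1, 0, 2⟩,
  ⟨q_ga_p1, 15022004, 16777216, 2, 1, 2⟩]
def hcis : List Hi := [⟨0, 1⟩, ⟨0, 2⟩, ⟨0, 5⟩, ⟨0, 6⟩, ⟨1, 0⟩, ⟨1, 3⟩, ⟨1, 4⟩, ⟨1, 7⟩, ⟨2, 0⟩, ⟨2, 3⟩]
theorem okE_hcls : okE E0h hcls = true := by decide +kernel
theorem hcls_ok {a b c d g r s t x y z xb yb xc W e α β γ δ : ℝ} (P : Pt)
    (V : Vals a b c d g r s t x y z xb yb xc W e α β γ δ P.u P.v P.χ P.ψ P.sX P.sY P.sZ P.B P.C P.E P.wh P.al P.be P.ga P.de P.Kh)
    (hα : 0 < α) (hβ : 0 < β) (hγ : 0 < γ) (hδ : 0 < δ)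
    (hb : In P) : List.Forall₂ (ClOK TT (P.v ^ 2) (P.χ ^ 2) (P.ψ ^ 2) P.v P.χ P.ψ)
    ((hcis.map (Env.hv ⟨a, d, g, x, y, z, W, e, α, β, γ, δ⟩)).map (P.ω * ·)) hcls := by
  obtain ⟨hA, hB, hC, hD⟩ := half_vals P V hα hβ hγ hδ
  have hv := P.hc.v0
  have hχ := P.hc.χ0
  have hψ := P.hc.ψ0
  rw [P.hc.uv, P.hc.Xχ, P.hc.Yψ]
  have m0 : (1 : ℝ) = 1 * mon P.v P.χ P.ψ 0 0 0 := by rw [mon_zero]; ring
  have mx := V.vx
  have my := V.vy
  have mz := V.vz
  have mxy := vmul hv hχ hψ mx my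
  have mxz := vmul hv hχ hψ mx mz
  have myz := vmul hv hχ hψ my mz
  have mxyz := vmul hv hχ hψ mxy mz
  refine List.Forall₂.cons (cl_mk ((mul_assoc _ _ _).symm.trans (vmul hv hχ hψ hA mx)) (by norm_num) (by norm_num) (by norm_num) ((a_al_sX P hb).congr (by push_cast; ring))) ?_
  refine List.Forall₂.cons (cl_mk ((mul_assoc _ _ _).symm.trans (vmul hv hχ hψ hA my)) (by norm_num) (by norm_num) (by norm_num) ((a_al_sY P hb).congr (by push_cast; ring))) ?_
  refine List.Forall₂.cons (cl_mk ((mul_assoc _ _ _).symm.trans (vmul hv hχ hψ hA mxz)) (by norm_num) (by norm_num) (by norm_num) ((a_al_m1 P hb).congr (by push_cast; ring))) ?_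
  refine List.Forall₂.cons (cl_mk ((mul_assoc _ _ _).symm.trans (vmul hv hχ hψ hA myz)) (by norm_num) (by norm_num) (by norm_num) ((a_al_yz P hb).congr (by push_cast; ring))) ?_
  refine List.Forall₂.cons (cl_mk ((mul_assoc _ _ _).symm.trans (vmul hv hχ hψ hB m0)) (by norm_num) (by norm_num) (by norm_num) ((a_be P hb).congr (by push_cast; ring))) ?_
  refine List.Forall₂.cons (cl_mk ((mul_assoc _ _ _).symm.trans (vmul hv hχ hψ hB mxy)) (by norm_num) (by norm_num) (by norm_num) ((a_be_p1 P hb).congr (by push_cast; ring))) ?_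
  refine List.Forall₂.cons (cl_mk ((mul_assoc _ _ _).symm.trans (vmul hv hχ hψ hB mz)) (by norm_num) (by norm_num) (by norm_num) ((a_be_sZ P hb).congr (by push_cast; ring))) ?_
  refine List.Forall₂.cons (cl_mk ((mul_assoc _ _ _).symm.trans (vmul hv hχ hψ hB mxyz)) (by norm_num) (by norm_num) (by norm_num) ((a_be_p2 P hb).congr (by push_cast; ring))) ?_
  refine List.Forall₂.cons (cl_mk ((mul_assoc _ _ _).symm.trans (vmul hv hχ hψ hC m0)) (by norm_num) (by norm_num) (by norm_num) ((a_ga P hb).congr (by push_cast; ring))) ?_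
  refine List.Forall₂.cons (cl_mk ((mul_assoc _ _ _).symm.trans (vmul hv hχ hψ hC mxy)) (by norm_num) (by norm_num) (by norm_num) ((a_ga_p1 P hb).congr (by push_cast; ring))) ?_
  exact List.Forall₂.nil

end Pool.Agent.Work.MP_71a505_fin.Z1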