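import Pool.Agent.Work.MP_71a505_fin.Region

set_option maxRecDepth 100000
set_option linter.all false

namespace Pool.Agent.Work.MP_71a505_fin.Z1

def g0 : GD := ⟨8, 4, 12, 1, [⟨398, 3, 3, 0⟩, ⟨402, 4, 2, 1⟩, ⟨404, 1, 3, 1⟩, ⟨377, 2, 2, 2⟩, ⟨396, 50, 0, 0⟩, ⟨401, 10, 1, 0⟩, ⟨416, 6, 2, 0⟩, ⟨420, 4, 3, 0⟩, ⟨410, 1, 4, 0⟩, ⟨405, 1, 5, 0⟩, ⟨403, 1, 6, 0⟩, ⟨401, 1, 7, 0⟩, ⟨399, 1, 8, 0⟩, ⟨397, 1, 9, 0⟩, ⟨396, 1, 10, 0⟩, ⟨395, 1, 11, 0⟩, ⟨394, 1, 12, 0⟩, ⟨393, 1, 13, 0⟩, ⟨393, 1, 14, 0⟩, ⟨393, 1, 15, 0⟩, ⟨407, 1, 16, 0⟩, ⟨417, 0, 17, 0⟩, ⟨400, 38, 0, 1⟩,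 ⟨374, 7, 1, 1⟩, ⟨425, 5, 2, 1⟩, ⟨429, 2, 3, 1⟩, ⟨409, 1, 4, 1⟩, ⟨405, 1, 5, 1⟩, ⟨402, 1, 6, 1⟩, ⟨400, 1, 7, 1⟩, ⟨398, 1, 8, 1⟩, ⟨397, 1, 9, 1⟩, ⟨409, 1, 10, 1⟩, ⟨413, 1, 11, 1⟩, ⟨420, 0, 12, 1⟩, ⟨404, 26, 0, 2⟩, ⟨386, 6, 1, 2⟩, ⟨422, 3, 2, 2⟩, ⟨410, 1, 3, 2⟩, ⟨409, 1, 4, 2⟩, ⟨414, 1, 5, 2⟩, ⟨418, 0, 6, 2⟩, ⟨407, 15, 0, 3⟩, ⟨415, 6, 1, 3⟩, ⟨399, 1, 2, 3⟩, ⟨414, 1, 3, 3⟩, ⟨418, 0, 4, 3⟩, ⟨408, 9, 0, 4⟩, ⟨416, 4, 1, 4⟩, ⟨412, 1, 2, 4⟩, ⟨420, 0, 3, 4⟩, ⟨410, 7, 0, 5⟩, ⟨412, 3, 1, 5⟩, ⟨427, 0, 2, 5⟩, ⟨407, 6, 0, 6⟩, ⟨407, 3, 1, 6⟩, ⟨425, 0, 2, 6⟩, ⟨402,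 6, 0, 7⟩, ⟨406, 2, 1, 7⟩, ⟨424, 0, 2, 7⟩, ⟨403, 5, 0, 8⟩, ⟨408, 1, 1, 8⟩, ⟨423, 0, 2, 8⟩, ⟨406, 4, 0, 9⟩, ⟨422, 0, 1, 9⟩, ⟨403, 3, 0, 10⟩, ⟨421, 0, 1, 10⟩, ⟨399, 3, 0, 11⟩, ⟨420, 0, 1, 11⟩, ⟨399, 2, 0, 12⟩, ⟨420, 0, 1, 12⟩, ⟨402, 1, 0, 13⟩, ⟨419, 0, 1, 13⟩, ⟨400, 0, 0, 14⟩]⟩
def g1 : GD := ⟨4, 4, 16, 1, [⟨383, 3, 2, 0⟩, ⟨395, 12, 0, 0⟩, ⟨416, 7, 1, 0⟩, ⟨428, 4, 2, 0⟩, ⟨421, 1, 3, 0⟩, ⟨417, 1, 4, 0⟩, ⟨414, 1, 5, 0⟩, ⟨412, 1, 6, 0⟩, ⟨410, 1, 7, 0⟩, ⟨409, 1, 8, 0⟩, ⟨408, 1, 9, 0⟩, ⟨407, 1, 10, 0⟩, ⟨406, 1, 11, 0⟩, ⟨405, 1, 12, 0⟩, ⟨408, 1, 13, 0⟩, ⟨427,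 1, 14, 0⟩, ⟨426, 1, 15, 0⟩, ⟨455, 1, 16, 0⟩, ⟨454, 0, 17, 0⟩, ⟨384, 9, 0, 1⟩, ⟨412, 5, 1, 1⟩, ⟨431, 1, 2, 1⟩, ⟨423, 1, 3, 1⟩, ⟨419, 1, 4, 1⟩, ⟨416, 1, 5, 1⟩, ⟨414, 1, 6, 1⟩, ⟨415, 1, 7, 1⟩, ⟨430, 1, 8, 1⟩, ⟨429, 1, 9, 1⟩, ⟨457, 1, 10, 1⟩, ⟨455, 1, 11, 1⟩, ⟨458, 0, 12, 1⟩, ⟨388, 7, 0, 2⟩, ⟨425, 3, 1, 2⟩, ⟨419, 1, 2, 2⟩, ⟨416, 1, 3, 2⟩, ⟨433, 1, 4, 2⟩, ⟨461, 1, 5, 2⟩, ⟨462, 0, 6, 2⟩, ⟨388, 7, 0, 3⟩, ⟨410, 1, 1, 3⟩, ⟨412, 1, 2, 3⟩, ⟨461, 1, 3, 3⟩, ⟨463, 0, 4, 3⟩, ⟨404, 7, 0, 4⟩, ⟨399, 1, 1, 4⟩, ⟨461, 1, 2, 4⟩, ⟨463, 0, 3, 4⟩, ⟨459, 7, 0, 5⟩, ⟨408, 1,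 1, 5⟩, ⟨462, 0, 2, 5⟩, ⟨455, 6, 0, 6⟩, ⟨405, 1, 1, 6⟩, ⟨460, 0, 2, 6⟩, ⟨451, 6, 0, 7⟩, ⟨428, 1, 1, 7⟩, ⟨459, 0, 2, 7⟩, ⟨452, 5, 0, 8⟩, ⟨457, 1, 1, 8⟩, ⟨458, 0, 2, 8⟩, ⟨455, 4, 0, 9⟩, ⟨457, 0, 1, 9⟩, ⟨452, 3, 0, 10⟩, ⟨454, 0, 1, 10⟩, ⟨448, 3, 0, 11⟩, ⟨453, 0, 1, 11⟩, ⟨448, 2, 0, 12⟩, ⟨452, 0, 1, 12⟩, ⟨451, 1, 0, 13⟩, ⟨452, 0, 1, 13⟩, ⟨449, 0, 0, 14⟩]⟩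
def g2 : GD := ⟨8, 4, 28, 1, [⟨387, 17, 2, 0⟩, ⟨385, 9, 3, 0⟩, ⟨420, 10, 3, 0⟩, ⟨380, 16, 1, 1⟩, ⟨406, 8, 2, 1⟩, ⟨415, 9, 2, 1⟩, ⟨427, 2, 3, 1⟩, ⟨398, 7, 1, 2⟩, ⟨407, 50, 0, 0⟩, ⟨350, 25, 1, 0⟩, ⟨414, 18, 2, 0⟩, ⟨442, 11, 3, 0⟩, ⟨450, 4, 4, 0⟩, ⟨426, 1, 5, 0⟩, ⟨425, 1, 6, 0⟩, ⟨423, 1, 7, 0⟩, ⟨422, 1, 8, 0⟩, ⟨421, 1, 9, 0⟩, ⟨420, 1, 10, 0⟩, ⟨419, 1, 11, 0⟩, ⟨418, 1, 12, 0⟩, ⟨417, 1, 13, 0⟩, ⟨417, 1, 14, 0⟩, ⟨418, 1, 15, 0⟩, ⟨422, 1, 16, 0⟩, ⟨453, 0, 17, 0⟩, ⟨411, 38, 0, 1⟩, ⟨400, 17, 1, 1⟩, ⟨450, 10, 2, 1⟩, ⟨460, 3, 3, 1⟩, ⟨447, 1, 4, 1⟩, ⟨444, 1, 5,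 1⟩, ⟨442, 1, 6, 1⟩, ⟨441, 1, 7, 1⟩, ⟨439, 1, 8, 1⟩, ⟨438, 1, 9, 1⟩, ⟨437, 1, 10, 1⟩, ⟨436, 1, 11, 1⟩, ⟨455, 0, 12, 1⟩, ⟨415, 26, 0, 2⟩, ⟨431, 8, 1, 2⟩, ⟨451, 1, 2, 2⟩, ⟨444, 1, 3, 2⟩, ⟨424, 1, 4, 2⟩, ⟨433, 1, 5, 2⟩, ⟨453, 0, 6, 2⟩, ⟨418, 15, 0, 3⟩, ⟨454, 1, 1, 3⟩, ⟨451, 1, 2, 3⟩, ⟨436, 1, 3, 3⟩, ⟨448, 0, 4, 3⟩, ⟨419, 9, 0, 4⟩, ⟨446, 1, 1, 4⟩, ⟨447, 1, 2, 4⟩, ⟨450, 0, 3, 4⟩, ⟨421, 7, 0, 5⟩, ⟨442, 1, 1, 5⟩, ⟨462, 0, 2, 5⟩, ⟨417, 6, 0, 6⟩, ⟨439, 1, 1, 6⟩, ⟨460, 0, 2, 6⟩, ⟨417, 6, 0, 7⟩, ⟨437, 1, 1, 7⟩, ⟨459, 0, 2, 7⟩, ⟨414, 5, 0, 8⟩, ⟨436, 1, 1, 8⟩, ⟨458,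 0, 2, 8⟩, ⟨417, 4, 0, 9⟩, ⟨458, 0, 1, 9⟩, ⟨414, 3, 0, 10⟩, ⟨458, 0, 1, 10⟩, ⟨415, 3, 0, 11⟩, ⟨457, 0, 1, 11⟩, ⟨410, 2, 0, 12⟩, ⟨456, 0, 1, 12⟩, ⟨413, 1, 0, 13⟩, ⟨455, 0, 1, 13⟩, ⟨418, 0, 0, 14⟩]⟩
def g3 : GD := ⟨4, 4, 20, 1, [⟨398, 11, 1, 0⟩, ⟨377, 5, 2, 0⟩, ⟨399, 6, 2, 0⟩, ⟨424, 7, 2, 0⟩, ⟨394, 1, 3, 0⟩, ⟨413, 2, 3, 0⟩, ⟨405, 6, 1, 1⟩, ⟨425, 7, 1, 1⟩, ⟨387, 1, 2, 1⟩, ⟨414, 2, 2, 1⟩, ⟨383, 7, 0, 2⟩, ⟨392, 2, 1, 2⟩, ⟨416, 3, 1, 2⟩, ⟨403, 17, 0, 0⟩, ⟨434, 12, 1, 0⟩, ⟨447, 8, 2, 0⟩, ⟨448, 3, 3, 0⟩, ⟨414, 1, 4, 0⟩, ⟨414, 1, 5, 0⟩, ⟨412, 1, 6, 0⟩, ⟨411,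 1, 7, 0⟩, ⟨410, 1, 8, 0⟩, ⟨409, 1, 9, 0⟩, ⟨408, 1, 10, 0⟩, ⟨411, 1, 11, 0⟩, ⟨410, 1, 12, 0⟩, ⟨430, 1, 13, 0⟩, ⟨453, 1, 14, 0⟩, ⟨451, 1, 15, 0⟩, ⟨481, 1, 16, 0⟩, ⟨479, 0, 17, 0⟩, ⟨408, 12, 0, 1⟩, ⟨448, 8, 1, 1⟩, ⟨433, 3, 2, 1⟩, ⟨442, 1, 3, 1⟩, ⟨440, 1, 4, 1⟩, ⟨438, 1, 5, 1⟩, ⟨436, 1, 6, 1⟩, ⟨438, 1, 7, 1⟩, ⟨456, 1, 8, 1⟩, ⟨454, 1, 9, 1⟩, ⟨482, 1, 10, 1⟩, ⟨481, 1, 11, 1⟩, ⟨484, 0, 12, 1⟩, ⟨413, 8, 0, 2⟩, ⟨442, 4, 1, 2⟩, ⟨450, 1, 2, 2⟩, ⟨445, 1, 3, 2⟩, ⟨458, 1, 4, 2⟩, ⟨486, 1, 5, 2⟩, ⟨487, 0, 6, 2⟩, ⟨395, 4, 0, 3⟩, ⟨444, 1, 1, 3⟩, ⟨441, 1, 2, 3⟩, ⟨487,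 1, 3, 3⟩, ⟨488, 0, 4, 3⟩, ⟨398, 1, 0, 4⟩, ⟨441, 1, 1, 4⟩, ⟨486, 1, 2, 4⟩, ⟨488, 0, 3, 4⟩, ⟨397, 1, 0, 5⟩, ⟨440, 1, 1, 5⟩, ⟨488, 0, 2, 5⟩, ⟨395, 1, 0, 6⟩, ⟨438, 1, 1, 6⟩, ⟨485, 0, 2, 6⟩, ⟨394, 1, 0, 7⟩, ⟨454, 1, 1, 7⟩, ⟨484, 0, 2, 7⟩, ⟨393, 1, 0, 8⟩, ⟨482, 1, 1, 8⟩, ⟨483, 0, 2, 8⟩, ⟨402, 1, 0, 9⟩, ⟨482, 0, 1, 9⟩, ⟨424, 1, 0, 10⟩, ⟨480, 0, 1, 10⟩, ⟨420, 1, 0, 11⟩, ⟨479, 0, 1, 11⟩, ⟨447, 1, 0, 12⟩, ⟨478, 0, 1, 12⟩, ⟨476, 1, 0, 13⟩, ⟨477, 0, 1, 13⟩, ⟨474, 0, 0, 14⟩]⟩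
def g4 : GD := ⟨4, 4, 24, 1, [⟨367, 12, 1, 0⟩, ⟨404, 13, 1, 0⟩, ⟨421, 5, 2, 0⟩, ⟨393, 7, 1, 1⟩, ⟨425, 8, 1, 1⟩, ⟨408, 1, 2, 1⟩, ⟨427, 2, 2, 1⟩, ⟨373, 9, 0, 2⟩, ⟨382, 3, 1, 2⟩, ⟨403, 4, 1, 2⟩, ⟨354, 21, 0, 0⟩, ⟨428, 14, 1, 0⟩, ⟨450, 6, 2, 0⟩, ⟨426, 1, 3, 0⟩, ⟨421, 1, 4, 0⟩, ⟨418, 1, 5, 0⟩, ⟨416, 1, 6, 0⟩, ⟨414, 1, 7, 0⟩, ⟨412, 1, 8, 0⟩, ⟨411, 1, 9, 0⟩, ⟨410, 1, 10, 0⟩, ⟨414, 1, 11, 0⟩, ⟨412, 1, 12, 0⟩, ⟨434, 1, 13, 0⟩, ⟨456, 1, 14, 0⟩, ⟨455, 1, 15, 0⟩, ⟨485, 1, 16, 0⟩, ⟨483, 0, 17, 0⟩, ⟨375, 15, 0, 1⟩, ⟨447, 9, 1, 1⟩, ⟨450, 3, 2, 1⟩, ⟨418, 1, 3, 1⟩,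 ⟨419, 1, 4, 1⟩, ⟨421, 1, 5, 1⟩, ⟨420, 1, 6, 1⟩, ⟨438, 1, 7, 1⟩, ⟨459, 1, 8, 1⟩, ⟨458, 1, 9, 1⟩, ⟨486, 1, 10, 1⟩, ⟨484, 1, 11, 1⟩, ⟨487, 0, 12, 1⟩, ⟨396, 10, 0, 2⟩, ⟨430, 5, 1, 2⟩, ⟨436, 1, 2, 2⟩, ⟨435, 1, 3, 2⟩, ⟨462, 1, 4, 2⟩, ⟨490, 1, 5, 2⟩, ⟨491, 0, 6, 2⟩, ⟨384, 6, 0, 3⟩, ⟨424, 1, 1, 3⟩, ⟨441, 1, 2, 3⟩, ⟨491, 1, 3, 3⟩, ⟨492, 0, 4, 3⟩, ⟨383, 3, 0, 4⟩, ⟨423, 1, 1, 4⟩, ⟨490, 1, 2, 4⟩, ⟨492, 0, 3, 4⟩, ⟨386, 3, 0, 5⟩, ⟨437, 1, 1, 5⟩, ⟨491, 0, 2, 5⟩, ⟨405, 3, 0, 6⟩, ⟨433, 1, 1, 6⟩, ⟨489, 0, 2, 6⟩, ⟨401, 3, 0, 7⟩, ⟨458, 1, 1, 7⟩, ⟨488, 0, 2, 7⟩, ⟨428,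 3, 0, 8⟩, ⟨486, 1, 1, 8⟩, ⟨487, 0, 2, 8⟩, ⟨458, 3, 0, 9⟩, ⟨486, 0, 1, 9⟩, ⟨481, 3, 0, 10⟩, ⟨484, 0, 1, 10⟩, ⟨477, 3, 0, 11⟩, ⟨483, 0, 1, 11⟩, ⟨477, 2, 0, 12⟩, ⟨482, 0, 1, 12⟩, ⟨480, 1, 0, 13⟩, ⟨481, 0, 1, 13⟩, ⟨478, 0, 0, 14⟩]⟩
def g5 : GD := ⟨8, 4, 24, 1, [⟨300, 22, 1, 0⟩, ⟨325, 12, 2, 0⟩, ⟨352, 13, 2, 0⟩, ⟨375, 14, 2, 0⟩, ⟨375, 5, 3, 0⟩, ⟨399, 6, 3, 0⟩, ⟨330, 15, 1, 1⟩, ⟨392, 7, 2, 1⟩, ⟨431, 1, 3, 1⟩, ⟨378, 1, 2, 2⟩, ⟨407, 2, 2, 2⟩, ⟨420, 3, 2, 2⟩, ⟨423, 1, 3, 2⟩, ⟨384, 4, 1, 3⟩, ⟨394, 50, 0, 0⟩, ⟨337, 23, 1, 0⟩, ⟨406, 15, 2, 0⟩, ⟨435, 7, 3, 0⟩,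 ⟨426, 1, 4, 0⟩, ⟨422, 1, 5, 0⟩, ⟨420, 1, 6, 0⟩, ⟨418, 1, 7, 0⟩, ⟨416, 1, 8, 0⟩, ⟨415, 1, 9, 0⟩, ⟨413, 1, 10, 0⟩, ⟨412, 1, 11, 0⟩, ⟨411, 1, 12, 0⟩, ⟨410, 1, 13, 0⟩, ⟨410, 1, 14, 0⟩, ⟨412, 1, 15, 0⟩, ⟨413, 1, 16, 0⟩, ⟨437, 0, 17, 0⟩, ⟨399, 38, 0, 1⟩, ⟨358, 16, 1, 1⟩, ⟨431, 8, 2, 1⟩, ⟨459, 2, 3, 1⟩, ⟨430, 1, 4, 1⟩, ⟨427, 1, 5, 1⟩, ⟨425, 1, 6, 1⟩, ⟨423, 1, 7, 1⟩, ⟨421, 1, 8, 1⟩, ⟨421, 1, 9, 1⟩, ⟨420, 1, 10, 1⟩, ⟨435, 1, 11, 1⟩, ⟨439, 0, 12, 1⟩, ⟨402, 26, 0, 2⟩, ⟨358, 8, 1, 2⟩, ⟨454, 4, 2, 2⟩, ⟨444, 2, 3, 2⟩, ⟨419, 1, 4, 2⟩, ⟨420, 1, 5, 2⟩, ⟨435, 0, 6,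 2⟩, ⟨406, 15, 0, 3⟩, ⟨407, 5, 1, 3⟩, ⟨425, 1, 2, 3⟩, ⟨421, 1, 3, 3⟩, ⟨432, 0, 4, 3⟩, ⟨406, 9, 0, 4⟩, ⟨411, 2, 1, 4⟩, ⟨423, 1, 2, 4⟩, ⟨434, 0, 3, 4⟩, ⟨408, 7, 0, 5⟩, ⟨410, 2, 1, 5⟩, ⟨445, 0, 2, 5⟩, ⟨405, 6, 0, 6⟩, ⟨409, 2, 1, 6⟩, ⟨444, 0, 2, 6⟩, ⟨401, 6, 0, 7⟩, ⟨410, 2, 1, 7⟩, ⟨443, 0, 2, 7⟩, ⟨402, 5, 0, 8⟩, ⟨407, 1, 1, 8⟩, ⟨441, 0, 2, 8⟩, ⟨405, 4, 0, 9⟩, ⟨442, 0, 1, 9⟩, ⟨402, 3, 0, 10⟩, ⟨441, 0, 1, 10⟩, ⟨397, 3, 0, 11⟩, ⟨440, 0, 1, 11⟩, ⟨398, 2, 0, 12⟩, ⟨440, 0, 1, 12⟩, ⟨400, 1, 0, 13⟩, ⟨439, 0, 1, 13⟩, ⟨399, 0, 0, 14⟩]⟩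
def g6 : GD := ⟨4, 4, 16, 1, [⟨369, 12, 0, 0⟩, ⟨405, 3, 2, 0⟩, ⟨365, 9, 0, 1⟩, ⟨394, 5, 1, 1⟩, ⟨376, 2, 1, 2⟩, ⟨390, 13, 0, 0⟩, ⟨417, 8, 1, 0⟩, ⟨435, 4, 2, 0⟩, ⟨424, 1, 3, 0⟩, ⟨421, 1, 4, 0⟩, ⟨418, 1, 5, 0⟩, ⟨416, 1, 6, 0⟩, ⟨414, 1, 7, 0⟩, ⟨413, 1, 8, 0⟩, ⟨412, 1, 9, 0⟩, ⟨411, 1, 10, 0⟩, ⟨410, 1, 11, 0⟩, ⟨409, 1, 12, 0⟩, ⟨414, 1, 13, 0⟩, ⟨435, 1, 14, 0⟩, ⟨433, 1, 15, 0⟩, ⟨463, 1, 16, 0⟩, ⟨461, 0, 17, 0⟩, ⟨390, 10, 0, 1⟩, ⟨425, 6, 1, 1⟩, ⟨420, 1, 2, 1⟩, ⟨415, 1, 3, 1⟩, ⟨414, 1, 4, 1⟩, ⟨412, 1, 5, 1⟩, ⟨411, 1, 6, 1⟩, ⟨417, 1, 7, 1⟩, ⟨437, 1, 8, 1⟩, ⟨436,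 1, 9, 1⟩, ⟨464, 1, 10, 1⟩, ⟨462, 1, 11, 1⟩, ⟨465, 0, 12, 1⟩, ⟨387, 7, 0, 2⟩, ⟨416, 3, 1, 2⟩, ⟨425, 1, 2, 2⟩, ⟨420, 1, 3, 2⟩, ⟨440, 1, 4, 2⟩, ⟨468, 1, 5, 2⟩, ⟨469, 0, 6, 2⟩, ⟨387, 7, 0, 3⟩, ⟨425, 1, 1, 3⟩, ⟨422, 1, 2, 3⟩, ⟨469, 1, 3, 3⟩, ⟨470, 0, 4, 3⟩, ⟨411, 7, 0, 4⟩, ⟨422, 1, 1, 4⟩, ⟨468, 1, 2, 4⟩, ⟨470, 0, 3, 4⟩, ⟨466, 7, 0, 5⟩, ⟨421, 1, 1, 5⟩, ⟨470, 0, 2, 5⟩, ⟨463, 6, 0, 6⟩, ⟨419, 1, 1, 6⟩, ⟨467, 0, 2, 6⟩, ⟨459, 6, 0, 7⟩, ⟨436, 1, 1, 7⟩, ⟨466, 0, 2, 7⟩, ⟨459, 5, 0, 8⟩, ⟨464, 1, 1, 8⟩, ⟨465, 0, 2, 8⟩, ⟨463, 4, 0, 9⟩, ⟨464, 0, 1, 9⟩, ⟨459, 3, 0, 10⟩,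 ⟨462, 0, 1, 10⟩, ⟨455, 3, 0, 11⟩, ⟨461, 0, 1, 11⟩, ⟨455, 2, 0, 12⟩, ⟨460, 0, 1, 12⟩, ⟨458, 1, 0, 13⟩, ⟨459, 0, 1, 13⟩, ⟨456, 0, 0, 14⟩]⟩
def g7 : GD := ⟨4, 8, 24, 1, [⟨368, 13, 1, 0⟩, ⟨364, 7, 2, 0⟩, ⟨365, 2, 3, 0⟩, ⟨371, 4, 2, 1⟩, ⟨413, 5, 2, 1⟩, ⟨386, 7, 1, 2⟩, ⟨394, 2, 2, 2⟩, ⟨373, 4, 1, 3⟩, ⟨385, 2, 1, 4⟩, ⟨390, 50, 0, 0⟩, ⟨390, 14, 1, 0⟩, ⟨408, 8, 2, 0⟩, ⟨416, 3, 3, 0⟩, ⟨427, 1, 4, 0⟩, ⟨423, 1, 5, 0⟩, ⟨421, 1, 6, 0⟩, ⟨419, 1, 7, 0⟩, ⟨417, 1, 8, 0⟩, ⟨416, 1, 9, 0⟩, ⟨415, 1, 10, 0⟩, ⟨414, 1, 11, 0⟩, ⟨413, 1, 12, 0⟩, ⟨412, 1, 13, 0⟩, ⟨411, 1, 14,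 0⟩, ⟨412, 1, 15, 0⟩, ⟨412, 1, 16, 0⟩, ⟨434, 0, 17, 0⟩, ⟨376, 16, 0, 1⟩, ⟨377, 10, 1, 1⟩, ⟨437, 6, 2, 1⟩, ⟨439, 1, 3, 1⟩, ⟨433, 1, 4, 1⟩, ⟨429, 1, 5, 1⟩, ⟨426, 1, 6, 1⟩, ⟨424, 1, 7, 1⟩, ⟨422, 1, 8, 1⟩, ⟨421, 1, 9, 1⟩, ⟨420, 1, 10, 1⟩, ⟨430, 1, 11, 1⟩, ⟨437, 0, 12, 1⟩, ⟨378, 13, 0, 2⟩, ⟨428, 8, 1, 2⟩, ⟨428, 3, 2, 2⟩, ⟨429, 1, 3, 2⟩, ⟨421, 1, 4, 2⟩, ⟨423, 1, 5, 2⟩, ⟨434, 0, 6, 2⟩, ⟨362, 9, 0, 3⟩, ⟨416, 5, 1, 3⟩, ⟨410, 1, 2, 3⟩, ⟨422, 1, 3, 3⟩, ⟨431, 0, 4, 3⟩, ⟨402, 9, 0, 4⟩, ⟨420, 3, 1, 4⟩, ⟨411, 1, 2, 4⟩, ⟨432, 0, 3, 4⟩, ⟨404, 7, 0, 5⟩, ⟨401, 2, 1, 5⟩,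 ⟨442, 0, 2, 5⟩, ⟨400, 6, 0, 6⟩, ⟨401, 2, 1, 6⟩, ⟨441, 0, 2, 6⟩, ⟨396, 6, 0, 7⟩, ⟨404, 2, 1, 7⟩, ⟨439, 0, 2, 7⟩, ⟨397, 5, 0, 8⟩, ⟨402, 1, 1, 8⟩, ⟨438, 0, 2, 8⟩, ⟨400, 4, 0, 9⟩, ⟨438, 0, 1, 9⟩, ⟨397, 3, 0, 10⟩, ⟨438, 0, 1, 10⟩, ⟨393, 3, 0, 11⟩, ⟨437, 0, 1, 11⟩, ⟨393, 2, 0, 12⟩, ⟨436, 0, 1, 12⟩, ⟨396, 1, 0, 13⟩, ⟨435, 0, 1, 13⟩, ⟨395, 0, 0, 14⟩]⟩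
def g8 : GD := ⟨4, 8, 20, 1, [⟨381, 9, 1, 0⟩, ⟨367, 5, 2, 0⟩, ⟨380, 2, 3, 0⟩, ⟨366, 11, 0, 1⟩, ⟨369, 7, 1, 1⟩, ⟨401, 4, 2, 1⟩, ⟨380, 2, 2, 2⟩, ⟨356, 8, 0, 3⟩, ⟨379, 13, 0, 0⟩, ⟨423, 10, 1, 0⟩, ⟨408, 6, 2, 0⟩, ⟨416, 3, 3, 0⟩, ⟨399, 2, 4, 0⟩, ⟨397, 2, 5, 0⟩, ⟨395, 2, 6, 0⟩, ⟨394, 2, 7, 0⟩, ⟨392, 2, 8, 0⟩, ⟨391, 2, 9, 0⟩, ⟨390, 2, 10, 0⟩, ⟨389, 2, 11, 0⟩, ⟨388, 2, 12, 0⟩, ⟨388, 2, 13, 0⟩, ⟨396, 2, 14, 0⟩, ⟨423, 2, 15, 0⟩, ⟨396, 1, 16, 0⟩, ⟨418, 0, 17, 0⟩, ⟨385, 12, 0, 1⟩, ⟨416, 8, 1, 1⟩, ⟨430, 5, 2, 1⟩, ⟨412, 2, 3, 1⟩, ⟨411, 2, 4, 1⟩, ⟨409, 2, 5, 1⟩,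 ⟨408, 2, 6, 1⟩, ⟨406, 2, 7, 1⟩, ⟨406, 2, 8, 1⟩, ⟨422, 2, 9, 1⟩, ⟨396, 1, 10, 1⟩, ⟨417, 1, 11, 1⟩, ⟨420, 0, 12, 1⟩, ⟨385, 10, 0, 2⟩, ⟨407, 6, 1, 2⟩, ⟨421, 3, 2, 2⟩, ⟨415, 2, 3, 2⟩, ⟨414, 2, 4, 2⟩, ⟨397, 1, 5, 2⟩, ⟨414, 0, 6, 2⟩, ⟨382, 9, 0, 3⟩, ⟨418, 5, 1, 3⟩, ⟨415, 2, 2, 3⟩, ⟨394, 1, 3, 3⟩, ⟨398, 0, 4, 3⟩, ⟨364, 8, 0, 4⟩, ⟨414, 4, 1, 4⟩, ⟨393, 1, 2, 4⟩, ⟨420, 0, 3, 4⟩, ⟨389, 7, 0, 5⟩, ⟨401, 3, 1, 5⟩, ⟨427, 0, 2, 5⟩, ⟨386, 6, 0, 6⟩, ⟨401, 3, 1, 6⟩, ⟨426, 0, 2, 6⟩, ⟨382, 6, 0, 7⟩, ⟨386, 2, 1, 7⟩, ⟨425, 0, 2, 7⟩, ⟨383, 5, 0, 8⟩, ⟨387, 1, 1, 8⟩, ⟨424,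 0, 2, 8⟩, ⟨386, 4, 0, 9⟩, ⟨424, 0, 1, 9⟩, ⟨383, 3, 0, 10⟩, ⟨423, 0, 1, 10⟩, ⟨378, 3, 0, 11⟩, ⟨423, 0, 1, 11⟩, ⟨378, 2, 0, 12⟩, ⟨422, 0, 1, 12⟩, ⟨381, 1, 0, 13⟩, ⟨421, 0, 1, 13⟩, ⟨379, 0, 0, 14⟩]⟩
def g9 : GD := ⟨8, 4, 28, 1, [⟨276, 23, 1, 0⟩, ⟨293, 24, 1, 0⟩, ⟨361, 15, 2, 0⟩, ⟨375, 16, 2, 0⟩, ⟨388, 7, 3, 0⟩, ⟨418, 8, 3, 0⟩, ⟨411, 1, 4, 0⟩, ⟨415, 1, 5, 0⟩, ⟨414, 1, 6, 0⟩, ⟨413, 1, 7, 0⟩, ⟨315, 16, 1, 1⟩, ⟨344, 17, 1, 1⟩, ⟨389, 8, 2, 1⟩, ⟨386, 1, 3, 1⟩, ⟨415, 2, 3, 1⟩, ⟨366, 9, 1, 2⟩, ⟨383, 10, 1, 2⟩, ⟨388, 2, 2, 2⟩, ⟨416, 3, 2, 2⟩, ⟨436, 4, 2, 2⟩, ⟨396,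 3, 1, 3⟩, ⟨422, 1, 2, 3⟩, ⟨403, 50, 0, 0⟩, ⟨330, 25, 1, 0⟩, ⟨419, 17, 2, 0⟩, ⟨446, 9, 3, 0⟩, ⟨440, 2, 4, 0⟩, ⟨437, 2, 5, 0⟩, ⟨434, 2, 6, 0⟩, ⟨432, 2, 7, 0⟩, ⟨413, 1, 8, 0⟩, ⟨412, 1, 9, 0⟩, ⟨411, 1, 10, 0⟩, ⟨410, 1, 11, 0⟩, ⟨409, 1, 12, 0⟩, ⟨409, 1, 13, 0⟩, ⟨408, 1, 14, 0⟩, ⟨418, 1, 15, 0⟩, ⟨419, 1, 16, 0⟩, ⟨452, 0, 17, 0⟩, ⟨408, 38, 0, 1⟩, ⟨365, 18, 1, 1⟩, ⟨442, 9, 2, 1⟩, ⟨439, 3, 3, 1⟩, ⟨436, 1, 4, 1⟩, ⟨434, 1, 5, 1⟩, ⟨432, 1, 6, 1⟩, ⟨430, 1, 7, 1⟩, ⟨429, 1, 8, 1⟩, ⟨428, 1, 9, 1⟩, ⟨428, 1, 10, 1⟩, ⟨436, 1, 11, 1⟩, ⟨454, 0, 12, 1⟩, ⟨411, 26, 0, 2⟩,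 ⟨413, 11, 1, 2⟩, ⟨457, 5, 2, 2⟩, ⟨442, 1, 3, 2⟩, ⟨435, 1, 4, 2⟩, ⟨431, 1, 5, 2⟩, ⟨450, 0, 6, 2⟩, ⟨414, 15, 0, 3⟩, ⟨422, 4, 1, 3⟩, ⟨448, 2, 2, 3⟩, ⟨429, 1, 3, 3⟩, ⟨446, 0, 4, 3⟩, ⟨415, 9, 0, 4⟩, ⟨412, 2, 1, 4⟩, ⟨426, 1, 2, 4⟩, ⟨453, 0, 3, 4⟩, ⟨417, 7, 0, 5⟩, ⟨411, 2, 1, 5⟩, ⟨462, 0, 2, 5⟩, ⟨414, 6, 0, 6⟩, ⟨410, 2, 1, 6⟩, ⟨460, 0, 2, 6⟩, ⟨410, 6, 0, 7⟩, ⟨415, 2, 1, 7⟩, ⟨459, 0, 2, 7⟩, ⟨410, 5, 0, 8⟩, ⟨415, 1, 1, 8⟩, ⟨458, 0, 2, 8⟩, ⟨414, 4, 0, 9⟩, ⟨458, 0, 1, 9⟩, ⟨410, 3, 0, 10⟩, ⟨457, 0, 1, 10⟩, ⟨406, 3, 0, 11⟩, ⟨456, 0, 1, 11⟩, ⟨406, 2, 0, 12⟩, ⟨455,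 0, 1, 12⟩, ⟨409, 1, 0, 13⟩, ⟨454, 0, 1, 13⟩, ⟨407, 0, 0, 14⟩]⟩
def g10 : GD := ⟨8, 4, 28, 1, [⟨288, 24, 1, 0⟩, ⟨355, 15, 2, 0⟩, ⟨383, 16, 2, 0⟩, ⟨324, 17, 1, 1⟩, ⟨352, 18, 1, 1⟩, ⟨390, 8, 2, 1⟩, ⟨423, 9, 2, 1⟩, ⟨373, 10, 1, 2⟩, ⟨383, 2, 2, 2⟩, ⟨407, 3, 2, 2⟩, ⟨404, 50, 0, 0⟩, ⟨318, 25, 1, 0⟩, ⟨413, 17, 2, 0⟩, ⟨438, 7, 3, 0⟩, ⟨466, 0, 4, 0⟩, ⟨408, 38, 0, 1⟩, ⟨380, 19, 1, 1⟩, ⟨450, 10, 2, 1⟩, ⟨471, 0, 3, 1⟩, ⟨412, 26, 0, 2⟩, ⟨404, 11, 1, 2⟩, ⟨441, 4, 2, 2⟩, ⟨462, 0, 3, 2⟩, ⟨415, 15, 0, 3⟩, ⟨401, 5, 1, 3⟩, ⟨465, 0, 2, 3⟩, ⟨416, 9, 0, 4⟩, ⟨416, 2, 1, 4⟩,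 ⟨463, 0, 2, 4⟩, ⟨418, 7, 0, 5⟩, ⟨415, 2, 1, 5⟩, ⟨460, 0, 2, 5⟩, ⟨415, 6, 0, 6⟩, ⟨414, 2, 1, 6⟩, ⟨459, 0, 2, 6⟩, ⟨410, 6, 0, 7⟩, ⟨418, 2, 1, 7⟩, ⟨457, 0, 2, 7⟩, ⟨411, 5, 0, 8⟩, ⟨416, 1, 1, 8⟩, ⟨456, 0, 2, 8⟩, ⟨414, 4, 0, 9⟩, ⟨457, 0, 1, 9⟩, ⟨411, 3, 0, 10⟩, ⟨456, 0, 1, 10⟩, ⟨407, 3, 0, 11⟩, ⟨455, 0, 1, 11⟩, ⟨407, 2, 0, 12⟩, ⟨455, 0, 1, 12⟩, ⟨410, 1, 0, 13⟩, ⟨454, 0, 1, 13⟩, ⟨408, 0, 0, 14⟩]⟩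
def g11 : GD := ⟨12, 4, 24, 1, [⟨373, 9, 4, 0⟩, ⟨399, 10, 4, 0⟩, ⟨404, 1, 6, 0⟩, ⟨388, 13, 2, 1⟩, ⟨398, 7, 3, 1⟩, ⟨412, 2, 4, 1⟩, ⟨383, 4, 2, 2⟩, ⟨407, 5, 2, 2⟩, ⟨336, 50, 0, 0⟩, ⟨347, 40, 1, 0⟩, ⟨363, 22, 2, 0⟩, ⟨401, 16, 3, 0⟩, ⟨427, 11, 4, 0⟩, ⟨426, 5, 5, 0⟩, ⟨422, 2, 6, 0⟩, ⟨406, 1, 7, 0⟩, ⟨405, 1, 8, 0⟩, ⟨404, 1, 9, 0⟩, ⟨404, 1, 10, 0⟩, ⟨403, 1, 11, 0⟩, ⟨402, 1, 12, 0⟩, ⟨401, 1, 13, 0⟩, ⟨401, 1, 14, 0⟩, ⟨400, 1, 15, 0⟩, ⟨406, 1, 16, 0⟩, ⟨438, 0, 17, 0⟩, ⟨341, 38, 0, 1⟩, ⟨354, 28, 1, 1⟩, ⟨414, 14, 2, 1⟩, ⟨430, 8, 3, 1⟩, ⟨450, 3, 4, 1⟩, ⟨431, 1,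 5, 1⟩, ⟨429, 1, 6, 1⟩, ⟨427, 1, 7, 1⟩, ⟨425, 1, 8, 1⟩, ⟨423, 1, 9, 1⟩, ⟨422, 1, 10, 1⟩, ⟨421, 1, 11, 1⟩, ⟨441, 0, 12, 1⟩, ⟨344, 26, 0, 2⟩, ⟨353, 17, 1, 2⟩, ⟨431, 6, 2, 2⟩, ⟨453, 1, 3, 2⟩, ⟨443, 1, 4, 2⟩, ⟨439, 1, 5, 2⟩, ⟨441, 0, 6, 2⟩, ⟨348, 15, 0, 3⟩, ⟨355, 6, 1, 3⟩, ⟨434, 1, 2, 3⟩, ⟨444, 1, 3, 3⟩, ⟨444, 0, 4, 3⟩, ⟨348, 9, 0, 4⟩, ⟨356, 4, 1, 4⟩, ⟨429, 1, 2, 4⟩, ⟨451, 0, 3, 4⟩, ⟨351, 7, 0, 5⟩, ⟨355, 3, 1, 5⟩, ⟨449, 0, 2, 5⟩, ⟨348, 6, 0, 6⟩, ⟨366, 3, 1, 6⟩, ⟨448, 0, 2, 6⟩, ⟨351, 6, 0, 7⟩, ⟨348, 2, 1, 7⟩, ⟨447, 0, 2, 7⟩, ⟨344, 5, 0, 8⟩, ⟨352, 1, 1, 8⟩,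 ⟨446, 0, 2, 8⟩, ⟨348, 4, 0, 9⟩, ⟨430, 0, 1, 9⟩, ⟨347, 3, 0, 10⟩, ⟨429, 0, 1, 10⟩, ⟨350, 3, 0, 11⟩, ⟨428, 0, 1, 11⟩, ⟨340, 2, 0, 12⟩, ⟨427, 0, 1, 12⟩, ⟨346, 1, 0, 13⟩, ⟨426, 0, 1, 13⟩, ⟨383, 0, 0, 14⟩]⟩
def g12 : GD := ⟨12, 4, 28, 1, [⟨375, 18, 3, 0⟩, ⟨397, 10, 4, 0⟩, ⟨405, 8, 3, 1⟩, ⟨430, 3, 4, 1⟩, ⟨379, 6, 2, 2⟩, ⟨439, 1, 3, 2⟩, ⟨326, 50, 0, 0⟩, ⟨337, 40, 1, 0⟩, ⟨309, 27, 2, 0⟩, ⟨402, 19, 3, 0⟩, ⟨427, 11, 4, 0⟩, ⟨439, 5, 5, 0⟩, ⟨420, 1, 6, 0⟩, ⟨419, 1, 7, 0⟩, ⟨418, 1, 8, 0⟩, ⟨417, 1, 9, 0⟩, ⟨416, 1, 10, 0⟩, ⟨415, 1, 11, 0⟩, ⟨414, 1, 12, 0⟩, ⟨413,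 1, 13, 0⟩, ⟨412, 1, 14, 0⟩, ⟨411, 1, 15, 0⟩, ⟨414, 1, 16, 0⟩, ⟨449, 0, 17, 0⟩, ⟨331, 38, 0, 1⟩, ⟨344, 28, 1, 1⟩, ⟨382, 16, 2, 1⟩, ⟨429, 9, 3, 1⟩, ⟨449, 4, 4, 1⟩, ⟨437, 1, 5, 1⟩, ⟨436, 1, 6, 1⟩, ⟨434, 1, 7, 1⟩, ⟨432, 1, 8, 1⟩, ⟨431, 1, 9, 1⟩, ⟨430, 1, 10, 1⟩, ⟨429, 1, 11, 1⟩, ⟨452, 0, 12, 1⟩, ⟨334, 26, 0, 2⟩, ⟨343, 17, 1, 2⟩, ⟨413, 7, 2, 2⟩, ⟨459, 2, 3, 2⟩, ⟨433, 1, 4, 2⟩, ⟨427, 1, 5, 2⟩, ⟨449, 0, 6, 2⟩, ⟨338, 15, 0, 3⟩, ⟨345, 6, 1, 3⟩, ⟨449, 1, 2, 3⟩, ⟨447, 1, 3, 3⟩, ⟨449, 0, 4, 3⟩, ⟨338, 9, 0, 4⟩, ⟨346, 4, 1, 4⟩, ⟨441, 1, 2, 4⟩, ⟨458, 0, 3, 4⟩, ⟨340,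 7, 0, 5⟩, ⟨344, 3, 1, 5⟩, ⟨457, 0, 2, 5⟩, ⟨338, 6, 0, 6⟩, ⟨351, 3, 1, 6⟩, ⟨456, 0, 2, 6⟩, ⟨339, 6, 0, 7⟩, ⟨337, 2, 1, 7⟩, ⟨455, 0, 2, 7⟩, ⟨334, 5, 0, 8⟩, ⟨340, 1, 1, 8⟩, ⟨454, 0, 2, 8⟩, ⟨337, 4, 0, 9⟩, ⟨417, 0, 1, 9⟩, ⟨336, 3, 0, 10⟩, ⟨416, 0, 1, 10⟩, ⟨338, 3, 0, 11⟩, ⟨415, 0, 1, 11⟩, ⟨330, 2, 0, 12⟩, ⟨414, 0, 1, 12⟩, ⟨334, 1, 0, 13⟩, ⟨413, 0, 1, 13⟩, ⟨369, 0, 0, 14⟩]⟩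
def g13 : GD := ⟨8, 4, 16, 1, [⟨395, 5, 3, 0⟩, ⟨397, 2, 4, 0⟩, ⟨416, 3, 4, 0⟩, ⟨365, 9, 1, 1⟩, ⟨399, 5, 2, 1⟩, ⟨404, 2, 3, 1⟩, ⟨394, 6, 1, 2⟩, ⟨405, 2, 2, 2⟩, ⟨427, 3, 2, 2⟩, ⟨401, 50, 0, 0⟩, ⟨401, 13, 1, 0⟩, ⟨412, 9, 2, 0⟩, ⟨429, 6, 3, 0⟩, ⟨438, 4, 4, 0⟩, ⟨421, 1, 5, 0⟩, ⟨420, 1, 6, 0⟩, ⟨419, 1, 7, 0⟩, ⟨418, 1, 8, 0⟩, ⟨417, 1, 9, 0⟩, ⟨416, 1, 10, 0⟩, ⟨415, 1, 11, 0⟩, ⟨414, 1, 12, 0⟩, ⟨413, 1, 13, 0⟩, ⟨412, 1, 14, 0⟩, ⟨413, 1, 15, 0⟩, ⟨416, 1, 16, 0⟩, ⟨447, 0, 17, 0⟩, ⟨406, 38, 0, 1⟩, ⟨411, 10, 1, 1⟩, ⟨439, 6, 2, 1⟩, ⟨435, 3, 3, 1⟩, ⟨436, 1, 4, 1⟩,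 ⟨434, 1, 5, 1⟩, ⟨432, 1, 6, 1⟩, ⟨430, 1, 7, 1⟩, ⟨429, 1, 8, 1⟩, ⟨428, 1, 9, 1⟩, ⟨427, 1, 10, 1⟩, ⟨438, 1, 11, 1⟩, ⟨449, 0, 12, 1⟩, ⟨409, 26, 0, 2⟩, ⟨415, 7, 1, 2⟩, ⟨450, 4, 2, 2⟩, ⟨426, 1, 3, 2⟩, ⟨427, 1, 4, 2⟩, ⟨428, 1, 5, 2⟩, ⟨444, 0, 6, 2⟩, ⟨413, 15, 0, 3⟩, ⟨417, 4, 1, 3⟩, ⟨436, 1, 2, 3⟩, ⟨428, 1, 3, 3⟩, ⟨441, 0, 4, 3⟩, ⟨413, 9, 0, 4⟩, ⟨409, 1, 1, 4⟩, ⟨433, 1, 2, 4⟩, ⟨448, 0, 3, 4⟩, ⟨415, 7, 0, 5⟩, ⟨409, 1, 1, 5⟩, ⟨457, 0, 2, 5⟩, ⟨412, 6, 0, 6⟩, ⟨408, 1, 1, 6⟩, ⟨455, 0, 2, 6⟩, ⟨408, 6, 0, 7⟩, ⟨407, 1, 1, 7⟩, ⟨454, 0, 2, 7⟩, ⟨409, 5, 0, 8⟩, ⟨415,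 1, 1, 8⟩, ⟨453, 0, 2, 8⟩, ⟨412, 4, 0, 9⟩, ⟨452, 0, 1, 9⟩, ⟨409, 3, 0, 10⟩, ⟨451, 0, 1, 10⟩, ⟨404, 3, 0, 11⟩, ⟨451, 0, 1, 11⟩, ⟨404, 2, 0, 12⟩, ⟨450, 0, 1, 12⟩, ⟨407, 1, 0, 13⟩, ⟨449, 0, 1, 13⟩, ⟨405, 0, 0, 14⟩]⟩
def g14 : GD := ⟨12, 4, 20, 1, [⟨367, 15, 1, 0⟩, ⟨380, 12, 2, 0⟩, ⟨406, 13, 2, 0⟩, ⟨407, 10, 3, 0⟩, ⟨379, 7, 4, 0⟩, ⟨368, 3, 7, 0⟩, ⟨390, 4, 7, 0⟩, ⟨396, 6, 3, 1⟩, ⟨365, 5, 2, 2⟩, ⟨388, 50, 0, 0⟩, ⟨396, 16, 1, 0⟩, ⟨428, 14, 2, 0⟩, ⟨434, 11, 3, 0⟩, ⟨416, 8, 4, 0⟩, ⟨398, 6, 5, 0⟩, ⟨423, 5, 6, 0⟩, ⟨425, 5, 7, 0⟩, ⟨380, 2, 8, 0⟩, ⟨383, 2, 9, 0⟩,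 ⟨385, 2, 10, 0⟩, ⟨385, 2, 11, 0⟩, ⟨386, 2, 12, 0⟩, ⟨386, 2, 13, 0⟩, ⟨403, 2, 14, 0⟩, ⟨430, 2, 15, 0⟩, ⟨404, 1, 16, 0⟩, ⟨433, 0, 17, 0⟩, ⟨393, 38, 0, 1⟩, ⟨385, 12, 1, 1⟩, ⟨397, 9, 2, 1⟩, ⟨428, 7, 3, 1⟩, ⟨417, 4, 4, 1⟩, ⟨419, 3, 5, 1⟩, ⟨418, 2, 6, 1⟩, ⟨419, 2, 7, 1⟩, ⟨419, 2, 8, 1⟩, ⟨431, 2, 9, 1⟩, ⟨406, 1, 10, 1⟩, ⟨428, 1, 11, 1⟩, ⟨436, 0, 12, 1⟩, ⟨396, 26, 0, 2⟩, ⟨389, 9, 1, 2⟩, ⟨408, 6, 2, 2⟩, ⟨403, 3, 3, 2⟩, ⟨433, 2, 4, 2⟩, ⟨406, 1, 5, 2⟩, ⟨432, 0, 6, 2⟩, ⟨399, 15, 0, 3⟩, ⟨407, 6, 1, 3⟩, ⟨413, 3, 2, 3⟩, ⟨418, 1, 3, 3⟩, ⟨428, 0, 4, 3⟩, ⟨400, 9, 0,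 4⟩, ⟨408, 4, 1, 4⟩, ⟨404, 1, 2, 4⟩, ⟨446, 0, 3, 4⟩, ⟨402, 7, 0, 5⟩, ⟨404, 3, 1, 5⟩, ⟨449, 0, 2, 5⟩, ⟨399, 6, 0, 6⟩, ⟨401, 3, 1, 6⟩, ⟨448, 0, 2, 6⟩, ⟨395, 6, 0, 7⟩, ⟨398, 2, 1, 7⟩, ⟨447, 0, 2, 7⟩, ⟨395, 5, 0, 8⟩, ⟨400, 1, 1, 8⟩, ⟨445, 0, 2, 8⟩, ⟨399, 4, 0, 9⟩, ⟨442, 0, 1, 9⟩, ⟨395, 3, 0, 10⟩, ⟨441, 0, 1, 10⟩, ⟨392, 3, 0, 11⟩, ⟨441, 0, 1, 11⟩, ⟨391, 2, 0, 12⟩, ⟨440, 0, 1, 12⟩, ⟨394, 1, 0, 13⟩, ⟨439, 0, 1, 13⟩, ⟨408, 0, 0, 14⟩]⟩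
def g15 : GD := ⟨8, 4, 20, 1, [⟨391, 15, 1, 0⟩, ⟨394, 11, 2, 0⟩, ⟨390, 7, 3, 0⟩, ⟨403, 5, 4, 0⟩, ⟨378, 2, 5, 0⟩, ⟨380, 10, 1, 1⟩, ⟨404, 6, 2, 1⟩, ⟨392, 3, 3, 1⟩, ⟨424, 4, 3, 1⟩, ⟨398, 1, 4, 1⟩, ⟨382, 2, 2, 2⟩, ⟨404, 3, 2, 2⟩, ⟨399, 2, 1, 3⟩, ⟨400, 50, 0, 0⟩, ⟨411, 16, 1, 0⟩, ⟨420, 12, 2, 0⟩, ⟨419, 8, 3, 0⟩, ⟨431, 6, 4, 0⟩, ⟨416, 3, 5, 0⟩, ⟨400, 1, 6, 0⟩, ⟨402, 1, 7, 0⟩, ⟨402, 1, 8, 0⟩, ⟨402, 1, 9, 0⟩, ⟨401, 1, 10, 0⟩, ⟨401, 1, 11, 0⟩, ⟨400, 1, 12, 0⟩, ⟨400, 1, 13, 0⟩, ⟨400, 1, 14, 0⟩, ⟨417, 1, 15, 0⟩, ⟨418, 1, 16, 0⟩, ⟨450, 0, 17, 0⟩, ⟨405, 38, 0,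 1⟩, ⟨406, 11, 1, 1⟩, ⟨431, 7, 2, 1⟩, ⟨447, 5, 3, 1⟩, ⟨436, 2, 4, 1⟩, ⟨424, 1, 5, 1⟩, ⟨425, 1, 6, 1⟩, ⟨425, 1, 7, 1⟩, ⟨424, 1, 8, 1⟩, ⟨425, 1, 9, 1⟩, ⟨425, 1, 10, 1⟩, ⟨435, 1, 11, 1⟩, ⟨451, 0, 12, 1⟩, ⟨408, 26, 0, 2⟩, ⟨396, 6, 1, 2⟩, ⟨439, 4, 2, 2⟩, ⟨448, 1, 3, 2⟩, ⟨442, 1, 4, 2⟩, ⟨438, 1, 5, 2⟩, ⟨446, 0, 6, 2⟩, ⟨412, 15, 0, 3⟩, ⟨422, 3, 1, 3⟩, ⟨449, 1, 2, 3⟩, ⟨438, 1, 3, 3⟩, ⟨444, 0, 4, 3⟩, ⟨412, 9, 0, 4⟩, ⟨423, 1, 1, 4⟩, ⟨445, 1, 2, 4⟩, ⟨450, 0, 3, 4⟩, ⟨414, 7, 0, 5⟩, ⟨422, 1, 1, 5⟩, ⟨460, 0, 2, 5⟩, ⟨411, 6, 0, 6⟩, ⟨420, 1, 1, 6⟩, ⟨458, 0, 2, 6⟩,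 ⟨408, 6, 0, 7⟩, ⟨419, 1, 1, 7⟩, ⟨457, 0, 2, 7⟩, ⟨408, 5, 0, 8⟩, ⟨420, 1, 1, 8⟩, ⟨456, 0, 2, 8⟩, ⟨411, 4, 0, 9⟩, ⟨456, 0, 1, 9⟩, ⟨408, 3, 0, 10⟩, ⟨455, 0, 1, 10⟩, ⟨406, 3, 0, 11⟩, ⟨454, 0, 1, 11⟩, ⟨403, 2, 0, 12⟩, ⟨453, 0, 1, 12⟩, ⟨406, 1, 0, 13⟩, ⟨453, 0, 1, 13⟩, ⟨420, 0, 0, 14⟩]⟩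
def g16 : GD := ⟨12, 4, 12, 1, [⟨398, 10, 1, 0⟩, ⟨380, 8, 2, 0⟩, ⟨416, 7, 3, 0⟩, ⟨368, 5, 4, 0⟩, ⟨368, 4, 5, 0⟩, ⟨414, 5, 5, 0⟩, ⟨373, 3, 6, 0⟩, ⟨379, 5, 2, 1⟩, ⟨412, 6, 2, 1⟩, ⟨401, 4, 3, 1⟩, ⟨359, 2, 4, 1⟩, ⟨407, 3, 2, 2⟩, ⟨421, 50, 0, 0⟩, ⟨420, 11, 1, 0⟩, ⟨434, 9, 2, 0⟩, ⟨440, 8, 3, 0⟩, ⟨438, 6, 4, 0⟩, ⟨438, 6, 5, 0⟩, ⟨410, 4, 6, 0⟩, ⟨369, 2, 7, 0⟩, ⟨374, 2, 8, 0⟩, ⟨376, 2, 9, 0⟩, ⟨377, 2, 10, 0⟩, ⟨386, 2, 11, 0⟩, ⟨384, 2, 12, 0⟩, ⟨407, 2, 13, 0⟩, ⟨430, 2, 14, 0⟩, ⟨428, 2, 15, 0⟩, ⟨431, 1, 16, 0⟩, ⟨441, 0, 17, 0⟩, ⟨425, 38, 0, 1⟩, ⟨387, 7, 1, 1⟩,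 ⟨432, 7, 2, 1⟩, ⟨453, 5, 3, 1⟩, ⟨440, 3, 4, 1⟩, ⟨419, 2, 5, 1⟩, ⟨416, 2, 6, 1⟩, ⟨416, 2, 7, 1⟩, ⟨433, 2, 8, 1⟩, ⟨431, 2, 9, 1⟩, ⟨433, 1, 10, 1⟩, ⟨431, 1, 11, 1⟩, ⟨444, 0, 12, 1⟩, ⟨428, 26, 0, 2⟩, ⟨385, 7, 1, 2⟩, ⟨431, 4, 2, 2⟩, ⟨435, 2, 3, 2⟩, ⟨438, 2, 4, 2⟩, ⟨437, 1, 5, 2⟩, ⟨443, 0, 6, 2⟩, ⟨432, 15, 0, 3⟩, ⟨439, 6, 1, 3⟩, ⟨439, 3, 2, 3⟩, ⟨437, 1, 3, 3⟩, ⟨446, 0, 4, 3⟩, ⟨433, 9, 0, 4⟩, ⟨440, 4, 1, 4⟩, ⟨437, 1, 2, 4⟩, ⟨452, 0, 3, 4⟩, ⟨435, 7, 0, 5⟩, ⟨436, 3, 1, 5⟩, ⟨452, 0, 2, 5⟩, ⟨431, 6, 0, 6⟩, ⟨432, 3, 1, 6⟩, ⟨450, 0, 2, 6⟩, ⟨427, 6, 0, 7⟩, ⟨431,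 2, 1, 7⟩, ⟨449, 0, 2, 7⟩, ⟨428, 5, 0, 8⟩, ⟨433, 1, 1, 8⟩, ⟨448, 0, 2, 8⟩, ⟨431, 4, 0, 9⟩, ⟨436, 0, 1, 9⟩, ⟨428, 3, 0, 10⟩, ⟨434, 0, 1, 10⟩, ⟨424, 3, 0, 11⟩, ⟨433, 0, 1, 11⟩, ⟨424, 2, 0, 12⟩, ⟨432, 0, 1, 12⟩, ⟨427, 1, 0, 13⟩, ⟨431, 0, 1, 13⟩, ⟨424, 0, 0, 14⟩]⟩
def g17 : GD := ⟨8, 4, 12, 1, [⟨356, 10, 0, 0⟩, ⟨379, 8, 1, 0⟩, ⟨366, 6, 2, 0⟩, ⟨330, 4, 3, 0⟩, ⟨354, 10, 0, 1⟩, ⟨384, 2, 3, 1⟩, ⟨387, 2, 4, 1⟩, ⟨352, 10, 0, 2⟩, ⟨351, 10, 0, 3⟩, ⟨380, 11, 0, 0⟩, ⟨417, 9, 1, 0⟩, ⟨408, 7, 2, 0⟩, ⟨403, 5, 3, 0⟩, ⟨379, 3, 4, 0⟩, ⟨367, 2, 5, 0⟩, ⟨368, 2, 6, 0⟩, ⟨368,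 2, 7, 0⟩, ⟨367, 2, 8, 0⟩, ⟨367, 2, 9, 0⟩, ⟨367, 2, 10, 0⟩, ⟨387, 2, 11, 0⟩, ⟨385, 2, 12, 0⟩, ⟨409, 2, 13, 0⟩, ⟨432, 2, 14, 0⟩, ⟨430, 2, 15, 0⟩, ⟨434, 1, 16, 0⟩, ⟨432, 0, 17, 0⟩, ⟨378, 11, 0, 1⟩, ⟨405, 6, 1, 1⟩, ⟨427, 4, 2, 1⟩, ⟨414, 3, 3, 1⟩, ⟨413, 3, 4, 1⟩, ⟨395, 2, 5, 1⟩, ⟨394, 2, 6, 1⟩, ⟨413, 2, 7, 1⟩, ⟨435, 2, 8, 1⟩, ⟨433, 2, 9, 1⟩, ⟨435, 1, 10, 1⟩, ⟨433, 1, 11, 1⟩, ⟨436, 0, 12, 1⟩, ⟨377, 11, 0, 2⟩, ⟨403, 4, 1, 2⟩, ⟨409, 2, 2, 2⟩, ⟨400, 2, 3, 2⟩, ⟨437, 2, 4, 2⟩, ⟨439, 1, 5, 2⟩, ⟨440, 0, 6, 2⟩, ⟨376, 11, 0, 3⟩, ⟨401, 4, 1, 3⟩, ⟨416, 2, 2, 3⟩, ⟨440,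 1, 3, 3⟩, ⟨441, 0, 4, 3⟩, ⟨435, 9, 0, 4⟩, ⟨443, 4, 1, 4⟩, ⟨439, 1, 2, 4⟩, ⟨441, 0, 3, 4⟩, ⟨437, 7, 0, 5⟩, ⟨438, 3, 1, 5⟩, ⟨441, 0, 2, 5⟩, ⟨434, 6, 0, 6⟩, ⟨434, 3, 1, 6⟩, ⟨438, 0, 2, 6⟩, ⟨429, 6, 0, 7⟩, ⟨433, 2, 1, 7⟩, ⟨437, 0, 2, 7⟩, ⟨430, 5, 0, 8⟩, ⟨435, 1, 1, 8⟩, ⟨436, 0, 2, 8⟩, ⟨433, 4, 0, 9⟩, ⟨435, 0, 1, 9⟩, ⟨430, 3, 0, 10⟩, ⟨433, 0, 1, 10⟩, ⟨426, 3, 0, 11⟩, ⟨432, 0, 1, 11⟩, ⟨426, 2, 0, 12⟩, ⟨431, 0, 1, 12⟩, ⟨429, 1, 0, 13⟩, ⟨430, 0, 1, 13⟩, ⟨427, 0, 0, 14⟩]⟩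
def g18 : GD := ⟨8, 4, 32, 1, [⟨310, 22, 1, 0⟩, ⟨375, 16, 2, 0⟩, ⟨396, 17, 2, 0⟩, ⟨389, 10, 3, 0⟩, ⟨392, 6, 4, 0⟩, ⟨414, 7, 4, 0⟩, ⟨396, 2, 5, 0⟩, ⟨393, 2, 6, 0⟩, ⟨389, 2, 7, 0⟩, ⟨385, 2, 8, 0⟩, ⟨379, 2, 9, 0⟩, ⟨361, 2, 10, 0⟩, ⟨375, 2, 11, 0⟩, ⟨378, 2, 12, 0⟩, ⟨348, 15, 1, 1⟩, ⟨396, 9, 2, 1⟩, ⟨426, 10, 2, 1⟩, ⟨360, 4, 3, 1⟩, ⟨396, 5, 3, 1⟩, ⟨405, 6, 3, 1⟩, ⟨380, 9, 1, 2⟩, ⟨386, 4, 2, 2⟩, ⟨407, 5, 2, 2⟩, ⟨374, 4, 1, 3⟩, ⟨380, 50, 0, 0⟩, ⟨356, 23, 1, 0⟩, ⟨416, 18, 2, 0⟩, ⟨417, 11, 3, 0⟩, ⟨439, 8, 4, 0⟩, ⟨417, 3, 5, 0⟩, ⟨417, 3, 6, 0⟩, ⟨416, 3, 7, 0⟩,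 ⟨415, 3, 8, 0⟩, ⟨414, 3, 9, 0⟩, ⟨413, 3, 10, 0⟩, ⟨412, 3, 11, 0⟩, ⟨412, 3, 12, 0⟩, ⟨387, 2, 13, 0⟩, ⟨401, 2, 14, 0⟩, ⟨429, 2, 15, 0⟩, ⟨402, 1, 16, 0⟩, ⟨425, 0, 17, 0⟩, ⟨384, 38, 0, 1⟩, ⟨388, 16, 1, 1⟩, ⟨446, 11, 2, 1⟩, ⟨449, 7, 3, 1⟩, ⟨421, 2, 4, 1⟩, ⟨419, 2, 5, 1⟩, ⟨417, 2, 6, 1⟩, ⟨416, 2, 7, 1⟩, ⟨415, 2, 8, 1⟩, ⟨429, 2, 9, 1⟩, ⟨402, 1, 10, 1⟩, ⟨424, 1, 11, 1⟩, ⟨427, 0, 12, 1⟩, ⟨387, 26, 0, 2⟩, ⟨402, 10, 1, 2⟩, ⟨441, 6, 2, 2⟩, ⟨433, 2, 3, 2⟩, ⟨433, 2, 4, 2⟩, ⟨404, 1, 5, 2⟩, ⟨423, 0, 6, 2⟩, ⟨391, 15, 0, 3⟩, ⟨402, 5, 1, 3⟩, ⟨424, 2, 2, 3⟩, ⟨405, 1,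 3, 3⟩, ⟨411, 0, 4, 3⟩, ⟨392, 9, 0, 4⟩, ⟨408, 3, 1, 4⟩, ⟨399, 1, 2, 4⟩, ⟨426, 0, 3, 4⟩, ⟨394, 7, 0, 5⟩, ⟨408, 3, 1, 5⟩, ⟨434, 0, 2, 5⟩, ⟨390, 6, 0, 6⟩, ⟨407, 3, 1, 6⟩, ⟨433, 0, 2, 6⟩, ⟨386, 6, 0, 7⟩, ⟨391, 2, 1, 7⟩, ⟨432, 0, 2, 7⟩, ⟨387, 5, 0, 8⟩, ⟨392, 1, 1, 8⟩, ⟨431, 0, 2, 8⟩, ⟨390, 4, 0, 9⟩, ⟨431, 0, 1, 9⟩, ⟨387, 3, 0, 10⟩, ⟨430, 0, 1, 10⟩, ⟨383, 3, 0, 11⟩, ⟨429, 0, 1, 11⟩, ⟨383, 2, 0, 12⟩, ⟨429, 0, 1, 12⟩, ⟨386, 1, 0, 13⟩, ⟨428, 0, 1, 13⟩, ⟨387, 0, 0, 14⟩]⟩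
def g19 : GD := ⟨12, 4, 24, 1, [⟨368, 16, 2, 0⟩, ⟨380, 13, 3, 0⟩, ⟨364, 9, 4, 0⟩, ⟨400, 10, 4, 0⟩, ⟨366, 4, 7, 0⟩, ⟨324, 2, 9, 0⟩, ⟨334, 2, 10, 0⟩, ⟨338, 2, 11, 0⟩, ⟨341, 2, 12, 0⟩, ⟨377, 10, 2, 1⟩, ⟨383, 7, 3, 1⟩, ⟨376, 8, 3, 1⟩, ⟨377, 8, 1, 2⟩, ⟨373, 4, 2, 2⟩, ⟨379, 2, 3, 2⟩, ⟨362, 50, 0, 0⟩, ⟨364, 20, 1, 0⟩, ⟨398, 17, 2, 0⟩, ⟨405, 14, 3, 0⟩, ⟨420, 11, 4, 0⟩, ⟨400, 8, 5, 0⟩, ⟨388, 6, 6, 0⟩, ⟨400, 5, 7, 0⟩, ⟨379, 3, 8, 0⟩, ⟨382, 3, 9, 0⟩, ⟨384, 3, 10, 0⟩, ⟨384, 3, 11, 0⟩, ⟨384, 3, 12, 0⟩, ⟨362, 2, 13, 0⟩, ⟨373, 2, 14, 0⟩, ⟨373, 2, 15, 0⟩, ⟨394, 1,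 16, 0⟩, ⟨420, 0, 17, 0⟩, ⟨367, 38, 0, 1⟩, ⟨383, 14, 1, 1⟩, ⟨400, 11, 2, 1⟩, ⟨440, 9, 3, 1⟩, ⟨406, 5, 4, 1⟩, ⟨409, 3, 5, 1⟩, ⟨412, 2, 6, 1⟩, ⟨413, 2, 7, 1⟩, ⟨413, 2, 8, 1⟩, ⟨412, 2, 9, 1⟩, ⟨389, 1, 10, 1⟩, ⟨380, 1, 11, 1⟩, ⟨432, 0, 12, 1⟩, ⟨370, 26, 0, 2⟩, ⟨400, 9, 1, 2⟩, ⟨401, 5, 2, 2⟩, ⟨424, 3, 3, 2⟩, ⟨435, 2, 4, 2⟩, ⟨407, 1, 5, 2⟩, ⟨438, 0, 6, 2⟩, ⟨373, 15, 0, 3⟩, ⟨399, 3, 1, 3⟩, ⟨443, 2, 2, 3⟩, ⟨418, 1, 3, 3⟩, ⟨437, 0, 4, 3⟩, ⟨374, 9, 0, 4⟩, ⟨395, 3, 1, 4⟩, ⟨410, 1, 2, 4⟩, ⟨442, 0, 3, 4⟩, ⟨376, 7, 0, 5⟩, ⟨395, 3, 1, 5⟩, ⟨444, 0, 2, 5⟩, ⟨375, 6,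 0, 6⟩, ⟨394, 3, 1, 6⟩, ⟨442, 0, 2, 6⟩, ⟨376, 6, 0, 7⟩, ⟨374, 2, 1, 7⟩, ⟨441, 0, 2, 7⟩, ⟨370, 5, 0, 8⟩, ⟨383, 1, 1, 8⟩, ⟨440, 0, 2, 8⟩, ⟨379, 4, 0, 9⟩, ⟨436, 0, 1, 9⟩, ⟨381, 3, 0, 10⟩, ⟨435, 0, 1, 10⟩, ⟨388, 3, 0, 11⟩, ⟨434, 0, 1, 11⟩, ⟨367, 2, 0, 12⟩, ⟨434, 0, 1, 12⟩, ⟨378, 1, 0, 13⟩, ⟨433, 0, 1, 13⟩, ⟨407, 0, 0, 14⟩]⟩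
def g20 : GD := ⟨12, 4, 28, 1, [⟨296, 20, 2, 0⟩, ⟨307, 21, 2, 0⟩, ⟨322, 14, 3, 0⟩, ⟨349, 15, 3, 0⟩, ⟨368, 16, 3, 0⟩, ⟨370, 10, 4, 0⟩, ⟨380, 4, 6, 0⟩, ⟨340, 13, 2, 1⟩, ⟨408, 2, 5, 1⟩, ⟨408, 2, 6, 1⟩, ⟨380, 6, 2, 2⟩, ⟨387, 2, 3, 2⟩, ⟨332, 50, 0, 0⟩, ⟨342, 40, 1, 0⟩, ⟨350, 22, 2, 0⟩, ⟨404, 17, 3, 0⟩, ⟨395, 11, 4, 0⟩, ⟨378, 7, 5, 0⟩, ⟨410, 5, 6, 0⟩, ⟨380, 2, 7, 0⟩, ⟨382, 2, 8, 0⟩, ⟨382, 2, 9, 0⟩, ⟨381, 2, 10, 0⟩, ⟨381, 2, 11, 0⟩, ⟨380, 2, 12, 0⟩, ⟨380, 2, 13, 0⟩, ⟨380, 2, 14, 0⟩, ⟨379, 2, 15, 0⟩, ⟨385, 1, 16, 0⟩, ⟨418, 0, 17, 0⟩, ⟨336, 38, 0, 1⟩, ⟨349,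 28, 1, 1⟩, ⟨370, 14, 2, 1⟩, ⟨392, 8, 3, 1⟩, ⟨378, 4, 4, 1⟩, ⟨430, 3, 5, 1⟩, ⟨429, 3, 6, 1⟩, ⟨409, 2, 7, 1⟩, ⟨408, 2, 8, 1⟩, ⟨407, 2, 9, 1⟩, ⟨385, 1, 10, 1⟩, ⟨384, 1, 11, 1⟩, ⟨422, 0, 12, 1⟩, ⟨340, 26, 0, 2⟩, ⟨349, 17, 1, 2⟩, ⟨411, 7, 2, 2⟩, ⟨417, 3, 3, 2⟩, ⟨431, 2, 4, 2⟩, ⟨401, 1, 5, 2⟩, ⟨421, 0, 6, 2⟩, ⟨343, 15, 0, 3⟩, ⟨351, 6, 1, 3⟩, ⟨441, 2, 2, 3⟩, ⟨400, 1, 3, 3⟩, ⟨423, 0, 4, 3⟩, ⟨344, 9, 0, 4⟩, ⟨352, 4, 1, 4⟩, ⟨405, 1, 2, 4⟩, ⟨430, 0, 3, 4⟩, ⟨346, 7, 0, 5⟩, ⟨353, 3, 1, 5⟩, ⟨429, 0, 2, 5⟩, ⟨343, 6, 0, 6⟩, ⟨378, 3, 1, 6⟩, ⟨427, 0, 2, 6⟩, ⟨359, 6,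 0, 7⟩, ⟨351, 2, 1, 7⟩, ⟨426, 0, 2, 7⟩, ⟨340, 5, 0, 8⟩, ⟨348, 1, 1, 8⟩, ⟨425, 0, 2, 8⟩, ⟨345, 4, 0, 9⟩, ⟨402, 0, 1, 9⟩, ⟨341, 3, 0, 10⟩, ⟨401, 0, 1, 10⟩, ⟨367, 3, 0, 11⟩, ⟨400, 0, 1, 11⟩, ⟨342, 2, 0, 12⟩, ⟨399, 0, 1, 12⟩, ⟨343, 1, 0, 13⟩, ⟨398, 0, 1, 13⟩, ⟨377, 0, 0, 14⟩]⟩
def g21 : GD := ⟨12, 4, 20, 1, [⟨404, 11, 1, 0⟩, ⟨407, 10, 2, 0⟩, ⟨397, 9, 3, 0⟩, ⟨368, 8, 4, 0⟩, ⟨400, 4, 1, 2⟩, ⟨413, 3, 2, 2⟩, ⟨393, 4, 1, 3⟩, ⟨407, 12, 0, 0⟩, ⟨439, 12, 1, 0⟩, ⟨445, 11, 2, 0⟩, ⟨438, 10, 3, 0⟩, ⟨421, 9, 4, 0⟩, ⟨428, 8, 5, 0⟩, ⟨426, 7, 6, 0⟩, ⟨425, 7, 7, 0⟩, ⟨422,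 6, 8, 0⟩, ⟨420, 5, 9, 0⟩, ⟨419, 5, 10, 0⟩, ⟨423, 4, 11, 0⟩, ⟨421, 4, 12, 0⟩, ⟨419, 3, 13, 0⟩, ⟨415, 2, 14, 0⟩, ⟨414, 2, 15, 0⟩, ⟨417, 1, 16, 0⟩, ⟨415, 0, 17, 0⟩, ⟨422, 9, 0, 1⟩, ⟨443, 8, 1, 1⟩, ⟨441, 7, 2, 1⟩, ⟨452, 6, 3, 1⟩, ⟨449, 5, 4, 1⟩, ⟨429, 4, 5, 1⟩, ⟨428, 4, 6, 1⟩, ⟨423, 3, 7, 1⟩, ⟨418, 2, 8, 1⟩, ⟨416, 2, 9, 1⟩, ⟨418, 1, 10, 1⟩, ⟨417, 1, 11, 1⟩, ⟨444, 0, 12, 1⟩, ⟨420, 9, 0, 2⟩, ⟨426, 5, 1, 2⟩, ⟨446, 4, 2, 2⟩, ⟨445, 3, 3, 2⟩, ⟨422, 2, 4, 2⟩, ⟨422, 1, 5, 2⟩, ⟨450, 0, 6, 2⟩, ⟨418, 9, 0, 3⟩, ⟨422, 5, 1, 3⟩, ⟨425, 3, 2, 3⟩, ⟨423, 1, 3, 3⟩, ⟨446,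 0, 4, 3⟩, ⟨421, 9, 0, 4⟩, ⟨426, 4, 1, 4⟩, ⟨422, 1, 2, 4⟩, ⟨448, 0, 3, 4⟩, ⟨420, 7, 0, 5⟩, ⟨427, 3, 1, 5⟩, ⟨456, 0, 2, 5⟩, ⟨418, 6, 0, 6⟩, ⟨447, 3, 1, 6⟩, ⟨448, 0, 2, 6⟩, ⟨432, 6, 0, 7⟩, ⟨421, 2, 1, 7⟩, ⟨447, 0, 2, 7⟩, ⟨414, 5, 0, 8⟩, ⟨418, 1, 1, 8⟩, ⟨446, 0, 2, 8⟩, ⟨417, 4, 0, 9⟩, ⟨455, 0, 1, 9⟩, ⟨418, 3, 0, 10⟩, ⟨445, 0, 1, 10⟩, ⟨440, 3, 0, 11⟩, ⟨444, 0, 1, 11⟩, ⟨415, 2, 0, 12⟩, ⟨443, 0, 1, 12⟩, ⟨414, 1, 0, 13⟩, ⟨442, 0, 1, 13⟩, ⟨447, 0, 0, 14⟩]⟩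
def g22 : GD := ⟨12, 4, 20, 1, [⟨384, 14, 1, 0⟩, ⟨389, 12, 2, 0⟩, ⟨375, 10, 3, 0⟩, ⟨375, 8, 4, 0⟩, ⟨368, 4, 8, 0⟩, ⟨402, 8, 2, 1⟩, ⟨405, 6, 3, 1⟩, ⟨396, 2, 6, 1⟩, ⟨370, 5, 1, 2⟩, ⟨380, 3, 2, 2⟩, ⟨404, 2, 3, 2⟩, ⟨390, 50, 0, 0⟩, ⟨403, 15, 1, 0⟩, ⟨410, 13, 2, 0⟩, ⟨426, 11, 3, 0⟩, ⟨417, 9, 4, 0⟩, ⟨392, 7, 5, 0⟩, ⟨385, 6, 6, 0⟩, ⟨394, 5, 7, 0⟩, ⟨397, 5, 8, 0⟩, ⟨359, 3, 9, 0⟩, ⟨378, 3, 10, 0⟩, ⟨383, 3, 11, 0⟩, ⟨401, 3, 12, 0⟩, ⟨405, 3, 13, 0⟩, ⟨404, 2, 14, 0⟩, ⟨431, 2, 15, 0⟩, ⟨405, 1, 16, 0⟩, ⟨432, 0, 17, 0⟩, ⟨395, 38, 0, 1⟩, ⟨399, 10, 1, 1⟩, ⟨441, 9,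 2, 1⟩, ⟨445, 7, 3, 1⟩, ⟨420, 4, 4, 1⟩, ⟨406, 3, 5, 1⟩, ⟨423, 3, 6, 1⟩, ⟨402, 2, 7, 1⟩, ⟨406, 2, 8, 1⟩, ⟨431, 2, 9, 1⟩, ⟨406, 1, 10, 1⟩, ⟨428, 1, 11, 1⟩, ⟨436, 0, 12, 1⟩, ⟨398, 26, 0, 2⟩, ⟨406, 6, 1, 2⟩, ⟨424, 4, 2, 2⟩, ⟨453, 3, 3, 2⟩, ⟨431, 2, 4, 2⟩, ⟨407, 1, 5, 2⟩, ⟨436, 0, 6, 2⟩, ⟨402, 15, 0, 3⟩, ⟨419, 2, 1, 3⟩, ⟨432, 2, 2, 3⟩, ⟨411, 1, 3, 3⟩, ⟨431, 0, 4, 3⟩, ⟨402, 9, 0, 4⟩, ⟨415, 2, 1, 4⟩, ⟨409, 1, 2, 4⟩, ⟨446, 0, 3, 4⟩, ⟨404, 7, 0, 5⟩, ⟨412, 2, 1, 5⟩, ⟨450, 0, 2, 5⟩, ⟨402, 6, 0, 6⟩, ⟨410, 2, 1, 6⟩, ⟨448, 0, 2, 6⟩, ⟨401, 6, 0, 7⟩, ⟨410, 2, 1, 7⟩,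 ⟨447, 0, 2, 7⟩, ⟨398, 5, 0, 8⟩, ⟨407, 1, 1, 8⟩, ⟨446, 0, 2, 8⟩, ⟨403, 4, 0, 9⟩, ⟨444, 0, 1, 9⟩, ⟨404, 3, 0, 10⟩, ⟨442, 0, 1, 10⟩, ⟨410, 3, 0, 11⟩, ⟨441, 0, 1, 11⟩, ⟨394, 2, 0, 12⟩, ⟨440, 0, 1, 12⟩, ⟨401, 1, 0, 13⟩, ⟨440, 0, 1, 13⟩, ⟨429, 0, 0, 14⟩]⟩
def g23 : GD := ⟨12, 4, 20, 1, [⟨365, 12, 1, 0⟩, ⟨417, 11, 2, 0⟩, ⟨354, 8, 4, 0⟩, ⟨397, 8, 1, 1⟩, ⟨400, 4, 1, 2⟩, ⟨416, 3, 2, 2⟩, ⟨419, 14, 0, 0⟩, ⟨439, 13, 1, 0⟩, ⟨443, 12, 2, 0⟩, ⟨432, 10, 3, 0⟩, ⟨443, 9, 4, 0⟩, ⟨432, 8, 5, 0⟩, ⟨431, 7, 6, 0⟩, ⟨410, 6, 7, 0⟩, ⟨401, 5, 8, 0⟩, ⟨425, 5, 9, 0⟩, ⟨416, 4, 10,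 0⟩, ⟨402, 3, 11, 0⟩, ⟨412, 3, 12, 0⟩, ⟨424, 3, 13, 0⟩, ⟨421, 2, 14, 0⟩, ⟨441, 2, 15, 0⟩, ⟨423, 1, 16, 0⟩, ⟨443, 0, 17, 0⟩, ⟨407, 10, 0, 1⟩, ⟨448, 9, 1, 1⟩, ⟨420, 7, 2, 1⟩, ⟨439, 6, 3, 1⟩, ⟨454, 5, 4, 1⟩, ⟨437, 4, 5, 1⟩, ⟨417, 3, 6, 1⟩, ⟨402, 2, 7, 1⟩, ⟨423, 2, 8, 1⟩, ⟨442, 2, 9, 1⟩, ⟨424, 1, 10, 1⟩, ⟨439, 1, 11, 1⟩, ⟨454, 0, 12, 1⟩, ⟨406, 10, 0, 2⟩, ⟨444, 5, 1, 2⟩, ⟨461, 4, 2, 2⟩, ⟨436, 2, 3, 2⟩, ⟨434, 2, 4, 2⟩, ⟨427, 1, 5, 2⟩, ⟨457, 0, 6, 2⟩, ⟨405, 10, 0, 3⟩, ⟨427, 2, 1, 3⟩, ⟨432, 2, 2, 3⟩, ⟨428, 1, 3, 3⟩, ⟨450, 0, 4, 3⟩, ⟨423, 9, 0, 4⟩, ⟨423, 2,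 1, 4⟩, ⟨427, 1, 2, 4⟩, ⟨458, 0, 3, 4⟩, ⟨425, 7, 0, 5⟩, ⟨421, 2, 1, 5⟩, ⟨466, 0, 2, 5⟩, ⟨423, 6, 0, 6⟩, ⟨426, 2, 1, 6⟩, ⟨461, 0, 2, 6⟩, ⟨437, 6, 0, 7⟩, ⟨427, 2, 1, 7⟩, ⟨459, 0, 2, 7⟩, ⟨419, 5, 0, 8⟩, ⟨432, 1, 1, 8⟩, ⟨458, 0, 2, 8⟩, ⟨428, 4, 0, 9⟩, ⟨464, 0, 1, 9⟩, ⟨428, 3, 0, 10⟩, ⟨455, 0, 1, 10⟩, ⟨446, 3, 0, 11⟩, ⟨455, 0, 1, 11⟩, ⟨421, 2, 0, 12⟩, ⟨454, 0, 1, 12⟩, ⟨427, 1, 0, 13⟩, ⟨453, 0, 1, 13⟩, ⟨456, 0, 0, 14⟩]⟩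
def g24 : GD := ⟨8, 4, 28, 1, [⟨397, 10, 3, 0⟩, ⟨417, 3, 4, 0⟩, ⟨437, 4, 4, 0⟩, ⟨417, 8, 2, 1⟩, ⟨419, 50, 0, 0⟩, ⟨312, 30, 1, 0⟩, ⟨398, 20, 2, 0⟩, ⟨419, 11, 3, 0⟩, ⟨458, 5, 4, 0⟩, ⟨478, 0, 5, 0⟩, ⟨424, 38, 0, 1⟩, ⟨399, 17, 1, 1⟩, ⟨450, 9, 2, 1⟩, ⟨486, 0, 3, 1⟩, ⟨427, 26, 0, 2⟩, ⟨411, 5, 1, 2⟩, ⟨487, 0, 2, 2⟩, ⟨431, 15, 0, 3⟩, ⟨470, 1, 1, 3⟩, ⟨482, 0, 2, 3⟩, ⟨431, 9, 0, 4⟩, ⟨463, 1, 1, 4⟩, ⟨479, 0, 2, 4⟩, ⟨433, 7, 0, 5⟩, ⟨459, 1, 1, 5⟩, ⟨477, 0, 2, 5⟩, ⟨430, 6, 0, 6⟩, ⟨456, 1, 1, 6⟩, ⟨475, 0, 2, 6⟩, ⟨431, 6, 0, 7⟩, ⟨454, 1, 1, 7⟩, ⟨474, 0, 2, 7⟩, ⟨427,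 5, 0, 8⟩, ⟨452, 1, 1, 8⟩, ⟨473, 0, 2, 8⟩, ⟨430, 4, 0, 9⟩, ⟨473, 0, 1, 9⟩, ⟨427, 3, 0, 10⟩, ⟨472, 0, 1, 10⟩, ⟨429, 3, 0, 11⟩, ⟨471, 0, 1, 11⟩, ⟨422, 2, 0, 12⟩, ⟨471, 0, 1, 12⟩, ⟨425, 1, 0, 13⟩, ⟨470, 0, 1, 13⟩, ⟨434, 0, 0, 14⟩]⟩
def g25 : GD := ⟨8, 4, 36, 1, [⟨253, 26, 1, 0⟩, ⟨278, 27, 1, 0⟩, ⟨310, 28, 1, 0⟩, ⟨297, 18, 2, 0⟩, ⟨319, 19, 2, 0⟩, ⟨354, 20, 2, 0⟩, ⟨315, 10, 3, 0⟩, ⟨356, 11, 3, 0⟩, ⟨390, 12, 3, 0⟩, ⟨323, 4, 4, 0⟩, ⟨375, 5, 4, 0⟩, ⟨391, 6, 4, 0⟩, ⟨306, 16, 1, 1⟩, ⟨331, 17, 1, 1⟩, ⟨361, 18, 1, 1⟩, ⟨341, 8, 2, 1⟩, ⟨394, 10, 2, 1⟩, ⟨386, 3, 3,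 1⟩, ⟨415, 4, 3, 1⟩, ⟨378, 7, 1, 2⟩, ⟨401, 8, 1, 2⟩, ⟨425, 2, 2, 2⟩, ⟨426, 2, 1, 3⟩, ⟨395, 50, 0, 0⟩, ⟨344, 29, 1, 0⟩, ⟨373, 21, 2, 0⟩, ⟨416, 13, 3, 0⟩, ⟨428, 7, 4, 0⟩, ⟨424, 2, 5, 0⟩, ⟨423, 2, 6, 0⟩, ⟨422, 2, 7, 0⟩, ⟨420, 2, 8, 0⟩, ⟨419, 2, 9, 0⟩, ⟨418, 2, 10, 0⟩, ⟨417, 2, 11, 0⟩, ⟨417, 2, 12, 0⟩, ⟨416, 2, 13, 0⟩, ⟨417, 2, 14, 0⟩, ⟨436, 2, 15, 0⟩, ⟨411, 1, 16, 0⟩, ⟨439, 0, 17, 0⟩, ⟨400, 38, 0, 1⟩, ⟨390, 19, 1, 1⟩, ⟨434, 11, 2, 1⟩, ⟨447, 5, 3, 1⟩, ⟨432, 2, 4, 1⟩, ⟨429, 2, 5, 1⟩, ⟨426, 2, 6, 1⟩, ⟨424, 2, 7, 1⟩, ⟨422, 2, 8, 1⟩, ⟨433, 2, 9, 1⟩, ⟨411, 1,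 10, 1⟩, ⟨433, 1, 11, 1⟩, ⟨441, 0, 12, 1⟩, ⟨403, 26, 0, 2⟩, ⟨435, 9, 1, 2⟩, ⟨453, 3, 2, 2⟩, ⟨436, 2, 3, 2⟩, ⟨440, 2, 4, 2⟩, ⟨417, 1, 5, 2⟩, ⟨437, 0, 6, 2⟩, ⟨406, 15, 0, 3⟩, ⟨447, 3, 1, 3⟩, ⟨437, 2, 2, 3⟩, ⟨414, 1, 3, 3⟩, ⟨430, 0, 4, 3⟩, ⟨407, 9, 0, 4⟩, ⟨424, 2, 1, 4⟩, ⟨414, 1, 2, 4⟩, ⟨438, 0, 3, 4⟩, ⟨409, 7, 0, 5⟩, ⟨421, 2, 1, 5⟩, ⟨447, 0, 2, 5⟩, ⟨406, 6, 0, 6⟩, ⟨419, 2, 1, 6⟩, ⟨445, 0, 2, 6⟩, ⟨402, 6, 0, 7⟩, ⟨418, 2, 1, 7⟩, ⟨444, 0, 2, 7⟩, ⟨403, 5, 0, 8⟩, ⟨407, 1, 1, 8⟩, ⟨443, 0, 2, 8⟩, ⟨406, 4, 0, 9⟩, ⟨444, 0, 1, 9⟩, ⟨402, 3, 0, 10⟩, ⟨443, 0, 1, 10⟩,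 ⟨398, 3, 0, 11⟩, ⟨442, 0, 1, 11⟩, ⟨398, 2, 0, 12⟩, ⟨441, 0, 1, 12⟩, ⟨401, 1, 0, 13⟩, ⟨441, 0, 1, 13⟩, ⟨399, 0, 0, 14⟩]⟩
def g26 : GD := ⟨12, 4, 20, 1, [⟨374, 12, 1, 0⟩, ⟨405, 11, 2, 0⟩, ⟨388, 8, 4, 0⟩, ⟨362, 5, 7, 0⟩, ⟨328, 3, 10, 0⟩, ⟨390, 7, 2, 1⟩, ⟨425, 6, 3, 1⟩, ⟨407, 5, 1, 2⟩, ⟨370, 3, 2, 2⟩, ⟨398, 2, 3, 2⟩, ⟨400, 14, 0, 0⟩, ⟨413, 13, 1, 0⟩, ⟨435, 12, 2, 0⟩, ⟨429, 10, 3, 0⟩, ⟨434, 9, 4, 0⟩, ⟨397, 7, 5, 0⟩, ⟨394, 6, 6, 0⟩, ⟨400, 6, 7, 0⟩, ⟨390, 5, 8, 0⟩, ⟨388, 4, 9, 0⟩, ⟨407, 4, 10, 0⟩, ⟨390, 3, 11, 0⟩, ⟨404, 3, 12, 0⟩, ⟨413, 3, 13, 0⟩, ⟨410, 2,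 14, 0⟩, ⟨433, 2, 15, 0⟩, ⟨412, 1, 16, 0⟩, ⟨435, 0, 17, 0⟩, ⟨392, 10, 0, 1⟩, ⟨419, 9, 1, 1⟩, ⟨444, 8, 2, 1⟩, ⟨449, 7, 3, 1⟩, ⟨447, 5, 4, 1⟩, ⟨432, 4, 5, 1⟩, ⟨415, 3, 6, 1⟩, ⟨393, 2, 7, 1⟩, ⟨411, 2, 8, 1⟩, ⟨434, 2, 9, 1⟩, ⟨413, 1, 10, 1⟩, ⟨431, 1, 11, 1⟩, ⟨444, 0, 12, 1⟩, ⟨391, 10, 0, 2⟩, ⟨428, 6, 1, 2⟩, ⟨436, 4, 2, 2⟩, ⟨443, 3, 3, 2⟩, ⟨419, 2, 4, 2⟩, ⟨416, 1, 5, 2⟩, ⟨447, 0, 6, 2⟩, ⟨389, 10, 0, 3⟩, ⟨421, 2, 1, 3⟩, ⟨412, 2, 2, 3⟩, ⟨417, 1, 3, 3⟩, ⟨442, 0, 4, 3⟩, ⟨411, 9, 0, 4⟩, ⟨417, 2, 1, 4⟩, ⟨416, 1, 2, 4⟩, ⟨450, 0, 3, 4⟩, ⟨414, 7, 0, 5⟩, ⟨414, 2,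 1, 5⟩, ⟨457, 0, 2, 5⟩, ⟨413, 6, 0, 6⟩, ⟨413, 2, 1, 6⟩, ⟨452, 0, 2, 6⟩, ⟨419, 6, 0, 7⟩, ⟨414, 2, 1, 7⟩, ⟨451, 0, 2, 7⟩, ⟨407, 5, 0, 8⟩, ⟨420, 1, 1, 8⟩, ⟨450, 0, 2, 8⟩, ⟨416, 4, 0, 9⟩, ⟨454, 0, 1, 9⟩, ⟨418, 3, 0, 10⟩, ⟨447, 0, 1, 10⟩, ⟨428, 3, 0, 11⟩, ⟨446, 0, 1, 11⟩, ⟨406, 2, 0, 12⟩, ⟨446, 0, 1, 12⟩, ⟨415, 1, 0, 13⟩, ⟨445, 0, 1, 13⟩, ⟨444, 0, 0, 14⟩]⟩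
def g27 : GD := ⟨8, 4, 32, 1, [⟨258, 27, 1, 0⟩, ⟨284, 28, 1, 0⟩, ⟨287, 18, 2, 0⟩, ⟨321, 19, 2, 0⟩, ⟨348, 20, 2, 0⟩, ⟨306, 9, 3, 0⟩, ⟨334, 10, 3, 0⟩, ⟨376, 11, 3, 0⟩, ⟨337, 2, 4, 0⟩, ⟨367, 3, 4, 0⟩, ⟨399, 4, 4, 0⟩, ⟨316, 16, 1, 1⟩, ⟨349, 17, 1, 1⟩, ⟨350, 7, 2, 1⟩, ⟨402, 9, 2, 1⟩, ⟨404, 1, 3, 1⟩, ⟨430, 2, 3, 1⟩, ⟨396, 6, 1, 2⟩, ⟨427, 7, 1, 2⟩, ⟨418, 1, 1, 3⟩, ⟨415, 1, 1, 4⟩, ⟨413, 1, 1, 5⟩, ⟨411, 1, 1, 6⟩, ⟨381, 50, 0, 0⟩, ⟨313, 29, 1, 0⟩, ⟨372, 21, 2, 0⟩, ⟨407, 12, 3, 0⟩, ⟨429, 5, 4, 0⟩, ⟨418, 1, 5, 0⟩, ⟨417, 1, 6, 0⟩, ⟨415, 1, 7, 0⟩, ⟨414, 1, 8, 0⟩,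 ⟨412, 1, 9, 0⟩, ⟨411, 1, 10, 0⟩, ⟨410, 1, 11, 0⟩, ⟨409, 1, 12, 0⟩, ⟨408, 1, 13, 0⟩, ⟨408, 1, 14, 0⟩, ⟨407, 1, 15, 0⟩, ⟨407, 1, 16, 0⟩, ⟨429, 0, 17, 0⟩, ⟨385, 38, 0, 1⟩, ⟨388, 18, 1, 1⟩, ⟨438, 10, 2, 1⟩, ⟨451, 3, 3, 1⟩, ⟨437, 1, 4, 1⟩, ⟨435, 1, 5, 1⟩, ⟨433, 1, 6, 1⟩, ⟨432, 1, 7, 1⟩, ⟨431, 1, 8, 1⟩, ⟨430, 1, 9, 1⟩, ⟨429, 1, 10, 1⟩, ⟨428, 1, 11, 1⟩, ⟨431, 0, 12, 1⟩, ⟨389, 26, 0, 2⟩, ⟨454, 8, 1, 2⟩, ⟨457, 1, 2, 2⟩, ⟨449, 1, 3, 2⟩, ⟨443, 1, 4, 2⟩, ⟨439, 1, 5, 2⟩, ⟨427, 0, 6, 2⟩, ⟨392, 15, 0, 3⟩, ⟨449, 2, 1, 3⟩, ⟨441, 1, 2, 3⟩, ⟨428, 1, 3, 3⟩, ⟨423, 0, 4,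 3⟩, ⟨393, 9, 0, 4⟩, ⟨440, 2, 1, 4⟩, ⟨436, 1, 2, 4⟩, ⟨429, 0, 3, 4⟩, ⟨395, 7, 0, 5⟩, ⟨435, 2, 1, 5⟩, ⟨439, 0, 2, 5⟩, ⟨392, 6, 0, 6⟩, ⟨432, 2, 1, 6⟩, ⟨437, 0, 2, 6⟩, ⟨389, 6, 0, 7⟩, ⟨411, 1, 1, 7⟩, ⟨436, 0, 2, 7⟩, ⟨388, 5, 0, 8⟩, ⟨410, 1, 1, 8⟩, ⟨434, 0, 2, 8⟩, ⟨391, 4, 0, 9⟩, ⟨434, 0, 1, 9⟩, ⟨388, 3, 0, 10⟩, ⟨433, 0, 1, 10⟩, ⟨387, 3, 0, 11⟩, ⟨433, 0, 1, 11⟩, ⟨384, 2, 0, 12⟩, ⟨432, 0, 1, 12⟩, ⟨387, 1, 0, 13⟩, ⟨431, 0, 1, 13⟩, ⟨389, 0, 0, 14⟩]⟩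
def g28 : GD := ⟨8, 4, 28, 1, [⟨385, 20, 2, 0⟩, ⟨384, 10, 3, 0⟩, ⟨429, 11, 3, 0⟩, ⟨413, 3, 4, 0⟩, ⟨426, 8, 2, 1⟩, ⟨412, 5, 1, 2⟩, ⟨446, 6, 1, 2⟩, ⟨419, 50, 0, 0⟩, ⟨314, 30, 1, 0⟩, ⟨404, 21, 2, 0⟩, ⟨456, 12, 3, 0⟩, ⟨455, 4, 4, 0⟩, ⟨479, 0, 5, 0⟩, ⟨424, 38, 0, 1⟩, ⟨393, 17, 1, 1⟩, ⟨454, 9, 2, 1⟩, ⟨488, 0, 3, 1⟩, ⟨427, 26, 0, 2⟩, ⟨465, 7, 1, 2⟩, ⟨488, 0, 2, 2⟩, ⟨431, 15, 0, 3⟩, ⟨468, 1, 1, 3⟩, ⟨482, 0, 2, 3⟩, ⟨431, 9, 0, 4⟩, ⟨460, 1, 1, 4⟩, ⟨479, 0, 2, 4⟩, ⟨433, 7, 0, 5⟩, ⟨456, 1, 1, 5⟩, ⟨477, 0, 2, 5⟩, ⟨430, 6, 0, 6⟩, ⟨454, 1, 1, 6⟩, ⟨476, 0, 2, 6⟩,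 ⟨430, 6, 0, 7⟩, ⟨452, 1, 1, 7⟩, ⟨474, 0, 2, 7⟩, ⟨427, 5, 0, 8⟩, ⟨450, 1, 1, 8⟩, ⟨473, 0, 2, 8⟩, ⟨430, 4, 0, 9⟩, ⟨473, 0, 1, 9⟩, ⟨427, 3, 0, 10⟩, ⟨472, 0, 1, 10⟩, ⟨428, 3, 0, 11⟩, ⟨471, 0, 1, 11⟩, ⟨423, 2, 0, 12⟩, ⟨470, 0, 1, 12⟩, ⟨426, 1, 0, 13⟩, ⟨470, 0, 1, 13⟩, ⟨432, 0, 0, 14⟩]⟩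
def g29 : GD := ⟨8, 4, 32, 1, [⟨240, 28, 1, 0⟩, ⟨279, 29, 1, 0⟩, ⟨292, 19, 2, 0⟩, ⟨322, 20, 2, 0⟩, ⟨317, 10, 3, 0⟩, ⟨383, 11, 3, 0⟩, ⟨413, 12, 3, 0⟩, ⟨367, 3, 4, 0⟩, ⟨411, 4, 4, 0⟩, ⟨334, 17, 1, 1⟩, ⟨375, 18, 1, 1⟩, ⟨411, 9, 2, 1⟩, ⟨435, 10, 2, 1⟩, ⟨413, 1, 3, 1⟩, ⟨377, 6, 1, 2⟩, ⟨438, 7, 1, 2⟩, ⟨422, 1, 1, 3⟩, ⟨419, 1, 1, 4⟩, ⟨417, 1, 1, 5⟩, ⟨415, 1, 1, 6⟩, ⟨397, 50, 0, 0⟩, ⟨326, 30, 1, 0⟩, ⟨385, 21, 2, 0⟩, ⟨434, 13, 3, 0⟩, ⟨452, 5, 4, 0⟩, ⟨421, 1, 5, 0⟩, ⟨419, 1, 6, 0⟩, ⟨418, 1, 7, 0⟩, ⟨416, 1, 8, 0⟩, ⟨415, 1, 9, 0⟩, ⟨414, 1, 10, 0⟩, ⟨413, 1, 11,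 0⟩, ⟨412, 1, 12, 0⟩, ⟨411, 1, 13, 0⟩, ⟨410, 1, 14, 0⟩, ⟨421, 1, 15, 0⟩, ⟨421, 1, 16, 0⟩, ⟨443, 0, 17, 0⟩, ⟨402, 38, 0, 1⟩, ⟨404, 19, 1, 1⟩, ⟨458, 11, 2, 1⟩, ⟨457, 2, 3, 1⟩, ⟨442, 1, 4, 1⟩, ⟨439, 1, 5, 1⟩, ⟨437, 1, 6, 1⟩, ⟨436, 1, 7, 1⟩, ⟨434, 1, 8, 1⟩, ⟨433, 1, 9, 1⟩, ⟨432, 1, 10, 1⟩, ⟨441, 1, 11, 1⟩, ⟨444, 0, 12, 1⟩, ⟨405, 26, 0, 2⟩, ⟨462, 8, 1, 2⟩, ⟨454, 1, 2, 2⟩, ⟨444, 1, 3, 2⟩, ⟨444, 1, 4, 2⟩, ⟨442, 1, 5, 2⟩, ⟨439, 0, 6, 2⟩, ⟨409, 15, 0, 3⟩, ⟨463, 2, 1, 3⟩, ⟨443, 1, 2, 3⟩, ⟨438, 1, 3, 3⟩, ⟨427, 0, 4, 3⟩, ⟨409, 9, 0, 4⟩, ⟨455, 2, 1, 4⟩, ⟨439, 1,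 2, 4⟩, ⟨444, 0, 3, 4⟩, ⟨412, 7, 0, 5⟩, ⟨450, 2, 1, 5⟩, ⟨452, 0, 2, 5⟩, ⟨408, 6, 0, 6⟩, ⟨448, 2, 1, 6⟩, ⟨451, 0, 2, 6⟩, ⟨405, 6, 0, 7⟩, ⟨421, 1, 1, 7⟩, ⟨449, 0, 2, 7⟩, ⟨405, 5, 0, 8⟩, ⟨420, 1, 1, 8⟩, ⟨448, 0, 2, 8⟩, ⟨408, 4, 0, 9⟩, ⟨449, 0, 1, 9⟩, ⟨405, 3, 0, 10⟩, ⟨448, 0, 1, 10⟩, ⟨402, 3, 0, 11⟩, ⟨447, 0, 1, 11⟩, ⟨401, 2, 0, 12⟩, ⟨446, 0, 1, 12⟩, ⟨404, 1, 0, 13⟩, ⟨445, 0, 1, 13⟩, ⟨404, 0, 0, 14⟩]⟩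
def ga0 : GD := ⟨4, 3, 7, 1, [⟨399, 0, 2, 0⟩, ⟨409, 0, 1, 1⟩, ⟨402, 1, 1, 1⟩, ⟨396, 2, 1, 1⟩, ⟨398, 3, 1, 1⟩, ⟨393, 4, 1, 1⟩, ⟨376, 5, 1, 1⟩, ⟨398, 0, 2, 1⟩, ⟨398, 0, 1, 2⟩, ⟨411, 50, 0, 0⟩, ⟨422, 40, 1, 0⟩, ⟨378, 1, 2, 0⟩, ⟨405, 0, 3, 0⟩, ⟨416, 38, 0, 1⟩, ⟨392, 6, 1, 1⟩, ⟨388, 1, 2, 1⟩, ⟨403, 0, 3, 1⟩, ⟨419, 26, 0, 2⟩, ⟨393, 1, 1, 2⟩, ⟨398, 0, 2, 2⟩, ⟨422, 15, 0, 3⟩, ⟨403, 0, 1, 3⟩, ⟨423, 9, 0, 4⟩, ⟨400, 0, 1, 4⟩, ⟨425, 7, 0, 5⟩, ⟨398, 0, 1, 5⟩, ⟨422, 6, 0, 6⟩, ⟨396, 0, 1, 6⟩, ⟨418, 6, 0, 7⟩, ⟨395, 0, 1, 7⟩, ⟨418, 5, 0, 8⟩, ⟨399, 0, 1, 8⟩, ⟨422, 4,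 0, 9⟩, ⟨423, 0, 1, 9⟩, ⟨418, 3, 0, 10⟩, ⟨421, 0, 1, 10⟩, ⟨414, 3, 0, 11⟩, ⟨420, 0, 1, 11⟩, ⟨414, 2, 0, 12⟩, ⟨419, 0, 1, 12⟩, ⟨417, 1, 0, 13⟩, ⟨418, 0, 1, 13⟩, ⟨415, 0, 0, 14⟩]⟩
def gb0 : GD := ⟨4, 4, 0, 1, [⟨402, 50, 0, 0⟩, ⟨413, 40, 1, 0⟩, ⟨370, 1, 2, 0⟩, ⟨397, 0, 3, 0⟩, ⟨407, 38, 0, 1⟩, ⟨383, 6, 1, 1⟩, ⟨380, 1, 2, 1⟩, ⟨395, 0, 3, 1⟩, ⟨410, 26, 0, 2⟩, ⟨384, 1, 1, 2⟩, ⟨389, 0, 2, 2⟩, ⟨414, 15, 0, 3⟩, ⟨394, 0, 1, 3⟩, ⟨415, 9, 0, 4⟩, ⟨391, 0, 1, 4⟩, ⟨417, 7, 0, 5⟩, ⟨389, 0, 1, 5⟩, ⟨413, 6, 0, 6⟩, ⟨388, 0, 1, 6⟩, ⟨409, 6, 0, 7⟩, ⟨386, 0, 1, 7⟩, ⟨410,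 5, 0, 8⟩, ⟨391, 0, 1, 8⟩, ⟨413, 4, 0, 9⟩, ⟨415, 0, 1, 9⟩, ⟨410, 3, 0, 10⟩, ⟨412, 0, 1, 10⟩, ⟨406, 3, 0, 11⟩, ⟨411, 0, 1, 11⟩, ⟨406, 2, 0, 12⟩, ⟨410, 0, 1, 12⟩, ⟨409, 1, 0, 13⟩, ⟨410, 0, 1, 13⟩, ⟨407, 0, 0, 14⟩]⟩
def ga1 : GD := ⟨4, 3, 7, 1, [⟨399, 0, 2, 0⟩, ⟨409, 0, 1, 1⟩, ⟨402, 1, 1, 1⟩, ⟨396, 2, 1, 1⟩, ⟨398, 3, 1, 1⟩, ⟨393, 4, 1, 1⟩, ⟨376, 5, 1, 1⟩, ⟨398, 0, 2, 1⟩, ⟨398, 0, 1, 2⟩, ⟨411, 50, 0, 0⟩, ⟨422, 40, 1, 0⟩, ⟨378, 1, 2, 0⟩, ⟨405, 0, 3, 0⟩, ⟨416, 38, 0, 1⟩, ⟨392, 6, 1, 1⟩, ⟨388, 1, 2, 1⟩, ⟨403, 0, 3, 1⟩, ⟨419, 26, 0, 2⟩, ⟨393, 1, 1, 2⟩, ⟨398,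 0, 2, 2⟩, ⟨422, 15, 0, 3⟩, ⟨403, 0, 1, 3⟩, ⟨423, 9, 0, 4⟩, ⟨400, 0, 1, 4⟩, ⟨425, 7, 0, 5⟩, ⟨398, 0, 1, 5⟩, ⟨422, 6, 0, 6⟩, ⟨396, 0, 1, 6⟩, ⟨418, 6, 0, 7⟩, ⟨395, 0, 1, 7⟩, ⟨418, 5, 0, 8⟩, ⟨399, 0, 1, 8⟩, ⟨422, 4, 0, 9⟩, ⟨423, 0, 1, 9⟩, ⟨418, 3, 0, 10⟩, ⟨421, 0, 1, 10⟩, ⟨414, 3, 0, 11⟩, ⟨420, 0, 1, 11⟩, ⟨414, 2, 0, 12⟩, ⟨419, 0, 1, 12⟩, ⟨417, 1, 0, 13⟩, ⟨418, 0, 1, 13⟩, ⟨415, 0, 0, 14⟩]⟩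
def gb1 : GD := ⟨8, 0, 0, 1, [⟨413, 50, 0, 0⟩, ⟨423, 40, 1, 0⟩, ⟨380, 1, 2, 0⟩, ⟨407, 0, 3, 0⟩, ⟨417, 38, 0, 1⟩, ⟨393, 6, 1, 1⟩, ⟨390, 1, 2, 1⟩, ⟨405, 0, 3, 1⟩, ⟨421, 26, 0, 2⟩, ⟨395, 1, 1, 2⟩, ⟨400, 0, 2, 2⟩, ⟨424, 15, 0, 3⟩, ⟨405, 0, 1, 3⟩, ⟨425, 9, 0, 4⟩, ⟨402, 0, 1, 4⟩, ⟨427, 7, 0, 5⟩, ⟨400, 0, 1, 5⟩, ⟨423, 6, 0, 6⟩, ⟨398, 0, 1, 6⟩, ⟨419, 6, 0, 7⟩, ⟨396, 0, 1, 7⟩, ⟨420, 5, 0, 8⟩, ⟨401, 0, 1, 8⟩, ⟨423, 4, 0, 9⟩, ⟨425, 0, 1, 9⟩, ⟨420, 3, 0, 10⟩, ⟨423, 0, 1, 10⟩, ⟨416, 3, 0, 11⟩, ⟨421, 0, 1, 11⟩, ⟨416, 2, 0, 12⟩, ⟨421, 0, 1, 12⟩, ⟨419, 1, 0, 13⟩,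 ⟨420, 0, 1, 13⟩, ⟨417, 0, 0, 14⟩]⟩
def ga2 : GD := ⟨6, 1, 7, 1, [⟨398, 0, 2, 0⟩, ⟨394, 1, 2, 0⟩, ⟨388, 2, 2, 0⟩, ⟨394, 3, 2, 0⟩, ⟨389, 0, 1, 1⟩, ⟨401, 1, 1, 1⟩, ⟨393, 2, 1, 1⟩, ⟨384, 0, 2, 1⟩, ⟨384, 1, 2, 1⟩, ⟨411, 50, 0, 0⟩, ⟨422, 40, 1, 0⟩, ⟨387, 4, 2, 0⟩, ⟨402, 0, 3, 0⟩, ⟨416, 38, 0, 1⟩, ⟨383, 3, 1, 1⟩, ⟨384, 2, 2, 1⟩, ⟨398, 0, 3, 1⟩, ⟨419, 26, 0, 2⟩, ⟨402, 0, 1, 2⟩, ⟨422, 15, 0, 3⟩, ⟨398, 0, 1, 3⟩, ⟨423, 9, 0, 4⟩, ⟨396, 0, 1, 4⟩, ⟨425, 7, 0, 5⟩, ⟨394, 0, 1, 5⟩, ⟨422, 6, 0, 6⟩, ⟨392, 0, 1, 6⟩, ⟨418, 6, 0, 7⟩, ⟨391, 0, 1, 7⟩, ⟨418, 5, 0, 8⟩, ⟨398,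 0, 1, 8⟩, ⟨422, 4, 0, 9⟩, ⟨423, 0, 1, 9⟩, ⟨418, 3, 0, 10⟩, ⟨421, 0, 1, 10⟩, ⟨414, 3, 0, 11⟩, ⟨420, 0, 1, 11⟩, ⟨414, 2, 0, 12⟩, ⟨419, 0, 1, 12⟩, ⟨417, 1, 0, 13⟩, ⟨418, 0, 1, 13⟩, ⟨415, 0, 0, 14⟩]⟩
def gb2 : GD := ⟨4, 4, 0, 1, [⟨422, 50, 0, 0⟩, ⟨433, 40, 1, 0⟩, ⟨398, 4, 2, 0⟩, ⟨414, 0, 3, 0⟩, ⟨427, 38, 0, 1⟩, ⟨395, 3, 1, 1⟩, ⟨396, 2, 2, 1⟩, ⟨410, 0, 3, 1⟩, ⟨430, 26, 0, 2⟩, ⟨414, 0, 1, 2⟩, ⟨434, 15, 0, 3⟩, ⟨410, 0, 1, 3⟩, ⟨435, 9, 0, 4⟩, ⟨407, 0, 1, 4⟩, ⟨437, 7, 0, 5⟩, ⟨405, 0, 1, 5⟩, ⟨433, 6, 0, 6⟩, ⟨403, 0, 1, 6⟩, ⟨429, 6, 0, 7⟩, ⟨402, 0, 1, 7⟩, ⟨430,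 5, 0, 8⟩, ⟨410, 0, 1, 8⟩, ⟨433, 4, 0, 9⟩, ⟨435, 0, 1, 9⟩, ⟨430, 3, 0, 10⟩, ⟨432, 0, 1, 10⟩, ⟨426, 3, 0, 11⟩, ⟨431, 0, 1, 11⟩, ⟨426, 2, 0, 12⟩, ⟨430, 0, 1, 12⟩, ⟨429, 1, 0, 13⟩, ⟨430, 0, 1, 13⟩, ⟨427, 0, 0, 14⟩]⟩
def ga3 : GD := ⟨6, 1, 7, 1, [⟨398, 0, 2, 0⟩, ⟨394, 1, 2, 0⟩, ⟨388, 2, 2, 0⟩, ⟨394, 3, 2, 0⟩, ⟨389, 0, 1, 1⟩, ⟨401, 1, 1, 1⟩, ⟨393, 2, 1, 1⟩, ⟨384, 0, 2, 1⟩, ⟨384, 1, 2, 1⟩, ⟨411, 50, 0, 0⟩, ⟨422, 40, 1, 0⟩, ⟨387, 4, 2, 0⟩, ⟨402, 0, 3, 0⟩, ⟨416, 38, 0, 1⟩, ⟨383, 3, 1, 1⟩, ⟨384, 2, 2, 1⟩, ⟨398, 0, 3, 1⟩, ⟨419, 26, 0, 2⟩, ⟨402, 0, 1, 2⟩, ⟨422,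 15, 0, 3⟩, ⟨398, 0, 1, 3⟩, ⟨423, 9, 0, 4⟩, ⟨396, 0, 1, 4⟩, ⟨425, 7, 0, 5⟩, ⟨394, 0, 1, 5⟩, ⟨422, 6, 0, 6⟩, ⟨392, 0, 1, 6⟩, ⟨418, 6, 0, 7⟩, ⟨391, 0, 1, 7⟩, ⟨418, 5, 0, 8⟩, ⟨398, 0, 1, 8⟩, ⟨422, 4, 0, 9⟩, ⟨423, 0, 1, 9⟩, ⟨418, 3, 0, 10⟩, ⟨421, 0, 1, 10⟩, ⟨414, 3, 0, 11⟩, ⟨420, 0, 1, 11⟩, ⟨414, 2, 0, 12⟩, ⟨419, 0, 1, 12⟩, ⟨417, 1, 0, 13⟩, ⟨418, 0, 1, 13⟩, ⟨415, 0, 0, 14⟩]⟩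
def gb3 : GD := ⟨8, 0, 0, 1, [⟨414, 50, 0, 0⟩, ⟨425, 40, 1, 0⟩, ⟨390, 4, 2, 0⟩, ⟨405, 0, 3, 0⟩, ⟨419, 38, 0, 1⟩, ⟨386, 3, 1, 1⟩, ⟨387, 2, 2, 1⟩, ⟨401, 0, 3, 1⟩, ⟨422, 26, 0, 2⟩, ⟨405, 0, 1, 2⟩, ⟨425, 15, 0, 3⟩, ⟨401, 0, 1, 3⟩, ⟨426, 9, 0, 4⟩, ⟨399, 0, 1, 4⟩, ⟨428, 7, 0, 5⟩, ⟨397, 0, 1, 5⟩, ⟨425, 6, 0, 6⟩, ⟨395, 0, 1, 6⟩, ⟨421, 6, 0, 7⟩, ⟨394, 0, 1, 7⟩, ⟨421, 5, 0, 8⟩, ⟨401, 0, 1, 8⟩, ⟨425, 4, 0, 9⟩, ⟨426, 0, 1, 9⟩, ⟨421, 3, 0, 10⟩, ⟨424, 0, 1, 10⟩, ⟨417, 3, 0, 11⟩, ⟨423, 0, 1, 11⟩, ⟨417, 2, 0, 12⟩, ⟨422, 0, 1, 12⟩, ⟨420, 1, 0, 13⟩, ⟨421, 0, 1, 13⟩,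 ⟨418, 0, 0, 14⟩]⟩
def gs0 : List GD := [g0, g1]
def gs1 : List GD := [g2, g3]
def gs2 : List GD := [g4, g5]
def gs3 : List GD := [g6, g7]
def gs4 : List GD := [g8, g9]
def gs5 : List GD := [g10, g11]
def gs6 : List GD := [g12, g13]
def gs7 : List GD := [g14, g15]
def gs8 : List GD := [g16, g17]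
def gs9 : List GD := [g18, g19]
def gs10 : List GD := [g20, g21]
def gs11 : List GD := [g22, g23]
def gs12 : List GD := [g24, g25]
def gs13 : List GD := [g26, g27]
def gs14 : List GD := [g28, g29]
def gs : List GD := gs0 ++ (gs1 ++ (gs2 ++ (gs3 ++ (gs4 ++ (gs5 ++ (gs6 ++ (gs7 ++ (gs8 ++ (gs9 ++ (gs10 ++ (gs11 ++ (gs12 ++ (gs13 ++ (gs14))))))))))))))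
def hs : List (GD × GD) := [(ga0, gb0), (ga1, gb1), (ga2, gb2), (ga3, gb3)]
end Pool.Agent.Work.MP_71a505_fin.Z1
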