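import Pool.Agent.Work.MP_71a505_fin.Z1R0
import Pool.Agent.Work.MP_71a505_fin.Z1R1
import Pool.Agent.Work.MP_71a505_fin.Z1R2
import Pool.Agent.Work.MP_71a505_fin.Z1R3
import Pool.Agent.Work.MP_71a505_fin.Z1Cls

set_option maxRecDepth 100000
set_option linter.all false

namespace Pool.Agent.Work.MP_71a505_fin.Z1

def clr_0 : List CL := [⟨rq_c1, 1, 1, 0, 0, 1⟩,
  ⟨rq_p2, 880, 16777216, 1, 1, 4⟩,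
  ⟨rq_Ew_sX, 162347, 33554432, 3, 1, 2⟩,
  ⟨rq_Ew_yz, 43226806, 8589934592, 2, 2, 5⟩,
  ⟨rq_HEw_sX, 84408984, 77309411328, 1, 1, 2⟩,
  ⟨rq_HEw_yz, 21422034196, 19791209299968, 0, 2, 5⟩,
  ⟨rq_ab, 2010, 196608, 1, 1, 2⟩,
  ⟨rq_ab_p2, 33711564698, 3298534883328, 2, 2, 5⟩,
  ⟨rq_K, 13, 768, 1, 1, 2⟩,
  ⟨rq_K_p2, 217272511, 12884901888, 2, 2, 5⟩,
  ⟨rq_ag_p1, 126640048, 12884901888, 2, 2, 3⟩,
  ⟨rq_ag_sZ, 498307, 50331648, 1, 1, 6⟩,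
  ⟨rq_ad_p1, 128014293, 12884901888, 2, 2, 3⟩,
  ⟨rq_ad_sZ, 503762, 50331648, 1, 1, 6⟩,
  ⟨rq_bg_sY, 706742, 16777216, 2, 2, 3⟩,
  ⟨rq_bg_m1, 175784938, 4294967296, 3, 1, 6⟩]
theorem clr_0_eq : clr_0 = cls_0 := by
  simp only [clr_0, cls_0, eq_c1, eq_p2, eq_Ew_sX, eq_Ew_yz, eq_HEw_sX, eq_HEw_yz, eq_ab, eq_ab_p2, eq_K, eq_K_p2, eq_ag_p1, eq_ag_sZ, eq_ad_p1, eq_ad_sZ, eq_bg_sY, eq_bg_m1]
def clr_1 : List CL := [⟨rq_bd_sY, 712349, 16777216, 2, 2, 3⟩,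
  ⟨rq_bd_m1, 180572533, 4294967296, 3, 1, 6⟩,
  ⟨rq_gd_sX, 670324, 16777216, 3, 1, 4⟩,
  ⟨rq_gd_yz, 170389764, 4294967296, 2, 2, 7⟩,
  ⟨rq_T1w_sX, 3392513783, 154618822656, 3, 1, 2⟩,
  ⟨rq_T1w_yz, 891205919951, 39582418599936, 2, 2, 5⟩,
  ⟨rq_T3w_sX, 3084872949, 154618822656, 3, 1, 4⟩,
  ⟨rq_T3w_yz, 788627722943, 39582418599936, 2, 2, 7⟩,
  ⟨rq_Ew__HEw, 254391160991, 39582418599936, 2, 2, 3⟩,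
  ⟨rq_Ew__HEw_p2, 4270466675772279651, 664082786653543858176, 3, 3, 6⟩,
  ⟨rq_Ew__ab_sX, 355436134333, 6597069766656, 4, 2, 3⟩,
  ⟨rq_Ew__K_sX, 2080935305, 25769803776, 4, 2, 3⟩,
  ⟨rq_Ew__ag_sY, 344665214568, 6597069766656, 3, 3, 4⟩,
  ⟨rq_Ew__ag_m1, 87554614691501, 1688849860263936, 4, 2, 7⟩,
  ⟨rq_Ew__ad_m1, 88534683352918, 1688849860263936, 4, 2, 7⟩,
  ⟨rq_Ew__bg_sZ, 529429453043, 2199023255552, 4, 2, 7⟩]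
theorem clr_1_eq : clr_1 = cls_1 := by
  simp only [clr_1, cls_1, eq_bd_sY, eq_bd_m1, eq_gd_sX, eq_gd_yz, eq_T1w_sX, eq_T1w_yz, eq_T3w_sX, eq_T3w_yz, eq_Ew__HEw, eq_Ew__HEw_p2, eq_Ew__ab_sX, eq_Ew__K_sX, eq_Ew__ag_sY, eq_Ew__ag_m1, eq_Ew__ad_m1, eq_Ew__bg_sZ]
def clr_2 : List CL := [⟨rq_Ew__gd, 2008103903, 8589934592, 4, 2, 5⟩,
  ⟨rq_Ew__T1w, 12802056600095, 79164837199872, 4, 2, 3⟩,
  ⟨rq_Ew__T3w, 12298226189889, 79164837199872, 4, 2, 5⟩,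
  ⟨rq_HEw__HEw, 89268923772804, 91197892454252544, 0, 2, 3⟩,
  ⟨rq_HEw__HEw_p2, 1510086999213435277118, 1530046740449765049237504, 1, 3, 6⟩,
  ⟨rq_HEw__ab_sX, 114898720400341, 15199648742375424, 2, 2, 3⟩,
  ⟨rq_HEw__ab_yz, 29156181741078907, 3891110078048108544, 1, 3, 6⟩,
  ⟨rq_HEw__K_sX, 627731684387, 59373627899904, 2, 2, 3⟩,
  ⟨rq_HEw__K_yz, 159393456802552, 15199648742375424, 1, 3, 6⟩,
  ⟨rq_HEw__ag_sY, 111867827799915, 15199648742375424, 1, 3, 4⟩,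
  ⟨rq_HEw__ag_m1, 28433375550287964, 3891110078048108544, 2, 2, 7⟩,
  ⟨rq_HEw__ad_sY, 113400279356717, 15199648742375424, 1, 3, 4⟩,
  ⟨rq_HEw__ad_m1, 28882655247127495, 3891110078048108544, 2, 2, 7⟩,
  ⟨rq_HEw__bg_sZ, 181846946795813, 5066549580791808, 2, 2, 7⟩,
  ⟨rq_HEw__bd_sZ, 183355510141638, 5066549580791808, 2, 2, 7⟩,
  ⟨rq_HEw__gd, 688454289066, 19791209299968, 2, 2, 5⟩]
theorem clr_2_eq : clr_2 = cls_2 := by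
  simp only [clr_2, cls_2, eq_Ew__gd, eq_Ew__T1w, eq_Ew__T3w, eq_HEw__HEw, eq_HEw__HEw_p2, eq_HEw__ab_sX, eq_HEw__ab_yz, eq_HEw__K_sX, eq_HEw__K_yz, eq_HEw__ag_sY, eq_HEw__ag_m1, eq_HEw__ad_sY, eq_HEw__ad_m1, eq_HEw__bg_sZ, eq_HEw__bd_sZ, eq_HEw__gd]
def clr_3 : List CL := [⟨rq_HEw__T1w, 4908372709150207, 182395784908505088, 2, 2, 3⟩,
  ⟨rq_HEw__T1w_p2, 82360959430983633456719, 3060093480899530098475008, 3, 3, 6⟩,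
  ⟨rq_HEw__T3w, 4785372550653680, 182395784908505088, 2, 2, 5⟩,
  ⟨rq_ab__K, 10970656, 150994944, 2, 2, 3⟩,
  ⟨rq_ab__T1w_sX, 6762736597076533, 30399297484750848, 4, 2, 3⟩,
  ⟨rq_K__ag_p1, 707136758652, 9895604649984, 3, 3, 4⟩,
  ⟨rq_K__ag_sZ, 2783613719, 38654705664, 2, 2, 7⟩,
  ⟨rq_K__ad_p1, 714384091949, 9895604649984, 3, 3, 4⟩,
  ⟨rq_K__ad_sZ, 2812180007, 38654705664, 2, 2, 7⟩,
  ⟨rq_K__bg_m1, 1251949416196, 3298534883328, 4, 2, 7⟩,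
  ⟨rq_K__bd_m1, 1260819722930, 3298534883328, 4, 2, 7⟩,
  ⟨rq_K__gd_sX, 4871080561, 12884901888, 4, 2, 5⟩,
  ⟨rq_K__T1w_sX, 39142755613373, 118747255799808, 4, 2, 3⟩,
  ⟨rq_K__T3w_sX, 38946831575696, 118747255799808, 4, 2, 5⟩,
  ⟨rq_ag__T1w_sY, 6564914515277439, 30399297484750848, 3, 3, 4⟩,
  ⟨rq_ag__T1w_m1, 1667504560898102716, 7782220156096217088, 4, 2, 7⟩]
theorem clr_3_eq : clr_3 = cls_3 := by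
  simp only [clr_3, cls_3, eq_HEw__T1w, eq_HEw__T1w_p2, eq_HEw__T3w, eq_ab__K, eq_ab__T1w_sX, eq_K__ag_p1, eq_K__ag_sZ, eq_K__ad_p1, eq_K__ad_sZ, eq_K__bg_m1, eq_K__bd_m1, eq_K__gd_sX, eq_K__T1w_sX, eq_K__T3w_sX, eq_ag__T1w_sY, eq_ag__T1w_m1]
def clr_4 : List CL := [⟨rq_ad__T1w_m1, 1685210314868533565, 7782220156096217088, 4, 2, 7⟩,
  ⟨rq_bg__T1w_sZ, 10133099161583616, 10133099161583616, 4, 2, 7⟩,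
  ⟨rq_gd__T1w, 38661380608645, 39582418599936, 4, 2, 5⟩,
  ⟨rq_T1w__T1w, 250482756547151807, 364791569817010176, 4, 2, 3⟩,
  ⟨rq_T1w__T3w, 241868049662885064, 364791569817010176, 4, 2, 5⟩]
theorem clr_4_eq : clr_4 = cls_4 := by
  simp only [clr_4, cls_4, eq_ad__T1w_m1, eq_bg__T1w_sZ, eq_gd__T1w, eq_T1w__T1w, eq_T1w__T3w]
def clr : List CL := clr_0 ++ clr_1 ++ clr_2 ++ clr_3 ++ clr_4
theorem clr_eq : clr = cls := by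
  simp only [clr, cls, clr_0_eq, clr_1_eq, clr_2_eq, clr_3_eq, clr_4_eq]

end Pool.Agent.Work.MP_71a505_fin.Z1
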